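import Pool.Agent.Lib.MP_59216f_co.PM

set_option autoImplicit false

namespace Pool.Agent.Lib.MP_59216f_co

open Finset

variable {ι : Type} [DecidableEq ι] [Fintype ι] {H : SimpleGraph ι}

omit [Fintype ι] in
theorem exists_str (X : Finset ι) : ∃ A P, Str H X A P := by
  rcases Nat.even_or_odd X.card with hX | hX
  · rcases X.eq_empty_or_nonempty with rfl | ⟨v, hv⟩
    · exact ⟨∅, ∅, ⟨by simp, by simp, by simp, by simp, by simp, by simp⟩⟩
    · refine ⟨{v}, {X.erase v}, ⟨by simpa using hv, ?_, ?_, ?_, by simp, by simp⟩⟩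
      · intro K hK w hw
        rw [Finset.mem_singleton.1 hK] at hw
        simp only [Finset.mem_erase] at hw
        simp [hw.1, hw.2]
      · intro K hK
        rw [Finset.mem_singleton.1 hK, Finset.card_erase_of_mem hv]
        have := Finset.card_pos.2 ⟨v, hv⟩
        obtain ⟨k, hk⟩ := hX
        exact ⟨k - 1, by omega⟩
      · intro w hw hwv
        exact ⟨X.erase v, by simp, by simpa [hw] using hwv⟩
  · refine ⟨∅, {X}, ⟨by simp, by simp, by simpa using hX, ?_, by simp, by simp⟩⟩
    intro w hw _
    exact ⟨X, by simp, hw⟩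

/-- The barrier theorem: a set `A` matchable into the factor-critical parts of the rest. -/
theorem barrier (H : SimpleGraph ι) (n : ℕ) : ∀ X : Finset ι, X.card = n →
    ∃ A P, Str H X A P ∧ (∀ K ∈ P, FC H K) ∧
      ∃ ψ : ι → Finset ι, (∀ q ∈ A, ψ q ∈ P ∧ ∃ v ∈ ψ q, H.Adj q v) ∧
        ∀ q ∈ A, ∀ q' ∈ A, ψ q = ψ q' → q = q' := by
  classical
  induction n using Nat.strong_induction_on with
  | _ n ih =>
  intro X hX
  obtain ⟨A₀, P₀, h₀⟩ := exists_str (H := H) X
  have hne : (Finset.univ.filter (fun p : Finset ι × Finset (Finset ι) => Str H X p.1 p.2)).Nonempty :=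
    ⟨(A₀, P₀), by simpa using h₀⟩
  obtain ⟨p₁, hp₁, hmax₁⟩ := Finset.exists_max_image _
    (fun p : Finset ι × Finset (Finset ι) => (p.2.card : ℤ) - p.1.card) hne
  have hne₂ : (Finset.univ.filter (fun p : Finset ι × Finset (Finset ι) => Str H X p.1 p.2 ∧
      (p.2.card : ℤ) - p.1.card = (p₁.2.card : ℤ) - p₁.1.card)).Nonempty :=
    ⟨p₁, by simpa using hp₁⟩
  obtain ⟨⟨A, P⟩, hp, hmax₂⟩ := Finset.exists_max_image _
    (fun p : Finset ι × Finset (Finset ι) => p.1.card) hne₂
  simp only [Finset.mem_filter, Finset.mem_univ, true_and] at hp hmax₁ hmax₂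
  obtain ⟨hS, hval⟩ := hp
  have hm1 : ∀ A' P', Str H X A' P' → (P'.card : ℤ) - A'.card ≤ (P.card : ℤ) - A.card := by
    intro A' P' h
    have := hmax₁ (A', P') h
    simp only at this
    omega
  have hm2 : ∀ A' P', Str H X A' P' → (P'.card : ℤ) - A'.card = (P.card : ℤ) - A.card →
      A'.card ≤ A.card := by
    intro A' P' h e
    exact hmax₂ (A', P') ⟨h, by simp only; omega⟩
  have hnonempty : ∀ K ∈ P, K.Nonempty := by
    intro K hK
    obtain ⟨k, hk⟩ := hS.odd K hK
    exact Finset.card_pos.1 (by omega)
  refine ⟨A, P, hS, ?_, ?_⟩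
  · intro K hK
    refine ⟨hnonempty K hK, fun v hv => ?_⟩
    have hKX : K ⊆ X := fun w hw => (hS.part K hK w hw).1
    have hlt : (K.erase v).card < n := by
      rw [Finset.card_erase_of_mem hv, ← hX]
      have := Finset.card_le_card hKX
      have := Finset.card_pos.2 ⟨v, hv⟩
      omega
    obtain ⟨A', P', hS', hfc', ψ, hψ, hinj⟩ := ih _ hlt (K.erase v) rfl
    have himg : A'.image ψ ⊆ P' := by
      intro L hL
      obtain ⟨q, hq, rfl⟩ := Finset.mem_image.1 hL
      exact (hψ q hq).1
    have hcardimg : (A'.image ψ).card = A'.card :=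
      Finset.card_image_of_injOn (fun q hq q' hq' h => hinj q hq q' hq' h)
    have hle : A'.card ≤ P'.card := hcardimg ▸ Finset.card_le_card himg
    rcases hle.eq_or_lt with heq | hlt'
    · have himg' : A'.image ψ = P' := Finset.eq_of_subset_of_card_le himg (by omega)
      refine pm_of_matched A' ψ _ ?_ ?_ ?_ ?_
      · intro q hq
        exact ⟨hfc' _ (hψ q hq).1, (hψ q hq).2⟩
      · intro q hq q' hq' w hw hw'
        exact hinj q hq q' hq' (hS'.disj _ (hψ q hq).1 _ (hψ q' hq').1 w hw hw')
      · intro q hq q' hq' hw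
        exact (hS'.part _ (hψ q hq).1 q' hw).2 hq'
      · intro x
        constructor
        · intro hx
          by_cases hxA : x ∈ A'
          · exact Or.inl hxA
          · obtain ⟨L, hL, hxL⟩ := hS'.cover x hx hxA
            rw [← himg'] at hL
            obtain ⟨q, hq, rfl⟩ := Finset.mem_image.1 hL
            exact Or.inr ⟨q, hq, hxL⟩
        · rintro (hx | ⟨q, hq, hx⟩)
          · exact hS'.sub x hx
          · exact (hS'.part _ (hψ q hq).1 x hx).1
    · exfalso
      have hpar1 := hS'.card_eq
      have hpar2 := sum_odd_parity P' hS'.odd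
      have hpar3 : Odd K.card := hS.odd K hK
      rw [Finset.card_erase_of_mem hv] at hpar1
      obtain ⟨k, hk⟩ := hpar3
      have h2 : A'.card + 2 ≤ P'.card := by omega
      have hA'K : ∀ a ∈ A', a ∈ K ∧ a ≠ v := by
        intro a ha
        have := hS'.sub a ha
        simp only [Finset.mem_erase] at this
        exact ⟨this.2, this.1⟩
      have hP'K : ∀ L ∈ P', ∀ w ∈ L, w ∈ K ∧ w ≠ v ∧ w ∉ A' := by
        intro L hL w hw
        have := hS'.part L hL w hw
        simp only [Finset.mem_erase] at this
        exact ⟨this.1.2, this.1.1, this.2⟩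
      have hnew : Str H X (insert v (A ∪ A')) (P.erase K ∪ P') := by
        constructor
        · intro a ha
          simp only [Finset.mem_insert, Finset.mem_union] at ha
          rcases ha with rfl | ha | ha
          · exact hKX hv
          · exact hS.sub a ha
          · exact hKX (hA'K a ha).1
        · intro L hL w hw
          simp only [Finset.mem_insert, Finset.mem_union, Finset.mem_erase] at hL ⊢
          rcases hL with ⟨hLK, hL⟩ | hL
          · refine ⟨(hS.part L hL w hw).1, ?_⟩
            rintro (rfl | h | h)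
            · exact hLK (hS.disj L hL K hK w hw hv)
            · exact (hS.part L hL w hw).2 h
            · exact hLK (hS.disj L hL K hK w hw (hA'K w h).1)
          · obtain ⟨h1, h2, h3⟩ := hP'K L hL w hw
            refine ⟨hKX h1, ?_⟩
            rintro (h | h | h)
            · exact h2 h
            · exact (hS.part K hK w h1).2 h
            · exact h3 h
        · intro L hL
          simp only [Finset.mem_union, Finset.mem_erase] at hL
          rcases hL with ⟨_, hL⟩ | hL
          · exact hS.odd L hL
          · exact hS'.odd L hL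
        · intro w hw hwA
          simp only [Finset.mem_insert, Finset.mem_union, not_or] at hwA
          obtain ⟨L, hL, hwL⟩ := hS.cover w hw hwA.2.1
          by_cases hLK : L = K
          · subst hLK
            obtain ⟨L', hL', hwL'⟩ := hS'.cover w (Finset.mem_erase.2 ⟨hwA.1, hwL⟩) hwA.2.2
            exact ⟨L', by simp [hL'], hwL'⟩
          · exact ⟨L, by simp [hL, hLK], hwL⟩
        · intro L hL L' hL' w hw hw'
          simp only [Finset.mem_union, Finset.mem_erase] at hL hL'
          rcases hL with ⟨hLK, hL⟩ | hL <;> rcases hL' with ⟨hLK', hL'⟩ | hL'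
          · exact hS.disj L hL L' hL' w hw hw'
          · exact absurd (hS.disj L hL K hK w hw (hP'K L' hL' w hw').1) hLK
          · exact absurd (hS.disj L' hL' K hK w hw' (hP'K L hL w hw).1) hLK'
          · exact hS'.disj L hL L' hL' w hw hw'
        · intro L hL L' hL' w hw w' hw' hadj
          simp only [Finset.mem_union, Finset.mem_erase] at hL hL'
          rcases hL with ⟨hLK, hL⟩ | hL <;> rcases hL' with ⟨hLK', hL'⟩ | hL'
          · exact hS.noedge L hL L' hL' w hw w' hw' hadj
          · exact absurd (hS.noedge L hL K hK w hw w' (hP'K L' hL' w' hw').1 hadj) hLK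
          · exact absurd (hS.noedge L' hL' K hK w' hw' w (hP'K L hL w hw).1 hadj.symm) hLK'
          · exact hS'.noedge L hL L' hL' w hw w' hw' hadj
      have hc1 : (insert v (A ∪ A')).card = A.card + A'.card + 1 := by
        rw [Finset.card_insert_of_notMem, Finset.card_union_of_disjoint]
        · rw [Finset.disjoint_left]
          intro a ha ha'
          exact (hS.part K hK a (hA'K a ha').1).2 ha
        · simp only [Finset.mem_union, not_or]
          exact ⟨(hS.part K hK v hv).2, fun h => (hA'K v h).2 rfl⟩
      have hc2 : (P.erase K ∪ P').card = P.card - 1 + P'.card := by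
        rw [Finset.card_union_of_disjoint, Finset.card_erase_of_mem hK]
        rw [Finset.disjoint_left]
        intro L hL hL'
        obtain ⟨w, hw⟩ := (hfc' L hL').1
        simp only [Finset.mem_erase] at hL
        exact hL.1 (hS.disj L hL.2 K hK w hw (hP'K L hL' w hw).1)
      have hPpos : 0 < P.card := Finset.card_pos.2 ⟨K, hK⟩
      have e1 := hm1 _ _ hnew
      have e2 := hm2 _ _ hnew (by rw [hc1, hc2] at *; push_cast [Nat.cast_sub hPpos] at *; omega)
      omega
  · let t : {q // q ∈ A} → Finset (Finset ι) := fun q => P.filter (fun K => ∃ v ∈ K, H.Adj q.1 v)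
    have hall : ∀ s : Finset {q // q ∈ A}, s.card ≤ (s.biUnion t).card := by
      intro s
      by_contra hlt
      push Not at hlt
      set A₁ : Finset ι := s.image Subtype.val with hA₁
      set N : Finset (Finset ι) := s.biUnion t with hN
      have hA₁c : A₁.card = s.card := Finset.card_image_of_injective _ Subtype.val_injective
      have hA₁A : A₁ ⊆ A := by
        intro a ha
        obtain ⟨q, _, rfl⟩ := Finset.mem_image.1 ha
        exact q.2
      have hNP : N ⊆ P := by
        intro L hL
        obtain ⟨q, _, hq⟩ := Finset.mem_biUnion.1 hL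
        exact (Finset.mem_filter.1 hq).1
      have hNadj : ∀ a ∈ A₁, ∀ L ∈ P, ∀ w ∈ L, H.Adj a w → L ∈ N := by
        intro a ha L hL w hw hadj
        obtain ⟨q, hq, rfl⟩ := Finset.mem_image.1 ha
        exact Finset.mem_biUnion.2 ⟨q, hq, Finset.mem_filter.2 ⟨hL, w, hw, hadj⟩⟩
      set Z : Finset ι := A₁ ∪ N.biUnion id with hZ
      have hZmem : ∀ x, x ∈ Z ↔ x ∈ A₁ ∨ ∃ L ∈ N, x ∈ L := by
        intro x
        simp [hZ]
      have hgen : ∀ (B Y : Finset ι), (∀ x, x ∈ Z ↔ x ∈ B ∨ x ∈ Y) → (∀ x ∈ B, x ∉ Y) →
          Odd Y.card → Str H X ((A \ A₁) ∪ B) (insert Y (P \ N)) := by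
        intro B Y hBY hdis hodd
        have hZX : ∀ x ∈ Z, x ∈ X := by
          intro x hx
          rcases (hZmem x).1 hx with h | ⟨L, hL, h⟩
          · exact hS.sub x (hA₁A h)
          · exact (hS.part L (hNP hL) x h).1
        have hZout : ∀ L ∈ P, L ∉ N → ∀ x ∈ L, x ∉ Z := by
          intro L hL hLN x hx hxZ
          rcases (hZmem x).1 hxZ with h | ⟨L', hL', h⟩
          · exact (hS.part L hL x hx).2 (hA₁A h)
          · exact hLN (hS.disj L hL L' (hNP hL') x hx h ▸ hL')
        have hZadj : ∀ L ∈ P, L ∉ N → ∀ x ∈ L, ∀ y ∈ Z, ¬ H.Adj y x := by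
          intro L hL hLN x hx y hy hadj
          rcases (hZmem y).1 hy with h | ⟨L', hL', h⟩
          · exact hLN (hNadj y h L hL x hx hadj)
          · exact hLN (hS.noedge L' (hNP hL') L hL y h x hx hadj ▸ hL')
        constructor
        · intro a ha
          simp only [Finset.mem_union, Finset.mem_sdiff] at ha
          rcases ha with ha | ha
          · exact hS.sub a ha.1
          · exact hZX a ((hBY a).2 (Or.inl ha))
        · intro L hL w hw
          simp only [Finset.mem_insert, Finset.mem_sdiff, Finset.mem_union] at hL ⊢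
          rcases hL with rfl | ⟨hL, hLN⟩
          · have hwZ := (hBY w).2 (Or.inr hw)
            refine ⟨hZX w hwZ, ?_⟩
            rintro (⟨h1, h2⟩ | h)
            · rcases (hZmem w).1 hwZ with h | ⟨L', hL', h⟩
              · exact h2 h
              · exact (hS.part L' (hNP hL') w h).2 h1
            · exact hdis w h hw
          · refine ⟨(hS.part L hL w hw).1, ?_⟩
            rintro (⟨h1, _⟩ | h)
            · exact (hS.part L hL w hw).2 h1
            · exact hZout L hL hLN w hw ((hBY w).2 (Or.inl h))
        · intro L hL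
          simp only [Finset.mem_insert, Finset.mem_sdiff] at hL
          rcases hL with rfl | ⟨hL, _⟩
          · exact hodd
          · exact hS.odd L hL
        · intro w hw hwA
          simp only [Finset.mem_union, Finset.mem_sdiff, not_or, not_and, not_not] at hwA
          by_cases hwZ : w ∈ Z
          · rcases (hBY w).1 hwZ with h | h
            · exact absurd h hwA.2
            · exact ⟨Y, by simp, h⟩
          · have hwA' : w ∉ A := fun h => hwZ ((hZmem w).2 (Or.inl (hwA.1 h)))
            obtain ⟨L, hL, hwL⟩ := hS.cover w hw hwA'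
            refine ⟨L, ?_, hwL⟩
            simp only [Finset.mem_insert, Finset.mem_sdiff]
            exact Or.inr ⟨hL, fun h => hwZ ((hZmem w).2 (Or.inr ⟨L, h, hwL⟩))⟩
        · intro L hL L' hL' w hw hw'
          simp only [Finset.mem_insert, Finset.mem_sdiff] at hL hL'
          rcases hL with rfl | ⟨hL, hLN⟩ <;> rcases hL' with rfl | ⟨hL', hLN'⟩
          · rfl
          · exact absurd ((hBY w).2 (Or.inr hw)) (hZout L' hL' hLN' w hw')
          · exact absurd ((hBY w).2 (Or.inr hw')) (hZout L hL hLN w hw)
          · exact hS.disj L hL L' hL' w hw hw'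
        · intro L hL L' hL' w hw w' hw' hadj
          simp only [Finset.mem_insert, Finset.mem_sdiff] at hL hL'
          rcases hL with rfl | ⟨hL, hLN⟩ <;> rcases hL' with rfl | ⟨hL', hLN'⟩
          · rfl
          · exact absurd hadj (hZadj L' hL' hLN' w' hw' w ((hBY w).2 (Or.inr hw)))
          · exact absurd hadj.symm (hZadj L hL hLN w hw w' ((hBY w').2 (Or.inr hw')))
          · exact hS.noedge L hL L' hL' w hw w' hw' hadj
      have hcount : ∀ (B Y : Finset ι), (∀ x, x ∈ Z ↔ x ∈ B ∨ x ∈ Y) → (∀ x ∈ B, x ∉ Y) →
          Odd Y.card → B.card ≤ 1 → False := by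
        intro B Y hBY hdis hodd hB
        have hnew := hgen B Y hBY hdis hodd
        have e1 := hm1 _ _ hnew
        have hY : Y ∉ P \ N := by
          intro h
          simp only [Finset.mem_sdiff] at h
          obtain ⟨k, hk⟩ := hodd
          obtain ⟨y, hy⟩ : Y.Nonempty := Finset.card_pos.1 (by omega)
          rcases (hZmem y).1 ((hBY y).2 (Or.inr hy)) with h' | ⟨L, hL, h'⟩
          · exact (hS.part Y h.1 y hy).2 (hA₁A h')
          · exact h.2 (hS.disj Y h.1 L (hNP hL) y hy h' ▸ hL)
        rw [Finset.card_insert_of_notMem hY, Finset.card_sdiff_of_subset hNP] at e1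
        have c1 : ((A \ A₁) ∪ B).card ≤ A.card - A₁.card + 1 := by
          refine (Finset.card_union_le _ _).trans ?_
          rw [Finset.card_sdiff_of_subset hA₁A]
          omega
        have c2 := Finset.card_le_card hA₁A
        have c3 := Finset.card_le_card hNP
        omega
      rcases Nat.even_or_odd Z.card with hZe | hZo
      · have hZne : Z.Nonempty := by
          obtain ⟨a, ha⟩ : A₁.Nonempty := Finset.card_pos.1 (by omega)
          exact ⟨a, (hZmem a).2 (Or.inl ha)⟩
        obtain ⟨z, hz⟩ := hZne
        refine hcount {z} (Z.erase z) ?_ (by simp) ?_ (by simp)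
        · intro x
          simp only [Finset.mem_singleton, Finset.mem_erase]
          grind
        · rw [Finset.card_erase_of_mem hz]
          have := Finset.card_pos.2 ⟨z, hz⟩
          obtain ⟨k, hk⟩ := hZe
          exact ⟨k - 1, by omega⟩
      · exact hcount ∅ Z (by simp) (by simp) hZo (by simp)
    obtain ⟨f, hf, hmem⟩ := (Finset.all_card_le_biUnion_card_iff_exists_injective t).1 hall
    refine ⟨fun q => if h : q ∈ A then f ⟨q, h⟩ else ∅, ?_, ?_⟩
    · intro q hq
      simp only [hq, dif_pos]
      exact Finset.mem_filter.1 (hmem ⟨q, hq⟩)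
    · intro q hq q' hq' h
      simp only [hq, hq', dif_pos] at h
      exact congrArg Subtype.val (hf h)

end Pool.Agent.Lib.MP_59216f_co
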