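import Pool.Agent.Lib.MP_59216f_co.Slack
import Pool.Agent.Lib.MP_59216f_co.Barrier

set_option autoImplicit false

namespace Pool.Agent.Lib.MP_59216f_co

open Finset

variable {ι : Type} [DecidableEq ι] [Fintype ι]

/-- A state of the assembly: the nodes of `Q` are matched to parts through the side `s`, and
every needy vertex of an unmatched part sees a chosen vertex over `A`. -/
structure State (Γ : SimpleGraph (ι × Bool)) (A : Finset ι) (P : Finset (Finset ι))
    (N : Finset ι → Finset (ι × Bool)) (Q : Finset ι) (φ : ι → Finset ι) (s : ι → Bool) :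
    Prop where
  sub : ∀ q ∈ Q, q ∈ A
  adj : ∀ q ∈ Q, φ q ∈ P ∧ ∃ v : ι × Bool, v.1 ∈ φ q ∧ Γ.Adj (q, s q) v
  inj : ∀ q ∈ Q, ∀ q' ∈ Q, φ q = φ q' → q = q'
  need : ∀ K ∈ P, (∀ q ∈ Q, φ q ≠ K) → ∀ a ∈ N K,
    ∃ t : ι × Bool, t.1 ∈ A ∧ (t.1 ∈ Q → t.2 = s t.1) ∧ Γ.Adj a t

variable {Γ : SimpleGraph (ι × Bool)} {A : Finset ι} {P : Finset (Finset ι)}
  {N : Finset ι → Finset (ι × Bool)}

omit [Fintype ι] in
theorem State.grow {Q : Finset ι} {φ : ι → Finset ι} {s : ι → Bool} (h : State Γ A P N Q φ s)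
    {q : ι} {b : Bool} {K : Finset ι} {v : ι × Bool} (hq : q ∈ A) (hqQ : q ∉ Q) (hK : K ∈ P)
    (hKQ : ∀ q' ∈ Q, φ q' ≠ K) (hv : v.1 ∈ K) (hadj : Γ.Adj (q, b) v)
    (hun : ∀ K' ∈ P, (∀ q' ∈ Q, φ q' ≠ K') → ∀ a ∈ N K', Γ.Adj a (q, !b) →
      ∃ t : ι × Bool, t.1 ∈ A ∧ (t.1 ∈ Q → t.2 = s t.1) ∧ Γ.Adj a t ∧ t ≠ (q, !b)) :
    State Γ A P N (insert q Q) (Function.update φ q K) (Function.update s q b) := by
  have hne : ∀ q' ∈ Q, q' ≠ q := fun q' h' e => hqQ (e ▸ h')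
  refine ⟨?_, ?_, ?_, ?_⟩
  · intro q' hq'
    rcases Finset.mem_insert.1 hq' with rfl | h'
    · exact hq
    · exact h.sub q' h'
  · intro q' hq'
    rcases Finset.mem_insert.1 hq' with rfl | h'
    · simp only [Function.update_self]
      exact ⟨hK, v, hv, hadj⟩
    · simp only [Function.update_of_ne (hne q' h')]
      exact h.adj q' h'
  · intro q₁ h₁ q₂ h₂ e
    rcases Finset.mem_insert.1 h₁ with rfl | h₁' <;> rcases Finset.mem_insert.1 h₂ with rfl | h₂'
    · rfl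
    · rw [Function.update_self, Function.update_of_ne (hne _ h₂')] at e
      exact absurd e.symm (hKQ _ h₂')
    · rw [Function.update_self, Function.update_of_ne (hne _ h₁')] at e
      exact absurd e (hKQ _ h₁')
    · rw [Function.update_of_ne (hne _ h₁'), Function.update_of_ne (hne _ h₂')] at e
      exact h.inj _ h₁' _ h₂' e
  · intro K' hK' hK'Q a ha
    have hun' : ∀ q' ∈ Q, φ q' ≠ K' := by
      intro q' h'
      have := hK'Q q' (Finset.mem_insert_of_mem h')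
      rwa [Function.update_of_ne (hne _ h')] at this
    obtain ⟨t, t1, t2, t3, t4⟩ : ∃ t : ι × Bool, t.1 ∈ A ∧ (t.1 ∈ Q → t.2 = s t.1) ∧ Γ.Adj a t ∧
        t ≠ (q, !b) := by
      obtain ⟨t, t1, t2, t3⟩ := h.need K' hK' hun' a ha
      by_cases e : t = (q, !b)
      · exact hun K' hK' hun' a ha (e ▸ t3)
      · exact ⟨t, t1, t2, t3, e⟩
    refine ⟨t, t1, ?_, t3⟩
    intro ht
    rcases Finset.mem_insert.1 ht with e | h'
    · rw [e, Function.update_self]
      obtain ⟨t₁, t₂⟩ := t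
      simp only at e
      subst e
      rcases bool_cases b t₂ with rfl | rfl
      · rfl
      · exact absurd rfl t4
    · rw [Function.update_of_ne (hne _ h')]
      exact t2 h'

omit [Fintype ι] in
theorem State.swap {Q : Finset ι} {φ : ι → Finset ι} {s : ι → Bool} (h : State Γ A P N Q φ s)
    {q q₁ : ι} {b : Bool} {v : ι × Bool} (hq : q ∈ A) (hqQ : q ∉ Q) (hq₁ : q₁ ∈ Q)
    (hv : v.1 ∈ φ q₁) (hadj : Γ.Adj (q, b) v)
    (hun : ∀ K' ∈ P, (∀ q' ∈ Q, φ q' ≠ K') → ∀ a ∈ N K', ∀ c, ¬ Γ.Adj a (q, c)) :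
    State Γ A P N (insert q (Q.erase q₁)) (Function.update φ q (φ q₁))
      (Function.update s q b) := by
  have hne : ∀ q' ∈ Q, q' ≠ q := fun q' h' e => hqQ (e ▸ h')
  refine ⟨?_, ?_, ?_, ?_⟩
  · intro q' hq'
    rcases Finset.mem_insert.1 hq' with rfl | h'
    · exact hq
    · exact h.sub q' (Finset.mem_of_mem_erase h')
  · intro q' hq'
    rcases Finset.mem_insert.1 hq' with rfl | h'
    · simp only [Function.update_self]
      exact ⟨(h.adj q₁ hq₁).1, v, hv, hadj⟩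
    · simp only [Function.update_of_ne (hne q' (Finset.mem_of_mem_erase h'))]
      exact h.adj q' (Finset.mem_of_mem_erase h')
  · intro q₂ h₂ q₃ h₃ e
    rcases Finset.mem_insert.1 h₂ with rfl | h₂' <;> rcases Finset.mem_insert.1 h₃ with rfl | h₃'
    · rfl
    · rw [Function.update_self, Function.update_of_ne (hne _ (Finset.mem_of_mem_erase h₃'))] at e
      exact absurd (h.inj _ hq₁ _ (Finset.mem_of_mem_erase h₃') e).symm (Finset.mem_erase.1 h₃').1
    · rw [Function.update_self, Function.update_of_ne (hne _ (Finset.mem_of_mem_erase h₂'))] at e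
      exact absurd (h.inj _ (Finset.mem_of_mem_erase h₂') _ hq₁ e) (Finset.mem_erase.1 h₂').1
    · rw [Function.update_of_ne (hne _ (Finset.mem_of_mem_erase h₂')),
        Function.update_of_ne (hne _ (Finset.mem_of_mem_erase h₃'))] at e
      exact h.inj _ (Finset.mem_of_mem_erase h₂') _ (Finset.mem_of_mem_erase h₃') e
  · intro K' hK' hK'Q a ha
    have hun' : ∀ q' ∈ Q, φ q' ≠ K' := by
      intro q' h'
      by_cases e : q' = q₁
      · have := hK'Q q (Finset.mem_insert_self _ _)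
        rwa [Function.update_self, ← e] at this
      · have := hK'Q q' (Finset.mem_insert_of_mem (Finset.mem_erase.2 ⟨e, h'⟩))
        rwa [Function.update_of_ne (hne _ h')] at this
    obtain ⟨t, t1, t2, t3⟩ := h.need K' hK' hun' a ha
    refine ⟨t, t1, ?_, t3⟩
    intro ht
    rcases Finset.mem_insert.1 ht with e | h'
    · exact absurd (show Γ.Adj a (q, t.2) from e ▸ t3) (hun K' hK' hun' a ha t.2)
    · rw [Function.update_of_ne (hne _ (Finset.mem_of_mem_erase h'))]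
      exact t2 (Finset.mem_of_mem_erase h')

/-- An extremal state: both vertices over an unmatched node of `A` are privately needed. -/
theorem exists_state (ψ : ι → Finset ι)
    (hψ : ∀ q ∈ A, ψ q ∈ P ∧ ∃ v ∈ ψ q, (nodeGraph Γ).Adj q v)
    (hinj : ∀ q ∈ A, ∀ q' ∈ A, ψ q = ψ q' → q = q')
    (hN : ∀ K ∈ P, ∀ a ∈ N K, a.1 ∈ K ∧ ∃ t : ι × Bool, t.1 ∈ A ∧ Γ.Adj a t) :
    ∃ Q φ s, State Γ A P N Q φ s ∧ ∀ q ∈ A, q ∉ Q → ∀ b, ∃ K ∈ P, (∀ q' ∈ Q, φ q' ≠ K) ∧
      ∃ a ∈ N K, Γ.Adj a (q, b) ∧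
        ∀ t : ι × Bool, t.1 ∈ A → (t.1 ∈ Q → t.2 = s t.1) → Γ.Adj a t → t = (q, b) := by
  classical
  have hne : (Finset.univ.filter (fun p : Finset ι × (ι → Finset ι) × (ι → Bool) =>
      State Γ A P N p.1 p.2.1 p.2.2)).Nonempty := by
    refine ⟨(∅, ψ, fun _ => true), ?_⟩
    simp only [Finset.mem_filter, Finset.mem_univ, true_and]
    refine ⟨by simp, by simp, by simp, ?_⟩
    intro K hK _ a ha
    obtain ⟨_, t, t1, t2⟩ := hN K hK a ha
    exact ⟨t, t1, by simp, t2⟩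
  obtain ⟨⟨Q, φ, s⟩, hp, hmax⟩ := Finset.exists_max_image _
    (fun p : Finset ι × (ι → Finset ι) × (ι → Bool) =>
      p.1.card * (Fintype.card ι + 1) + (p.1.filter (fun q => p.2.1 q = ψ q)).card) hne
  simp only [Finset.mem_filter, Finset.mem_univ, true_and] at hp hmax
  refine ⟨Q, φ, s, hp, ?_⟩
  intro q hq hqQ b
  by_contra hcon
  push Not at hcon
  have hle : (Q.filter (fun q => φ q = ψ q)).card ≤ Fintype.card ι := Finset.card_le_univ _
  have nogrow : ∀ (c : Bool) (K : Finset ι) (v : ι × Bool), K ∈ P → (∀ q' ∈ Q, φ q' ≠ K) →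
      v.1 ∈ K → Γ.Adj (q, c) v →
      (∀ K' ∈ P, (∀ q' ∈ Q, φ q' ≠ K') → ∀ a ∈ N K', Γ.Adj a (q, !c) →
        ∃ t : ι × Bool, t.1 ∈ A ∧ (t.1 ∈ Q → t.2 = s t.1) ∧ Γ.Adj a t ∧ t ≠ (q, !c)) → False := by
    intro c K v hK hKQ hv hadj hun
    have h1 := hmax (insert q Q, Function.update φ q K, Function.update s q c)
      (hp.grow hq hqQ hK hKQ hv hadj hun)
    simp only [Finset.card_insert_of_notMem hqQ] at h1
    nlinarith [Nat.zero_le ((insert q Q).filter (fun q' => Function.update φ q K q' = ψ q')).card]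
  have h1 : ∀ K ∈ P, (∀ q' ∈ Q, φ q' ≠ K) → ∀ v : ι × Bool, v.1 ∈ K → ¬ Γ.Adj (q, !b) v := by
    intro K hK hKQ v hv hadj
    refine nogrow (!b) K v hK hKQ hv hadj ?_
    simpa only [Bool.not_not] using hcon
  have h2 : ∀ K ∈ P, (∀ q' ∈ Q, φ q' ≠ K) → ∀ v : ι × Bool, v.1 ∈ K → ¬ Γ.Adj (q, b) v := by
    intro K hK hKQ v hv hadj
    refine nogrow b K v hK hKQ hv hadj ?_
    intro K' hK' hK'Q a ha hadj'
    exact absurd hadj'.symm (h1 K' hK' hK'Q a (hN K' hK' a ha).1)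
  have h3 : ∀ K ∈ P, (∀ q' ∈ Q, φ q' ≠ K) → ∀ v : ι × Bool, v.1 ∈ K → ∀ c, ¬ Γ.Adj (q, c) v := by
    intro K hK hKQ v hv c
    rcases bool_cases b c with rfl | rfl
    · exact h2 K hK hKQ v hv
    · exact h1 K hK hKQ v hv
  obtain ⟨hψP, v, hv, _, c, d, hadj⟩ := hψ q hq
  obtain ⟨q₁, hq₁, e⟩ : ∃ q₁ ∈ Q, φ q₁ = ψ q := by
    by_contra h'
    push Not at h'
    exact h3 _ hψP h' (v, d) hv c hadj
  have h4 := hmax (insert q (Q.erase q₁), Function.update φ q (φ q₁), Function.update s q c)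
    (hp.swap (v := (v, d)) hq hqQ hq₁ (e ▸ hv) hadj
      (fun K' hK' hK'Q a ha c' hadj' => h3 K' hK' hK'Q a (hN K' hK' a ha).1 c' hadj'.symm))
  have hq' : q ∉ Q.erase q₁ := fun h' => hqQ (Finset.mem_of_mem_erase h')
  have h5 : insert q (Q.filter (fun q => φ q = ψ q)) ⊆
      (insert q (Q.erase q₁)).filter (fun q' => Function.update φ q (φ q₁) q' = ψ q') := by
    intro a ha
    rcases Finset.mem_insert.1 ha with rfl | h'
    · simp [e]
    · obtain ⟨a1, a2⟩ := Finset.mem_filter.1 h'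
      have a3 : a ≠ q := fun e' => hqQ (e' ▸ a1)
      have a4 : a ≠ q₁ := by
        rintro rfl
        exact a3 (hinj _ (hp.sub _ a1) _ hq (a2.symm.trans e))
      simp [a1, a2, a3, a4]
  have h6 := Finset.card_le_card h5
  rw [Finset.card_insert_of_notMem (by simp [hqQ])] at h6
  simp only [Finset.card_insert_of_notMem hq', Finset.card_erase_of_mem hq₁] at h4
  have h7 := Finset.card_pos.2 ⟨_, hq₁⟩
  rw [Nat.sub_add_cancel h7] at h4
  omega

/-- The theorem for graphs on `ι × Bool` containing the matching of the fibres. -/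
theorem pm_main (hμ : ∀ i b, Γ.Adj (i, b) (i, !b))
    (h3 : ∀ v : ι × Bool, ∃ t t' : ι × Bool, t ≠ t' ∧ Γ.Adj v t ∧ Γ.Adj v t' ∧ t.1 ≠ v.1 ∧ t'.1 ≠ v.1) :
    ∃ S : Finset (ι × Bool), S.card ≤ Fintype.card ι ∧ (∀ v, ∃ s ∈ S, Γ.Adj v s) ∧
      ∀ s ∈ S, ∃ d, d ∉ S ∧ Γ.Adj s d := by
  classical
  obtain ⟨A, P, hS, hFC, ψ, hψ, hinj⟩ := barrier (nodeGraph Γ) _ Finset.univ rfl
  have hd : ∀ K : Finset ι, ∃ S N, K ∈ P → PartData Γ K S N := by
    intro K
    by_cases hK : K ∈ P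
    · obtain ⟨S, N, h⟩ := part_data hμ h3 (hFC K hK)
      exact ⟨S, N, fun _ => h⟩
    · exact ⟨∅, ∅, fun h => absurd h hK⟩
  choose S₀ N hSN using hd
  obtain ⟨Q, φ, s, hst, hpriv⟩ := exists_state (Γ := Γ) (A := A) (P := P) (N := N) ψ hψ hinj (by
    intro K hK a ha
    obtain ⟨_, h1, t, t1, t2⟩ := (hSN K hK).2.2 a ha
    refine ⟨h1, t, ?_, t2⟩
    by_contra htA
    obtain ⟨K', hK', ht⟩ := hS.cover t.1 (Finset.mem_univ _) htA
    have := hS.noedge K hK K' hK' _ h1 _ ht (nodeAdj t2 (fun e => t1 (e ▸ h1)))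
    exact t1 (this ▸ ht))
  have hT : ∀ K : Finset ι, ∃ T M : Finset (ι × Bool), K ∈ P → (Good Γ K T M ∧
      (∀ a ∈ M, ∃ t : ι × Bool, t.1 ∈ A ∧ (t.1 ∈ Q → t.2 = s t.1) ∧ Γ.Adj a t) ∧
      (∀ q ∈ Q, φ q = K → T.card = K.card ∧ ∃ v ∈ T, Γ.Adj (q, s q) v) ∧
      ((∀ q ∈ Q, φ q ≠ K) → T = S₀ K)) := by
    intro K
    by_cases hK : K ∈ P
    · by_cases hm : ∃ q ∈ Q, φ q = K
      · obtain ⟨q, hq, e⟩ := hm
        obtain ⟨_, v, hv, hadj⟩ := hst.adj q hq
        obtain ⟨T, g1, g2, g3⟩ := served hμ (hFC K hK) v (e ▸ hv)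
        refine ⟨T, {v}, fun _ => ⟨g1, ?_, ?_, fun h => absurd e (h q hq)⟩⟩
        · intro a ha
          rw [Finset.mem_singleton.1 ha]
          exact ⟨(q, s q), hst.sub q hq, fun _ => rfl, hadj.symm⟩
        · intro q' hq' e'
          have := hst.inj q' hq' q hq (e'.trans e.symm)
          subst this
          exact ⟨g3, v, g2, hadj⟩
      · push Not at hm
        exact ⟨S₀ K, N K, fun _ => ⟨(hSN K hK).1, hst.need K hK hm,
          fun q hq e => absurd e (hm q hq), fun _ => rfl⟩⟩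
    · exact ⟨∅, ∅, fun h => absurd h hK⟩
  choose T M hTM using hT
  set C : Finset (ι × Bool) := Finset.univ.filter (fun t => t.1 ∈ A ∧ (t.1 ∈ Q → t.2 = s t.1))
    with hC
  have memC : ∀ t : ι × Bool, t ∈ C ↔ t.1 ∈ A ∧ (t.1 ∈ Q → t.2 = s t.1) := by
    intro t
    simp [hC]
  have notS : ∀ K ∈ P, ∀ d : ι × Bool, d.1 ∈ K → d ∉ T K → d ∉ C ∪ P.biUnion T := by
    intro K hK d h1 h2 h4
    rcases Finset.mem_union.1 h4 with h5 | h5
    · exact (hS.part K hK _ h1).2 ((memC d).1 h5).1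
    · obtain ⟨K', hK', h6⟩ := Finset.mem_biUnion.1 h5
      have := hS.disj K hK K' hK' _ h1 ((hTM K' hK').1.sub d h6)
      exact h2 (this ▸ h6)
  refine ⟨C ∪ P.biUnion T, ?_, ?_, ?_⟩
  · -- counting
    set U := P.filter (fun K => ∀ q ∈ Q, φ q ≠ K) with hU
    have c1 : C.card ≤ Q.card + 2 * (A \ Q).card := by
      have : C ⊆ Q.image (fun q => (q, s q)) ∪ (A \ Q) ×ˢ (Finset.univ : Finset Bool) := by
        rintro ⟨i, b⟩ ht
        obtain ⟨t1, t2⟩ := (memC _).1 ht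
        by_cases hi : i ∈ Q
        · refine Finset.mem_union_left _ (Finset.mem_image.2 ⟨i, hi, ?_⟩)
          have := t2 hi
          simp only at this
          rw [this]
        · refine Finset.mem_union_right _ ?_
          simpa [hi] using t1
      refine (Finset.card_le_card this).trans ((Finset.card_union_le _ _).trans ?_)
      have := Finset.card_image_le (s := Q) (f := fun q => (q, s q))
      rw [Finset.card_product]
      simp only [Finset.card_univ, Fintype.card_bool]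
      omega
    have c2 : 2 * (A \ Q).card ≤ ∑ K ∈ U, (N K).card := by
      have hch : ∀ t : ι × Bool, ∃ a : ι × Bool, t.1 ∈ A \ Q → (a ∈ U.biUnion N ∧ Γ.Adj a t ∧
          ∀ t' : ι × Bool, t'.1 ∈ A → (t'.1 ∈ Q → t'.2 = s t'.1) → Γ.Adj a t' → t' = t) := by
        intro t
        by_cases ht : t.1 ∈ A \ Q
        · obtain ⟨K, hK, hKQ, a, ha, h1, h2⟩ := hpriv t.1 (Finset.mem_sdiff.1 ht).1
            (Finset.mem_sdiff.1 ht).2 t.2
          exact ⟨a, fun _ => ⟨Finset.mem_biUnion.2 ⟨K, Finset.mem_filter.2 ⟨hK, hKQ⟩, ha⟩, h1, h2⟩⟩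
        · exact ⟨t, fun h => absurd h ht⟩
      choose f hf using hch
      have h1 : ((A \ Q) ×ˢ (Finset.univ : Finset Bool)).card ≤ (U.biUnion N).card := by
        apply Finset.card_le_card_of_injOn f
        · intro t ht
          exact (hf t (Finset.mem_product.1 (Finset.mem_coe.1 ht)).1).1
        · intro t ht t' ht' e
          have a1 := (Finset.mem_product.1 (Finset.mem_coe.1 ht)).1
          have a2 := (Finset.mem_product.1 (Finset.mem_coe.1 ht')).1
          refine (hf t' a2).2.2 t (Finset.mem_sdiff.1 a1).1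
            (fun h => absurd h (Finset.mem_sdiff.1 a1).2) (e ▸ (hf t a1).2.1)
      rw [Finset.card_product] at h1
      simp only [Finset.card_univ, Fintype.card_bool] at h1
      have h2 := Finset.card_biUnion_le (s := U) (t := N)
      omega
    have c3 : ∑ K ∈ U, (N K).card = ∑ K ∈ P, (if (∀ q ∈ Q, φ q ≠ K) then (N K).card else 0) := by
      rw [hU, Finset.sum_filter]
    have c4 : ∑ K ∈ P, (2 * (T K).card + (if (∀ q ∈ Q, φ q ≠ K) then (N K).card else 0)) ≤
        ∑ K ∈ P, 2 * K.card := by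
      apply Finset.sum_le_sum
      intro K hK
      split_ifs with h
      · rw [(hTM K hK).2.2.2 h]
        exact (hSN K hK).2.1
      · push Not at h
        obtain ⟨q, hq, e⟩ := h
        rw [((hTM K hK).2.2.1 q hq e).1]
        omega
    rw [Finset.sum_add_distrib, ← Finset.mul_sum, ← Finset.mul_sum] at c4
    have c5 := Finset.card_biUnion_le (s := P) (t := T)
    have c6 := Finset.card_union_le C (P.biUnion T)
    have c7 := hS.card_eq
    have c8 := Finset.card_sdiff_add_card_eq_card (show Q ⊆ A from hst.sub)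
    rw [Finset.card_univ] at c7
    omega
  · rintro ⟨i, b⟩
    by_cases hi : i ∈ A
    · by_cases h : i ∈ Q ∧ b = s i
      · obtain ⟨hQ, rfl⟩ := h
        obtain ⟨_, v, hv, hadj⟩ := (hTM _ (hst.adj i hQ).1).2.2.1 i hQ rfl
        exact ⟨v, Finset.mem_union_right _ (Finset.mem_biUnion.2 ⟨_, (hst.adj i hQ).1, hv⟩), hadj⟩
      · refine ⟨(i, !b), Finset.mem_union_left _ ((memC _).2 ⟨hi, ?_⟩), hμ i b⟩
        intro hQ
        rcases bool_cases b (s i) with e | e
        · exact absurd ⟨hQ, e.symm⟩ h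
        · exact e.symm
    · obtain ⟨K, hK, hiK⟩ := hS.cover i (Finset.mem_univ _) hi
      by_cases hM : (i, b) ∈ M K
      · obtain ⟨t, t1, t2, t3⟩ := (hTM K hK).2.1 _ hM
        exact ⟨t, Finset.mem_union_left _ ((memC _).2 ⟨t1, t2⟩), t3⟩
      · obtain ⟨t, t1, t2⟩ := (hTM K hK).1.dom (i, b) hiK hM
        exact ⟨t, Finset.mem_union_right _ (Finset.mem_biUnion.2 ⟨K, hK, t1⟩), t2⟩
  · rintro ⟨i, b⟩ hs
    rcases Finset.mem_union.1 hs with h | h
    · obtain ⟨t1, t2⟩ := (memC _).1 h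
      by_cases hQ : i ∈ Q
      · refine ⟨(i, !b), ?_, hμ i b⟩
        intro h4
        rcases Finset.mem_union.1 h4 with h5 | h5
        · have e1 := ((memC _).1 h5).2 hQ
          have e2 := t2 hQ
          simp only at e1 e2
          rw [← e2] at e1
          cases b <;> simp at e1
        · obtain ⟨K, hK, h6⟩ := Finset.mem_biUnion.1 h5
          exact (hS.part K hK _ ((hTM K hK).1.sub _ h6)).2 t1
      · obtain ⟨K, hK, hKQ, a, ha, h1, _⟩ := hpriv i t1 hQ b
        obtain ⟨a1, a2, _⟩ := (hSN K hK).2.2 a ha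
        exact ⟨a, notS K hK a a2 ((hTM K hK).2.2.2 hKQ ▸ a1), h1.symm⟩
    · obtain ⟨K, hK, h6⟩ := Finset.mem_biUnion.1 h
      obtain ⟨d, d1, d2, d3⟩ := (hTM K hK).1.dnb _ h6
      exact ⟨d, notS K hK d d1 d2, d3⟩

end Pool.Agent.Lib.MP_59216f_co
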