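import Mathlib

set_option autoImplicit false

namespace Pool.Agent.Lib.MP_59216f_co

open Finset

variable {V : Type} [Fintype V] [DecidableEq V] (G : SimpleGraph V) [DecidableRel G.Adj]

/-- Double counting of the edges between two finsets. -/
theorem sum_card_filter_adj (A B : Finset V) :
    ∑ a ∈ A, (B.filter (fun b => G.Adj a b)).card = ∑ b ∈ B, (A.filter (fun a => G.Adj a b)).card := by
  simp only [Finset.card_filter]
  exact Finset.sum_comm

theorem card_filter_adj_univ (v : V) :
    (Finset.univ.filter (fun u => G.Adj v u)).card = G.degree v := by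
  rw [← SimpleGraph.card_neighborFinset_eq_degree, SimpleGraph.neighborFinset_eq_filter]

theorem card_filter_adj_le (B : Finset V) (v : V) :
    (B.filter (fun u => G.Adj v u)).card ≤ G.degree v := by
  rw [← card_filter_adj_univ]
  exact Finset.card_le_card (Finset.filter_subset_filter _ (Finset.subset_univ _))

theorem card_filter_adj_le' (B : Finset V) (v : V) :
    (B.filter (fun u => G.Adj u v)).card ≤ G.degree v := by
  have : B.filter (fun u => G.Adj u v) = B.filter (fun u => G.Adj v u) := by
    apply Finset.filter_congr
    intro u _
    exact G.adj_comm u v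
  rw [this]
  exact card_filter_adj_le G B v

/-- A cubic graph has a permutation moving every vertex to a neighbour (Hall). -/
theorem exists_perm (h3 : ∀ v, G.degree v = 3) :
    ∃ ψ : V ≃ V, ∀ v, G.Adj v (ψ v) := by
  have hall : ∀ s : Finset V, s.card ≤ (s.biUnion (fun v => G.neighborFinset v)).card := by
    intro s
    set B := s.biUnion (fun v => G.neighborFinset v) with hB
    have h1 : ∑ a ∈ s, (B.filter (fun b => G.Adj a b)).card = 3 * s.card := by
      rw [Finset.sum_congr rfl (g := fun _ => 3)]
      · simp [mul_comm]
      · intro a ha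
        rw [← h3 a, ← card_filter_adj_univ]
        congr 1
        ext u
        simp only [Finset.mem_filter, Finset.mem_univ, true_and, hB, Finset.mem_biUnion,
          SimpleGraph.mem_neighborFinset]
        constructor
        · exact fun h => h.2
        · exact fun h => ⟨⟨a, ha, h⟩, h⟩
    have h2 : ∑ b ∈ B, (s.filter (fun a => G.Adj a b)).card ≤ 3 * B.card := by
      calc ∑ b ∈ B, (s.filter (fun a => G.Adj a b)).card ≤ ∑ _b ∈ B, 3 := by
            apply Finset.sum_le_sum
            intro b _
            rw [← h3 b]
            exact card_filter_adj_le' G s b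
        _ = 3 * B.card := by simp [mul_comm]
    have h := sum_card_filter_adj G s B
    omega
  obtain ⟨f, hf, hmem⟩ :=
    (Finset.all_card_le_biUnion_card_iff_exists_injective (fun v => G.neighborFinset v)).1 hall
  refine ⟨Equiv.ofBijective f (Finite.injective_iff_bijective.1 hf), fun v => ?_⟩
  have := hmem v
  simpa using this

/-- Extension lemma: a colouring of a nonempty invariant set extends so that every vertex outside
the set sees both colours. -/
theorem extend (hconn : G.Connected) (h3 : ∀ v, G.degree v = 3) (ψ : V ≃ V)
    (hψ : ∀ v, G.Adj v (ψ v)) (K : Finset V) (hK : K.Nonempty) (hinv : ∀ v, v ∈ K ↔ ψ v ∈ K)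
    (c₀ : V → Bool) :
    ∃ c : V → Bool, (∀ v ∈ K, c v = c₀ v) ∧
      ∀ v, v ∉ K → ∃ u w, G.Adj v u ∧ G.Adj v w ∧ c u = true ∧ c w = false := by
  classical
  let good : Finset V → Prop := fun T => K ⊆ T ∧ ∃ c : V → Bool, (∀ v ∈ K, c v = c₀ v) ∧
    ∀ x ∈ T, x ∉ K → ∃ u ∈ T, G.Adj (ψ.symm x) u ∧ c u ≠ c x
  have hne : (Finset.univ.filter good).Nonempty := by
    refine ⟨K, ?_⟩
    simp only [Finset.mem_filter, Finset.mem_univ, true_and]
    exact ⟨subset_refl _, c₀, fun _ _ => rfl, fun x hx hx' => absurd hx hx'⟩
  obtain ⟨T, hT, hmax⟩ := Finset.exists_max_image (Finset.univ.filter good) Finset.card hne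
  simp only [Finset.mem_filter, Finset.mem_univ, true_and] at hT hmax
  obtain ⟨hKT, c, hc0, hc⟩ := hT
  have hclosed : ∀ w, ψ w ∉ T → ∀ u, G.Adj w u → u ∉ T := by
    intro w hw u hwu huT
    have hgood : good (insert (ψ w) T) := by
      refine ⟨hKT.trans (Finset.subset_insert _ _), Function.update c (ψ w) (!c u), ?_, ?_⟩
      · intro v hv
        have : v ≠ ψ w := fun h => hw (h ▸ hKT hv)
        rw [Function.update_of_ne this]
        exact hc0 v hv
      · intro x hx hxK
        rcases Finset.mem_insert.1 hx with rfl | hxT
        · refine ⟨u, Finset.mem_insert_of_mem huT, by simpa using hwu, ?_⟩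
          have : u ≠ ψ w := fun h => hw (h ▸ huT)
          rw [Function.update_of_ne this, Function.update_self]
          cases c u <;> simp
        · obtain ⟨y, hyT, hadj, hne⟩ := hc x hxT hxK
          refine ⟨y, Finset.mem_insert_of_mem hyT, hadj, ?_⟩
          have h1 : y ≠ ψ w := fun h => hw (h ▸ hyT)
          have h2 : x ≠ ψ w := fun h => hw (h ▸ hxT)
          rw [Function.update_of_ne h1, Function.update_of_ne h2]
          exact hne
    have := hmax _ hgood
    rw [Finset.card_insert_of_notMem hw] at this
    omega
  have hTuniv : ∀ x, x ∈ T := by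
    by_contra hcon
    push Not at hcon
    obtain ⟨x₀, hx₀⟩ := hcon
    set A : Finset V := Finset.univ.filter (fun x => x ∉ T) with hA
    set U : Finset V := Finset.univ.filter (fun w => ψ w ∉ T) with hU
    have hcard : U.card = A.card := by
      apply Finset.card_bij (fun w _ => ψ w)
      · intro w hw
        simpa [hA, hU] using hw
      · intro a _ b _ h
        exact ψ.injective h
      · intro a ha
        refine ⟨ψ.symm a, ?_, by simp⟩
        simpa [hA, hU] using ha
    have h1 : ∑ w ∈ U, (A.filter (fun a => G.Adj w a)).card = 3 * U.card := by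
      rw [Finset.sum_congr rfl (g := fun _ => 3)]
      · simp [mul_comm]
      · intro w hw
        rw [← h3 w, ← card_filter_adj_univ]
        congr 1
        ext u
        simp only [Finset.mem_filter, Finset.mem_univ, true_and, hA]
        constructor
        · exact fun h => h.2
        · intro h
          refine ⟨hclosed w ?_ u h, h⟩
          simpa [hU] using hw
    have h2 := sum_card_filter_adj G U A
    have h4 : ∀ a ∈ A, (U.filter (fun w => G.Adj w a)).card = 3 := by
      have hle : ∀ a ∈ A, (U.filter (fun w => G.Adj w a)).card ≤ 3 := by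
        intro a _
        rw [← h3 a]
        exact card_filter_adj_le' G U a
      have hsum : ∑ a ∈ A, (U.filter (fun w => G.Adj w a)).card = ∑ _a ∈ A, 3 := by
        rw [← h2, h1, hcard]
        simp [mul_comm]
      exact (Finset.sum_eq_sum_iff_of_le hle).1 hsum
    have hAU : ∀ a ∈ A, ∀ w, G.Adj a w → w ∈ U := by
      intro a ha w haw
      have hsub : U.filter (fun w => G.Adj w a) ⊆ Finset.univ.filter (fun w => G.Adj a w) := by
        intro y hy
        simp only [Finset.mem_filter, Finset.mem_univ, true_and] at hy ⊢
        exact hy.2.symm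
      have heq := Finset.eq_of_subset_of_card_le hsub (by
        rw [h4 a ha, card_filter_adj_univ, h3 a])
      have : w ∈ U.filter (fun w => G.Adj w a) := by
        rw [heq]
        simpa using haw
      exact (Finset.mem_filter.1 this).1
    have hall : ∀ y, G.Reachable x₀ y → y ∈ A ∨ y ∈ U := by
      intro y hy
      rw [SimpleGraph.reachable_iff_reflTransGen] at hy
      induction hy with
      | refl => left; simpa [hA] using hx₀
      | tail _ hadj ih =>
        rcases ih with h | h
        · exact Or.inr (hAU _ h _ hadj)
        · left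
          have := hclosed _ (by simpa [hU] using h) _ hadj
          simpa [hA] using this
    obtain ⟨k, hk⟩ := hK
    rcases hall k (hconn.preconnected x₀ k) with h | h
    · have : k ∉ T := by simpa [hA] using h
      exact this (hKT hk)
    · have : ψ k ∉ T := by simpa [hU] using h
      exact this (hKT ((hinv k).1 hk))
  refine ⟨c, hc0, fun v hv => ?_⟩
  have hψv : ψ v ∉ K := fun h => hv ((hinv v).2 h)
  obtain ⟨u, _, hadj, hne⟩ := hc (ψ v) (hTuniv _) hψv
  rw [Equiv.symm_apply_apply] at hadj
  cases hcu : c u
  · refine ⟨ψ v, u, hψ v, hadj, ?_, hcu⟩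
    rw [hcu] at hne
    cases h : c (ψ v)
    · exact absurd h.symm hne
    · rfl
  · refine ⟨u, ψ v, hadj, hψ v, hcu, ?_⟩
    rw [hcu] at hne
    cases h : c (ψ v)
    · rfl
    · exact absurd h.symm hne

/-- Counting lemma. -/
theorem count (h3 : ∀ v, G.degree v = 3) (c : V → Bool) (C : Finset V) (hC : C.card ≤ 3)
    (hS : ∀ v, ∃ u, G.Adj v u ∧ c u = true)
    (hD : ∀ v, (∃ u, G.Adj v u ∧ c u = false) ∨ (c v = false ∧ v ∈ C)) :
    ∃ S D : Finset V,
        (∀ v : V, ∃ u ∈ S, G.Adj v u) ∧
        2 * S.card ≤ Fintype.card V ∧
        Disjoint S D ∧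
        (∀ v : V, v ∈ D ∨ ∃ u ∈ D, G.Adj v u) := by
  classical
  let good : Finset V → Prop := fun S => (∀ u ∈ S, c u = true) ∧ ∀ v : V, ∃ u ∈ S, G.Adj v u
  have hne : (Finset.univ.filter good).Nonempty := by
    refine ⟨Finset.univ.filter (fun u => c u = true), ?_⟩
    simp only [Finset.mem_filter, Finset.mem_univ, true_and]
    refine ⟨fun u hu => by simpa using hu, fun v => ?_⟩
    obtain ⟨u, hu, hcu⟩ := hS v
    exact ⟨u, by simpa using hcu, hu⟩
  obtain ⟨S, hSg, hmin⟩ := Finset.exists_min_image (Finset.univ.filter good) Finset.card hne
  simp only [Finset.mem_filter, Finset.mem_univ, true_and] at hSg hmin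
  obtain ⟨hSc, hStd⟩ := hSg
  refine ⟨S, Finset.univ.filter (fun u => c u = false), hStd, ?_, ?_, ?_⟩
  · -- the size bound
    have hpriv : ∀ s ∈ S, ∃ v, S.filter (fun u => G.Adj v u) = {s} := by
      intro s hs
      by_contra hcon
      push Not at hcon
      have hgood : good (S.erase s) := by
        refine ⟨fun u hu => hSc u (Finset.mem_of_mem_erase hu), fun v => ?_⟩
        by_contra hv
        push Not at hv
        apply hcon v
        obtain ⟨u, hu, hvu⟩ := hStd v
        have hus : u = s := by
          by_contra hne
          exact hv u (Finset.mem_erase.2 ⟨hne, hu⟩) hvu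
        subst hus
        ext y
        simp only [Finset.mem_filter, Finset.mem_singleton]
        constructor
        · rintro ⟨hy, hvy⟩
          by_contra hne
          exact hv y (Finset.mem_erase.2 ⟨hne, hy⟩) hvy
        · rintro rfl
          exact ⟨hu, hvu⟩
      have := hmin _ hgood
      rw [Finset.card_erase_of_mem hs] at this
      have := Finset.card_pos.2 ⟨s, hs⟩
      omega
    choose! p hp using hpriv
    set B : Finset V := Finset.univ.filter (fun v => (S.filter (fun u => G.Adj v u)).card = 1)
      with hB
    have hSB : S.card ≤ B.card := by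
      apply Finset.card_le_card_of_injOn p
      · intro s hs
        have hs' : s ∈ S := by simpa using hs
        simp [hB, hp s hs']
      · intro s hs t ht hst
        have hs' : s ∈ S := by simpa using hs
        have ht' : t ∈ S := by simpa using ht
        have h1 := hp s hs'
        have h2 := hp t ht'
        rw [hst, h2] at h1
        exact (Finset.singleton_injective h1).symm
    have hsum : ∑ v ∈ (Finset.univ : Finset V), (S.filter (fun u => G.Adj v u)).card
        = 3 * S.card := by
      rw [sum_card_filter_adj G Finset.univ S]
      rw [Finset.sum_congr rfl (g := fun _ => 3)]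
      · simp [mul_comm]
      · intro s _
        rw [← h3 s, ← card_filter_adj_univ]
        congr 1
        apply Finset.filter_congr
        intro u _
        exact G.adj_comm u s
    have hpt : ∀ v, (S.filter (fun u => G.Adj v u)).card + (if v ∈ B then 1 else 0)
        ≤ 2 + (if v ∈ C then 1 else 0) := by
      intro v
      have hle : (S.filter (fun u => G.Adj v u)).card ≤ 3 := by
        rw [← h3 v]
        exact card_filter_adj_le G S v
      by_cases hvB : v ∈ B
      · have : (S.filter (fun u => G.Adj v u)).card = 1 := by simpa [hB] using hvB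
        rw [this, if_pos hvB]
        omega
      · rw [if_neg hvB]
        rcases hD v with ⟨u, hvu, hcu⟩ | ⟨_, hvC⟩
        · have hsub : S.filter (fun u => G.Adj v u) ⊆
              (Finset.univ.filter (fun u => G.Adj v u)).erase u := by
            intro y hy
            simp only [Finset.mem_filter, Finset.mem_erase, Finset.mem_univ, true_and] at hy ⊢
            refine ⟨?_, hy.2⟩
            rintro rfl
            rw [hSc y hy.1] at hcu
            exact absurd hcu (by simp)
          have := Finset.card_le_card hsub
          rw [Finset.card_erase_of_mem (by simpa using hvu), card_filter_adj_univ, h3 v] at this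
          omega
        · rw [if_pos hvC]
          omega
    have hs := Finset.sum_le_sum (s := (Finset.univ : Finset V)) (fun v _ => hpt v)
    rw [Finset.sum_add_distrib, Finset.sum_add_distrib, hsum] at hs
    simp only [Finset.sum_ite_mem, Finset.univ_inter, Finset.sum_const, smul_eq_mul, mul_one,
      Finset.card_univ] at hs
    have heven := SimpleGraph.sum_degrees_eq_twice_card_edges G
    rw [Finset.sum_congr rfl (g := fun _ => 3) (fun v _ => h3 v)] at heven
    simp only [Finset.sum_const, smul_eq_mul, Finset.card_univ] at heven
    omega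
  · rw [Finset.disjoint_left]
    intro u hu hu'
    have h1 := hSc u hu
    have h2 : c u = false := by simpa using hu'
    rw [h1] at h2
    exact absurd h2 (by simp)
  · intro v
    rcases hD v with ⟨u, hvu, hcu⟩ | ⟨hv, _⟩
    · exact Or.inr ⟨u, by simpa using hcu, hvu⟩
    · exact Or.inl (by simpa using hv)

end Pool.Agent.Lib.MP_59216f_co
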