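import Pool.Agent.Lib.MP_59216f_co.PM

set_option autoImplicit false

namespace Pool.Agent.Lib.MP_59216f_co

open Finset

variable {ι : Type} [DecidableEq ι]

/-- The node graph of a graph on `ι × Bool`. -/
def nodeGraph (Γ : SimpleGraph (ι × Bool)) : SimpleGraph ι where
  Adj i j := i ≠ j ∧ ∃ b c, Γ.Adj (i, b) (j, c)
  symm := ⟨fun _ _ h => ⟨h.1.symm, by
    obtain ⟨b, c, h'⟩ := h.2
    exact ⟨c, b, h'.symm⟩⟩⟩
  loopless := ⟨fun _ h => h.1 rfl⟩

/-- A colouring `S` of the vertices over `K`: every vertex outside `N` has a neighbour in `S`,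
every vertex of `S` has a neighbour over `K` outside `S`. -/
structure Good (Γ : SimpleGraph (ι × Bool)) (K : Finset ι) (S N : Finset (ι × Bool)) : Prop where
  sub : ∀ s ∈ S, s.1 ∈ K
  dom : ∀ v : ι × Bool, v.1 ∈ K → v ∉ N → ∃ s ∈ S, Γ.Adj v s
  dnb : ∀ s ∈ S, ∃ d : ι × Bool, d.1 ∈ K ∧ d ∉ S ∧ Γ.Adj s d

variable {Γ : SimpleGraph (ι × Bool)}

theorem Good.union {K₁ K₂ K : Finset ι} {S₁ S₂ N₁ N₂ N : Finset (ι × Bool)}
    (h₁ : Good Γ K₁ S₁ N₁) (h₂ : Good Γ K₂ S₂ N₂) (hd : ∀ x, x ∈ K₁ → x ∉ K₂)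
    (e : ∀ x, x ∈ K ↔ x ∈ K₁ ∨ x ∈ K₂) (hN₁ : ∀ a ∈ N₁, a ∈ N) (hN₂ : ∀ a ∈ N₂, a ∈ N) :
    Good Γ K (S₁ ∪ S₂) N ∧ (S₁ ∪ S₂).card = S₁.card + S₂.card := by
  refine ⟨⟨?_, ?_, ?_⟩, ?_⟩
  · intro s hs
    rw [e]
    rcases Finset.mem_union.1 hs with h | h
    · exact Or.inl (h₁.sub s h)
    · exact Or.inr (h₂.sub s h)
  · intro v hv hvN
    rcases (e _).1 hv with h | h
    · obtain ⟨s, hs, a⟩ := h₁.dom v h (fun h' => hvN (hN₁ v h'))
      exact ⟨s, Finset.mem_union_left _ hs, a⟩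
    · obtain ⟨s, hs, a⟩ := h₂.dom v h (fun h' => hvN (hN₂ v h'))
      exact ⟨s, Finset.mem_union_right _ hs, a⟩
  · intro s hs
    rcases Finset.mem_union.1 hs with h | h
    · obtain ⟨d, h1, h2, h3⟩ := h₁.dnb s h
      refine ⟨d, (e _).2 (Or.inl h1), ?_, h3⟩
      intro h4
      rcases Finset.mem_union.1 h4 with h5 | h5
      · exact h2 h5
      · exact hd _ h1 (h₂.sub d h5)
    · obtain ⟨d, h1, h2, h3⟩ := h₂.dnb s h
      refine ⟨d, (e _).2 (Or.inr h1), ?_, h3⟩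
      intro h4
      rcases Finset.mem_union.1 h4 with h5 | h5
      · exact hd _ (h₁.sub d h5) h1
      · exact h2 h5
  · apply Finset.card_union_of_disjoint
    rw [Finset.disjoint_left]
    intro s h h'
    exact hd _ (h₁.sub s h) (h₂.sub s h')

theorem bool_cases (b c : Bool) : c = b ∨ c = !b := by
  cases b <;> cases c <;> simp

theorem good_single (hμ : ∀ i b, Γ.Adj (i, b) (i, !b)) (v : ι × Bool) :
    Good Γ {v.1} {v} {v} := by
  obtain ⟨p, b⟩ := v
  refine ⟨by simp, ?_, ?_⟩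
  · rintro ⟨i, c⟩ hv hvN
    have hi : i = p := by simpa using hv
    subst hi
    rcases bool_cases b c with rfl | rfl
    · simp at hvN
    · exact ⟨_, Finset.mem_singleton_self _, (hμ i b).symm⟩
  · intro s hs
    rw [Finset.mem_singleton.1 hs]
    exact ⟨(p, !b), by simp, by simp, hμ p b⟩

theorem Good.serve {K : Finset ι} {S N N' : Finset (ι × Bool)} (h : Good Γ K S N)
    (hN : ∀ a ∈ N, a ∉ N' → ∃ s ∈ S, Γ.Adj a s) : Good Γ K S N' := by
  refine ⟨h.sub, ?_, h.dnb⟩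
  intro v hv hvN
  by_cases h' : v ∈ N
  · exact hN v h' hvN
  · exact h.dom v hv h'

theorem pm_good (hμ : ∀ i b, Γ.Adj (i, b) (i, !b)) {W : Finset ι} (h : PM (nodeGraph Γ) W) :
    ∃ S, Good Γ W S ∅ ∧ S.card = W.card := by
  induction h with
  | empty => exact ⟨∅, ⟨by simp, by simp, by simp⟩, by simp⟩
  | @step W u v _ huv hu hv ih =>
    obtain ⟨S, hS, hc⟩ := ih
    obtain ⟨hne, b, c, hadj⟩ := huv
    have h1 := (good_single hμ (v, c)).union hS (K := insert v W) (N := {(v, c)})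
      (by simpa using hv) (by simp) (by simp) (by simp)
    have h2 := (good_single hμ (u, b)).union h1.1 (K := insert u (insert v W))
      (N := {(u, b), (v, c)}) (by simp [hu, hne]) (by simp) (by simp) (by simp)
    refine ⟨_, h2.1.serve ?_, ?_⟩
    · intro a ha _
      simp only [Finset.mem_insert, Finset.mem_singleton] at ha
      rcases ha with rfl | rfl
      · exact ⟨(v, c), by simp, hadj⟩
      · exact ⟨(u, b), by simp, hadj.symm⟩
    · rw [h2.2, h1.2, hc, Finset.card_insert_of_notMem (by simp [hu, hne]),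
        Finset.card_insert_of_notMem hv]
      simp only [Finset.card_singleton]
      omega

/-- served mode -/
theorem served (hμ : ∀ i b, Γ.Adj (i, b) (i, !b)) {K : Finset ι} (hK : FC (nodeGraph Γ) K)
    (v : ι × Bool) (hv : v.1 ∈ K) : ∃ S, Good Γ K S {v} ∧ v ∈ S ∧ S.card = K.card := by
  obtain ⟨S, hS, hc⟩ := pm_good hμ (hK.2 v.1 hv)
  have h1 := (good_single hμ v).union hS (K := K) (N := {v}) (by simp)
    (by intro x; simp only [Finset.mem_singleton, Finset.mem_erase]; grind) (by simp) (by simp)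
  refine ⟨_, h1.1, by simp, ?_⟩
  rw [h1.2, hc, Finset.card_erase_of_mem hv, Finset.card_singleton]
  have := Finset.card_pos.2 ⟨_, hv⟩
  omega

/-- A path on three nodes whose two edges leave the middle node from the same vertex, the rest
of `K` having a perfect matching. -/
def Nice (Γ : SimpleGraph (ι × Bool)) (K : Finset ι) : Prop :=
  ∃ q p₁ p₂ : ι × Bool, q.1 ∈ K ∧ p₁.1 ∈ K ∧ p₂.1 ∈ K ∧ q.1 ≠ p₁.1 ∧ q.1 ≠ p₂.1 ∧ p₁.1 ≠ p₂.1 ∧
    Γ.Adj q p₁ ∧ Γ.Adj q p₂ ∧ PM (nodeGraph Γ) (((K.erase q.1).erase p₁.1).erase p₂.1)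

/-- self mode -/
theorem nice_good (hμ : ∀ i b, Γ.Adj (i, b) (i, !b)) {K : Finset ι} (h : Nice Γ K) :
    ∃ S, Good Γ K S ∅ ∧ S.card = K.card := by
  obtain ⟨q, p₁, p₂, h1, h2, h3, h4, h5, h6, h7, h8, h9⟩ := h
  obtain ⟨S, hS, hc⟩ := pm_good hμ h9
  have g1 := (good_single hμ p₂).union hS (K := (K.erase q.1).erase p₁.1) (N := {p₂}) (by simp)
    (by intro x; simp only [Finset.mem_singleton, Finset.mem_erase]; grind) (by simp) (by simp)
  have g2 := (good_single hμ p₁).union g1.1 (K := K.erase q.1) (N := {p₁, p₂}) (by simp)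
    (by intro x; simp only [Finset.mem_singleton, Finset.mem_erase]; grind) (by simp) (by simp)
  have g3 := (good_single hμ q).union g2.1 (K := K) (N := {q, p₁, p₂}) (by simp)
    (by intro x; simp only [Finset.mem_singleton, Finset.mem_erase]; grind) (by simp)
    (by intro a ha; exact Finset.mem_insert_of_mem ha)
  refine ⟨_, g3.1.serve ?_, ?_⟩
  · intro a ha _
    simp only [Finset.mem_insert, Finset.mem_singleton] at ha
    rcases ha with rfl | rfl | rfl
    · exact ⟨p₁, by simp, h7⟩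
    · exact ⟨q, by simp, h7.symm⟩
    · exact ⟨q, by simp, h8.symm⟩
  · have e1 : p₁.1 ∈ K.erase q.1 := by simp [h2, h4.symm]
    have e2 : p₂.1 ∈ (K.erase q.1).erase p₁.1 := by simp [h3, h5.symm, h6.symm]
    have c1 := Finset.card_erase_of_mem h1
    have c2 := Finset.card_erase_of_mem e1
    have c3 := Finset.card_erase_of_mem e2
    have d1 := Finset.card_pos.2 ⟨_, h1⟩
    have d2 := Finset.card_pos.2 ⟨_, e1⟩
    have d3 := Finset.card_pos.2 ⟨_, e2⟩
    rw [g3.2, g2.2, g1.2, hc]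
    simp only [Finset.card_singleton]
    omega

end Pool.Agent.Lib.MP_59216f_co
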