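import Pool.Agent.Lib.MP_59216f_co.Basic

set_option autoImplicit false

namespace Pool.Agent.Lib.MP_59216f_co

open Finset Function

variable {V : Type} [Fintype V] [DecidableEq V] (G : SimpleGraph V) [DecidableRel G.Adj]

/-- successor index on a cycle of length `p` -/
def nxt (p i : ℕ) : ℕ := if i + 1 = p then 0 else i + 1

/-- predecessor index on a cycle of length `p` -/
def prv (p i : ℕ) : ℕ := if i = 0 then p - 1 else i - 1

/-- the orbit of a point -/
noncomputable def orb (ψ : V ≃ V) (x : V) : Finset V :=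
  (Finset.range (minimalPeriod ψ x)).image (fun i => ψ^[i] x)

/-- The data of a core. -/
def IsCore (ψ : V ≃ V) (K : Finset V) (c₀ : V → Bool) (C : Finset V) : Prop :=
  K.Nonempty ∧ (∀ v, v ∈ K ↔ ψ v ∈ K) ∧ C.card ≤ 3 ∧
    ∀ v ∈ K, (∃ u ∈ K, G.Adj v u ∧ c₀ u = true) ∧
      ((∃ u ∈ K, G.Adj v u ∧ c₀ u = false) ∨ (c₀ v = false ∧ v ∈ C))

omit [DecidableEq V] in
theorem period_pos (ψ : V ≃ V) (x : V) : 0 < minimalPeriod ψ x :=
  minimalPeriod_pos_of_mem_periodicPts (ψ.injective.mem_periodicPts x)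

theorem nxt_lt {p i : ℕ} (h : i < p) : nxt p i < p := by
  unfold nxt
  split_ifs <;> omega

theorem prv_lt {p i : ℕ} (h : i < p) : prv p i < p := by
  unfold prv
  split_ifs <;> omega

omit [Fintype V] [DecidableEq V] in
theorem iter_nxt (ψ : V ≃ V) (x : V) (i : ℕ) :
    ψ^[nxt (minimalPeriod ψ x) i] x = ψ (ψ^[i] x) := by
  unfold nxt
  split_ifs with h
  · rw [← iterate_succ_apply' ψ i x, Nat.succ_eq_add_one, h, iterate_minimalPeriod]
    rfl
  · rw [iterate_succ_apply']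

omit [DecidableEq V] in
theorem iter_prv (ψ : V ≃ V) (x : V) (i : ℕ) :
    ψ (ψ^[prv (minimalPeriod ψ x) i] x) = ψ^[i] x := by
  have hp := period_pos ψ x
  unfold prv
  rw [← iterate_succ_apply' ψ _ x, Nat.succ_eq_add_one]
  split_ifs with h
  · rw [Nat.sub_add_cancel hp, iterate_minimalPeriod, h]
    rfl
  · rw [Nat.sub_add_cancel (by omega)]

omit [Fintype V] in
theorem mem_orb (ψ : V ≃ V) (x v : V) :
    v ∈ orb ψ x ↔ ∃ i < minimalPeriod ψ x, ψ^[i] x = v := by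
  simp [orb]

theorem orb_inv (ψ : V ≃ V) (x v : V) : v ∈ orb ψ x ↔ ψ v ∈ orb ψ x := by
  rw [mem_orb, mem_orb]
  constructor
  · rintro ⟨i, hi, rfl⟩
    exact ⟨nxt _ i, nxt_lt hi, iter_nxt ψ x i⟩
  · rintro ⟨i, hi, h⟩
    refine ⟨prv _ i, prv_lt hi, ψ.injective ?_⟩
    rw [iter_prv, h]

omit [Fintype V] [DecidableEq V] in
theorem iter_inj (ψ : V ≃ V) (x : V) {i j : ℕ} (hi : i < minimalPeriod ψ x)
    (hj : j < minimalPeriod ψ x) (h : ψ^[i] x = ψ^[j] x) : i = j :=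
  iterate_injOn_Iio_minimalPeriod hi hj h

omit [Fintype V] [DecidableEq V] [DecidableRel G.Adj] in
theorem adj_nxt (ψ : V ≃ V) (hψ : ∀ v, G.Adj v (ψ v)) (x : V) (i : ℕ) :
    G.Adj (ψ^[i] x) (ψ^[nxt (minimalPeriod ψ x) i] x) := by
  rw [iter_nxt]
  exact hψ _

omit [DecidableEq V] [DecidableRel G.Adj] in
theorem adj_prv (ψ : V ≃ V) (hψ : ∀ v, G.Adj v (ψ v)) (x : V) (i : ℕ) :
    G.Adj (ψ^[i] x) (ψ^[prv (minimalPeriod ψ x) i] x) := by
  rw [← iter_prv ψ x i]
  exact (hψ _).symm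

omit [DecidableRel G.Adj] in
/-- A core on a single orbit. -/
theorem core_one (ψ : V ≃ V) (hψ : ∀ v, G.Adj v (ψ v)) (x : V) (P : ℕ → Bool) (CP : Finset ℕ)
    (hC : CP.card ≤ 3)
    (hP : ∀ i < minimalPeriod ψ x,
      (P (nxt (minimalPeriod ψ x) i) = true ∨ P (prv (minimalPeriod ψ x) i) = true) ∧
      (P (nxt (minimalPeriod ψ x) i) = false ∨ P (prv (minimalPeriod ψ x) i) = false ∨
        (P i = false ∧ i ∈ CP))) :
    ∃ K c₀ C, IsCore G ψ K c₀ C := by
  classical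
  let c₀ : V → Bool := fun v => decide (∃ i < minimalPeriod ψ x, ψ^[i] x = v ∧ P i = true)
  have hc : ∀ i < minimalPeriod ψ x, c₀ (ψ^[i] x) = P i := by
    intro i hi
    cases hPi : P i
    · simp only [c₀, decide_eq_false_iff_not]
      rintro ⟨j, hj, hij, hPj⟩
      rw [iter_inj ψ x hj hi hij, hPi] at hPj
      exact absurd hPj (by simp)
    · simp only [c₀, decide_eq_true_eq]
      exact ⟨i, hi, rfl, hPi⟩
  refine ⟨orb ψ x, c₀, CP.image (fun i => ψ^[i] x), ?_, orb_inv ψ x,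
    Finset.card_image_le.trans hC, ?_⟩
  · exact ⟨x, (mem_orb ψ x x).2 ⟨0, period_pos ψ x, rfl⟩⟩
  · intro v hv
    obtain ⟨i, hi, rfl⟩ := (mem_orb ψ x v).1 hv
    have hn : ψ^[nxt (minimalPeriod ψ x) i] x ∈ orb ψ x :=
      (mem_orb ψ x _).2 ⟨_, nxt_lt hi, rfl⟩
    have hp : ψ^[prv (minimalPeriod ψ x) i] x ∈ orb ψ x :=
      (mem_orb ψ x _).2 ⟨_, prv_lt hi, rfl⟩
    obtain ⟨h1, h2⟩ := hP i hi
    constructor
    · rcases h1 with h | h
      · exact ⟨_, hn, adj_nxt G ψ hψ x i, by rw [hc _ (nxt_lt hi), h]⟩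
      · exact ⟨_, hp, adj_prv G ψ hψ x i, by rw [hc _ (prv_lt hi), h]⟩
    · rcases h2 with h | h | ⟨h, h'⟩
      · exact Or.inl ⟨_, hn, adj_nxt G ψ hψ x i, by rw [hc _ (nxt_lt hi), h]⟩
      · exact Or.inl ⟨_, hp, adj_prv G ψ hψ x i, by rw [hc _ (prv_lt hi), h]⟩
      · exact Or.inr ⟨by rw [hc _ hi, h], Finset.mem_image_of_mem _ h'⟩

omit [DecidableRel G.Adj] in
/-- A core on two orbits joined by an edge. -/
theorem core_two (ψ : V ≃ V) (hψ : ∀ v, G.Adj v (ψ v)) (x y : V) (hxy : G.Adj x y)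
    (hdis : ∀ i j, ψ^[i] x ≠ ψ^[j] y) (P Q : ℕ → Bool) (CP CQ : Finset ℕ)
    (hC : CP.card + CQ.card ≤ 3)
    (hP : ∀ i < minimalPeriod ψ x,
      (P (nxt (minimalPeriod ψ x) i) = true ∨ P (prv (minimalPeriod ψ x) i) = true ∨
        (i = 0 ∧ Q 0 = true)) ∧
      (P (nxt (minimalPeriod ψ x) i) = false ∨ P (prv (minimalPeriod ψ x) i) = false ∨
        (i = 0 ∧ Q 0 = false) ∨ (P i = false ∧ i ∈ CP)))
    (hQ : ∀ i < minimalPeriod ψ y,
      (Q (nxt (minimalPeriod ψ y) i) = true ∨ Q (prv (minimalPeriod ψ y) i) = true ∨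
        (i = 0 ∧ P 0 = true)) ∧
      (Q (nxt (minimalPeriod ψ y) i) = false ∨ Q (prv (minimalPeriod ψ y) i) = false ∨
        (i = 0 ∧ P 0 = false) ∨ (Q i = false ∧ i ∈ CQ))) :
    ∃ K c₀ C, IsCore G ψ K c₀ C := by
  classical
  let c₀ : V → Bool := fun v => decide ((∃ i < minimalPeriod ψ x, ψ^[i] x = v ∧ P i = true) ∨
    (∃ i < minimalPeriod ψ y, ψ^[i] y = v ∧ Q i = true))
  have hcx : ∀ i < minimalPeriod ψ x, c₀ (ψ^[i] x) = P i := by
    intro i hi
    cases hPi : P i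
    · simp only [c₀, decide_eq_false_iff_not]
      rintro (⟨j, hj, hij, hPj⟩ | ⟨j, _, hij, _⟩)
      · rw [iter_inj ψ x hj hi hij, hPi] at hPj
        exact absurd hPj (by simp)
      · exact hdis i j hij.symm
    · simp only [c₀, decide_eq_true_eq]
      exact Or.inl ⟨i, hi, rfl, hPi⟩
  have hcy : ∀ i < minimalPeriod ψ y, c₀ (ψ^[i] y) = Q i := by
    intro i hi
    cases hQi : Q i
    · simp only [c₀, decide_eq_false_iff_not]
      rintro (⟨j, _, hij, _⟩ | ⟨j, hj, hij, hQj⟩)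
      · exact hdis j i hij
      · rw [iter_inj ψ y hj hi hij, hQi] at hQj
        exact absurd hQj (by simp)
    · simp only [c₀, decide_eq_true_eq]
      exact Or.inr ⟨i, hi, rfl, hQi⟩
  have hx0 : x ∈ orb ψ x ∪ orb ψ y :=
    Finset.mem_union_left _ ((mem_orb ψ x x).2 ⟨0, period_pos ψ x, rfl⟩)
  have hy0 : y ∈ orb ψ x ∪ orb ψ y :=
    Finset.mem_union_right _ ((mem_orb ψ y y).2 ⟨0, period_pos ψ y, rfl⟩)
  have hcx0 : c₀ x = P 0 := hcx 0 (period_pos ψ x)
  have hcy0 : c₀ y = Q 0 := hcy 0 (period_pos ψ y)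
  refine ⟨orb ψ x ∪ orb ψ y, c₀, CP.image (fun i => ψ^[i] x) ∪ CQ.image (fun i => ψ^[i] y),
    ⟨x, hx0⟩, ?_, ?_, ?_⟩
  · intro v
    rw [Finset.mem_union, Finset.mem_union, ← orb_inv, ← orb_inv]
  · refine (Finset.card_union_le _ _).trans (le_trans ?_ hC)
    exact Nat.add_le_add Finset.card_image_le Finset.card_image_le
  · intro v hv
    rcases Finset.mem_union.1 hv with hv | hv
    · obtain ⟨i, hi, rfl⟩ := (mem_orb ψ x v).1 hv
      have hn : ψ^[nxt (minimalPeriod ψ x) i] x ∈ orb ψ x ∪ orb ψ y :=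
        Finset.mem_union_left _ ((mem_orb ψ x _).2 ⟨_, nxt_lt hi, rfl⟩)
      have hp : ψ^[prv (minimalPeriod ψ x) i] x ∈ orb ψ x ∪ orb ψ y :=
        Finset.mem_union_left _ ((mem_orb ψ x _).2 ⟨_, prv_lt hi, rfl⟩)
      obtain ⟨h1, h2⟩ := hP i hi
      constructor
      · rcases h1 with h | h | ⟨rfl, h⟩
        · exact ⟨_, hn, adj_nxt G ψ hψ x i, by rw [hcx _ (nxt_lt hi), h]⟩
        · exact ⟨_, hp, adj_prv G ψ hψ x i, by rw [hcx _ (prv_lt hi), h]⟩
        · exact ⟨y, hy0, hxy, by rw [hcy0, h]⟩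
      · rcases h2 with h | h | ⟨rfl, h⟩ | ⟨h, h'⟩
        · exact Or.inl ⟨_, hn, adj_nxt G ψ hψ x i, by rw [hcx _ (nxt_lt hi), h]⟩
        · exact Or.inl ⟨_, hp, adj_prv G ψ hψ x i, by rw [hcx _ (prv_lt hi), h]⟩
        · exact Or.inl ⟨y, hy0, hxy, by rw [hcy0, h]⟩
        · exact Or.inr ⟨by rw [hcx _ hi, h],
            Finset.mem_union_left _ (Finset.mem_image_of_mem _ h')⟩
    · obtain ⟨i, hi, rfl⟩ := (mem_orb ψ y v).1 hv
      have hn : ψ^[nxt (minimalPeriod ψ y) i] y ∈ orb ψ x ∪ orb ψ y :=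
        Finset.mem_union_right _ ((mem_orb ψ y _).2 ⟨_, nxt_lt hi, rfl⟩)
      have hp : ψ^[prv (minimalPeriod ψ y) i] y ∈ orb ψ x ∪ orb ψ y :=
        Finset.mem_union_right _ ((mem_orb ψ y _).2 ⟨_, prv_lt hi, rfl⟩)
      obtain ⟨h1, h2⟩ := hQ i hi
      constructor
      · rcases h1 with h | h | ⟨rfl, h⟩
        · exact ⟨_, hn, adj_nxt G ψ hψ y i, by rw [hcy _ (nxt_lt hi), h]⟩
        · exact ⟨_, hp, adj_prv G ψ hψ y i, by rw [hcy _ (prv_lt hi), h]⟩
        · exact ⟨x, hx0, hxy.symm, by rw [hcx0, h]⟩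
      · rcases h2 with h | h | ⟨rfl, h⟩ | ⟨h, h'⟩
        · exact Or.inl ⟨_, hn, adj_nxt G ψ hψ y i, by rw [hcy _ (nxt_lt hi), h]⟩
        · exact Or.inl ⟨_, hp, adj_prv G ψ hψ y i, by rw [hcy _ (prv_lt hi), h]⟩
        · exact Or.inl ⟨x, hx0, hxy.symm, by rw [hcx0, h]⟩
        · exact Or.inr ⟨by rw [hcy _ hi, h],
            Finset.mem_union_right _ (Finset.mem_image_of_mem _ h')⟩

/-- the pattern SSD repeated `a` times, then SSDD repeated -/
def pat (a i : ℕ) : Bool := if i < 3 * a then decide (i % 3 ≠ 2) else decide ((i - 3 * a) % 4 < 2)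

theorem pat_ok (a b p : ℕ) (hp : p = 3 * a + 4 * b) (i : ℕ) (hi : i < p) :
    (pat a (nxt p i) = true ∨ pat a (prv p i) = true) ∧
      (pat a (nxt p i) = false ∨ pat a (prv p i) = false ∨
        (pat a i = false ∧ i ∈ (Finset.range a).image (fun j => 3 * j + 2))) := by
  have hmem : i ∈ (Finset.range a).image (fun j => 3 * j + 2) ↔ i < 3 * a ∧ i % 3 = 2 := by
    simp only [Finset.mem_image, Finset.mem_range]
    constructor
    · rintro ⟨j, hj, rfl⟩
      omega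
    · rintro ⟨h1, h2⟩
      exact ⟨i / 3, by omega, by omega⟩
  rw [hmem]
  unfold pat nxt prv
  rcases Nat.eq_zero_or_pos a with rfl | ha <;> rcases Nat.eq_zero_or_pos b with rfl | hb <;>
    (try simp only [Nat.mul_zero, Nat.add_zero, Nat.zero_add, Nat.sub_zero] at hp ⊢) <;>
    subst hp <;>
    split_ifs <;> simp only [decide_eq_true_eq, decide_eq_false_iff_not] <;> omega

theorem exists_core (hconn : G.Connected) (h3 : ∀ v, G.degree v = 3) (ψ : V ≃ V)
    (hψ : ∀ v, G.Adj v (ψ v)) : ∃ K c₀ C, IsCore G ψ K c₀ C := by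
  classical
  have hne1 : ∀ x, minimalPeriod ψ x ≠ 1 := by
    intro x h
    have := minimalPeriod_eq_one_iff_isFixedPt.1 h
    exact (hψ x).ne this.eq.symm
  by_cases hA : ∃ x, minimalPeriod ψ x ≠ 2 ∧ minimalPeriod ψ x ≠ 5
  · obtain ⟨x, h2, h5⟩ := hA
    have h0 := period_pos ψ x
    have h1 := hne1 x
    obtain ⟨a, b, ha, hab⟩ : ∃ a b, a ≤ 3 ∧ minimalPeriod ψ x = 3 * a + 4 * b := by
      refine ⟨(4 - minimalPeriod ψ x % 4) % 4, (minimalPeriod ψ x - 3 * ((4 - minimalPeriod ψ x % 4) % 4)) / 4, ?_, ?_⟩ <;> omega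
    refine core_one G ψ hψ x (pat a) ((Finset.range a).image (fun j => 3 * j + 2)) ?_
      (fun i hi => pat_ok a b _ hab i hi)
    exact Finset.card_image_le.trans (by simpa using ha)
  · push Not at hA
    have hper : ∀ x, minimalPeriod ψ x = 2 ∨ minimalPeriod ψ x = 5 := by
      intro x
      by_cases h : minimalPeriod ψ x = 2
      · exact Or.inl h
      · exact Or.inr (hA x h)
    have hedge : ∃ x y, G.Adj x y ∧ y ∉ orb ψ x := by
      by_contra hcon
      push Not at hcon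
      obtain ⟨a⟩ := hconn.nonempty
      have hall : ∀ y, G.Reachable a y → ∃ i, ψ^[i] a = y := by
        intro y hy
        rw [SimpleGraph.reachable_iff_reflTransGen] at hy
        induction hy with
        | refl => exact ⟨0, rfl⟩
        | tail _ hadj ih =>
          obtain ⟨i, rfl⟩ := ih
          obtain ⟨j, _, hj⟩ := (mem_orb ψ _ _).1 (hcon _ _ hadj)
          exact ⟨j + i, by rw [iterate_add_apply, hj]⟩
      have huniv : orb ψ a = Finset.univ := by
        apply Finset.eq_univ_of_forall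
        intro y
        obtain ⟨i, rfl⟩ := hall y (hconn.preconnected a y)
        exact (mem_orb ψ a _).2 ⟨i % minimalPeriod ψ a, Nat.mod_lt _ (period_pos ψ a),
          iterate_mod_minimalPeriod_eq⟩
      have hcard : (orb ψ a).card = minimalPeriod ψ a := by
        unfold orb
        rw [Finset.card_image_of_injOn, Finset.card_range]
        intro i hi j hj h
        exact iter_inj ψ a (by simpa using hi) (by simpa using hj) h
      rw [huniv, Finset.card_univ] at hcard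
      have heven := SimpleGraph.sum_degrees_eq_twice_card_edges G
      rw [Finset.sum_congr rfl (g := fun _ => 3) (fun v _ => h3 v)] at heven
      simp only [Finset.sum_const, smul_eq_mul, Finset.card_univ] at heven
      have hlt := G.degree_lt_card_verts a
      rw [h3 a] at hlt
      rcases hper a with h | h <;> omega
    obtain ⟨x, y, hxy, hy⟩ := hedge
    have hinv : ∀ j v, ψ^[j] v ∈ orb ψ x → v ∈ orb ψ x := by
      intro j
      induction j with
      | zero => intro v hv; exact hv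
      | succ j ih =>
        intro v hv
        rw [iterate_succ_apply'] at hv
        exact ih v ((orb_inv ψ x _).2 hv)
    have hdis : ∀ i j, ψ^[i] x ≠ ψ^[j] y := by
      intro i j h
      apply hy
      apply hinv j
      rw [← h]
      exact (mem_orb ψ x _).2 ⟨i % minimalPeriod ψ x, Nat.mod_lt _ (period_pos ψ x),
          iterate_mod_minimalPeriod_eq⟩
    rcases hper x with hx | hx <;> rcases hper y with hy' | hy'
    · refine core_two G ψ hψ x y hxy hdis (fun i => decide (i = 0)) (fun i => decide (i = 0))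
        {1} {1} (by simp) ?_ ?_
      · rw [hx]; decide
      · rw [hy']; decide
    · refine core_two G ψ hψ x y hxy hdis (fun i => decide (i = 0))
        (fun i => decide (i = 0 ∨ i = 2 ∨ i = 3)) {1} {1, 4} (by simp) ?_ ?_
      · rw [hx]; decide
      · rw [hy']; decide
    · refine core_two G ψ hψ x y hxy hdis (fun i => decide (i = 0 ∨ i = 2 ∨ i = 3))
        (fun i => decide (i = 0)) {1, 4} {1} (by simp) ?_ ?_
      · rw [hx]; decide
      · rw [hy']; decide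
    · refine core_two G ψ hψ x y hxy hdis (fun i => decide (i = 2 ∨ i = 3))
        (fun i => decide (i = 0 ∨ i = 1 ∨ i = 4)) ∅ ∅ (by simp) ?_ ?_
      · rw [hx]; decide
      · rw [hy']; decide

/-- The cubic case. -/
theorem cubic (hconn : G.Connected) (h3 : ∀ v, G.degree v = 3) :
    ∃ S D : Finset V,
        (∀ v : V, ∃ u ∈ S, G.Adj v u) ∧
        2 * S.card ≤ Fintype.card V ∧
        Disjoint S D ∧
        (∀ v : V, v ∈ D ∨ ∃ u ∈ D, G.Adj v u) := by
  obtain ⟨ψ, hψ⟩ := exists_perm G h3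
  obtain ⟨K, c₀, C, hK, hinv, hC, hcore⟩ := exists_core G hconn h3 ψ hψ
  obtain ⟨c, hc0, hc⟩ := extend G hconn h3 ψ hψ K hK hinv c₀
  refine count G h3 c C hC ?_ ?_
  · intro v
    by_cases hv : v ∈ K
    · obtain ⟨⟨u, hu, hvu, hcu⟩, _⟩ := hcore v hv
      exact ⟨u, hvu, by rw [hc0 u hu, hcu]⟩
    · obtain ⟨u, _, hu, _, hcu, _⟩ := hc v hv
      exact ⟨u, hu, hcu⟩
  · intro v
    by_cases hv : v ∈ K
    · obtain ⟨_, ⟨u, hu, hvu, hcu⟩ | ⟨h1, h2⟩⟩ := hcore v hv
      · exact Or.inl ⟨u, hvu, by rw [hc0 u hu, hcu]⟩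
      · exact Or.inr ⟨by rw [hc0 v hv, h1], h2⟩
    · obtain ⟨_, w, _, hw, _, hcw⟩ := hc v hv
      exact Or.inl ⟨w, hw, hcw⟩

end Pool.Agent.Lib.MP_59216f_co
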