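import Pool.Agent.Lib.MP_59216f_co.PM

set_option autoImplicit false

namespace Pool.Agent.Lib.MP_59216f_co

open Finset

variable {ι : Type} [DecidableEq ι] {H : SimpleGraph ι}

/-- An odd alternating path from `u` to `l` with vertex set `E`, outside `K`, whose last vertex
`l` has a neighbour in `K`. -/
inductive Tail (H : SimpleGraph ι) (K : Finset ι) (l : ι) : ι → Finset ι → Prop
  | base : l ∉ K → (∃ y ∈ K, H.Adj l y) → Tail H K l l {l}
  | step {t u v : ι} {E : Finset ι} : Tail H K l t E → u ∉ E → v ∉ E → u ∉ K → v ∉ K →
      H.Adj u v → H.Adj v t → Tail H K l u (insert u (insert v E))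

variable {K : Finset ι} {l : ι}

theorem Tail.basic {u : ι} {E : Finset ι} (h : Tail H K l u E) :
    u ∈ E ∧ l ∈ E ∧ (∀ x ∈ E, x ∉ K) ∧ (∃ y ∈ K, H.Adj l y) ∧ PM H (E.erase u) ∧
      PM H (E.erase l) := by
  induction h with
  | base h1 h2 =>
    refine ⟨by simp, by simp, by simpa using h1, h2, ?_, ?_⟩ <;> simpa using PM.empty
  | @step t u v E _ hu hv huK hvK huv hvt ih =>
    obtain ⟨h1, h2, h3, h4, h5, h6⟩ := ih
    have hne := huv.ne
    refine ⟨by simp, by simp [h2], ?_, h4, ?_, ?_⟩
    · intro x hx
      simp only [Finset.mem_insert] at hx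
      rcases hx with rfl | rfl | hx
      · exact huK
      · exact hvK
      · exact h3 x hx
    · refine h5.add hvt (by simp [hv]) (by simp) ?_
      intro x
      simp only [Finset.mem_erase, Finset.mem_insert]
      grind
    · refine h6.add huv (by simp [hu]) (by simp [hv]) ?_
      intro x
      simp only [Finset.mem_erase, Finset.mem_insert]
      grind

theorem Tail.dichotomy {u : ι} {E : Finset ι} (h : Tail H K l u E) :
    ∀ s ∈ E, (PM H (E.erase s) ∧ ∃ E', E' ⊆ E ∧ Tail H K l s E' ∧ PM H (E \ E') ∧
        (s ≠ u → u ∉ E')) ∨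
      (s ≠ u ∧ s ≠ l ∧ u ≠ l ∧ PM H (((E.erase u).erase s).erase l)) := by
  induction h with
  | base h1 h2 =>
    intro s hs
    have : s = l := by simpa using hs
    subst this
    left
    refine ⟨by simpa using PM.empty, {s}, subset_refl _, Tail.base h1 h2,
      by simpa using PM.empty, fun h => absurd rfl h⟩
  | @step t u v E hT hu hv huK hvK huv hvt ih =>
    intro s hs
    have hne := huv.ne
    obtain ⟨h1, h2, h3, h4, h5, h6⟩ := hT.basic
    have hT' := Tail.step hT hu hv huK hvK huv hvt
    by_cases hsu : s = u
    · subst hsu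
      left
      exact ⟨hT'.basic.2.2.2.2.1, _, subset_refl _, hT', by simpa using PM.empty,
        fun h => absurd rfl h⟩
    by_cases hsv : s = v
    · subst hsv
      right
      refine ⟨hsu, fun h => hv (h ▸ h2), fun h => hu (h ▸ h2), h6.congr ?_⟩
      intro x
      simp only [Finset.mem_erase, Finset.mem_insert]
      grind
    have hsE : s ∈ E := by simpa [hsu, hsv] using hs
    rcases ih s hsE with ⟨p1, E', p2, p3, p4, _⟩ | ⟨p1, p2, p3, p4⟩
    · left
      refine ⟨p1.add huv (by simp [hu]) (by simp [hv]) ?_, E', ?_, p3,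
        p4.add huv (by simp [hu]) (by simp [hv]) ?_, fun _ h => hu (p2 h)⟩
      · intro x
        simp only [Finset.mem_erase, Finset.mem_insert]
        grind
      · intro x hx
        simp [p2 hx]
      · intro x
        have := @p2 x
        have := @p2 u
        have := @p2 v
        simp only [Finset.mem_sdiff, Finset.mem_insert]
        grind
    · right
      refine ⟨hsu, p2, fun h => hu (h ▸ h2), p4.add hvt (by simp [hv]) (by simp) ?_⟩
      intro x
      simp only [Finset.mem_erase, Finset.mem_insert]
      grind

theorem exists_tail (n : ℕ) : ∀ (U : Finset ι) (u : ι), U.card = n → u ∉ U → u ∉ K →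
    (∀ x ∈ U, x ∉ K) → PM H U → PM H (K ∪ insert u U) →
    ∃ l E, Tail H K l u E ∧ E ⊆ insert u U ∧ PM H (insert u U \ E) := by
  induction n using Nat.strong_induction_on with
  | _ n ih =>
  intro U u hn huU huK hUK hU hKU
  obtain ⟨t, hut, ht, hPM⟩ := hKU.extract u (by simp)
  have hne := hut.ne
  by_cases htK : t ∈ K
  · refine ⟨u, {u}, Tail.base huK ⟨t, htK, hut⟩, by simp, hU.congr ?_⟩
    intro x
    simp only [Finset.mem_sdiff, Finset.mem_insert, Finset.mem_singleton]
    grind
  · have htU : t ∈ U := by
      simp only [Finset.mem_union, Finset.mem_insert] at ht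
      grind
    obtain ⟨u', htu', hu', hPM'⟩ := hU.extract t htU
    have hne' := htu'.ne
    have hlt : ((U.erase t).erase u').card < n := by
      have h1 := Finset.card_erase_le (s := U.erase t) (a := u')
      rw [Finset.card_erase_of_mem htU] at h1
      have := Finset.card_pos.2 ⟨t, htU⟩
      omega
    obtain ⟨l, E, hT, hE, hrest⟩ := ih _ hlt ((U.erase t).erase u') u' rfl (by simp) (hUK u' hu')
      (fun x hx => hUK x (Finset.mem_of_mem_erase (Finset.mem_of_mem_erase hx))) hPM'
      (hPM.congr (by
        intro x
        have := hUK x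
        simp only [Finset.mem_erase, Finset.mem_insert, Finset.mem_union]
        grind))
    have huE : u ∉ E := by
      intro h
      have := hE h
      simp only [Finset.mem_erase, Finset.mem_insert] at this
      grind
    have htE : t ∉ E := by
      intro h
      have := hE h
      simp only [Finset.mem_erase, Finset.mem_insert] at this
      grind
    refine ⟨l, _, Tail.step hT huE htE huK htK hut htu', ?_, hrest.congr ?_⟩
    · intro x hx
      have := @hE x
      simp only [Finset.mem_erase, Finset.mem_insert] at this hx ⊢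
      grind
    · intro x
      simp only [Finset.mem_erase, Finset.mem_insert, Finset.mem_sdiff]
      grind

theorem fc_extend (hK : FC H K) {x w u : ι} {E : Finset ι} (hx : x ∈ K) (hwK : w ∉ K)
    (hwE : w ∉ E) (hwx : H.Adj w x) (hwu : H.Adj w u) (hT : Tail H K l u E) :
    FC H (K ∪ insert w E) := by
  obtain ⟨h1, h2, h3, ⟨y, hy, hly⟩, h5, h6⟩ := hT.basic
  have hlK := h3 l h2
  have hwE' : PM H (insert w E) := by
    refine h5.add hwu (by simp [hwE]) (by simp) ?_
    intro z
    simp only [Finset.mem_erase, Finset.mem_insert]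
    grind
  have hKl : PM H (insert l K) := by
    refine (hK.2 y hy).add hly (by simp [hlK]) (by simp) ?_
    intro z
    simp only [Finset.mem_erase, Finset.mem_insert]
    grind
  have hKw : PM H (insert w K) := by
    refine (hK.2 x hx).add hwx (by simp [hwK]) (by simp) ?_
    intro z
    simp only [Finset.mem_erase, Finset.mem_insert]
    grind
  refine ⟨⟨x, by simp [hx]⟩, fun z hz => ?_⟩
  by_cases hzK : z ∈ K
  · refine (hK.2 z hzK).union hwE' ?_ ?_
    · intro a ha
      have := h3 a
      simp only [Finset.mem_erase, Finset.mem_insert] at ha ⊢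
      grind
    · intro a
      have := h3 a
      simp only [Finset.mem_erase, Finset.mem_insert, Finset.mem_union]
      grind
  by_cases hzw : z = w
  · subst hzw
    refine hKl.union h6 ?_ ?_
    · intro a ha
      have := h3 a
      simp only [Finset.mem_erase, Finset.mem_insert] at ha ⊢
      grind
    · intro a
      have := h3 a
      simp only [Finset.mem_erase, Finset.mem_insert, Finset.mem_union]
      grind
  have hzE : z ∈ E := by
    simp only [Finset.mem_union, Finset.mem_insert] at hz
    grind
  rcases hT.dichotomy z hzE with ⟨p1, _⟩ | ⟨p1, p2, p3, p4⟩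
  · refine hKw.union p1 ?_ ?_
    · intro a ha
      have := h3 a
      simp only [Finset.mem_erase, Finset.mem_insert] at ha ⊢
      grind
    · intro a
      have := h3 a
      simp only [Finset.mem_erase, Finset.mem_insert, Finset.mem_union]
      grind
  · have p5 : PM H (insert w ((E.erase z).erase l)) := by
      refine p4.add hwu (by simp [hwE]) (by simp) ?_
      intro a
      simp only [Finset.mem_erase, Finset.mem_insert]
      grind
    refine hKl.union p5 ?_ ?_
    · intro a ha
      have := h3 a
      simp only [Finset.mem_erase, Finset.mem_insert] at ha ⊢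
      grind
    · intro a
      have := h3 a
      simp only [Finset.mem_erase, Finset.mem_insert, Finset.mem_union]
      grind

/-- A maximal nice factor-critical proper subset containing a given nice factor-critical proper
subset. -/
theorem exists_max_fc {X L : Finset ι} (hL : FC H L) (hLX : L ⊆ X) (hne : L ≠ X)
    (hPM : PM H (X \ L)) :
    ∃ K, L ⊆ K ∧ K ⊆ X ∧ K ≠ X ∧ FC H K ∧ PM H (X \ K) ∧
      ∀ K', K ⊆ K' → K' ⊆ X → FC H K' → PM H (X \ K') → K' = K ∨ K' = X := by
  classical
  have hne' : (X.powerset.filter (fun K => L ⊆ K ∧ K ≠ X ∧ FC H K ∧ PM H (X \ K))).Nonempty :=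
    ⟨L, by simp [hLX, hne, hL, hPM]⟩
  obtain ⟨K, hK, hmax⟩ := Finset.exists_max_image _ Finset.card hne'
  simp only [Finset.mem_filter, Finset.mem_powerset] at hK hmax
  refine ⟨K, hK.2.1, hK.1, hK.2.2.1, hK.2.2.2.1, hK.2.2.2.2, ?_⟩
  intro K' h1 h2 h3 h4
  by_cases h : K' = X
  · exact Or.inr h
  · left
    have := hmax K' ⟨h2, hK.2.1.trans h1, h, h3, h4⟩
    exact (Finset.eq_of_subset_of_card_le h1 this).symm

end Pool.Agent.Lib.MP_59216f_co
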