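import Pool.Agent.Lib.MP_59216f_co.GRepair

set_option autoImplicit false
set_option linter.unusedSectionVars false

namespace Pool.Agent.Lib.MP_59216f_co.TD

open Finset

variable {V : Type} [Fintype V] [DecidableEq V] {R : V → V → Prop}

theorem AISol.mono {X A TR : Finset V} {k l : ℕ} (h : AISol R X A TR k) (hkl : k ≤ l) :
    AISol R X A TR l := by
  obtain ⟨T, Pk, sv, h1, h2, h3, h4, h5, h6, h7, h8⟩ := h
  exact ⟨T, Pk, sv, h1, h2, h3, h4, h5, h6, h7, h8.trans hkl⟩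

/-- Assembling. `S0 = SR ∪ T ∪ Pk`; servers: `sv x` for `x ∈ X`; a member of `SR` for `a ∈ TR`;
a member of `Pk` for the other `a ∈ A`; a member of `SR` or of `TR` for the rest. Bad vertices
lie in `T \ TR` and have at most one client; `repair1`. -/
theorem assemble (hs : Sy R) (h3 : Three R) {X A SR TR : Finset V} {k : ℕ} (hXA : Disjoint X A)
    (hSR : ∀ r ∈ SR, r ∉ X ∧ r ∉ A)
    (h1 : ∀ r, r ∉ X → r ∉ A → (∃ u ∈ SR, R r u) ∨ (r ∈ SR ∧ ∃ a ∈ A, R r a))
    (h2 : ∀ r ∈ SR, ∃ u, u ∉ X ∧ u ∉ A ∧ u ∉ SR ∧ R r u)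
    (hTR : ∀ a, a ∈ TR ↔ a ∈ A ∧ ∃ r ∈ SR, R a r) (hai : AISol R X A TR k) :
    ∃ S, Valid R S ∧ S.card ≤ SR.card + k := by
  obtain ⟨T, Pk, sv, hT1, hT2, hPk, hsv, hA, hP, hT, hk⟩ := hai
  have hXA' : ∀ v ∈ X, v ∉ A := fun v hv => disjoint_left.1 hXA hv
  have hex : ∀ v, ∃ u, (v ∈ X → u = sv v) ∧ (v ∉ X → u ∈ SR ∨ u ∈ Pk ∨ u ∈ TR) ∧ R v u := by
    intro v
    by_cases hvX : v ∈ X
    · exact ⟨sv v, fun _ => rfl, fun h => absurd hvX h, (hsv v hvX).2⟩
    by_cases hvA : v ∈ A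
    · by_cases hvT : v ∈ TR
      · obtain ⟨r, hr, hvr⟩ := ((hTR v).1 hvT).2
        exact ⟨r, fun h => absurd h hvX, fun _ => Or.inl hr, hvr⟩
      · obtain ⟨x, hx, hxv⟩ := hA v hvA hvT
        exact ⟨x, fun h => absurd h hvX, fun _ => Or.inr (Or.inl hx), hs _ _ hxv⟩
    · rcases h1 v hvX hvA with ⟨u, hu, hvu⟩ | ⟨hv, a, ha, hva⟩
      · exact ⟨u, fun h => absurd h hvX, fun _ => Or.inl hu, hvu⟩
      · exact ⟨a, fun h => absurd h hvX,
          fun _ => Or.inr (Or.inr ((hTR a).2 ⟨ha, v, hv, hs _ _ hva⟩)), hva⟩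
  choose σ hσ1 hσ2 hσ3 using hex
  have hmem : ∀ u, u ∈ SR ∪ T ∪ Pk ↔ u ∈ SR ∨ u ∈ T ∨ u ∈ Pk := by
    intro u
    simp only [mem_union, or_assoc]
  obtain ⟨S, hS, hcard⟩ := repair1 hs h3 (SR ∪ T ∪ Pk) σ (fun v => by
      refine ⟨(hmem _).2 ?_, hσ3 v⟩
      by_cases hvX : v ∈ X
      · rw [hσ1 v hvX]
        exact Or.inr (Or.inl (hsv v hvX).1)
      · rcases hσ2 v hvX with h | h | h
        · exact Or.inl h
        · exact Or.inr (Or.inr h)
        · exact Or.inr (Or.inl (hT1 h))) (by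
      intro b hb hbad v v' hv hv'
      rcases (hmem b).1 hb with hb | hb | hb
      · obtain ⟨u, hu1, hu2, hu3, hbu⟩ := h2 b hb
        rcases (hmem u).1 (hbad u hbu) with h | h | h
        · exact absurd h hu3
        · exact absurd (hT2 h) hu2
        · exact absurd (hPk h) hu1
      · rcases hT b hb with ⟨x, hx, hxP, hxb⟩ | ⟨hbT, huniq⟩
        · rcases (hmem x).1 (hbad x (hs _ _ hxb)) with h | h | h
          · exact absurd hx (hSR x h).1
          · exact absurd (hT2 h) (hXA' x hx)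
          · exact absurd h hxP
        · have hcl : ∀ w, σ w = b → w ∈ X := by
            intro w hw
            by_contra hwX
            rcases hσ2 w hwX with h | h | h
            · rw [hw] at h
              exact (hSR b h).2 (hT2 hb)
            · rw [hw] at h
              exact hXA' b (hPk h) (hT2 hb)
            · rw [hw] at h
              exact hbT h
          have h3v := hcl v hv
          have h3v' := hcl v' hv'
          exact huniq v h3v v' h3v' ((hσ1 v h3v).symm.trans hv) ((hσ1 v' h3v').symm.trans hv')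
      · obtain ⟨a, ha, haT, hba⟩ := hP b hb
        rcases (hmem a).1 (hbad a hba) with h | h | h
        · exact absurd ha (hSR a h).2
        · exact absurd h haT
        · exact absurd ha (hXA' a (hPk h)))
  refine ⟨S, hS, hcard.trans ?_⟩
  have c1 := card_union_le (SR ∪ T) Pk
  have c2 := card_union_le SR T
  omega

/-- Removing one row and two points leaves a perfect matching (`hall_bij`). -/
theorem hall_two {X : Finset V} (ht : (nb R X).card = X.card + 1)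
    (hmin : ∀ X' ⊆ X, X'.Nonempty → X' ≠ X → X'.card + 2 ≤ (nb R X').card)
    {x0 d d' : V} (hx0 : x0 ∈ X) (hd : d ∈ nb R X) (hd' : d' ∈ nb R X) (hne : d ≠ d') :
    ∃ ι μ : V → V,
      (∀ x ∈ X.erase x0, ι x ∈ ((nb R X).erase d).erase d' ∧ R x (ι x) ∧ μ (ι x) = x) ∧
      ∀ a ∈ ((nb R X).erase d).erase d', μ a ∈ X.erase x0 ∧ ι (μ a) = a := by
  refine hall_bij (R := R) (X.erase x0) (((nb R X).erase d).erase d') ?_ ?_
  · intro U hU
    rcases U.eq_empty_or_nonempty with rfl | hne'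
    · simp
    · have hUX : U ⊆ X := hU.trans (erase_subset _ _)
      have h2 := hmin U hUX hne' (by
        intro e
        exact notMem_erase x0 X (hU (e ▸ hx0)))
      have hsub : ((nb R U).erase d).erase d' ⊆ nb R U ∩ ((nb R X).erase d).erase d' := by
        intro w hw
        obtain ⟨h3, h4⟩ := mem_erase.1 hw
        obtain ⟨h5, h6⟩ := mem_erase.1 h4
        obtain ⟨v, hv, hvw⟩ := mem_nb.1 h6
        exact mem_inter.2 ⟨h6, mem_erase.2 ⟨h3, mem_erase.2 ⟨h5, mem_nb.2 ⟨v, hUX hv, hvw⟩⟩⟩⟩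
      have c1 := card_le_card hsub
      have c2 := pred_card_le_card_erase (s := (nb R U).erase d) (a := d')
      have c3 := pred_card_le_card_erase (s := nb R U) (a := d)
      omega
  · rw [card_erase_of_mem (mem_erase.2 ⟨hne.symm, hd'⟩), card_erase_of_mem hd,
      card_erase_of_mem hx0, ht]
    omega

/-- Every row has at most one point outside `TR`, so at least two in `TR`. Take a row `x0` with
points `τ1 ≠ τ2` in `TR`, `hall_two`; `T = TR`, `Pk = (nb R X \ TR).image μ`. -/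
theorem v1 (h3 : Three R) {X TR : Finset V} (hX : X.Nonempty) (ht : (nb R X).card = X.card + 1)
    (hmin : ∀ X' ⊆ X, X'.Nonempty → X' ≠ X → X'.card + 2 ≤ (nb R X').card)
    (hTR : TR ⊆ nb R X)
    (hone : ∀ x ∈ X, ∀ d d', R x d → R x d' → d ∉ TR → d' ∉ TR → d = d') :
    AISol R X (nb R X) TR (X.card + 1) := by
  have htwo : ∀ x ∈ X, ∃ a b, a ≠ b ∧ a ∈ TR ∧ b ∈ TR ∧ R x a ∧ R x b := by
    intro x hx
    obtain ⟨a, b, c, ha, hb, hc, hab, hac, hbc⟩ := h3 x
    by_cases haT : a ∈ TR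
    · by_cases hbT : b ∈ TR
      · exact ⟨a, b, hab, haT, hbT, ha, hb⟩
      · by_cases hcT : c ∈ TR
        · exact ⟨a, c, hac, haT, hcT, ha, hc⟩
        · exact absurd (hone x hx b c hb hc hbT hcT) hbc
    · by_cases hbT : b ∈ TR
      · by_cases hcT : c ∈ TR
        · exact ⟨b, c, hbc, hbT, hcT, hb, hc⟩
        · exact absurd (hone x hx a c ha hc haT hcT) hac
      · exact absurd (hone x hx a b ha hb haT hbT) hab
  have hsv : ∀ x, ∃ a, x ∈ X → a ∈ TR ∧ R x a := by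
    intro x
    by_cases hx : x ∈ X
    · obtain ⟨a, b, -, ha, -, hxa, -⟩ := htwo x hx
      exact ⟨a, fun _ => ⟨ha, hxa⟩⟩
    · exact ⟨x, fun h => absurd h hx⟩
  choose sv hsv using hsv
  obtain ⟨x0, hx0⟩ := hX
  obtain ⟨τ1, τ2, hne, h1T, h2T, hx1, hx2⟩ := htwo x0 hx0
  obtain ⟨ι, μ, hι, hμ⟩ := hall_two ht hmin hx0 (hTR h1T) (hTR h2T) hne
  have hQ : ∀ a ∈ nb R X, a ∉ TR → a ∈ ((nb R X).erase τ1).erase τ2 := by
    intro a ha haT
    refine mem_erase.2 ⟨?_, mem_erase.2 ⟨?_, ha⟩⟩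
    · rintro rfl
      exact haT h2T
    · rintro rfl
      exact haT h1T
  have hR : ∀ a ∈ ((nb R X).erase τ1).erase τ2, R (μ a) a := by
    intro a ha
    have h := (hι (μ a) (hμ a ha).1).2.1
    rwa [(hμ a ha).2] at h
  refine ⟨TR, (nb R X \ TR).image μ, sv, Subset.refl _, hTR, ?_, hsv, ?_, ?_, ?_, ?_⟩
  · intro x hx
    obtain ⟨a, ha, rfl⟩ := mem_image.1 hx
    exact mem_of_mem_erase (hμ a (hQ a (mem_sdiff.1 ha).1 (mem_sdiff.1 ha).2)).1
  · intro a ha haT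
    exact ⟨μ a, mem_image_of_mem μ (mem_sdiff.2 ⟨ha, haT⟩), hR a (hQ a ha haT)⟩
  · intro x hx
    obtain ⟨a, ha, rfl⟩ := mem_image.1 hx
    exact ⟨a, (mem_sdiff.1 ha).1, (mem_sdiff.1 ha).2,
      hR a (hQ a (mem_sdiff.1 ha).1 (mem_sdiff.1 ha).2)⟩
  · intro τ hτ
    left
    have hx0P : x0 ∉ (nb R X \ TR).image μ := by
      intro h
      obtain ⟨a, ha, hax⟩ := mem_image.1 h
      have := (hμ a (hQ a (mem_sdiff.1 ha).1 (mem_sdiff.1 ha).2)).1
      rw [hax] at this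
      exact notMem_erase x0 X this
    by_cases e1 : τ = τ1
    · exact ⟨x0, hx0, hx0P, e1 ▸ hx1⟩
    by_cases e2 : τ = τ2
    · exact ⟨x0, hx0, hx0P, e2 ▸ hx2⟩
    have hτQ : τ ∈ ((nb R X).erase τ1).erase τ2 := mem_erase.2 ⟨e2, mem_erase.2 ⟨e1, hTR hτ⟩⟩
    refine ⟨μ τ, mem_of_mem_erase (hμ τ hτQ).1, ?_, hR τ hτQ⟩
    intro h
    obtain ⟨a, ha, hax⟩ := mem_image.1 h
    have h5 := (hμ a (hQ a (mem_sdiff.1 ha).1 (mem_sdiff.1 ha).2)).2
    rw [hax, (hμ τ hτQ).2] at h5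
    exact (mem_sdiff.1 ha).2 (h5 ▸ hτ)
  · have c1 : ((nb R X \ TR).image μ).card ≤ (nb R X \ TR).card := card_image_le
    have c2 := card_sdiff_add_card_eq_card hTR
    omega

end Pool.Agent.Lib.MP_59216f_co.TD
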