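import Pool.Agent.Lib.MP_59216f_co.GDefs

set_option autoImplicit false
set_option linter.unusedSectionVars false

namespace Pool.Agent.Lib.MP_59216f_co.TD

open Finset

variable {V : Type} [Fintype V] [DecidableEq V] {R : V → V → Prop}

/-- Key count: with `X = Y \ nb Y` (independent), `nb Y` contains the disjoint sets `nb X` and
`Y ∩ nb Y`. So either `Y ⊆ nb Y` or `|Y| + k ≤ |nb Y|`. -/
theorem sur_dich (hs : Sy R) {k : ℕ} (h : Sur R k) (Y : Finset V) :
    Y ⊆ nb R Y ∨ Y.card + k ≤ (nb R Y).card := by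
  classical
  by_cases hX : (Y \ nb R Y).Nonempty
  · right
    have hI : Indep R (Y \ nb R Y) := by
      intro x hx y hy hxy
      exact (mem_sdiff.1 hy).2 (mem_nb.2 ⟨x, (mem_sdiff.1 hx).1, hxy⟩)
    have h1 := h _ hX hI
    have hdis : Disjoint (nb R (Y \ nb R Y)) (Y ∩ nb R Y) := by
      rw [disjoint_left]
      intro w hw hw'
      obtain ⟨x, hx, hxw⟩ := mem_nb.1 hw
      exact (mem_sdiff.1 hx).2 (mem_nb.2 ⟨w, (mem_inter.1 hw').1, hs _ _ hxw⟩)
    have hsub : nb R (Y \ nb R Y) ∪ (Y ∩ nb R Y) ⊆ nb R Y := by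
      intro w hw
      rcases mem_union.1 hw with hw | hw
      · obtain ⟨x, hx, hxw⟩ := mem_nb.1 hw
        exact mem_nb.2 ⟨x, (mem_sdiff.1 hx).1, hxw⟩
      · exact (mem_inter.1 hw).2
    have h2 := card_le_card hsub
    rw [card_union_of_disjoint hdis] at h2
    have h3 := card_sdiff_add_card_inter Y (nb R Y)
    omega
  · left
    intro y hy
    by_contra hn
    exact hX ⟨y, mem_sdiff.2 ⟨hy, hn⟩⟩

/-- Full indecomposability. -/
theorem fi (hs : Sy R) (h1 : Sur R 1) (hc : Conn R) {Y : Finset V} (hY : Y.Nonempty)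
    (hne : Y ≠ univ) : Y.card + 1 ≤ (nb R Y).card := by
  rcases sur_dich hs h1 Y with h | h
  · by_contra hn
    have e : Y = nb R Y := eq_of_subset_of_card_le h (by omega)
    apply hne
    apply hc Y hY
    intro v hv w hvw
    rw [e]
    exact mem_nb.2 ⟨v, hv, hvw⟩
  · exact h

/-- Expansion under surplus two. -/
theorem exp2 (hs : Sy R) (h2 : Sur R 2) {Y : Finset V} (h : (nb R Y).card ≤ Y.card + 1) :
    Y ⊆ nb R Y := by
  rcases sur_dich hs h2 Y with h' | h'
  · exact h'
  · omega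

/-- A nonempty proper set of rows has a neighbour outside the image of any map. -/
theorem fi_exp (hs : Sy R) (h1 : Sur R 1) (hc : Conn R) {U : Finset V} (hU : U.Nonempty)
    (hne : U ≠ univ) (m : V → V) : ∃ v ∈ U, ∃ w, R v w ∧ w ∉ U.image m := by
  have h := fi hs h1 hc hU hne
  have h2 : (U.image m).card ≤ U.card := card_image_le
  have h3 : ¬ nb R U ⊆ U.image m := fun hsub => by
    have := card_le_card hsub
    omega
  obtain ⟨w, hw, hw'⟩ := not_subset.1 h3
  obtain ⟨v, hv, hvw⟩ := mem_nb.1 hw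
  exact ⟨v, hv, w, hvw, hw'⟩

/-- Hall theorem for a relation between two finsets. -/
theorem hall_inj (P Q : Finset V) (h : ∀ U ⊆ P, U.card ≤ (nb R U ∩ Q).card) :
    ∃ ι : V → V, Set.InjOn ι (P : Set V) ∧ ∀ x ∈ P, ι x ∈ Q ∧ R x (ι x) := by
  classical
  let t : P → Finset V := fun x => nb R {x.1} ∩ Q
  have hall : ∀ s : Finset P, s.card ≤ (s.biUnion t).card := by
    intro s
    have h1 := h (s.map (Function.Embedding.subtype _)) (by
      intro x hx
      obtain ⟨y, _, rfl⟩ := mem_map.1 hx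
      exact y.2)
    rw [card_map] at h1
    refine h1.trans (card_le_card ?_)
    intro w hw
    obtain ⟨hw1, hw2⟩ := mem_inter.1 hw
    obtain ⟨v, hv, hvw⟩ := mem_nb.1 hw1
    obtain ⟨y, hy, rfl⟩ := mem_map.1 hv
    exact mem_biUnion.2 ⟨y, hy, mem_inter.2 ⟨mem_nb.2 ⟨y.1, mem_singleton_self _, hvw⟩, hw2⟩⟩
  obtain ⟨f, hf, hmem⟩ := (Finset.all_card_le_biUnion_card_iff_exists_injective t).1 hall
  refine ⟨fun x => if hx : x ∈ P then f ⟨x, hx⟩ else x, ?_, ?_⟩
  · intro x hx y hy e
    have hx' : x ∈ P := hx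
    have hy' : y ∈ P := hy
    simp only [hx', hy', dif_pos] at e
    exact congrArg Subtype.val (hf e)
  · intro x hx
    have := mem_inter.1 (hmem ⟨x, hx⟩)
    obtain ⟨v, hv, hvw⟩ := mem_nb.1 this.1
    rw [mem_singleton] at hv
    subst hv
    simp only [hx, dif_pos]
    exact ⟨this.2, hvw⟩

/-- Hall theorem, bijective form with the inverse map. -/
theorem hall_bij (P Q : Finset V) (h : ∀ U ⊆ P, U.card ≤ (nb R U ∩ Q).card)
    (hcard : Q.card ≤ P.card) :
    ∃ ι μ : V → V, (∀ x ∈ P, ι x ∈ Q ∧ R x (ι x) ∧ μ (ι x) = x) ∧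
      ∀ a ∈ Q, μ a ∈ P ∧ ι (μ a) = a := by
  classical
  obtain ⟨ι, hinj, hι⟩ := hall_inj P Q h
  have hsur : ∀ a ∈ Q, ∃ x ∈ P, ι x = a := by
    have e : P.image ι = Q := by
      apply eq_of_subset_of_card_le
      · intro a ha
        obtain ⟨x, hx, rfl⟩ := mem_image.1 ha
        exact (hι x hx).1
      · rw [card_image_of_injOn hinj]
        exact hcard
    intro a ha
    rw [← e] at ha
    exact mem_image.1 ha
  refine ⟨ι, fun a => if ha : a ∈ Q then (hsur a ha).choose else a, ?_, ?_⟩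
  · intro x hx
    have hq := (hι x hx).1
    refine ⟨hq, (hι x hx).2, ?_⟩
    simp only [hq, dif_pos]
    have := (hsur _ hq).choose_spec
    exact hinj this.1 hx this.2
  · intro a ha
    simp only [ha, dif_pos]
    exact (hsur _ ha).choose_spec

/-- The graph minus any vertex has a permutation along edges. -/
theorem cov_erase (hs : Sy R) (h1 : Sur R 1) (hc : Conn R) (z : V) : Cov R (univ.erase z) := by
  have h : ∀ U ⊆ univ.erase z, U.card ≤ (nb R U ∩ univ.erase z).card := by
    intro U hU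
    rcases U.eq_empty_or_nonempty with rfl | hne
    · simp
    · have h2 := fi hs h1 hc hne (by
        intro e
        have : z ∈ U := e ▸ mem_univ z
        exact notMem_erase z univ (hU this))
      have h3 : nb R U ∩ univ.erase z = (nb R U).erase z := by
        ext w
        simp [and_comm]
      rw [h3]
      have := pred_card_le_card_erase (s := nb R U) (a := z)
      omega
  obtain ⟨ι, hinj, hι⟩ := hall_inj _ _ h
  exact ⟨ι, hinj, hι⟩

theorem covL_single (hs : Sy R) (h1 : Sur R 1) (hc : Conn R) (z : V) : CovL R [z] := by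
  refine ⟨List.nodup_singleton z, ?_⟩
  have e : (univ \ [z].toFinset : Finset V) = univ.erase z := by
    ext w
    simp
  rw [e]
  exact cov_erase hs h1 hc z

/-- A third neighbour. -/
theorem Three.third (h3 : Three R) (v p q : V) : ∃ w, R v w ∧ w ≠ p ∧ w ≠ q := by
  obtain ⟨a, b, c, ha, hb, hc, hab, hac, hbc⟩ := h3 v
  by_cases h1 : a ≠ p ∧ a ≠ q
  · exact ⟨a, ha, h1⟩
  by_cases h2 : b ≠ p ∧ b ≠ q
  · exact ⟨b, hb, h2⟩
  refine ⟨c, hc, ?_⟩
  rw [not_and_or, not_not, not_not] at h1 h2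
  constructor
  · rintro rfl
    rcases h1 with h1 | h1
    · exact hac h1
    · rcases h2 with h2 | h2
      · exact hbc h2
      · exact hab (h1.trans h2.symm)
  · rintro rfl
    rcases h1 with h1 | h1
    · rcases h2 with h2 | h2
      · exact hab (h1.trans h2.symm)
      · exact hbc h2
    · exact hac h1

/-- Shrinking a neighbourhood to three elements containing two prescribed neighbours. -/
theorem Three.sub (h3 : Three R) {x p q : V} (hp : R x p) (hq : R x q) :
    ∃ e : Finset V, e.card = 3 ∧ p ∈ e ∧ q ∈ e ∧ ∀ w ∈ e, R x w := by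
  have key : ∀ p q : V, R x p → R x q → p ≠ q →
      ∃ e : Finset V, e.card = 3 ∧ p ∈ e ∧ q ∈ e ∧ ∀ w ∈ e, R x w := by
    intro p q hp hq hne
    obtain ⟨w, hw, h1, h2⟩ := h3.third x p q
    refine ⟨{p, q, w}, card_eq_three.2 ⟨p, q, w, hne, h1.symm, h2.symm, rfl⟩, by simp, by simp, ?_⟩
    intro y hy
    simp only [mem_insert, mem_singleton] at hy
    rcases hy with rfl | rfl | rfl <;> assumption
  by_cases hpq : p = q
  · subst hpq
    obtain ⟨w, hw, h1, _⟩ := h3.third x p p
    obtain ⟨e, h1, h2, _, h4⟩ := key p w hp hw h1.symm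
    exact ⟨e, h1, h2, h2, h4⟩
  · exact key p q hp hq hpq

end Pool.Agent.Lib.MP_59216f_co.TD
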