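import Pool.Agent.Lib.MP_59216f_co.GList

set_option autoImplicit false
set_option linter.unusedSectionVars false

namespace Pool.Agent.Lib.MP_59216f_co.TD

open Finset

variable {V : Type} [Fintype V] [DecidableEq V] {R : V → V → Prop}

namespace Ear

omit [Fintype V] [DecidableEq V]

/-- The list `[v1, ν v1, ..., vk, ν vk]`. -/
def pl (ν : V → V) : List V → List V
  | [] => []
  | v :: l => v :: ν v :: pl ν l

theorem pl_append (ν : V → V) (a b : List V) : pl ν (a ++ b) = pl ν a ++ pl ν b := by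
  induction a with
  | nil => rfl
  | cons v a ih => simp only [List.cons_append, pl, ih]

theorem pl_even (ν : V → V) (a : List V) : Even (pl ν a).length := by
  induction a with
  | nil => simp [pl]
  | cons v a ih =>
    obtain ⟨k, hk⟩ := ih
    exact ⟨k + 1, by simp only [pl, List.length_cons]; omega⟩

theorem mem_pl {ν : V → V} {a : List V} {w : V} : w ∈ pl ν a ↔ ∃ u ∈ a, w = u ∨ w = ν u := by
  induction a with
  | nil => simp [pl]
  | cons v a ih =>
    simp only [pl, List.mem_cons, ih]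
    constructor
    · rintro (h | h | ⟨u, hu, h⟩)
      · exact ⟨v, Or.inl rfl, Or.inl h⟩
      · exact ⟨v, Or.inl rfl, Or.inr h⟩
      · exact ⟨u, Or.inr hu, h⟩
    · rintro ⟨u, rfl | hu, h⟩
      · rcases h with h | h
        · exact Or.inl h
        · exact Or.inr (Or.inl h)
      · exact Or.inr (Or.inr ⟨u, hu, h⟩)

theorem pl_closed {ν : V → V} {L us : List V}
    (hν : ∀ v, v ∉ L → ν v ∉ L ∧ ν v ≠ v ∧ ν (ν v) = v ∧ R v (ν v))
    (hus : ∀ w ∈ us, w ∉ L) {v : V} (hv : v ∉ L) (h : ν v ∈ pl ν us) : v ∈ pl ν us := by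
  obtain ⟨u, hu, e | e⟩ := mem_pl.1 h
  · exact mem_pl.2 ⟨u, hu, Or.inr (by rw [← e, (hν v hv).2.2.1])⟩
  · refine mem_pl.2 ⟨u, hu, Or.inl ?_⟩
    rw [← (hν v hv).2.2.1, e, (hν u (hus u hu)).2.2.1]

end Ear

theorem Ear.cover_pl {ν : V → V} {L us : List V} (hL : L.Nodup)
    (hν : ∀ v, v ∉ L → ν v ∉ L ∧ ν v ≠ v ∧ ν (ν v) = v ∧ R v (ν v))
    (hus : ∀ w ∈ us, w ∉ L) (hn : (Ear.pl ν us).Nodup) : Cover R (Ear.pl ν us ++ L) := by
  refine ⟨List.nodup_append.2 ⟨hn, hL, fun a ha b hb e => ?_⟩, ν, fun v hv => ?_⟩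
  · subst e
    obtain ⟨u, hu, e | e⟩ := Ear.mem_pl.1 ha
    · exact hus u hu (e ▸ hb)
    · exact (hν u (hus u hu)).1 (e ▸ hb)
  · simp only [mem_sdiff, mem_univ, List.mem_toFinset, true_and, List.mem_append,
      not_or] at hv ⊢
    obtain ⟨a, b, c, d⟩ := hν v hv.2
    exact ⟨⟨fun h => hv.1 (Ear.pl_closed hν hus hv.2 h), a⟩, b, c, d⟩

/-- Ear lemma. Fix the matching `ν` of `W = univ \ L.toFinset`. Call a list alternating from `s`
if it is `[v1, ν v1, ..., vk, ν vk]`, has no repetition, lies in `W` and is a walk starting at a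
neighbour of `s`. `Ev` is the set of last vertices of nonempty alternating lists from members of
`Sg`, `Od = Ev.image ν`. An alternating list is closed under `ν`, so `W` minus it is matched by
`ν`. Let `y ∈ Sg` or `y ∈ Ev` (with list `P`, empty if `y ∈ Sg`) and `v ∈ W` with `R y v`. If
`v ∉ P` extend `P` by `v, ν v`; if `v = vi` cut `P` after `ν vi`; in both cases `ν v ∈ Ev`, so
`v ∈ Od`. If `v = ν vi` we have the first alternative with `l = [v1, ..., vi]`, `b = ν vi` and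
`t` the rest of `P`. -/
theorem ear {L : List V} (h : Cover R L) (Sg : Finset V) :
    (∃ s ∈ Sg, ∃ (l : List V) (b : V) (t : List V), Ch R s l b ∧ Ch R b t b ∧ Odd l.length ∧
      Even t.length ∧ Cover R (l ++ b :: t ++ L)) ∨
    ∃ Ev Od : Finset V, Od.card ≤ Ev.card ∧ (∀ v ∈ Od, v ∉ L) ∧
      (∀ e ∈ Ev, ∃ s ∈ Sg, ∃ l : List V, Ch R s l e ∧ Odd l.length ∧ Cover R (l ++ e :: L)) ∧
      ∀ y, (y ∈ Sg ∨ y ∈ Ev) → ∀ v, R y v → v ∈ L ∨ v ∈ Od := by
  classical
  obtain ⟨hL, ν, hν0⟩ := h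
  have hν : ∀ v, v ∉ L → ν v ∉ L ∧ ν v ≠ v ∧ ν (ν v) = v ∧ R v (ν v) := by
    intro v hv
    have := hν0 v (by simpa using hv)
    exact ⟨by simpa using this.1, this.2⟩
  by_cases hA : ∃ s ∈ Sg, ∃ (l : List V) (b : V) (t : List V), Ch R s l b ∧ Ch R b t b ∧
      Odd l.length ∧ Even t.length ∧ Cover R (l ++ b :: t ++ L)
  · exact Or.inl hA
  right
  set Ev : Finset V := univ.filter (fun e => ∃ s ∈ Sg, ∃ (us : List V) (v : V), e = ν v ∧
    Ch R s (Ear.pl ν us) v ∧ (Ear.pl ν (us ++ [v])).Nodup ∧ ∀ w ∈ us ++ [v], w ∉ L) with hEv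
  have mem_Ev : ∀ e, e ∈ Ev ↔ ∃ s ∈ Sg, ∃ (us : List V) (v : V), e = ν v ∧
      Ch R s (Ear.pl ν us) v ∧ (Ear.pl ν (us ++ [v])).Nodup ∧ ∀ w ∈ us ++ [v], w ∉ L := by
    intro e
    simp only [hEv, mem_filter, mem_univ, true_and]
  refine ⟨Ev, Ev.image ν, card_image_le, ?_, ?_, ?_⟩
  · intro w hw
    obtain ⟨e, he, rfl⟩ := mem_image.1 hw
    obtain ⟨s, _, us, v, rfl, _, _, h3⟩ := (mem_Ev e).1 he
    exact (hν _ (hν v (h3 v (by simp))).1).1
  · intro e he
    obtain ⟨s, hs, us, v, rfl, h1, h2, h3⟩ := (mem_Ev e).1 he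
    refine ⟨s, hs, Ear.pl ν us ++ [v], ch_append.2 ⟨h1, (hν v (h3 v (by simp))).2.2.2⟩, ?_, ?_⟩
    · obtain ⟨k, hk⟩ := Ear.pl_even ν us
      exact ⟨k, by simp only [List.length_append, List.length_singleton]; omega⟩
    · have := Ear.cover_pl hL hν h3 h2
      rw [Ear.pl_append] at this
      simpa [Ear.pl] using this
  · intro y hy v hyv
    by_cases hvL : v ∈ L
    · exact Or.inl hvL
    right
    have key : ∃ s ∈ Sg, ∃ us : List V, Ch R s (Ear.pl ν us) v ∧ (Ear.pl ν us).Nodup ∧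
        ∀ w ∈ us, w ∉ L := by
      rcases hy with hy | hy
      · exact ⟨y, hy, [], hyv, by simp [Ear.pl], by simp⟩
      · obtain ⟨s, hs, us, u, rfl, h1, h2, h3⟩ := (mem_Ev y).1 hy
        refine ⟨s, hs, us ++ [u], ?_, h2, h3⟩
        rw [Ear.pl_append]
        exact ch_append.2 ⟨h1, (hν u (h3 u (by simp))).2.2.2, hyv⟩
    obtain ⟨s, hs, us, h1, h2, h3⟩ := key
    obtain ⟨a, b, c, d⟩ := hν v hvL
    have fin : ν v ∈ Ev → v ∈ Ev.image ν := fun h => mem_image.2 ⟨ν v, h, c⟩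
    by_cases hvP : v ∈ Ear.pl ν us
    · obtain ⟨u, hu, e⟩ := Ear.mem_pl.1 hvP
      obtain ⟨u1, u2, rfl⟩ := List.append_of_mem hu
      have e1 : Ear.pl ν (u1 ++ u :: u2) = Ear.pl ν u1 ++ u :: ν u :: Ear.pl ν u2 := by
        rw [Ear.pl_append]
        rfl
      rcases e with e | e
      · subst e
        refine fin ((mem_Ev _).2 ⟨s, hs, u1, v, rfl, ?_, ?_, ?_⟩)
        · rw [e1] at h1
          exact (ch_append.1 h1).1
        · have e2 : Ear.pl ν (u1 ++ v :: u2) = Ear.pl ν (u1 ++ [v]) ++ Ear.pl ν u2 := by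
            rw [← Ear.pl_append]
            simp
          rw [e2] at h2
          exact (List.nodup_append.1 h2).1
        · intro w hw
          refine h3 w ?_
          simp only [List.mem_append, List.mem_cons, List.not_mem_nil, or_false] at hw ⊢
          tauto
      · subst e
        exfalso
        have hc := Ear.cover_pl hL hν h3 h2
        rw [e1] at h1 hc
        obtain ⟨g1, g2, g3⟩ := ch_append.1 h1
        refine hA ⟨s, hs, Ear.pl ν u1 ++ [u], ν u, Ear.pl ν u2, ch_append.2 ⟨g1, g2⟩, g3, ?_,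
          Ear.pl_even ν u2, by simpa using hc⟩
        obtain ⟨k, hk⟩ := Ear.pl_even ν u1
        exact ⟨k, by simp only [List.length_append, List.length_singleton]; omega⟩
    · refine fin ((mem_Ev _).2 ⟨s, hs, us, v, rfl, h1, ?_, ?_⟩)
      · have hνP : ν v ∉ Ear.pl ν us := fun h => hvP (Ear.pl_closed hν h3 hvL h)
        rw [Ear.pl_append]
        refine List.nodup_append.2 ⟨h2, ?_, fun x hx z hz e => ?_⟩
        · simp [Ear.pl, b.symm]
        · subst e
          simp only [Ear.pl, List.mem_cons, List.not_mem_nil, or_false] at hz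
          rcases hz with rfl | rfl
          · exact hvP hx
          · exact hνP hx
      · intro w hw
        rcases List.mem_append.1 hw with hw | hw
        · exact h3 w hw
        · rw [List.mem_singleton.1 hw]
          exact hvL

end Pool.Agent.Lib.MP_59216f_co.TD
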