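import Pool.Agent.Lib.MP_59216f_co.GBasic
import Pool.Agent.Lib.MP_59216f_co.GEar

set_option autoImplicit false
set_option linter.unusedSectionVars false
set_option linter.unusedSimpArgs false

namespace Pool.Agent.Lib.MP_59216f_co.TD

open Finset

variable {V : Type} [Fintype V] [DecidableEq V] {R : V → V → Prop}

/-- Counting step shared by the blossom and the theta lemma. -/
theorem count_blos (hs : Sy R) (hi : Irr R) (h2 : Sur R 2) {s p q : V} {Ev Od : Finset V}
    (hc : Od.card ≤ Ev.card) (hsE : s ∉ Ev) (hno : ∀ e ∈ Ev, ¬ R e s)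
    (hnb : ∀ y, (y = s ∨ y ∈ Ev) → ∀ v, R y v → v = s ∨ v = p ∨ v = q ∨ v ∈ Od) : False := by
  have hno' : ∀ y ∈ insert s Ev, ¬ R y s := by
    intro y hy
    rcases mem_insert.1 hy with rfl | hy
    · exact hi _
    · exact hno y hy
  have hsub : nb R (insert s Ev) ⊆ insert p (insert q Od) := by
    intro v hv
    obtain ⟨y, hy, hyv⟩ := mem_nb.1 hv
    rcases hnb y (mem_insert.1 hy) v hyv with rfl | rfl | rfl | h
    · exact absurd hyv (hno' y hy)
    · exact mem_insert_self _ _
    · exact mem_insert_of_mem (mem_insert_self _ _)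
    · exact mem_insert_of_mem (mem_insert_of_mem h)
  have h1 := card_le_card hsub
  have h3 := card_insert_le p (insert q Od)
  have h4 := card_insert_le q Od
  have h5 := card_insert_of_notMem hsE
  have h6 : insert s Ev ⊆ nb R (insert s Ev) := exp2 hs h2 (by omega)
  obtain ⟨y, hy, hys⟩ := mem_nb.1 (h6 (mem_insert_self s Ev))
  exact hno' y hy hys

/-- Two disjoint odd cycles with the rest of the graph minus `z` matched contradict `NB`
(`Cover.covL`, `CovL.perm`, `CovL.dropCy`). -/
theorem no_barbell (hb : NB R) {z b b2 : V} {t t2 : List V} (h1 : Ch R b t b)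
    (e1 : Even t.length) (h2 : Ch R b2 t2 b2) : ¬ Cover R (z :: (b :: t ++ b2 :: t2)) := by
  intro h
  refine hb z b t h1 e1 (CovL.dropCy (s := b2 :: t2) (h.covL.perm ?_) h2)
  apply perm_ms
  simp only [← Multiset.cons_coe, ← Multiset.coe_add, Multiset.coe_reverse, Multiset.coe_nil,
    ← Multiset.singleton_add]
  abel

/-- A blossom whose base `b` is matched to `b'`. Take a neighbour `r ≠ z` of `z`, `Cover.take`
gives `r'`; `ear` with `L = [r, r', z]`, `Sg = {r}`. First alternative: `l = l' ++ [b']`, drop
`l'` (even) and the pair `r, r'`. Second alternative: `Y = insert r Ev`; if some `e ∈ Ev` is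
adjacent to `r`, then `r :: l ++ [e]` is the blossom (the path to `e` starts at `r`) and
`b' = r'`; otherwise `nb Y ⊆ {r', z} ∪ Od`, `exp2` gives `r ∈ nb Y`, a contradiction. -/
theorem exists_blossom (hs : Sy R) (hi : Irr R) (h3 : Three R) (h2 : Sur R 2) {z : V}
    (h : Cover R [z]) :
    ∃ (b b' : V) (t : List V), R b b' ∧ Ch R b t b ∧ Even t.length ∧
      Cover R (z :: b' :: b :: t) := by
  obtain ⟨r, -, -, hzr, -⟩ := h3 z
  have hrz : r ∉ [z] := by
    rw [List.mem_singleton]
    rintro rfl
    exact hi _ hzr
  obtain ⟨r', hrr, hL⟩ := h.take hrz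
  rcases ear hL {r} with ⟨s, hsr, l, b, t, hl, ht, ho, he, hcov⟩ | ⟨Ev, Od, hc, -, hEv, hnb⟩
  · rw [mem_singleton] at hsr
    subst hsr
    rcases List.eq_nil_or_concat l with rfl | ⟨l', b', rfl⟩
    · simp at ho
    rw [List.concat_eq_append] at hl ho hcov
    rw [ch_append] at hl
    have he' : Even l'.length := by
      simp only [List.length_append, List.length_cons, List.length_nil] at ho
      rw [Nat.odd_iff] at ho
      rw [Nat.even_iff]
      omega
    refine ⟨b, b', t, hs _ _ hl.2, ht, he, ?_⟩
    have h1 : Cover R (l' ++ ([s, r'] ++ (z :: b' :: b :: t))) := by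
      refine hcov.perm ?_
      apply perm_ms
      simp only [← Multiset.cons_coe, ← Multiset.coe_add, Multiset.coe_reverse, Multiset.coe_nil,
        ← Multiset.singleton_add]
      abel
    exact (h1.drop hs hl.1.chain he').drop hs (List.isChain_pair.2 hrr) (by simp)
  · by_cases hex : ∃ e ∈ Ev, R e r
    · obtain ⟨e, he, her⟩ := hex
      obtain ⟨s, hsr, l, hl, ho, hcov⟩ := hEv e he
      rw [mem_singleton] at hsr
      subst hsr
      refine ⟨s, r', l ++ [e], hrr, ch_append.2 ⟨hl, her⟩, ?_, hcov.perm ?_⟩
      · simp only [List.length_append, List.length_cons, List.length_nil]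
        rw [Nat.odd_iff] at ho
        rw [Nat.even_iff]
        omega
      · apply perm_ms
        simp only [← Multiset.cons_coe, ← Multiset.coe_add, Multiset.coe_reverse, Multiset.coe_nil,
          ← Multiset.singleton_add]
        abel
    · exfalso
      refine count_blos hs hi h2 (s := r) (p := r') (q := z) hc ?_
        (fun e he her => hex ⟨e, he, her⟩) ?_
      · intro hr
        obtain ⟨s, -, l, -, -, hcov⟩ := hEv r hr
        have := (List.nodup_append.1 hcov.1).2.1
        simp at this
      · intro y hy v hyv
        rcases hnb y (hy.imp_left mem_singleton.2) v hyv with h' | h'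
        · simp only [List.mem_cons, List.not_mem_nil, or_false] at h'
          tauto
        · tauto

/-- `ear` with `L = z :: b' :: b :: t`, `Sg = {b'}`. First alternative: drop the even path
`b' :: l`, `no_barbell`. Second alternative: `Y = insert b' Ev`. If `e ∈ Ev` is adjacent to `b'`
then `b' :: l ++ [e]` is a second odd cycle, `no_barbell`. If no member of `Y` has a neighbour in
`t` then `nb Y ⊆ {z, b} ∪ Od` and `exp2` gives `b' ∈ nb Y`, a contradiction. So some `y ∈ Y` is
adjacent to `q ∈ t`, `t = t1 ++ q :: t2`, one of `t1`, `t2` is odd and the other even; the path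
from `b` through `b'` to `y` and `q` has an odd interior `s1` (`[b']` or `b' :: l ++ [e]`). -/
theorem exists_theta (hs : Sy R) (hi : Irr R) (h2 : Sur R 2) (hb : NB R) {z b b' : V}
    {t : List V} (hbb : R b b') (hc : Ch R b t b) (he : Even t.length)
    (h : Cover R (z :: b' :: b :: t)) :
    ∃ (x y : V) (s1 s2 p : List V), Theta R z x y s1 s2 p := by
  rcases ear h {b'} with ⟨s, hsr, l, b2, t2, hl, ht, ho, he2, hcov⟩ | ⟨Ev, Od, hcard, -, hEv, hnb⟩
  · exfalso
    rw [mem_singleton] at hsr
    subst hsr
    refine no_barbell hb (z := z) hc he ht (Cover.drop hs (s := s :: l) (hcov.perm ?_)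
      hl.chain_cons ?_)
    · apply perm_ms
      simp only [← Multiset.cons_coe, ← Multiset.coe_add, Multiset.coe_reverse, Multiset.coe_nil,
        ← Multiset.singleton_add]
      abel
    · rw [List.length_cons]
      exact ho.add_one
  · by_cases hex : ∃ e ∈ Ev, R e b'
    · exfalso
      obtain ⟨e, he', her⟩ := hex
      obtain ⟨s, hsr, l, hl, -, hcov⟩ := hEv e he'
      rw [mem_singleton] at hsr
      subst hsr
      refine no_barbell hb (z := z) (t2 := l ++ [e]) hc he (ch_append.2 ⟨hl, her⟩) (hcov.perm ?_)
      apply perm_ms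
      simp only [← Multiset.cons_coe, ← Multiset.coe_add, Multiset.coe_reverse, Multiset.coe_nil,
        ← Multiset.singleton_add]
      abel
    by_cases hq : ∃ y, (y = b' ∨ y ∈ Ev) ∧ ∃ q ∈ t, R y q
    · obtain ⟨y, hy, q, hqt, hyq⟩ := hq
      have key : ∃ s1 : List V, Ch R b s1 q ∧ Odd s1.length ∧ Cover R (z :: b :: (s1 ++ t)) := by
        rcases hy with rfl | hy
        · refine ⟨[y], ⟨hbb, hyq⟩, by simp, h.perm ?_⟩
          apply perm_ms
          simp only [← Multiset.cons_coe, ← Multiset.coe_add, Multiset.coe_reverse, Multiset.coe_nil,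
            ← Multiset.singleton_add]
          abel
        · obtain ⟨s, hsr, l, hl, ho, hcov⟩ := hEv y hy
          rw [mem_singleton] at hsr
          subst hsr
          refine ⟨s :: (l ++ [y]), ⟨hbb, ch_append.2 ⟨hl, hyq⟩⟩, ?_, hcov.perm ?_⟩
          · simp only [List.length_append, List.length_cons, List.length_nil]
            rw [Nat.odd_iff] at ho ⊢
            omega
          · apply perm_ms
            simp only [← Multiset.cons_coe, ← Multiset.coe_add, Multiset.coe_reverse, Multiset.coe_nil,
              ← Multiset.singleton_add]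
            abel
      obtain ⟨s1, h1, o1, hcov⟩ := key
      obtain ⟨t1, t2, rfl⟩ := List.append_of_mem hqt
      rw [ch_append] at hc
      simp only [List.length_append, List.length_cons] at he
      rw [Nat.even_iff] at he
      rcases Nat.even_or_odd t1.length with h3 | h3
      · refine ⟨b, q, s1, t2.reverse, t1, h1, hc.2.rev hs, hc.1, o1, ?_, h3, hcov.perm ?_⟩
        · rw [List.length_reverse, Nat.odd_iff]
          rw [Nat.even_iff] at h3
          omega
        · apply perm_ms
          simp only [← Multiset.cons_coe, ← Multiset.coe_add, Multiset.coe_reverse, Multiset.coe_nil,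
            ← Multiset.singleton_add]
          abel
      · refine ⟨b, q, s1, t1, t2.reverse, h1, hc.1, hc.2.rev hs, o1, h3, ?_, hcov.perm ?_⟩
        · rw [List.length_reverse, Nat.even_iff]
          rw [Nat.odd_iff] at h3
          omega
        · apply perm_ms
          simp only [← Multiset.cons_coe, ← Multiset.coe_add, Multiset.coe_reverse, Multiset.coe_nil,
            ← Multiset.singleton_add]
          abel
    · exfalso
      refine count_blos hs hi h2 (s := b') (p := z) (q := b) hcard ?_
        (fun e he her => hex ⟨e, he, her⟩) ?_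
      · intro hr
        obtain ⟨s, -, l, -, -, hcov⟩ := hEv b' hr
        have := (List.nodup_append.1 hcov.1).2.1
        simp at this
      · intro y hy v hyv
        rcases hnb y (hy.imp_left mem_singleton.2) v hyv with h' | h'
        · simp only [List.mem_cons] at h'
          rcases h' with h' | h' | h' | h'
          · exact Or.inr (Or.inl h')
          · exact Or.inl h'
          · exact Or.inr (Or.inr (Or.inl h'))
          · exact absurd ⟨y, hy, v, h', hyv⟩ hq
        · exact Or.inr (Or.inr (Or.inr h'))

end Pool.Agent.Lib.MP_59216f_co.TD
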