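import Pool.Agent.Lib.MP_59216f_co.GDefs

set_option autoImplicit false
set_option linter.unusedSectionVars false

namespace Pool.Agent.Lib.MP_59216f_co.TD

open Finset

variable {V : Type} [Fintype V] [DecidableEq V] {R : V → V → Prop}

/-- points of degree two, no two of them in a row -/
def GoodGCM (e : V → Finset V) (E M : Finset V) : Prop :=
  (∀ p ∈ M, (E.filter (fun x => p ∈ e x)).card = 2) ∧
    ∀ z ∈ E, ∀ s ∈ M, ∀ t ∈ M, s ∈ e z → t ∈ e z → s = t

theorem rows_gcm {e : V → Finset V} {E : Finset V}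
    (hdeg : ∀ p, (E.filter (fun x => p ∈ e x)).card ≤ 2) {a x u : V} (hx : x ∈ E) (hu : u ∈ E)
    (hxu : x ≠ u) (hax : a ∈ e x) (hau : a ∈ e u) : E.filter (fun z => a ∈ e z) = {x, u} := by
  refine (Finset.eq_of_subset_of_card_le (fun z hz => ?_) ?_).symm
  · rcases Finset.mem_insert.1 hz with rfl | hz
    · exact Finset.mem_filter.2 ⟨hx, hax⟩
    · rw [Finset.mem_singleton.1 hz]
      exact Finset.mem_filter.2 ⟨hu, hau⟩
  · rw [Finset.card_pair hxu]
    exact hdeg a

theorem rows_gcm' {e : V → Finset V} {E : Finset V}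
    (hdeg : ∀ p, (E.filter (fun x => p ∈ e x)).card ≤ 2) {a x u : V} (hx : x ∈ E) (hu : u ∈ E)
    (hxu : x ≠ u) (hax : a ∈ e x) (hau : a ∈ e u) {z : V} (hz : z ∈ E) (haz : a ∈ e z) :
    z = x ∨ z = u := by
  have h1 : z ∈ E.filter (fun z => a ∈ e z) := Finset.mem_filter.2 ⟨hz, haz⟩
  rw [rows_gcm hdeg hx hu hxu hax hau] at h1
  simpa using h1

theorem ins_gcm {e : V → Finset V} {E M : Finset V}
    (hdeg : ∀ p, (E.filter (fun x => p ∈ e x)).card ≤ 2) (hM : GoodGCM e E M) {a x u : V}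
    (hx : x ∈ E) (hu : u ∈ E) (hxu : x ≠ u) (hax : a ∈ e x) (hau : a ∈ e u)
    (fx : ∀ t ∈ M, t ∉ e x) (fu : ∀ t ∈ M, t ∉ e u) :
    GoodGCM e E (insert a M) ∧ (insert a M).card = M.card + 1 := by
  have h1 : ∀ z ∈ E, a ∈ e z → ∀ t ∈ M, t ∉ e z := by
    intro z hz haz
    rcases rows_gcm' hdeg hx hu hxu hax hau hz haz with rfl | rfl
    · exact fx
    · exact fu
  refine ⟨⟨fun p hp => ?_, fun z hz s hs t ht h2 h3 => ?_⟩,
    Finset.card_insert_of_notMem fun h => fx a h hax⟩
  · rcases Finset.mem_insert.1 hp with rfl | hp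
    · rw [rows_gcm hdeg hx hu hxu hax hau, Finset.card_pair hxu]
    · exact hM.1 p hp
  · rcases Finset.mem_insert.1 hs with rfl | hs' <;> rcases Finset.mem_insert.1 ht with rfl | ht'
    · rfl
    · exact absurd h3 (h1 z hz h2 t ht')
    · exact absurd h2 (h1 z hz h3 s hs')
    · exact hM.2 z hz s hs' t ht' h2 h3

theorem aug_gcm {e : V → Finset V} {E M : Finset V}
    (hdeg : ∀ p, (E.filter (fun x => p ∈ e x)).card ≤ 2) (hM : GoodGCM e E M) {p x y u v a b : V}
    (hp : p ∈ M) (hx : x ∈ E) (hy : y ∈ E) (hxy : x ≠ y) (hpx : p ∈ e x) (hpy : p ∈ e y)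
    (hu : u ∈ E) (hv : v ∈ E) (huv : u ≠ v) (fu : ∀ t ∈ M, t ∉ e u) (fv : ∀ t ∈ M, t ∉ e v)
    (hax : a ∈ e x) (hau : a ∈ e u) (hby : b ∈ e y) (hbv : b ∈ e v) :
    ∃ M', GoodGCM e E M' ∧ M.card < M'.card := by
  have h0 : GoodGCM e E (M.erase p) :=
    ⟨fun q hq => hM.1 q (Finset.mem_of_mem_erase hq), fun z hz s hs t ht =>
      hM.2 z hz s (Finset.mem_of_mem_erase hs) t (Finset.mem_of_mem_erase ht)⟩
  have f0 : ∀ z ∈ E, p ∈ e z → ∀ t ∈ M.erase p, t ∉ e z := fun z hz hpz t ht htz =>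
    Finset.ne_of_mem_erase ht (hM.2 z hz t (Finset.mem_of_mem_erase ht) p hp htz hpz)
  have n1 : ∀ {z w}, p ∈ e z → (∀ t ∈ M, t ∉ e w) → z ≠ w := fun hz hw h => hw p hp (h ▸ hz)
  obtain ⟨h1, c1⟩ := ins_gcm hdeg h0 hy hv (n1 hpy fv) hby hbv (f0 y hy hpy)
    fun t ht => fv t (Finset.mem_of_mem_erase ht)
  have hb := fun z hz hbz => rows_gcm' hdeg hy hv (n1 hpy fv) hby hbv (z := z) hz hbz
  obtain ⟨h2, c2⟩ := ins_gcm hdeg h1 hx hu (n1 hpx fu) hax hau
    (fun t ht htx => by
      rcases Finset.mem_insert.1 ht with rfl | ht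
      · exact (hb x hx htx).elim hxy (n1 hpx fv)
      · exact f0 x hx hpx t ht htx)
    (fun t ht htu => by
      rcases Finset.mem_insert.1 ht with rfl | ht
      · exact (hb u hu htu).elim (n1 hpy fu).symm huv
      · exact fu t (Finset.mem_of_mem_erase ht) htu)
  refine ⟨_, h2, ?_⟩
  have c0 := Finset.card_erase_add_one hp
  omega

theorem count_gcm (e : V → Finset V) (E A : Finset V) (f : V → ℕ) :
    ∑ p ∈ A, ∑ x ∈ E.filter (fun x => p ∈ e x), f x =
      ∑ x ∈ E, (A.filter (fun p => p ∈ e x)).card * f x := by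
  simp only [Finset.sum_filter]
  rw [Finset.sum_comm]
  refine Finset.sum_congr rfl fun x _ => ?_
  rw [← Finset.sum_filter, Finset.sum_const, smul_eq_mul]

/-- Last case of the Chvatal McDiarmid bound: every point lies in at most two rows and two
different rows share at most one point. Let `M` be a largest set of points each lying in exactly
two rows of `E` such that no row contains two points of `M`; `U` the rows without a point of
`M`. Rows of `U` are pairwise disjoint. `T` is `M` together with one point of every row of `U`,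
`|E| = 2|M| + |U|`. Let `Q` be the points of `P` outside `M` and outside the rows of `U`. For
`p ∈ M` with rows `x, y`, at most two of the four other points of `x, y` lie in rows of `U`
(else `x` meets `u1`, `y` meets `u2 ≠ u1` and `M` can be enlarged), so there are at least `2|M|`
incidences with `Q`, hence `|Q| ≥ |M|` and `|P| ≥ 2|M| + 3|U|`. -/
theorem cm_linear (e : V → Finset V) (E P : Finset V) (h3 : ∀ x ∈ E, (e x).card = 3)
    (hP : ∀ x ∈ E, e x ⊆ P) (hdeg : ∀ p, (E.filter (fun x => p ∈ e x)).card ≤ 2)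
    (hlin : ∀ x ∈ E, ∀ y ∈ E, x ≠ y → (e x ∩ e y).card ≤ 1) :
    ∃ T ⊆ P, (∀ x ∈ E, ∃ τ ∈ T, τ ∈ e x) ∧ 4 * T.card ≤ P.card + E.card := by
  classical
  obtain ⟨M, hM, hmax⟩ := Finset.exists_max_image (Finset.univ.filter (GoodGCM e E)) Finset.card
    ⟨∅, Finset.mem_filter.2 ⟨Finset.mem_univ _, by simp, by simp⟩⟩
  replace hM := (Finset.mem_filter.1 hM).2
  replace hmax : ∀ M', GoodGCM e E M' → ¬ M.card < M'.card := fun M' h =>
    not_lt.2 (hmax M' (Finset.mem_filter.2 ⟨Finset.mem_univ _, h⟩))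
  obtain ⟨U, hU⟩ : ∃ U : Finset V, U = E.filter (fun x => ∀ t ∈ M, t ∉ e x) := ⟨_, rfl⟩
  have mU : ∀ x, x ∈ U ↔ x ∈ E ∧ ∀ t ∈ M, t ∉ e x := fun x => by rw [hU, Finset.mem_filter]
  obtain ⟨B, hB⟩ : ∃ B : Finset V, B = U.biUnion e := ⟨_, rfl⟩
  have mB : ∀ a, a ∈ B ↔ ∃ u ∈ U, a ∈ e u := fun a => by rw [hB, Finset.mem_biUnion]
  have cB : B.card = 3 * U.card := by
    rw [hB, Finset.card_biUnion, Finset.sum_congr rfl fun u hu => h3 u ((mU u).1 hu).1,
      Finset.sum_const, smul_eq_mul, mul_comm]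
    intro u hu v hv huv
    refine Finset.disjoint_left.2 fun a hau hav => ?_
    obtain ⟨h1, c1⟩ := ins_gcm hdeg hM ((mU u).1 hu).1 ((mU v).1 hv).1 huv hau hav
      ((mU u).1 hu).2 ((mU v).1 hv).2
    exact hmax _ h1 (by omega)
  have hMB : Disjoint M B := Finset.disjoint_left.2 fun t ht htB => by
    obtain ⟨u, hu, htu⟩ := (mB t).1 htB
    exact ((mU u).1 hu).2 t ht htu
  have hMP : M ⊆ P := fun p hp => by
    obtain ⟨x, hx⟩ := Finset.card_pos.1 (show 0 < (E.filter (fun x => p ∈ e x)).card by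
      rw [hM.1 p hp]; norm_num)
    exact hP x (Finset.mem_filter.1 hx).1 (Finset.mem_filter.1 hx).2
  have hBP : B ⊆ P := fun a ha => by
    obtain ⟨u, hu, hau⟩ := (mB a).1 ha
    exact hP u ((mU u).1 hu).1 hau
  have cP := Finset.card_sdiff_add_card_eq_card (Finset.union_subset hMP hBP)
  rw [Finset.card_union_of_disjoint hMB] at cP
  generalize hQ : P \ (M ∪ B) = Q at cP
  have c1 : ∀ x ∈ E, (M.filter (fun p => p ∈ e x)).card ≤ 1 := fun x hx =>
    Finset.card_le_one.2 fun s hs t ht => hM.2 x hx s (Finset.mem_filter.1 hs).1 t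
      (Finset.mem_filter.1 ht).1 (Finset.mem_filter.1 hs).2 (Finset.mem_filter.1 ht).2
  have cE : 2 * M.card + U.card ≤ E.card := by
    have h1 := count_gcm e E M (fun _ => 1)
    simp only [Finset.sum_const, smul_eq_mul, mul_one] at h1
    rw [Finset.sum_congr rfl hM.1, Finset.sum_const, smul_eq_mul, mul_comm] at h1
    rw [h1, hU, Finset.card_filter, ← Finset.sum_add_distrib, Finset.card_eq_sum_ones E]
    refine Finset.sum_le_sum fun x hx => ?_
    split_ifs with h
    · rw [Finset.filter_eq_empty_iff.2 h, Finset.card_empty]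
    · exact c1 x hx
  have r1 : ∀ p ∈ M, ∀ x ∈ E, p ∈ e x → (B.filter (fun a => a ∈ e x)).card ≤ 2 ∧
      2 ≤ (B.filter (fun a => a ∈ e x)).card + (Q.filter (fun a => a ∈ e x)).card := by
    intro p hp x hx hpx
    constructor
    · have h1 : insert p (B.filter (fun a => a ∈ e x)) ⊆ e x :=
        Finset.insert_subset hpx fun a ha => (Finset.mem_filter.1 ha).2
      have h2 := Finset.card_le_card h1
      rw [Finset.card_insert_of_notMem fun h =>
        Finset.disjoint_left.1 hMB hp (Finset.mem_filter.1 h).1, h3 x hx] at h2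
      omega
    · have h1 : e x ⊆ M.filter (fun a => a ∈ e x) ∪
          (B.filter (fun a => a ∈ e x) ∪ Q.filter (fun a => a ∈ e x)) := by
        intro a ha
        have h2 := hP x hx ha
        simp only [← hQ, Finset.mem_union, Finset.mem_filter, Finset.mem_sdiff]
        tauto
      have h2 := (Finset.card_le_card h1).trans ((Finset.card_union_le _ _).trans
        (add_le_add (c1 x hx) (Finset.card_union_le _ _)))
      rw [h3 x hx] at h2
      omega
  have r2 : ∀ p ∈ M, ∀ x ∈ E, ∀ y ∈ E, x ≠ y → p ∈ e x → p ∈ e y →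
      1 < (B.filter (fun a => a ∈ e x)).card → (B.filter (fun a => a ∈ e y)).card = 0 := by
    intro p hp x hx y hy hxy hpx hpy h1
    by_contra h2
    obtain ⟨b, hb⟩ := Finset.card_pos.1 (Nat.pos_of_ne_zero h2)
    obtain ⟨v, hv, hbv⟩ := (mB b).1 (Finset.mem_filter.1 hb).1
    obtain ⟨hv, fv⟩ := (mU v).1 hv
    have h4 : ∃ a ∈ B.filter (fun a => a ∈ e x), a ∉ e v := by
      by_contra h4
      push Not at h4
      have h5 := hlin x hx v hv fun h => fv p hp (h ▸ hpx)
      have h6 : B.filter (fun a => a ∈ e x) ⊆ e x ∩ e v := fun a ha =>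
        Finset.mem_inter.2 ⟨(Finset.mem_filter.1 ha).2, h4 a ha⟩
      have h7 := Finset.card_le_card h6
      omega
    obtain ⟨a, ha, hav⟩ := h4
    obtain ⟨u, hu, hau⟩ := (mB a).1 (Finset.mem_filter.1 ha).1
    obtain ⟨hu, fu⟩ := (mU u).1 hu
    obtain ⟨M', h5, h6⟩ := aug_gcm hdeg hM hp hx hy hxy hpx hpy hu hv
      (fun h => hav (h ▸ hau)) fu fv (Finset.mem_filter.1 ha).2 hau (Finset.mem_filter.1 hb).2 hbv
    exact hmax M' h5 h6
  have cQ : M.card * 2 ≤ Q.card * 2 := by
    calc M.card * 2 ≤ ∑ p ∈ M, ∑ x ∈ E.filter (fun x => p ∈ e x),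
          (Q.filter (fun a => a ∈ e x)).card := by
          rw [← smul_eq_mul, ← Finset.sum_const]
          refine Finset.sum_le_sum fun p hp => ?_
          obtain ⟨x, y, hxy, h1⟩ := Finset.card_eq_two.1 (hM.1 p hp)
          have hx : x ∈ E.filter (fun x => p ∈ e x) := by rw [h1]; simp
          have hy : y ∈ E.filter (fun x => p ∈ e x) := by rw [h1]; simp
          rw [Finset.mem_filter] at hx hy
          rw [h1, Finset.sum_pair hxy]
          have a1 := r1 p hp x hx.1 hx.2
          have a2 := r1 p hp y hy.1 hy.2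
          have a3 := r2 p hp x hx.1 y hy.1 hxy hx.2 hy.2
          have a4 := r2 p hp y hy.1 x hx.1 hxy.symm hy.2 hx.2
          omega
      _ ≤ ∑ x ∈ E, (Q.filter (fun a => a ∈ e x)).card * 1 := by
          rw [count_gcm]
          refine Finset.sum_le_sum fun x hx => ?_
          rw [mul_comm]
          exact Nat.mul_le_mul_left _ (c1 x hx)
      _ ≤ Q.card * 2 := by
          rw [← count_gcm e E Q fun _ => 1, ← smul_eq_mul, ← Finset.sum_const]
          refine Finset.sum_le_sum fun q _ => ?_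
          rw [← Finset.card_eq_sum_ones]
          exact hdeg q
  have hpick : ∀ x, ∃ a, x ∈ E → a ∈ e x := fun x => by
    by_cases hx : x ∈ E
    · obtain ⟨a, ha⟩ := Finset.card_pos.1 (show 0 < (e x).card by rw [h3 x hx]; norm_num)
      exact ⟨a, fun _ => ha⟩
    · exact ⟨x, fun h => absurd h hx⟩
  choose g hg using hpick
  refine ⟨M ∪ U.image g, Finset.union_subset hMP fun a ha => ?_, fun x hx => ?_, ?_⟩
  · obtain ⟨u, hu, rfl⟩ := Finset.mem_image.1 ha
    exact hP u ((mU u).1 hu).1 (hg u ((mU u).1 hu).1)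
  · by_cases h : ∀ t ∈ M, t ∉ e x
    · exact ⟨g x, Finset.mem_union_right _ (Finset.mem_image_of_mem g ((mU x).2 ⟨hx, h⟩)), hg x hx⟩
    · push Not at h
      obtain ⟨t, ht, htx⟩ := h
      exact ⟨t, Finset.mem_union_left _ ht, htx⟩
  · have h1 := (Finset.card_union_le M (U.image g)).trans
      (add_le_add_right (Finset.card_image_le (s := U) (f := g)) _)
    omega

/-- Chvatal McDiarmid bound for 3-uniform families (repetitions allowed). Strong induction on
`E.card`: a point in at least three rows is taken (remove it and its rows); if all degrees are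
at most two and two rows share two points `p, q`, take `p`, remove both rows and both points;
otherwise `cm_linear`. -/
theorem cm (e : V → Finset V) (E P : Finset V) (h3 : ∀ x ∈ E, (e x).card = 3)
    (hP : ∀ x ∈ E, e x ⊆ P) :
    ∃ T ⊆ P, (∀ x ∈ E, ∃ τ ∈ T, τ ∈ e x) ∧ 4 * T.card ≤ P.card + E.card := by
  induction hn : E.card using Nat.strong_induction_on generalizing E P with
  | _ n ih =>
  have step : ∀ (p : V) (P' : Finset V), p ∈ P → P' ⊆ P →
      (∀ x ∈ E, p ∉ e x → e x ⊆ P') → 0 < (E.filter (fun x => p ∈ e x)).card →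
      P'.card + 4 ≤ P.card + (E.filter (fun x => p ∈ e x)).card →
      ∃ T ⊆ P, (∀ x ∈ E, ∃ τ ∈ T, τ ∈ e x) ∧ 4 * T.card ≤ P.card + n := by
    intro p P' hp hP' h1 h2 h4
    have h5 := Finset.card_filter_add_card_filter_not (s := E) (fun x => p ∈ e x)
    obtain ⟨T, hT, hT1, hT2⟩ := ih _ (by omega) (E.filter (fun x => ¬ p ∈ e x)) P'
      (fun x hx => h3 x (Finset.mem_filter.1 hx).1)
      (fun x hx => h1 x (Finset.mem_filter.1 hx).1 (Finset.mem_filter.1 hx).2) rfl
    refine ⟨insert p T, Finset.insert_subset hp (hT.trans hP'), fun x hx => ?_, ?_⟩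
    · by_cases h : p ∈ e x
      · exact ⟨p, Finset.mem_insert_self _ _, h⟩
      · obtain ⟨t, ht, htx⟩ := hT1 x (Finset.mem_filter.2 ⟨hx, h⟩)
        exact ⟨t, Finset.mem_insert_of_mem ht, htx⟩
    · have h6 := Finset.card_insert_le p T
      omega
  by_cases hdeg : ∀ p, (E.filter (fun x => p ∈ e x)).card ≤ 2
  · by_cases hlin : ∀ x ∈ E, ∀ y ∈ E, x ≠ y → (e x ∩ e y).card ≤ 1
    · exact hn ▸ cm_linear e E P h3 hP hdeg hlin
    · push Not at hlin
      obtain ⟨x, hx, y, hy, hxy, h1⟩ := hlin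
      obtain ⟨p, hp, q, hq, hpq⟩ := Finset.one_lt_card.1 h1
      rw [Finset.mem_inter] at hp hq
      have h2 : (E.filter (fun x => p ∈ e x)).card = 2 := by
        rw [rows_gcm hdeg hx hy hxy hp.1 hp.2, Finset.card_pair hxy]
      have h4 := Finset.card_erase_add_one (hP x hx hp.1)
      have h5 := Finset.card_erase_add_one (Finset.mem_erase.2 ⟨hpq.symm, hP x hx hq.1⟩)
      refine step p ((P.erase p).erase q) (hP x hx hp.1)
        ((Finset.erase_subset _ _).trans (Finset.erase_subset _ _)) (fun z hz hpz a ha => ?_)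
        (by omega) (by omega)
      refine Finset.mem_erase.2 ⟨?_, Finset.mem_erase.2 ⟨?_, hP z hz ha⟩⟩
      · rintro rfl
        rcases rows_gcm' hdeg hx hy hxy hq.1 hq.2 hz ha with rfl | rfl
        · exact hpz hp.1
        · exact hpz hp.2
      · rintro rfl
        exact hpz ha
  · push Not at hdeg
    obtain ⟨p, hp⟩ := hdeg
    obtain ⟨x, hx⟩ := Finset.card_pos.1 (show 0 < (E.filter (fun x => p ∈ e x)).card by omega)
    have h1 := hP x (Finset.mem_filter.1 hx).1 (Finset.mem_filter.1 hx).2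
    have h4 := Finset.card_erase_add_one h1
    refine step p (P.erase p) h1 (Finset.erase_subset _ _) (fun z hz hpz a ha => ?_)
      (by omega) (by omega)
    refine Finset.mem_erase.2 ⟨?_, hP z hz ha⟩
    rintro rfl
    exact hpz ha

end Pool.Agent.Lib.MP_59216f_co.TD
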