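import Pool.Agent.Lib.MP_59216f_co.GBasic

set_option autoImplicit false
set_option linter.unusedSectionVars false

namespace Pool.Agent.Lib.MP_59216f_co.TD

open Finset

variable {V : Type} [Fintype V] [DecidableEq V] {R : V → V → Prop}

/-- A smallest nonempty independent `X ⊆ Y` with `|nb X ∩ Y| ≤ |X|` has its neighbourhood in `Y`
matchable into `X`: if `B ⊆ nb X ∩ Y` had `|nb B ∩ X| < |B|`, then `X \ nb B` would be a smaller
such set. -/
theorem crit_set (hs : Sy R) (Y : Finset V)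
    (h : ∃ X ⊆ Y, X.Nonempty ∧ Indep R X ∧ (nb R X ∩ Y).card ≤ X.card) :
    ∃ X ⊆ Y, X.Nonempty ∧ Indep R X ∧ ∃ μ : V → V, Set.InjOn μ ((nb R X ∩ Y : Finset V) : Set V) ∧
      ∀ a ∈ nb R X ∩ Y, μ a ∈ X ∧ R (μ a) a := by
  classical
  let S : Finset (Finset V) :=
    univ.filter (fun X => X ⊆ Y ∧ X.Nonempty ∧ Indep R X ∧ (nb R X ∩ Y).card ≤ X.card)
  have hS : S.Nonempty := by
    obtain ⟨X, h1, h2, h3, h4⟩ := h
    exact ⟨X, mem_filter.2 ⟨mem_univ _, h1, h2, h3, h4⟩⟩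
  obtain ⟨X, hX, hmin⟩ := exists_min_image S card hS
  obtain ⟨hXY, hne, hI, hc⟩ := (mem_filter.1 hX).2
  have hall : ∀ U ⊆ nb R X ∩ Y, U.card ≤ (nb R U ∩ X).card := by
    intro U hU
    by_contra hlt
    rw [not_le] at hlt
    have hUne : U.Nonempty := card_pos.1 (by omega)
    have hsub : nb R (X \ nb R U) ∩ Y ⊆ (nb R X ∩ Y) \ U := by
      intro w hw
      obtain ⟨hw1, hw2⟩ := mem_inter.1 hw
      obtain ⟨x, hx, hxw⟩ := mem_nb.1 hw1
      refine mem_sdiff.2 ⟨mem_inter.2 ⟨mem_nb.2 ⟨x, (mem_sdiff.1 hx).1, hxw⟩, hw2⟩, ?_⟩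
      intro hwU
      exact (mem_sdiff.1 hx).2 (mem_nb.2 ⟨w, hwU, hs _ _ hxw⟩)
    have h1 := card_le_card hsub
    rw [card_sdiff_of_subset hU] at h1
    have h2 := card_le_card hU
    have h3 := card_sdiff_add_card_inter X (nb R U)
    rw [inter_comm X] at h3
    have h4 : 0 < (nb R U ∩ X).card := by
      obtain ⟨u, hu⟩ := hUne
      obtain ⟨x, hx, hxu⟩ := mem_nb.1 (mem_inter.1 (hU hu)).1
      exact card_pos.2 ⟨x, mem_inter.2 ⟨mem_nb.2 ⟨u, hu, hs _ _ hxu⟩, hx⟩⟩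
    have hmem : X \ nb R U ∈ S := by
      refine mem_filter.2 ⟨mem_univ _, sdiff_subset.trans hXY, card_pos.1 (by omega), ?_, by omega⟩
      intro x hx y hy
      exact hI x (mem_sdiff.1 hx).1 y (mem_sdiff.1 hy).1
    have := hmin _ hmem
    omega
  obtain ⟨μ, hinj, hμ⟩ := hall_inj (R := R) (nb R X ∩ Y) X hall
  exact ⟨X, hXY, hne, hI, μ, hinj, fun a ha => ⟨(hμ a ha).1, hs _ _ (hμ a ha).2⟩⟩

/-- A largest independent set `I` whose neighbourhood is matchable into `I` leaves a rest with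
surplus one (otherwise add the set given by `crit_set`). -/
theorem exists_core (hs : Sy R) :
    ∃ I : Finset V, Indep R I ∧ (∃ μ : V → V, Set.InjOn μ ((nb R I : Finset V) : Set V) ∧
      ∀ a ∈ nb R I, μ a ∈ I ∧ R (μ a) a) ∧
      ∀ X ⊆ univ \ (I ∪ nb R I), X.Nonempty → Indep R X →
        X.card + 1 ≤ (nb R X ∩ (univ \ (I ∪ nb R I))).card := by
  classical
  let S : Finset (Finset V) :=
    univ.filter (fun I => Indep R I ∧ ∃ μ : V → V, Set.InjOn μ ((nb R I : Finset V) : Set V) ∧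
      ∀ a ∈ nb R I, μ a ∈ I ∧ R (μ a) a)
  have hS : S.Nonempty := by
    refine ⟨∅, mem_filter.2 ⟨mem_univ _, fun x hx => absurd hx (notMem_empty x), id,
      Function.injective_id.injOn, ?_⟩⟩
    intro a ha
    obtain ⟨v, hv, _⟩ := mem_nb.1 ha
    exact absurd hv (notMem_empty v)
  obtain ⟨I, hIS, hmax⟩ := exists_max_image S card hS
  obtain ⟨hI, μ, hinj, hμ⟩ := (mem_filter.1 hIS).2
  refine ⟨I, hI, ⟨μ, hinj, hμ⟩, ?_⟩
  intro X hX hne hXI
  by_contra hlt
  obtain ⟨X', hX', hne', hI', ν, hνinj, hν⟩ :=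
    crit_set hs (univ \ (I ∪ nb R I)) ⟨X, hX, hne, hXI, by omega⟩
  have hnotI : ∀ x ∈ X', x ∉ I := fun x hx hxI =>
    (mem_sdiff.1 (hX' hx)).2 (mem_union_left _ hxI)
  have hnotN : ∀ x ∈ X', x ∉ nb R I := fun x hx hxI =>
    (mem_sdiff.1 (hX' hx)).2 (mem_union_right _ hxI)
  have hrest : ∀ a ∈ nb R (I ∪ X'), a ∉ nb R I → a ∈ nb R X' ∩ (univ \ (I ∪ nb R I)) := by
    intro a ha hn
    obtain ⟨v, hv, hva⟩ := mem_nb.1 ha
    rcases mem_union.1 hv with hv | hv
    · exact absurd (mem_nb.2 ⟨v, hv, hva⟩) hn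
    · refine mem_inter.2 ⟨mem_nb.2 ⟨v, hv, hva⟩, mem_sdiff.2 ⟨mem_univ _, ?_⟩⟩
      intro h
      rcases mem_union.1 h with h | h
      · exact hnotN v hv (mem_nb.2 ⟨a, h, hs _ _ hva⟩)
      · exact hn h
  have hmem : I ∪ X' ∈ S := by
    refine mem_filter.2 ⟨mem_univ _, ?_, fun a => if a ∈ nb R I then μ a else ν a, ?_, ?_⟩
    · intro x hx y hy hxy
      rcases mem_union.1 hx with hx | hx <;> rcases mem_union.1 hy with hy | hy
      · exact hI x hx y hy hxy
      · exact hnotN y hy (mem_nb.2 ⟨x, hx, hxy⟩)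
      · exact hnotN x hx (mem_nb.2 ⟨y, hy, hs _ _ hxy⟩)
      · exact hI' x hx y hy hxy
    · intro a ha b hb e
      have ha' : a ∈ nb R (I ∪ X') := ha
      have hb' : b ∈ nb R (I ∪ X') := hb
      by_cases h1 : a ∈ nb R I <;> by_cases h2 : b ∈ nb R I
      · simp only [h1, h2, if_true] at e
        exact hinj h1 h2 e
      · simp only [h1, h2, if_true, if_false] at e
        exact absurd (e ▸ (hμ a h1).1) (hnotI _ (hν b (hrest b hb' h2)).1)
      · simp only [h1, h2, if_true, if_false] at e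
        exact absurd (e ▸ (hμ b h2).1) (hnotI _ (hν a (hrest a ha' h1)).1)
      · simp only [h1, h2, if_false] at e
        exact hνinj (hrest a ha' h1) (hrest b hb' h2) e
    · intro a ha
      by_cases h1 : a ∈ nb R I
      · simp only [h1, if_true]
        exact ⟨mem_union_left _ (hμ a h1).1, (hμ a h1).2⟩
      · simp only [h1, if_false]
        exact ⟨mem_union_right _ (hν a (hrest a ha h1)).1, (hν a (hrest a ha h1)).2⟩
  have h1 := hmax _ hmem
  have h2 : (I ∪ X').card = I.card + X'.card :=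
    card_union_of_disjoint (disjoint_right.2 hnotI)
  have h3 := card_pos.2 hne'
  omega

end Pool.Agent.Lib.MP_59216f_co.TD
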