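import Pool.Agent.Lib.MP_59216f_co.GBasic

set_option autoImplicit false
set_option linter.unusedSectionVars false

namespace Pool.Agent.Lib.MP_59216f_co.TD

open Finset

variable {V : Type} [Fintype V] [DecidableEq V] {R : V → V → Prop}

/-- Propagation order. Rows `Rw`, each row `v` owns the column `m v`; `Q v w` says that `w` is
an allowed source for the row `v`. If no nonempty set of rows is stuck, there are sources `s`
and a rank such that a source is never owned by a row of the same or a larger rank.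
Proof: strong induction on `Rw.card`: take `v ∈ Rw`, `w ∉ Rw.image m` with `Q v w`, use the
induction hypothesis for `Rw.erase v` (sources `s'`, rank `rk'`), put `s v = w`, `rk v = 0` and
`rk x = rk' x + 1` for the other rows. -/
theorem prop_rank (Q : V → V → Prop) (m : V → V) (Rw : Finset V)
    (hexp : ∀ U ⊆ Rw, U.Nonempty → ∃ v ∈ U, ∃ w, Q v w ∧ w ∉ U.image m) :
    ∃ (s : V → V) (rk : V → ℕ), ∀ v ∈ Rw, Q v (s v) ∧ ∀ v' ∈ Rw, m v' = s v → rk v' < rk v := by
  induction hn : Rw.card generalizing Rw with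
  | zero =>
    rw [card_eq_zero] at hn
    subst hn
    exact ⟨id, fun _ => 0, fun v hv => absurd hv (notMem_empty v)⟩
  | succ n ih =>
    obtain ⟨v, hv, w, hQ, hw⟩ := hexp Rw subset_rfl (card_pos.1 (by omega))
    obtain ⟨s, rk, h⟩ := ih (Rw.erase v) (fun U hU => hexp U (hU.trans (erase_subset _ _)))
      (by rw [card_erase_of_mem hv]; omega)
    refine ⟨Function.update s v w, Function.update (fun x => rk x + 1) v 0, fun x hx => ?_⟩
    by_cases hxv : x = v
    · subst hxv
      rw [Function.update_self]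
      exact ⟨hQ, fun v' hv' e => absurd (mem_image.2 ⟨v', hv', e⟩) hw⟩
    · rw [Function.update_of_ne hxv, Function.update_of_ne hxv]
      obtain ⟨h1, h2⟩ := h x (mem_erase.2 ⟨hxv, hx⟩)
      refine ⟨h1, fun v' hv' e => ?_⟩
      by_cases hv'v : v' = v
      · subst hv'v
        rw [Function.update_self]
        omega
      · rw [Function.update_of_ne hv'v]
        have := h2 v' (mem_erase.2 ⟨hv'v, hv'⟩) e
        omega

/-- Colouring along a propagation order. Induction on `Rw.card`, removing a row of largest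
rank (its column is not the source of any row). -/
theorem colour_ext (m s : V → V) (rk : V → ℕ) (Rw : Finset V) (hinj : Set.InjOn m (Rw : Set V))
    (hrk : ∀ v ∈ Rw, ∀ v' ∈ Rw, m v' = s v → rk v' < rk v) (c0 : V → Bool) :
    ∃ c : V → Bool, (∀ w, w ∉ Rw.image m → c w = c0 w) ∧ ∀ v ∈ Rw, c (m v) = !c (s v) := by
  induction hn : Rw.card generalizing Rw with
  | zero =>
    rw [card_eq_zero] at hn
    subst hn
    exact ⟨c0, fun _ _ => rfl, fun v hv => absurd hv (notMem_empty v)⟩
  | succ n ih =>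
    obtain ⟨v, hv, hmax⟩ := exists_max_image Rw rk (card_pos.1 (by omega))
    obtain ⟨c, h1, h2⟩ := ih (Rw.erase v) (hinj.mono (fun x hx => mem_of_mem_erase hx))
      (fun x hx y hy => hrk x (mem_of_mem_erase hx) y (mem_of_mem_erase hy))
      (by rw [card_erase_of_mem hv]; omega)
    have hsrc : ∀ x ∈ Rw, s x ≠ m v := fun x hx e => by
      have := hrk x hx v hv e.symm
      have := hmax x hx
      omega
    refine ⟨Function.update c (m v) (!c (s v)), fun w hw => ?_, fun x hx => ?_⟩
    · have hne : w ≠ m v := fun e => hw (mem_image.2 ⟨v, hv, e.symm⟩)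
      rw [Function.update_of_ne hne]
      exact h1 w (fun h => hw (image_subset_image (erase_subset _ _) h))
    · rw [Function.update_of_ne (hsrc x hx)]
      by_cases hxv : x = v
      · subst hxv
        rw [Function.update_self]
      · rw [Function.update_of_ne (fun e => hxv (hinj hx hv e))]
        exact h2 x (mem_erase.2 ⟨hxv, hx⟩)

/-- The two previous lemmas together. -/
theorem extendQ (Q : V → V → Prop) (m : V → V) (Rw : Finset V) (hinj : Set.InjOn m (Rw : Set V))
    (hexp : ∀ U ⊆ Rw, U.Nonempty → ∃ v ∈ U, ∃ w, Q v w ∧ w ∉ U.image m) (c0 : V → Bool) :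
    ∃ c : V → Bool, (∀ w, w ∉ Rw.image m → c w = c0 w) ∧
      ∀ v ∈ Rw, ∃ w, Q v w ∧ c w ≠ c (m v) := by
  obtain ⟨s, rk, h⟩ := prop_rank Q m Rw hexp
  obtain ⟨c, h1, h2⟩ := colour_ext m s rk Rw hinj (fun v hv => (h v hv).2) c0
  refine ⟨c, h1, fun v hv => ⟨s v, (h v hv).1, ?_⟩⟩
  rw [h2 v hv]
  cases c (s v) <;> simp

/-- Fully indecomposable case: a proper set of rows is never stuck (`fi_exp`). -/
theorem extFI (hs : Sy R) (h1 : Sur R 1) (hc : Conn R) (m : V → V) (Rw : Finset V)
    (hinj : Set.InjOn m (Rw : Set V)) (hne : Rw ≠ univ) (c0 : V → Bool) :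
    ∃ c : V → Bool, (∀ w, w ∉ Rw.image m → c w = c0 w) ∧
      ∀ v ∈ Rw, ∃ w, R v w ∧ c w ≠ c (m v) := by
  refine extendQ R m Rw hinj (fun U hU hne' => fi_exp hs h1 hc hne' ?_ m) c0
  rintro rfl
  exact hne (univ_subset_iff.1 hU)

/-- A set of rows that is stuck when the column `u` is forbidden is everything but `u`.
`nb U ⊆ insert u (U.image m)`, so `exp2` gives `U ⊆ nb U`, hence `U ⊆ U.image m`, hence
`U = U.image m` by cardinality, and `NonCut` applies. -/
theorem stuck_nc (hs : Sy R) (h2 : Sur R 2) {u : V} (hu : NonCut R u) (m : V → V) {U : Finset V}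
    (hU : U.Nonempty) (huU : u ∉ U) (h : ∀ v ∈ U, ∀ w, R v w → w ≠ u → w ∈ U.image m) :
    insert u U = univ := by
  have hsub : nb R U ⊆ insert u (U.image m) := by
    intro w hw
    obtain ⟨v, hv, hvw⟩ := mem_nb.1 hw
    by_cases hwu : w = u
    · exact hwu ▸ mem_insert_self _ _
    · exact mem_insert_of_mem (h v hv w hvw hwu)
  have hc1 := card_le_card hsub
  have hc2 := card_insert_le u (U.image m)
  have hc3 : (U.image m).card ≤ U.card := card_image_le
  have h4 : U ⊆ U.image m := by
    intro x hx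
    rcases mem_insert.1 (hsub (exp2 hs h2 (by omega) hx)) with e | e
    · exact absurd (e ▸ hx) huU
    · exact e
  have h5 : U = U.image m := eq_of_subset_of_card_le h4 hc3
  refine hu U hU huU (fun v hv w hvw => ?_)
  by_cases hwu : w = u
  · exact Or.inr hwu
  · exact Or.inl (h5 ▸ h v hv w hvw hwu)

/-- Propagation that never uses the non cut vertex `u` as a source. -/
theorem extNC (hs : Sy R) (h2 : Sur R 2) {u : V} (hu : NonCut R u) (m : V → V) (Rw : Finset V)
    (hinj : Set.InjOn m (Rw : Set V)) (huR : u ∉ Rw) (hne : insert u Rw ≠ univ) (c0 : V → Bool) :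
    ∃ c : V → Bool, (∀ w, w ∉ Rw.image m → c w = c0 w) ∧
      ∀ v ∈ Rw, ∃ w, R v w ∧ w ≠ u ∧ c w ≠ c (m v) := by
  obtain ⟨c, h1, h3⟩ := extendQ (fun v w => R v w ∧ w ≠ u) m Rw hinj (fun U hU hne' => by
    by_contra hcon
    push Not at hcon
    have := stuck_nc hs h2 hu m hne' (fun h => huR (hU h))
      (fun v hv w hvw hwu => hcon v hv w ⟨hvw, hwu⟩)
    exact hne (univ_subset_iff.1 (this ▸ insert_subset_insert u hU))) c0
  refine ⟨c, h1, fun v hv => ?_⟩
  obtain ⟨w, hw, hc⟩ := h3 v hv
  exact ⟨w, hw.1, hw.2, hc⟩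

end Pool.Agent.Lib.MP_59216f_co.TD
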