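import Pool.Agent.Lib.MP_59216f_co.GRepair

set_option autoImplicit false
set_option linter.unusedSectionVars false

namespace Pool.Agent.Lib.MP_59216f_co.TD

open Finset

variable {V : Type} [Fintype V] [DecidableEq V] {R : V → V → Prop}

/-- One set with allowed supports gives a valid set that is no larger. -/
theorem oneSet_GShare (hs : Sy R) (h3 : Three R) (S : Finset V) (P : V → V → Prop)
    (hP : ∀ v w, P v w → w ∈ S ∧ R v w) (hn : ∀ v, ∃ w, P v w)
    (hb : ∀ b ∈ S, (∀ u, R b u → u ∈ S) → ∀ v v', P v b → P v' b → v = v') :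
    ∃ S', Valid R S' ∧ S'.card ≤ S.card := by
  choose σ hσ using hn
  refine repair1 hs h3 S σ (fun v => hP v _ (hσ v)) ?_
  intro b hbS hbad v v' e e'
  exact hb b hbS hbad v v' (e ▸ hσ v) (e' ▸ hσ v')

/-- A vertex that is not needed can be erased. -/
theorem eraseSet_GShare (hs : Sy R) (h3 : Three R) (S : Finset V) (P : V → V → Prop)
    (hP : ∀ v w, P v w → w ∈ S ∧ R v w)
    (hb : ∀ b ∈ S, (∀ u, R b u → u ∈ S) → ∀ v v', P v b → P v' b → v = v')
    {x : V} (hx : x ∈ S) (hn : ∀ v, ∃ w, P v w ∧ w ≠ x) :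
    ∃ S', Valid R S' ∧ S'.card + 1 ≤ S.card := by
  obtain ⟨S', hv, hc⟩ := oneSet_GShare hs h3 (S.erase x) (fun v w => P v w ∧ w ≠ x)
    (fun v w h => ⟨mem_erase.2 ⟨h.2, (hP v w h.1).1⟩, (hP v w h.1).2⟩) hn
    (fun b hbS hbad v v' h h' => hb b (mem_of_mem_erase hbS)
      (fun u hu => mem_of_mem_erase (hbad u hu)) v v' h.1 h'.1)
  refine ⟨S', hv, ?_⟩
  have := card_erase_add_one hx
  omega

open Classical in
/-- If every vertex is needed, the set is no larger than the set of rows with one support. -/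
theorem needed_GShare (S : Finset V) (P : V → V → Prop) (hn : ∀ v, ∃ w, P v w)
    (hall : ∀ x ∈ S, ∃ v, ∀ w, P v w → w = x) :
    S.card ≤ (univ.filter (fun v => ¬ ∃ w w', w ≠ w' ∧ P v w ∧ P v w')).card := by
  choose σ hσ using hn
  refine le_trans (card_le_card ?_) (card_image_le (f := σ))
  intro x hx
  obtain ⟨v, hv⟩ := hall x hx
  refine mem_image.2 ⟨v, mem_filter.2 ⟨mem_univ _, ?_⟩, hv _ (hσ v)⟩
  rintro ⟨w, w', hne, h, h'⟩
  exact hne ((hv w h).trans (hv w' h').symm)

theorem small_of_pair_GShare {S1 S2 : Finset V} (h1 : Valid R S1) (h2 : Valid R S2)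
    (hc : S1.card + S2.card ≤ Fintype.card V) : Small R := by
  by_cases h : S1.card ≤ S2.card
  · exact ⟨S1, h1, by omega⟩
  · exact ⟨S2, h2, by omega⟩

theorem bool_pick_GShare {c : V → Bool} {Q : V → Prop} {w w' : V} (hw : Q w) (hw' : Q w')
    (hne : c w ≠ c w') (b : Bool) : ∃ y, Q y ∧ c y = b := by
  by_cases h : c w = b
  · exact ⟨w, hw, h⟩
  · refine ⟨w', hw', ?_⟩
    revert hne h
    cases c w <;> cases c w' <;> cases b <;> simp

theorem card_classes_GShare (c : V → Bool) :
    (univ.filter (fun v => c v = true)).card + (univ.filter (fun v => c v = false)).card =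
      Fintype.card V := by
  have h := card_filter_add_card_filter_not (s := (univ : Finset V)) (fun v => c v = true)
  have e : (univ.filter (fun v => ¬ c v = true)) = univ.filter (fun v => c v = false) := by
    ext v
    simp
  rw [e, card_univ] at h
  exact h

/-- Two sets with total size at most `n + 1` and allowed supports `P1`, `P2`. Call `x ∈ S1`
needed if some row `v` has `x` as its only allowed support. By `htwo` a row makes at most one
pair (set, vertex) needed, so at most `n` pairs are needed. If all are needed then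
`|S1| + |S2| ≤ n`; otherwise erase a vertex that is not needed. Then apply `repair1` to the
smaller of the two sets (a bad vertex of `S1.erase x` is bad in `S1`). -/
theorem share (hs : Sy R) (h3 : Three R) (S1 S2 : Finset V) (P1 P2 : V → V → Prop)
    (hP1 : ∀ v w, P1 v w → w ∈ S1 ∧ R v w) (hP2 : ∀ v w, P2 v w → w ∈ S2 ∧ R v w)
    (hn1 : ∀ v, ∃ w, P1 v w) (hn2 : ∀ v, ∃ w, P2 v w)
    (htwo : ∀ v, (∃ w w', w ≠ w' ∧ P1 v w ∧ P1 v w') ∨ ∃ w w', w ≠ w' ∧ P2 v w ∧ P2 v w')
    (hb1 : ∀ b ∈ S1, (∀ u, R b u → u ∈ S1) → ∀ v v', P1 v b → P1 v' b → v = v')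
    (hb2 : ∀ b ∈ S2, (∀ u, R b u → u ∈ S2) → ∀ v v', P2 v b → P2 v' b → v = v')
    (hcard : S1.card + S2.card ≤ Fintype.card V + 1) : Small R := by
  classical
  obtain ⟨T1, hT1, hc1⟩ := oneSet_GShare hs h3 S1 P1 hP1 hn1 hb1
  obtain ⟨T2, hT2, hc2⟩ := oneSet_GShare hs h3 S2 P2 hP2 hn2 hb2
  by_cases ha1 : ∀ x ∈ S1, ∃ v, ∀ w, P1 v w → w = x
  · by_cases ha2 : ∀ x ∈ S2, ∃ v, ∀ w, P2 v w → w = x
    · have k1 := needed_GShare S1 P1 hn1 ha1
      have k2 := needed_GShare S2 P2 hn2 ha2
      have hd : Disjoint (univ.filter (fun v => ¬ ∃ w w', w ≠ w' ∧ P1 v w ∧ P1 v w'))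
          (univ.filter (fun v => ¬ ∃ w w', w ≠ w' ∧ P2 v w ∧ P2 v w')) := by
        rw [disjoint_left]
        intro v hv hv'
        rcases htwo v with h | h
        · exact (mem_filter.1 hv).2 h
        · exact (mem_filter.1 hv').2 h
      have k3 := card_le_univ ((univ.filter (fun v => ¬ ∃ w w', w ≠ w' ∧ P1 v w ∧ P1 v w')) ∪
          (univ.filter (fun v => ¬ ∃ w w', w ≠ w' ∧ P2 v w ∧ P2 v w')))
      rw [card_union_of_disjoint hd] at k3
      exact small_of_pair_GShare hT1 hT2 (by omega)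
    · push Not at ha2
      obtain ⟨x, hx, hx'⟩ := ha2
      obtain ⟨T, hT, hc⟩ := eraseSet_GShare hs h3 S2 P2 hP2 hb2 hx hx'
      exact small_of_pair_GShare hT1 hT (by omega)
  · push Not at ha1
    obtain ⟨x, hx, hx'⟩ := ha1
    obtain ⟨T, hT, hc⟩ := eraseSet_GShare hs h3 S1 P1 hP1 hb1 hx hx'
    exact small_of_pair_GShare hT hT2 (by omega)

/-- Both colour classes are valid, take the smaller. -/
theorem small_of_twoCol (h : TwoCol R) : Small R := by
  obtain ⟨c, hc⟩ := h
  have key : ∀ b : Bool, Valid R (univ.filter (fun v => c v = b)) := by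
    intro b
    constructor
    · intro v
      obtain ⟨w, w', hw, hw', hne⟩ := hc v
      obtain ⟨y, hy, hy'⟩ := bool_pick_GShare (Q := fun y => R v y) hw hw' hne b
      exact ⟨y, mem_filter.2 ⟨mem_univ _, hy'⟩, hy⟩
    · intro v _
      obtain ⟨w, w', hw, hw', hne⟩ := hc v
      obtain ⟨y, hy, hy'⟩ := bool_pick_GShare (Q := fun y => R v y) hw hw' hne (!b)
      refine ⟨y, fun hm => ?_, hy⟩
      have := (mem_filter.1 hm).2
      rw [hy'] at this
      cases b <;> simp at this
  exact small_of_pair_GShare (key true) (key false) (card_classes_GShare c).le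

/-- Two valid sets sharing the vertex `u`: `S1 = insert u {c = true}`,
`S2 = insert u {c = false}`, `P1 v w = (w ∈ S1 ∧ R v w)`, likewise `P2`; no bad vertices.
A row `v ≠ u` adjacent to `u` has a neighbour `w ≠ u` with `c w ≠ c v`; all other rows see both
colours among their neighbours different from `u`. -/
theorem sg (hs : Sy R) (h3 : Three R) {u : V} (h : TwoCol (Lp R u)) : Small R := by
  obtain ⟨c, hc⟩ := h
  let S : Bool → Finset V := fun b => insert u (univ.filter (fun v => c v = b))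
  have hS : ∀ b w, w ∈ S b ↔ w = u ∨ c w = b := by
    intro b w
    simp [S]
  have hpick : ∀ v b, ¬ R v u → ∃ y, R v y ∧ c y = b := by
    intro v b hvu
    obtain ⟨w, w', hw, hw', hne⟩ := hc v
    have k : ∀ y, Lp R u v y → R v y := by
      rintro y (hy | hy)
      · exact hy.1
      · exact absurd hy.1 hvu
    exact bool_pick_GShare (Q := fun y => R v y) (k w hw) (k w' hw') hne b
  have hn : ∀ b v, ∃ w, w ∈ S b ∧ R v w := by
    intro b v
    by_cases hvu : R v u
    · exact ⟨u, (hS b u).2 (Or.inl rfl), hvu⟩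
    · obtain ⟨y, hy, hy'⟩ := hpick v b hvu
      exact ⟨y, (hS b y).2 (Or.inr hy'), hy⟩
  have hbad : ∀ b, ∀ x ∈ S b, ¬ ∀ y, R x y → y ∈ S b := by
    intro b x hx hall
    obtain ⟨w, w', hw, hw', hne⟩ := hc x
    obtain ⟨y, hy, hy'⟩ := bool_pick_GShare (Q := fun y => Lp R u x y) hw hw' hne (!b)
    have hb : ¬ c y = b := by
      rw [hy']
      cases b <;> simp
    rcases hy with hy | hy
    · rcases (hS b y).1 (hall y hy.1) with h | h
      · exact hy.2 h
      · exact hb h
    · obtain ⟨_, hxu, rfl⟩ := hy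
      rcases (hS b y).1 hx with h | h
      · exact hxu h
      · exact hb h
  have htwo : ∀ v, ∃ b w w', w ≠ w' ∧ (w ∈ S b ∧ R v w) ∧ (w' ∈ S b ∧ R v w') := by
    intro v
    by_cases hvu : R v u
    · obtain ⟨w, hw, hne, _⟩ := h3.third v u u
      exact ⟨c w, w, u, hne, ⟨(hS _ w).2 (Or.inr rfl), hw⟩, (hS _ u).2 (Or.inl rfl), hvu⟩
    · obtain ⟨y1, hy1, hy1'⟩ := hpick v true hvu
      obtain ⟨y2, hy2, hy2'⟩ := hpick v false hvu
      obtain ⟨w, hw, hne1, hne2⟩ := h3.third v y1 y2
      cases hcw : c w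
      · exact ⟨false, w, y2, hne2, ⟨(hS _ w).2 (Or.inr hcw), hw⟩, (hS _ y2).2 (Or.inr hy2'), hy2⟩
      · exact ⟨true, w, y1, hne1, ⟨(hS _ w).2 (Or.inr hcw), hw⟩, (hS _ y1).2 (Or.inr hy1'), hy1⟩
  refine share hs h3 (S true) (S false) (fun v w => w ∈ S true ∧ R v w)
    (fun v w => w ∈ S false ∧ R v w) (fun _ _ h => h) (fun _ _ h => h) (hn true) (hn false) ?_
    (fun b hb hall => absurd hall (hbad true b hb))
    (fun b hb hall => absurd hall (hbad false b hb)) ?_
  · intro v
    obtain ⟨b, w, w', k⟩ := htwo v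
    cases b
    · exact Or.inr ⟨w, w', k⟩
    · exact Or.inl ⟨w, w', k⟩
  · have k := card_classes_GShare c
    have k1 : (S true).card ≤ (univ.filter (fun v => c v = true)).card + 1 := card_insert_le _ _
    have k2 : (S false).card ≤ (univ.filter (fun v => c v = false)).card + 1 := card_insert_le _ _
    cases hcu : c u
    · have : (S false).card = (univ.filter (fun v => c v = false)).card := by
        apply congrArg
        exact insert_eq_of_mem (mem_filter.2 ⟨mem_univ _, hcu⟩)
      omega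
    · have : (S true).card = (univ.filter (fun v => c v = true)).card := by
        apply congrArg
        exact insert_eq_of_mem (mem_filter.2 ⟨mem_univ _, hcu⟩)
      omega

/-- Flip one side of a cut vertex. `Y` from `¬ NonCut`, `Z` the other side; both contain
neighbours of `u` by `Conn`; the colouring `c' = !c` on `Y`, `c` elsewhere shows
`TwoCol (Lp R u)`. -/
theorem flip (hs : Sy R) (h3 : Three R) (hc : Conn R) {u : V} (hu : ¬ NonCut R u) (c : V → Bool)
    (hk : ∀ w, R u w → c w = c u) (hb : ∀ v, v ≠ u → Bi R c v) : Small R := by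
  unfold NonCut at hu
  push Not at hu
  obtain ⟨Y, hY, huY, hcl, hne⟩ := hu
  have hcl' : ∀ v w, R v w → w ≠ u → v ∈ Y → w ∈ Y := by
    intro v w hvw hwu hv
    exact (hcl v hv w hvw).resolve_right hwu
  have hside : ∀ v w, R v w → v ≠ u → w ≠ u → (v ∈ Y ↔ w ∈ Y) := fun v w hvw hv hw =>
    ⟨hcl' v w hvw hw, hcl' w v (hs _ _ hvw) hv⟩
  have hyu : ∃ y ∈ Y, R u y := by
    by_contra hno
    push Not at hno
    have : Y = univ := hc Y hY (fun v hv w hvw => by
      rcases hcl v hv w hvw with h | h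
      · exact h
      · exact absurd (hs _ _ (h ▸ hvw)) (hno v hv))
    exact huY (this ▸ mem_univ u)
  have hzu : ∃ z, z ≠ u ∧ z ∉ Y ∧ R u z := by
    by_contra hno
    push Not at hno
    apply hne
    apply hc (insert u Y) (insert_nonempty _ _)
    intro v hv w hvw
    rcases mem_insert.1 hv with h | h
    · by_cases hwu : w = u
      · exact mem_insert.2 (Or.inl hwu)
      · by_cases hwY : w ∈ Y
        · exact mem_insert.2 (Or.inr hwY)
        · exact absurd (h ▸ hvw) (hno w hwu hwY)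
    · exact mem_insert.2 (hcl v h w hvw).symm
  let c' : V → Bool := fun v => if v ∈ Y then !c v else c v
  have hc' : ∀ w w', (w ∈ Y ↔ w' ∈ Y) → c w ≠ c w' → c' w ≠ c' w' := by
    intro w w' hi hcw
    by_cases hw : w ∈ Y
    · have hw' := hi.1 hw
      simp only [c', hw, hw', if_true]
      intro e
      exact hcw (Bool.not_inj e)
    · have hw' : w' ∉ Y := fun h => hw (hi.2 h)
      simp only [c', hw, hw', if_false]
      exact hcw
  refine sg hs h3 (u := u) ⟨c', fun v => ?_⟩
  by_cases hvu : v = u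
  · obtain ⟨y, hy, hy'⟩ := hyu
    obtain ⟨z, hz1, hz2, hz3⟩ := hzu
    have hyne : y ≠ u := fun e => huY (e ▸ hy)
    refine ⟨y, z, Or.inl ⟨hvu ▸ hy', hyne⟩, Or.inl ⟨hvu ▸ hz3, hz1⟩, ?_⟩
    simp only [c', hy, hz2, if_true, if_false, hk y hy', hk z hz3]
    cases c u <;> simp
  · have loopcase : ∀ w', R v u → R v w' → c u ≠ c w' → Bi (Lp R u) c' v := by
      intro w' h1 h2 h4
      have hw'u : w' ≠ u := fun e => h4 (by rw [e])
      refine ⟨v, w', Or.inr ⟨h1, hvu, rfl⟩, Or.inl ⟨h2, hw'u⟩, hc' _ _ (hside v w' h2 hvu hw'u) ?_⟩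
      rw [hk v (hs _ _ h1)]
      exact h4
    obtain ⟨w, w', hw, hw', hcw⟩ := hb v hvu
    by_cases hwu : w = u
    · exact loopcase w' (hwu ▸ hw) hw' (hwu ▸ hcw)
    · by_cases hwu' : w' = u
      · exact loopcase w (hwu' ▸ hw') hw (hwu' ▸ hcw.symm)
      · exact ⟨w, w', Or.inl ⟨hw, hwu⟩, Or.inl ⟨hw', hwu'⟩,
          hc' _ _ ((hside v w hw hvu hwu).symm.trans (hside v w' hw' hvu hwu')) hcw⟩

end Pool.Agent.Lib.MP_59216f_co.TD
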