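import Pool.Agent.Lib.MP_59216f_co.GList
import Pool.Agent.Lib.MP_59216f_co.GProp
import Pool.Agent.Lib.MP_59216f_co.GShare

set_option autoImplicit false
set_option linter.unusedSectionVars false

namespace Pool.Agent.Lib.MP_59216f_co.TD

open Finset

variable {V : Type} [Fintype V] [DecidableEq V] {R : V → V → Prop}

/-- Rows on a path coloured by the pattern: a vertex of `t` with two neighbours in `t` sees both
colours, an end vertex sees a colour different from its own when `t.length` is even. So for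
`Lp R u` all rows of `t` are fine (`ch_mem_cases`, `pat_ne`). -/
theorem lp_rows (hs : Sy R) {u : V} {t : List V} (hc : Ch R u t u) (he : Even t.length)
    (hn : (u :: t).Nodup) (c : V → Bool)
    (hp : ∀ l1 x l2, t = l1 ++ x :: l2 → c x = pat l1.length) :
    ∀ v ∈ t, ∃ w w', (w ∈ t ∧ w' ∈ t) ∧ Lp R u v w ∧ Lp R u v w' ∧ c w ≠ c w' := by
  intro v hv
  have hne : ∀ x ∈ t, x ≠ u := fun x hx e => (List.nodup_cons.1 hn).1 (e ▸ hx)
  rcases ch_mem_cases hs hc hv with ⟨e, -⟩ | ⟨w, l, e, h1, h2⟩ | ⟨l, w, e, h1, h2⟩ |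
    ⟨l1, w, w', l2, e, h1, h2⟩
  · rw [e] at he
    simp at he
  · have hw : w ∈ t := by rw [e]; simp
    refine ⟨v, w, ⟨hv, hw⟩, Or.inr ⟨h1, hne v hv, rfl⟩, Or.inl ⟨h2, hne w hw⟩, ?_⟩
    rw [hp [] v (w :: l) e, hp [v] w l e]
    simp [pat]
  · have hw : w ∈ t := by rw [e]; simp
    refine ⟨v, w, ⟨hv, hw⟩, Or.inr ⟨h2, hne v hv, rfl⟩, Or.inl ⟨h1, hne w hw⟩, ?_⟩
    rw [hp l w [v] e, hp (l ++ [w]) v [] (by rw [e]; simp)]
    rw [e] at he
    simp only [List.length_append, List.length_cons, List.length_nil, Nat.even_iff] at he ⊢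
    have h4 : l.length % 4 = 0 ∨ l.length % 4 = 2 := by omega
    unfold pat
    rcases h4 with h | h
    · have h' : (l.length + (0 + 1)) % 4 = 1 := by omega
      simp [h, h']
    · have h' : (l.length + (0 + 1)) % 4 = 3 := by omega
      simp [h, h']
  · have hw : w ∈ t := by rw [e]; simp
    have hw' : w' ∈ t := by rw [e]; simp
    refine ⟨w, w', ⟨hw, hw'⟩, Or.inl ⟨h1, hne w hw⟩, Or.inl ⟨h2, hne w' hw'⟩, ?_⟩
    rw [hp l1 w (v :: w' :: l2) e, hp (l1 ++ [w, v]) w' l2 (by rw [e]; simp)]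
    simpa using pat_ne l1.length

/-- The common part of core alpha and of the first case of core beta. -/
theorem gcoreA_gen (hs : Sy R) (h3 : Three R) (h2 : Sur R 2) {u : V} (hu : NonCut R u)
    {t : List V} (hc : Ch R u t u) (ht : t.length % 4 = 2) (hn : (u :: t).Nodup) (m : V → V)
    (hinj : Set.InjOn m ((univ \ (u :: t).toFinset : Finset V) : Set V))
    (hm : ∀ v ∈ (univ \ (u :: t).toFinset : Finset V),
      m v ∈ (univ \ (u :: t).toFinset : Finset V) ∧ Lp R u v (m v)) : Small R := by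
  have hne : ∀ x ∈ t, x ≠ u := fun x hx e => (List.nodup_cons.1 hn).1 (e ▸ hx)
  obtain ⟨c0, hc0⟩ := exists_pat (List.nodup_cons.1 hn).2
  obtain ⟨a, l, ea⟩ : ∃ a l, t = a :: l := by
    cases t with
    | nil => simp at ht
    | cons a l => exact ⟨a, l, rfl⟩
  obtain ⟨l', b, eb⟩ : ∃ l' b, t = l' ++ [b] := by
    rcases List.eq_nil_or_concat t with e | ⟨l', b, e⟩
    · rw [e] at ht
      simp at ht
    · exact ⟨l', b, by rw [e, List.concat_eq_append]⟩
  have ha : a ∈ t := by rw [ea]; simp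
  have hb : b ∈ t := by rw [eb]; simp
  obtain ⟨c, hc1, hc2⟩ := extNC hs h2 hu m (univ \ (u :: t).toFinset) hinj (by simp) (by
    intro e
    have h1 : a ∈ insert u (univ \ (u :: t).toFinset : Finset V) := by
      rw [e]
      exact mem_univ a
    rcases mem_insert.1 h1 with h | h
    · exact hne a ha h
    · exact (mem_sdiff.1 h).2 (by simp [ha])) c0
  have hp : ∀ l1 x l2, t = l1 ++ x :: l2 → c x = pat l1.length := by
    intro l1 x l2 e
    rw [hc1 x, hc0 l1 x l2 e]
    intro hx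
    obtain ⟨v, hv, rfl⟩ := mem_image.1 hx
    exact (mem_sdiff.1 (hm v hv).1).2 (by simp [e])
  refine sg hs h3 (u := u) ⟨c, fun v => ?_⟩
  by_cases hvu : v = u
  · subst hvu
    have h1 : R v a := by
      rw [ea] at hc
      exact hc.1
    have h4 : R v b := by
      rw [eb, ch_append] at hc
      exact hs _ _ hc.2
    refine ⟨a, b, Or.inl ⟨h1, hne a ha⟩, Or.inl ⟨h4, hne b hb⟩, ?_⟩
    rw [hp [] a l ea, hp l' b [] eb]
    rw [eb] at ht
    simp only [List.length_append, List.length_cons, List.length_nil] at ht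
    have h5 : l'.length % 4 = 1 := by omega
    simp [pat, h5]
  by_cases hvt : v ∈ t
  · obtain ⟨w, w', -, h1, h4, h5⟩ :=
      lp_rows hs hc (by rw [Nat.even_iff]; omega) hn c hp v hvt
    exact ⟨w, w', h1, h4, h5⟩
  · have hv : v ∈ (univ \ (u :: t).toFinset : Finset V) := by simp [hvu, hvt]
    obtain ⟨w, h1, h4, h5⟩ := hc2 v hv
    exact ⟨w, m v, Or.inl ⟨h1, h4⟩, (hm v hv).2, h5⟩

/-- Core alpha: cycle of length 3 mod 4 through the non cut vertex `u`. Colour `t` by the
pattern (its ends get different colours), `extNC` with rows `univ \ (u :: t).toFinset`, `sg`. -/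
theorem core_alpha (hs : Sy R) (h3 : Three R) (h2 : Sur R 2) {u : V} (hu : NonCut R u)
    {t : List V} (hc : Ch R u t u) (ht : t.length % 4 = 2) (h : CovL R (u :: t)) : Small R := by
  obtain ⟨hn, m, hinj, hm⟩ := h
  refine gcoreA_gen hs h3 h2 hu hc ht hn m hinj fun v hv => ⟨(hm v hv).1, Or.inl ⟨(hm v hv).2, ?_⟩⟩
  intro e
  exact (mem_sdiff.1 (hm v hv).1).2 (by simp [e])

/-- Core beta: odd cycle through `u`, a neighbour `i` of `u` outside, the rest is covered by `m`.
If `t.length % 4 = 2`: rows `univ \ (u :: t).toFinset` with `update m i i` (for `Lp R u` the row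
`i` has a loop), `extNC`, `sg`. If `t.length % 4 = 0` (and `t ≠ []` by `Irr`): the ends of `t`
are `false`, their neighbours on `t` are `true`; put `c0 i = true`, `c0 u = false`; `extNC` with
rows `univ \ (i :: u :: t).toFinset`. If `i` has a neighbour `w ≠ u` of colour `true` then
`TwoCol R`; otherwise `i` has a neighbour `w ≠ u` of colour `false` and `TwoCol (Lp R u)`. -/
theorem core_beta (hs : Sy R) (hi : Irr R) (h3 : Three R) (h2 : Sur R 2) {u i : V}
    (hu : NonCut R u) {t : List V} (hiu : R i u) (hc : Ch R u t u) (he : Even t.length)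
    (h : CovL R (i :: u :: t)) : Small R := by
  obtain ⟨hn, m, hinj, hm⟩ := h
  have hn' : (u :: t).Nodup := (List.nodup_cons.1 hn).2
  have hi' : i ∉ u :: t := (List.nodup_cons.1 hn).1
  have hiu' : i ≠ u := fun e => hi' (by simp [e])
  have hit : i ∉ t := fun e => hi' (by simp [e])
  have hne : ∀ x ∈ t, x ≠ u := fun x hx e => (List.nodup_cons.1 hn').1 (e ▸ hx)
  have hW : ∀ v, v ∈ (univ \ (i :: u :: t).toFinset : Finset V) ↔ v ≠ i ∧ v ≠ u ∧ v ∉ t := by
    intro v
    simp
  have hW' : ∀ v, v ∈ (univ \ (u :: t).toFinset : Finset V) ↔ v ≠ u ∧ v ∉ t := by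
    intro v
    simp
  have h4 : t.length % 4 = 2 ∨ t.length % 4 = 0 := by
    rw [Nat.even_iff] at he
    omega
  rcases h4 with ht | ht
  · refine gcoreA_gen hs h3 h2 hu hc ht hn' (Function.update m i i) ?_ ?_
    · intro x hx y hy e
      have hx' := (hW' x).1 hx
      have hy' := (hW' y).1 hy
      by_cases hxi : x = i <;> by_cases hyi : y = i
      · rw [hxi, hyi]
      · rw [hxi, Function.update_self, Function.update_of_ne hyi] at e
        exact absurd e.symm ((hW _).1 (hm y ((hW y).2 ⟨hyi, hy'⟩)).1).1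
      · rw [hyi, Function.update_self, Function.update_of_ne hxi] at e
        exact absurd e ((hW _).1 (hm x ((hW x).2 ⟨hxi, hx'⟩)).1).1
      · rw [Function.update_of_ne hxi, Function.update_of_ne hyi] at e
        exact hinj ((hW x).2 ⟨hxi, hx'⟩) ((hW y).2 ⟨hyi, hy'⟩) e
    · intro v hv
      by_cases hvi : v = i
      · subst hvi
        rw [Function.update_self]
        exact ⟨hv, Or.inr ⟨hiu, hiu', rfl⟩⟩
      · rw [Function.update_of_ne hvi]
        obtain ⟨h5, h6⟩ := hm v ((hW v).2 ⟨hvi, (hW' v).1 hv⟩)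
        have h7 := (hW _).1 h5
        exact ⟨(hW' _).2 h7.2, Or.inl ⟨h6, h7.2.1⟩⟩
  obtain ⟨cp, hcp⟩ := exists_pat (List.nodup_cons.1 hn').2
  obtain ⟨a, l, ea⟩ : ∃ a l, t = a :: l := by
    cases t with
    | nil => exact absurd hc (hi u)
    | cons a l => exact ⟨a, l, rfl⟩
  have ha : a ∈ t := by rw [ea]; simp
  have hua : R u a := by
    rw [ea] at hc
    exact hc.1
  obtain ⟨c, hc1, hc2⟩ := extNC hs h2 hu m (univ \ (i :: u :: t).toFinset) hinj (by simp) (by
    intro e
    have h1 : i ∈ insert u (univ \ (i :: u :: t).toFinset : Finset V) := by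
      rw [e]
      exact mem_univ i
    rcases mem_insert.1 h1 with h | h
    · exact hiu' h
    · exact ((hW i).1 h).1 rfl) (Function.update (Function.update cp i true) u false)
  have hout : ∀ x, x ∈ (univ \ (i :: u :: t).toFinset : Finset V).image m →
      x ≠ i ∧ x ≠ u ∧ x ∉ t := by
    intro x hx
    obtain ⟨v, hv, rfl⟩ := mem_image.1 hx
    exact (hW _).1 (hm v hv).1
  have cu : c u = false := by
    rw [hc1 u fun hx => (hout u hx).2.1 rfl, Function.update_self]
  have ci : c i = true := by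
    rw [hc1 i fun hx => (hout i hx).1 rfl, Function.update_of_ne hiu', Function.update_self]
  have hp : ∀ l1 x l2, t = l1 ++ x :: l2 → c x = pat l1.length := by
    intro l1 x l2 e
    have hx : x ∈ t := by rw [e]; simp
    rw [hc1 x fun h => (hout x h).2.2 hx, Function.update_of_ne (hne x hx),
      Function.update_of_ne (fun (e' : x = i) => hit (e' ▸ hx)), hcp l1 x l2 e]
  have ca : c a = false := by
    rw [hp [] a l ea]
    simp [pat]
  by_cases hex : ∃ w, R i w ∧ w ≠ u ∧ c w = true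
  · obtain ⟨w0, hw1, -, hw3⟩ := hex
    refine small_of_twoCol ⟨c, fun v => ?_⟩
    by_cases hvi : v = i
    · subst hvi
      exact ⟨u, w0, hiu, hw1, by rw [cu, hw3]; decide⟩
    by_cases hvu : v = u
    · subst hvu
      exact ⟨i, a, hs _ _ hiu, hua, by rw [ci, ca]; decide⟩
    by_cases hvt : v ∈ t
    · rcases ch_mem_cases hs hc hvt with ⟨e, -⟩ | ⟨w, l0, e, h1, h5⟩ | ⟨l0, w, e, h1, h5⟩ |
        ⟨l1, w, w', l2, e, h1, h5⟩
      · rw [e] at ht
        simp at ht
      · refine ⟨u, w, h1, h5, ?_⟩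
        rw [cu, hp [v] w l0 e]
        simp [pat]
      · refine ⟨u, w, h5, h1, ?_⟩
        rw [cu, hp l0 w [v] e]
        rw [e] at ht
        simp only [List.length_append, List.length_cons, List.length_nil] at ht
        have h6 : l0.length % 4 = 2 := by omega
        simp [pat, h6]
      · refine ⟨w, w', h1, h5, ?_⟩
        rw [hp l1 w (v :: w' :: l2) e, hp (l1 ++ [w, v]) w' l2 (by rw [e]; simp)]
        simpa using pat_ne l1.length
    · have hv := (hW v).2 ⟨hvi, hvu, hvt⟩
      obtain ⟨w, h1, -, h5⟩ := hc2 v hv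
      exact ⟨w, m v, h1, (hm v hv).2, h5⟩
  · obtain ⟨w0, hw1, hw2⟩ : ∃ w, R i w ∧ w ≠ u := by
      obtain ⟨x, y, -, hx, hy, -, hxy, -⟩ := h3 i
      by_cases hxu : x = u
      · exact ⟨y, hy, fun e => hxy (hxu.trans e.symm)⟩
      · exact ⟨x, hx, hxu⟩
    have hw3 : c w0 ≠ true := fun e => hex ⟨w0, hw1, hw2, e⟩
    refine sg hs h3 (u := u) ⟨c, fun v => ?_⟩
    by_cases hvi : v = i
    · subst hvi
      exact ⟨w0, v, Or.inl ⟨hw1, hw2⟩, Or.inr ⟨hiu, hiu', rfl⟩, by rw [ci]; exact hw3⟩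
    by_cases hvu : v = u
    · subst hvu
      exact ⟨i, a, Or.inl ⟨hs _ _ hiu, hiu'⟩, Or.inl ⟨hua, hne a ha⟩, by rw [ci, ca]; decide⟩
    by_cases hvt : v ∈ t
    · obtain ⟨w, w', -, h1, h5, h6⟩ := lp_rows hs hc he hn' c hp v hvt
      exact ⟨w, w', h1, h5, h6⟩
    · have hv := (hW v).2 ⟨hvi, hvu, hvt⟩
      obtain ⟨w, h1, h5, h6⟩ := hc2 v hv
      exact ⟨w, m v, Or.inl ⟨h1, h5⟩, Or.inl ⟨(hm v hv).2, ((hW _).1 (hm v hv).1).2.1⟩, h6⟩

end Pool.Agent.Lib.MP_59216f_co.TD
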