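import Pool.Agent.Lib.MP_59216f_co.GList
import Pool.Agent.Lib.MP_59216f_co.GProp
import Pool.Agent.Lib.MP_59216f_co.GShare

set_option autoImplicit false
set_option linter.unusedSectionVars false

namespace Pool.Agent.Lib.MP_59216f_co.TD

open Finset

variable {V : Type} [Fintype V] [DecidableEq V] {R : V → V → Prop}

/-- A cycle of length 0 mod 4 coloured by the pattern: every vertex sees both colours on it. -/
theorem cyc_rows (hs : Sy R) {g : V} {t : List V} (hc : Ch R g t g) (ht : t.length % 4 = 3)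
    (hn : (g :: t).Nodup) :
    ∃ c : V → Bool, ∀ v ∈ g :: t, ∃ w ∈ g :: t, ∃ w' ∈ g :: t, R v w ∧ R v w' ∧ c w ≠ c w' := by
  obtain ⟨c, hcp⟩ := exists_pat hn
  have hg : c g = pat 0 := hcp [] g t rfl
  have h02 : ∀ k, k % 4 = 2 → pat k ≠ pat 0 := by
    intro k hk
    unfold pat
    simp [hk]
  have h13 : ∀ k, k % 4 = 3 → pat 1 ≠ pat k := by
    intro k hk
    unfold pat
    simp [hk]
  refine ⟨c, fun v hv => ?_⟩
  rcases List.mem_cons.1 hv with rfl | hv
  · cases t with
    | nil => simp at ht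
    | cons a t =>
      rcases List.eq_nil_or_concat t with rfl | ⟨l, b, rfl⟩
      · simp at ht
      · rw [List.concat_eq_append] at hc ht hcp ⊢
        have h1 : c a = pat 1 := hcp [v] a (l ++ [b]) rfl
        have h2 : c b = pat (v :: a :: l).length := hcp (v :: a :: l) b [] (by simp)
        have h4 : Ch R a (l ++ [b]) v := hc.2
        rw [ch_append] at h4
        refine ⟨a, by simp, b, by simp, hc.1, hs _ _ h4.2, ?_⟩
        rw [h1, h2]
        apply h13
        simp only [List.length_append, List.length_cons, List.length_nil] at ht ⊢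
        omega
  · rcases ch_mem_cases hs hc hv with ⟨rfl, -, -⟩ | ⟨w, l, rfl, h1, h2⟩ | ⟨l, w, rfl, h1, h2⟩ |
      ⟨l1, w, w', l2, rfl, h1, h2⟩
    · simp at ht
    · refine ⟨w, by simp, g, by simp, h2, h1, ?_⟩
      rw [hg, hcp [g, v] w l rfl]
      exact h02 _ rfl
    · refine ⟨w, by simp, g, by simp, h1, h2, ?_⟩
      rw [hg, hcp (g :: l) w [v] (by simp)]
      apply h02
      simp only [List.length_append, List.length_cons, List.length_nil] at ht ⊢
      omega
    · refine ⟨w, by simp, w', by simp, h1, h2, ?_⟩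
      rw [hcp (g :: l1) w (v :: w' :: l2) (by simp),
        hcp (g :: l1 ++ [w, v]) w' l2 (by simp)]
      have e : (g :: l1 ++ [w, v]).length = (g :: l1).length + 2 := by simp
      rw [e]
      exact pat_ne _

/-- One orientation of core eta. `W = univ \ (u :: i :: j :: g :: t).toFinset` with permutation
`m`. Rows `insert u (insert j W)`, the row `u` owns `i`, the row `j` owns `j`, the row `u` may only
use the source `j`, the other rows use neighbours different from `u`. If no set of rows is stuck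
(`extendQ`): when `i` has a neighbour `w ≠ u` with `c w ≠ c i` we get `TwoCol (Lp R u)`; otherwise
colour `u` by `!c i` and get `TwoCol R`. If a set `U` of rows is stuck then `u ∈ U` (else
`stuck_nc`, but `g ∉ U`), so `j ∈ U`, and `U0 = U ∩ W` is the set in the second alternative. -/
theorem eta_half (hs : Sy R) (h3 : Three R) (h2 : Sur R 2) {u i j g : V} (hu : NonCut R u)
    {t : List V} (hi : R u i) (hj : R u j) (hc : Ch R g t g) (ht : t.length % 4 = 3)
    (hn : (u :: i :: j :: g :: t).Nodup) (m : V → V)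
    (hinj : Set.InjOn m ((univ \ (u :: i :: j :: g :: t).toFinset : Finset V) : Set V))
    (hm : ∀ v ∈ univ \ (u :: i :: j :: g :: t).toFinset,
      m v ∈ univ \ (u :: i :: j :: g :: t).toFinset ∧ R v (m v)) :
    Small R ∨ ∃ U0 ⊆ univ \ (u :: i :: j :: g :: t).toFinset,
      ∀ v ∈ insert j U0, ∀ w, R v w → w = u ∨ w = i ∨ w = j ∨ w ∈ U0.image m := by
  classical
  set W : Finset V := univ \ (u :: i :: j :: g :: t).toFinset with hW
  have hWm : ∀ v, v ∈ W ↔ v ≠ u ∧ v ≠ i ∧ v ≠ j ∧ v ∉ g :: t := by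
    intro v
    simp only [hW, mem_sdiff, mem_univ, true_and, List.mem_toFinset]
    rw [List.mem_cons, List.mem_cons, List.mem_cons]
    tauto
  have hn1 := List.nodup_cons.1 hn
  have hn2 := List.nodup_cons.1 hn1.2
  have hn3 := List.nodup_cons.1 hn2.2
  have hui : u ≠ i := fun e => hn1.1 (by simp [e])
  have huj : u ≠ j := fun e => hn1.1 (by simp [e])
  have hij : i ≠ j := fun e => hn2.1 (by simp [e])
  have huc : u ∉ g :: t := fun e => hn1.1 (List.mem_cons_of_mem _ (List.mem_cons_of_mem _ e))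
  have hic : i ∉ g :: t := fun e => hn2.1 (List.mem_cons_of_mem _ e)
  have hjc : j ∉ g :: t := hn3.1
  have huW : u ∉ W := fun h => ((hWm u).1 h).1 rfl
  have hiW : i ∉ W := fun h => ((hWm i).1 h).2.1 rfl
  have hjW : j ∉ W := fun h => ((hWm j).1 h).2.2.1 rfl
  set m' : V → V := fun v => if v = u then i else if v = j then j else m v with hm'
  have mu : m' u = i := by simp [hm']
  have mj : m' j = j := by simp [hm', huj.symm]
  have mW : ∀ v ∈ W, m' v = m v := fun v hv => by
    simp [hm', ((hWm v).1 hv).1, ((hWm v).1 hv).2.2.1]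
  set Rw : Finset V := insert u (insert j W) with hRw
  have hRm : ∀ v, v ∈ Rw ↔ v = u ∨ v = j ∨ v ∈ W := fun v => by simp [hRw]
  have hinj' : Set.InjOn m' (Rw : Set V) := by
    intro x hx y hy e
    rcases (hRm x).1 hx with rfl | rfl | hx <;> rcases (hRm y).1 hy with rfl | rfl | hy
    · rfl
    · rw [mu, mj] at e; exact absurd e hij
    · rw [mu, mW y hy] at e; exact absurd (e ▸ (hm y hy).1) hiW
    · rw [mu, mj] at e; exact absurd e.symm hij
    · rfl
    · rw [mj, mW y hy] at e; exact absurd (e ▸ (hm y hy).1) hjW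
    · rw [mu, mW x hx] at e; exact absurd (e ▸ (hm x hx).1) hiW
    · rw [mj, mW x hx] at e; exact absurd (e ▸ (hm x hx).1) hjW
    · rw [mW x hx, mW y hy] at e; exact hinj hx hy e
  set Q : V → V → Prop := fun v w => (v = u ∧ w = j) ∨ (v ≠ u ∧ R v w ∧ w ≠ u) with hQ
  by_cases hexp : ∀ U ⊆ Rw, U.Nonempty → ∃ v ∈ U, ∃ w, Q v w ∧ w ∉ U.image m'
  · left
    obtain ⟨c0, hc0⟩ := cyc_rows hs hc ht hn3.2
    obtain ⟨c, hcc, hrow⟩ := extendQ Q m' Rw hinj' hexp c0
    have hcyc : ∀ w ∈ g :: t, c w = c0 w := by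
      intro w hw
      apply hcc
      intro h
      obtain ⟨x, hx, e⟩ := mem_image.1 h
      rcases (hRm x).1 hx with rfl | rfl | hx
      · rw [mu] at e; exact hic (e ▸ hw)
      · rw [mj] at e; exact hjc (e ▸ hw)
      · rw [mW x hx] at e
        exact ((hWm _).1 (hm x hx).1).2.2.2 (e ▸ hw)
    have rowu : c j ≠ c i := by
      obtain ⟨w, hq, hw⟩ := hrow u ((hRm u).2 (Or.inl rfl))
      rcases hq with ⟨-, rfl⟩ | ⟨h, -⟩
      · rwa [mu] at hw
      · exact absurd rfl h
    have rowj : ∃ w, R j w ∧ w ≠ u ∧ c w ≠ c j := by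
      obtain ⟨w, hq, hw⟩ := hrow j ((hRm j).2 (Or.inr (Or.inl rfl)))
      rcases hq with ⟨h, -⟩ | ⟨-, h, h'⟩
      · exact absurd h.symm huj
      · exact ⟨w, h, h', by rwa [mj] at hw⟩
    have rowo : ∀ v, v ≠ u → v ≠ i → v ≠ j →
        ∃ w w', R v w ∧ R v w' ∧ w ≠ u ∧ w' ≠ u ∧ c w ≠ c w' := by
      intro v h1 h2 h3
      by_cases hv : v ∈ g :: t
      · obtain ⟨w, hw, w', hw', a, b, d⟩ := hc0 v hv
        refine ⟨w, w', a, b, fun e => huc (e ▸ hw), fun e => huc (e ▸ hw'), ?_⟩
        rwa [hcyc w hw, hcyc w' hw']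
      · have hvW : v ∈ W := (hWm v).2 ⟨h1, h2, h3, hv⟩
        obtain ⟨w, hq, hw⟩ := hrow v ((hRm v).2 (Or.inr (Or.inr hvW)))
        rcases hq with ⟨h, -⟩ | ⟨-, h, h'⟩
        · exact absurd h h1
        · rw [mW v hvW] at hw
          exact ⟨w, m v, h, (hm v hvW).2, h', ((hWm _).1 (hm v hvW).1).1, hw⟩
    by_cases hA : ∃ w, R i w ∧ w ≠ u ∧ c w ≠ c i
    · refine sg hs h3 (u := u) ⟨c, fun v => ?_⟩
      by_cases h1 : v = u
      · subst h1
        exact ⟨j, i, Or.inl ⟨hj, huj.symm⟩, Or.inl ⟨hi, hui.symm⟩, rowu⟩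
      by_cases h2 : v = i
      · subst h2
        obtain ⟨w, a, b, d⟩ := hA
        exact ⟨w, v, Or.inl ⟨a, b⟩, Or.inr ⟨hs _ _ hi, h1, rfl⟩, d⟩
      by_cases h3 : v = j
      · subst h3
        obtain ⟨w, a, b, d⟩ := rowj
        exact ⟨w, v, Or.inl ⟨a, b⟩, Or.inr ⟨hs _ _ hj, h1, rfl⟩, d⟩
      obtain ⟨w, w', a, b, d, e, f⟩ := rowo v h1 h2 h3
      exact ⟨w, w', Or.inl ⟨a, d⟩, Or.inl ⟨b, e⟩, f⟩
    · push Not at hA
      refine small_of_twoCol ⟨Function.update c u (!c i), fun v => ?_⟩
      have hup : ∀ w, w ≠ u → Function.update c u (!c i) w = c w := fun w hw =>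
        Function.update_of_ne hw _ _
      have hu0 : Function.update c u (!c i) u = !c i := Function.update_self _ _ _
      by_cases h1 : v = u
      · subst h1
        exact ⟨j, i, hj, hi, by rwa [hup j huj.symm, hup i hui.symm]⟩
      by_cases h2 : v = i
      · subst h2
        obtain ⟨w, a, b, -⟩ := h3.third v u u
        refine ⟨w, u, a, hs _ _ hi, ?_⟩
        rw [hup w b, hu0, hA w a b]
        cases c v <;> simp
      by_cases h3 : v = j
      · subst h3
        obtain ⟨w, a, b, d⟩ := rowj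
        refine ⟨w, u, a, hs _ _ hj, ?_⟩
        rw [hup w b, hu0]
        revert d rowu
        cases c w <;> cases c v <;> cases c i <;> simp
      obtain ⟨w, w', a, b, d, e, f⟩ := rowo v h1 h2 h3
      exact ⟨w, w', a, b, by rwa [hup w d, hup w' e]⟩
  · right
    push Not at hexp
    obtain ⟨U, hUR, hUne, hst⟩ := hexp
    have huU : u ∈ U := by
      by_contra huU
      have h := stuck_nc hs h2 hu m' hUne huU fun v hv w hvw hwu =>
        hst v hv w (Or.inr ⟨fun e => huU (e ▸ hv), hvw, hwu⟩)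
      have hg : g ∈ insert u U := h ▸ mem_univ g
      have hgc : g ∈ g :: t := List.mem_cons_self
      rcases mem_insert.1 hg with e | hg
      · exact huc (e ▸ hgc)
      · rcases (hRm g).1 (hUR hg) with e | e | e
        · exact huc (e ▸ hgc)
        · exact hjc (e ▸ hgc)
        · exact ((hWm g).1 e).2.2.2 hgc
    have hjU : j ∈ U := by
      obtain ⟨x, hx, e⟩ := mem_image.1 (hst u huU j (Or.inl ⟨rfl, rfl⟩))
      rcases (hRm x).1 (hUR hx) with rfl | rfl | hxW
      · rw [mu] at e; exact absurd e hij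
      · exact hx
      · rw [mW x hxW] at e; exact absurd (e ▸ (hm x hxW).1) hjW
    refine ⟨U ∩ W, inter_subset_right, fun v hv w hvw => ?_⟩
    by_cases hwu : w = u
    · exact Or.inl hwu
    right
    have hv' : v ∈ U ∧ v ≠ u := by
      rcases mem_insert.1 hv with rfl | hv
      · exact ⟨hjU, huj.symm⟩
      · exact ⟨(mem_inter.1 hv).1, ((hWm v).1 (mem_inter.1 hv).2).1⟩
    obtain ⟨x, hx, e⟩ := mem_image.1 (hst v hv'.1 w (Or.inr ⟨hv'.2, hvw, hwu⟩))
    rcases (hRm x).1 (hUR hx) with rfl | rfl | hxW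
    · rw [mu] at e; exact Or.inl e.symm
    · rw [mj] at e; exact Or.inr (Or.inl e.symm)
    · rw [mW x hxW] at e
      exact Or.inr (Or.inr (mem_image.2 ⟨x, mem_inter.2 ⟨hx, hxW⟩, e⟩))

/-- Core eta. Apply `eta_half` to `(i, j)` and to `(j, i)` with the same `m`. With
`U = U1 ∪ U2` and `Y = insert i (insert j U)`: `nb Y ⊆ {u, i, j} ∪ U.image m`, so `exp2` gives
`Y ⊆ nb Y`, hence `U ⊆ U.image m`, `U = U.image m`, and `NonCut` gives `insert u Y = univ`,
but `g` is missing. -/
theorem core_eta (hs : Sy R) (h3 : Three R) (h2 : Sur R 2) {u i j g : V} (hu : NonCut R u)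
    {t : List V} (hi : R u i) (hj : R u j) (hc : Ch R g t g) (ht : t.length % 4 = 3)
    (h : CovL R (u :: i :: j :: g :: t)) : Small R := by
  classical
  obtain ⟨hn, m, hinj, hm⟩ := h
  have hp : (u :: i :: j :: g :: t).Perm (u :: j :: i :: g :: t) :=
    List.Perm.cons u (List.Perm.swap j i (g :: t))
  have e : (u :: j :: i :: g :: t).toFinset = (u :: i :: j :: g :: t).toFinset :=
    (List.toFinset_eq_of_perm _ _ hp).symm
  rcases eta_half hs h3 h2 hu hi hj hc ht hn m hinj hm with h | ⟨U1, hU1, h1⟩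
  · exact h
  rcases eta_half hs h3 h2 hu hj hi hc ht (hp.nodup_iff.1 hn) m (by rw [e]; exact hinj)
    (by rw [e]; exact hm) with h | ⟨U2, hU2, h2'⟩
  · exact h
  exfalso
  rw [e] at hU2
  set W : Finset V := univ \ (u :: i :: j :: g :: t).toFinset with hW
  have hWm : ∀ v, v ∈ W ↔ v ≠ u ∧ v ≠ i ∧ v ≠ j ∧ v ∉ g :: t := by
    intro v
    simp only [hW, mem_sdiff, mem_univ, true_and, List.mem_toFinset]
    rw [List.mem_cons, List.mem_cons, List.mem_cons]
    tauto
  have hn1 := List.nodup_cons.1 hn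
  have hn2 := List.nodup_cons.1 hn1.2
  have hn3 := List.nodup_cons.1 hn2.2
  have hui : u ≠ i := fun e => hn1.1 (by simp [e])
  have huj : u ≠ j := fun e => hn1.1 (by simp [e])
  have hij : i ≠ j := fun e => hn2.1 (by simp [e])
  have huc : u ∉ g :: t := fun e => hn1.1 (List.mem_cons_of_mem _ (List.mem_cons_of_mem _ e))
  have hic : i ∉ g :: t := fun e => hn2.1 (List.mem_cons_of_mem _ e)
  have hjc : j ∉ g :: t := hn3.1
  have hUW : U1 ∪ U2 ⊆ W := union_subset hU1 hU2
  have hnb : ∀ v ∈ insert i (insert j (U1 ∪ U2)), ∀ w, R v w →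
      w = u ∨ w = i ∨ w = j ∨ w ∈ (U1 ∪ U2).image m := by
    intro v hv w hvw
    have a1 : v ∈ insert j U1 → w = u ∨ w = i ∨ w = j ∨ w ∈ (U1 ∪ U2).image m := fun h => by
      rcases h1 v h w hvw with h | h | h | h
      · exact Or.inl h
      · exact Or.inr (Or.inl h)
      · exact Or.inr (Or.inr (Or.inl h))
      · exact Or.inr (Or.inr (Or.inr (image_subset_image subset_union_left h)))
    have a2 : v ∈ insert i U2 → w = u ∨ w = i ∨ w = j ∨ w ∈ (U1 ∪ U2).image m := fun h => by
      rcases h2' v h w hvw with h | h | h | h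
      · exact Or.inl h
      · exact Or.inr (Or.inr (Or.inl h))
      · exact Or.inr (Or.inl h)
      · exact Or.inr (Or.inr (Or.inr (image_subset_image subset_union_right h)))
    rcases mem_insert.1 hv with rfl | hv
    · exact a2 (mem_insert_self _ _)
    rcases mem_insert.1 hv with rfl | hv
    · exact a1 (mem_insert_self _ _)
    rcases mem_union.1 hv with hv | hv
    · exact a1 (mem_insert_of_mem hv)
    · exact a2 (mem_insert_of_mem hv)
  have hsub : nb R (insert i (insert j (U1 ∪ U2)))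
      ⊆ insert u (insert i (insert j ((U1 ∪ U2).image m))) := by
    intro w hw
    obtain ⟨v, hv, hvw⟩ := mem_nb.1 hw
    simpa only [mem_insert] using hnb v hv w hvw
  have hjU : j ∉ U1 ∪ U2 := fun h => ((hWm j).1 (hUW h)).2.2.1 rfl
  have hiU : i ∉ insert j (U1 ∪ U2) := fun h => by
    rcases mem_insert.1 h with h | h
    · exact hij h
    · exact ((hWm i).1 (hUW h)).2.1 rfl
  have hcard : (nb R (insert i (insert j (U1 ∪ U2)))).card
      ≤ (insert i (insert j (U1 ∪ U2))).card + 1 := by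
    have c1 := card_le_card hsub
    have c2 := card_insert_le u (insert i (insert j ((U1 ∪ U2).image m)))
    have c3 := card_insert_le i (insert j ((U1 ∪ U2).image m))
    have c4 := card_insert_le j ((U1 ∪ U2).image m)
    have c5 : ((U1 ∪ U2).image m).card ≤ (U1 ∪ U2).card := card_image_le
    rw [card_insert_of_notMem hiU, card_insert_of_notMem hjU]
    omega
  have hY := (exp2 hs h2 hcard).trans hsub
  have hUU : U1 ∪ U2 ⊆ (U1 ∪ U2).image m := by
    intro v hv
    have a := (hWm v).1 (hUW hv)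
    have b := hY (mem_insert_of_mem (mem_insert_of_mem hv))
    simp only [mem_insert] at b
    rcases b with b | b | b | b
    · exact absurd b a.1
    · exact absurd b a.2.1
    · exact absurd b a.2.2.1
    · exact b
  have hE : U1 ∪ U2 = (U1 ∪ U2).image m := eq_of_subset_of_card_le hUU card_image_le
  have huY : u ∉ insert i (insert j (U1 ∪ U2)) := fun h => by
    rcases mem_insert.1 h with h | h
    · exact hui h
    rcases mem_insert.1 h with h | h
    · exact huj h
    · exact ((hWm u).1 (hUW h)).1 rfl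
  have hall := hu _ (insert_nonempty _ _) huY fun v hv w hvw => by
    rcases hnb v hv w hvw with h | h | h | h
    · exact Or.inr h
    · exact Or.inl (h ▸ mem_insert_self _ _)
    · exact Or.inl (h ▸ mem_insert_of_mem (mem_insert_self _ _))
    · rw [← hE] at h
      exact Or.inl (mem_insert_of_mem (mem_insert_of_mem h))
  have hg : g ∈ insert u (insert i (insert j (U1 ∪ U2))) := hall ▸ mem_univ g
  have hgc : g ∈ g :: t := List.mem_cons_self
  simp only [mem_insert] at hg
  rcases hg with h | h | h | h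
  · exact huc (h ▸ hgc)
  · exact hic (h ▸ hgc)
  · exact hjc (h ▸ hgc)
  · exact ((hWm g).1 (hUW h)).2.2.2 hgc

/-- `Cover.take` for a neighbour `y` of `v` outside the cycle, then `core_eta` at `y`. -/
theorem tst_of (hs : Sy R) (hi : Irr R) (h3 : Three R) (h2 : Sur R 2) (hu : ∀ u, NonCut R u)
    (hn : ¬ Small R) : Tst R := by
  intro v g t hc ht hcov y hvy
  by_contra hy
  have hy' : y ∉ v :: g :: t := fun h => by
    rcases List.mem_cons.1 h with rfl | h
    · exact hi _ hvy
    · exact hy h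
  obtain ⟨j, hj, hcov'⟩ := hcov.take hy'
  exact hn (core_eta hs h3 h2 (hu y) hj (hs _ _ hvy) hc ht hcov'.covL)

end Pool.Agent.Lib.MP_59216f_co.TD
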