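import Pool.Agent.Lib.MP_59216f_co.GList

set_option autoImplicit false
set_option linter.unusedSectionVars false

namespace Pool.Agent.Lib.MP_59216f_co.TD

open Finset

variable {V : Type} [Fintype V] [DecidableEq V] {R : V → V → Prop}

/-- The iterates of a map along edges form a walk. -/
theorem ch_iterate_orb (f : V → V) (n : ℕ) : ∀ x : V, (∀ k, R (f^[k] x) (f (f^[k] x))) →
    Ch R x (List.iterate f (f x) n) (f^[n + 1] x) := by
  induction n with
  | zero =>
    intro x h
    exact h 0
  | succ n ih =>
    intro x h
    refine ⟨h 0, ?_⟩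
    have h2 := ih (f x) (fun k => h (k + 1))
    exact h2

/-- The orbit of `v` under the permutation `m` of `W = univ \ L.toFinset` is a cycle, and `m`
permutes the rest of `W`. -/
theorem orbit {L : List V} (h : CovL R L) {v : V} (hv : v ∉ L) :
    ∃ t, Ch R v t v ∧ CovL R (v :: t ++ L) := by
  classical
  obtain ⟨hL, m, hinj, hm⟩ := h
  set W : Finset V := univ \ L.toFinset with hW
  have hWm : ∀ x, x ∈ W ↔ x ∉ L := by
    intro x
    simp [hW]
  let f : V → V := fun x => if x ∈ W then m x else x
  have hfW : ∀ x ∈ W, f x = m x := fun x hx => if_pos hx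
  have hfN : ∀ x, x ∉ W → f x = x := fun x hx => if_neg hx
  have hf : Function.Injective f := by
    intro x y e
    by_cases hx : x ∈ W <;> by_cases hy : y ∈ W
    · rw [hfW x hx, hfW y hy] at e
      exact hinj hx hy e
    · rw [hfW x hx, hfN y hy] at e
      exact absurd (e ▸ (hm x hx).1) hy
    · rw [hfN x hx, hfW y hy] at e
      exact absurd (e ▸ (hm y hy).1) hx
    · rwa [hfN x hx, hfN y hy] at e
  have hvW : v ∈ W := (hWm v).2 hv
  have hit : ∀ k, f^[k] v ∈ W := by
    intro k
    induction k with
    | zero => exact hvW
    | succ k ih =>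
      rw [Function.iterate_succ_apply', hfW _ ih]
      exact (hm _ ih).1
  have hper : v ∈ Function.periodicPts f := hf.mem_periodicPts v
  have hpos : 0 < Function.minimalPeriod f v := Function.minimalPeriod_pos_of_mem_periodicPts hper
  obtain ⟨n, hn⟩ : ∃ n, Function.minimalPeriod f v = n + 1 := ⟨_, (Nat.succ_pred_eq_of_pos hpos).symm⟩
  have hfix : f^[n + 1] v = v := by
    rw [← hn]
    exact Function.iterate_minimalPeriod
  have hch := ch_iterate_orb (R := R) f n v (fun k => by
    rw [hfW _ (hit k)]
    exact (hm _ (hit k)).2)
  rw [hfix] at hch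
  have hlist : v :: List.iterate f (f v) n = List.iterate f v (n + 1) := rfl
  have hmem : ∀ x, x ∈ v :: List.iterate f (f v) n ↔ ∃ k < n + 1, x = f^[k] v := by
    intro x
    rw [hlist, List.mem_iterate]
  have hnd : (v :: List.iterate f (f v) n).Nodup := by
    rw [hlist, ← List.range_map_iterate]
    refine List.Nodup.map_on ?_ List.nodup_range
    intro i hi j hj e
    rw [List.mem_range, ← hn] at hi hj
    exact Function.iterate_injOn_Iio_minimalPeriod hi hj e
  refine ⟨List.iterate f (f v) n, hch, ?_, m, ?_, ?_⟩
  · rw [List.nodup_append]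
    refine ⟨hnd, hL, ?_⟩
    intro a ha b hb e
    obtain ⟨k, _, rfl⟩ := (hmem a).1 ha
    exact (hWm _).1 (hit k) (e ▸ hb)
  · refine hinj.mono ?_
    intro x hx
    have hx' : x ∈ univ \ (v :: List.iterate f (f v) n ++ L).toFinset := hx
    simp only [mem_sdiff, mem_univ, List.mem_toFinset, true_and, List.mem_append, not_or] at hx'
    exact (hWm x).2 hx'.2
  · intro x hx
    simp only [mem_sdiff, mem_univ, List.mem_toFinset, true_and, List.mem_append, not_or] at hx ⊢
    have hxW : x ∈ W := (hWm x).2 hx.2
    refine ⟨⟨?_, (hWm _).1 (hm x hxW).1⟩, (hm x hxW).2⟩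
    intro hh
    apply hx.1
    obtain ⟨k, hk, e⟩ := (hmem _).1 hh
    rw [← hfW x hxW] at e
    rw [hmem]
    cases k with
    | zero =>
      refine ⟨n, Nat.lt_succ_self n, hf ?_⟩
      rw [e, ← Function.iterate_succ_apply' f n v]
      exact hfix.symm
    | succ k =>
      refine ⟨k, by omega, hf ?_⟩
      rw [e, Function.iterate_succ_apply']

/-- A cover splits into odd cycles and a matching. Strong induction on the number of vertices
outside `L`; take an orbit `v :: t`; if `t.length` is odd give it to the matching
(`Cover.drop` with `Ch.chain_cons`), otherwise use `OddU.cons`. -/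
theorem decomp (hs : Sy R) {L : List V} (h : CovL R L) :
    ∃ O : List V, OddU R O ∧ Cover R (O ++ L) := by
  classical
  induction hc : (univ \ L.toFinset : Finset V).card using Nat.strong_induction_on
    generalizing L with
  | _ N ih =>
    by_cases hex : ∃ v, v ∉ L
    · obtain ⟨v, hv⟩ := hex
      obtain ⟨t, hch, hcov⟩ := orbit h hv
      have hlt : (univ \ (v :: t ++ L).toFinset : Finset V).card < N := by
        rw [← hc]
        apply card_lt_card
        rw [ssubset_iff_of_subset]
        · refine ⟨v, by simpa using hv, by simp⟩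
        · intro x hx
          simp only [mem_sdiff, mem_univ, List.mem_toFinset, true_and, List.mem_append,
            not_or] at hx ⊢
          exact hx.2
      obtain ⟨O, hO, hC⟩ := ih _ hlt hcov rfl
      have hp : (O ++ (v :: t ++ L)).Perm ((v :: t) ++ (O ++ L)) := by
        apply perm_ms
        simp only [← Multiset.cons_coe, ← Multiset.coe_add, ← Multiset.singleton_add]
        abel
      have hC2 := hC.perm hp
      rcases Nat.even_or_odd t.length with he | ho
      · have hC3 : Cover R ((v :: t ++ O) ++ L) := by
          rw [List.append_assoc]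
          exact hC2
        exact ⟨v :: t ++ O, hO.cons hch he (List.nodup_append.1 hC3.1).1, hC3⟩
      · refine ⟨O, hO, Cover.drop hs hC2 hch.chain_cons ?_⟩
        rw [List.length_cons]
        exact ho.add_one
    · refine ⟨[], fun u hu => absurd hu (by simp), h.1, ?_⟩
      have e : (univ \ ([] ++ L).toFinset : Finset V) = ∅ := by
        ext x
        simp only [List.nil_append, mem_sdiff, mem_univ, List.mem_toFinset, true_and,
          notMem_empty, iff_false, not_not]
        by_contra hx
        exact hex ⟨x, hx⟩
      rw [e]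
      exact mat_empty

end Pool.Agent.Lib.MP_59216f_co.TD
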