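import Pool.Agent.Lib.MP_59216f_co.GCoreA
import Pool.Agent.Lib.MP_59216f_co.GOrb

set_option autoImplicit false
set_option linter.unusedSectionVars false

namespace Pool.Agent.Lib.MP_59216f_co.TD

open Finset

variable {V : Type} [Fintype V] [DecidableEq V] {R : V → V → Prop}

/-- `Y` is a side of the cut vertex `u`. -/
def SideCut (R : V → V → Prop) (u : V) (Y : Finset V) : Prop :=
  Y.Nonempty ∧ u ∉ Y ∧ (∀ v ∈ Y, ∀ w, R v w → w ∈ Y ∨ w = u) ∧ insert u Y ≠ univ

theorem not_nonCut_iff_gcut {u : V} : ¬ NonCut R u ↔ ∃ Y, SideCut R u Y := by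
  constructor
  · intro h
    by_contra hne
    exact h fun Y h1 h2 h3 => by
      by_contra h4
      exact hne ⟨Y, h1, h2, h3, h4⟩
  · rintro ⟨Y, h1, h2, h3, h4⟩ h
    exact h4 (h Y h1 h2 h3)

theorem SideCut.other (hs : Sy R) {u : V} {Y : Finset V} (h : SideCut R u Y) :
    SideCut R u (univ \ insert u Y) := by
  obtain ⟨⟨y, hy⟩, h2, h3, h4⟩ := h
  refine ⟨?_, by simp, ?_, ?_⟩
  · by_contra hne
    rw [not_nonempty_iff_eq_empty, sdiff_eq_empty_iff_subset] at hne
    exact h4 (univ_subset_iff.1 hne)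
  · intro v hv w hvw
    simp only [mem_sdiff, mem_univ, true_and, mem_insert, not_or] at hv ⊢
    by_cases hw : w = u
    · exact Or.inr hw
    · refine Or.inl ⟨hw, fun hwY => ?_⟩
      rcases h3 w hwY v (hs _ _ hvw) with h | h
      · exact hv.2 h
      · exact hv.1 h
  · intro e
    have : y ∈ insert u (univ \ insert u Y) := by rw [e]; exact mem_univ y
    simp only [mem_insert, mem_sdiff, mem_univ, true_and, not_or] at this
    rcases this with h | h
    · exact h2 (h ▸ hy)
    · exact h.2 hy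

theorem SideCut.avoid (hs : Sy R) {u : V} {Y : Finset V} (h : SideCut R u Y) (c : V) :
    ∃ Y', SideCut R u Y' ∧ c ∉ Y' := by
  by_cases hc : c ∈ Y
  · exact ⟨_, h.other hs, by simp [hc]⟩
  · exact ⟨Y, h, hc⟩

/-- A cut vertex `c` with a smallest side `Y`: the members of `Y` are not cut vertices. If
`y ∈ Y` is a cut vertex, one of its two sides `Y'` avoids `c`; `Y' \ Y` is closed, hence empty by
`Conn`, and `Y' ⊆ Y.erase y` is a smaller side. By `Conn`, `c` has a neighbour in `Y`. -/
theorem exists_cut_pair (hs : Sy R) (hc : Conn R) (h : ∃ u, ¬ NonCut R u) :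
    ∃ c y, ¬ NonCut R c ∧ NonCut R y ∧ R c y ∧ y ≠ c := by
  classical
  have hex : ∃ n, ∃ c Y, SideCut R c Y ∧ Y.card = n := by
    obtain ⟨u, hu⟩ := h
    obtain ⟨Y, hY⟩ := not_nonCut_iff_gcut.1 hu
    exact ⟨_, u, Y, hY, rfl⟩
  obtain ⟨c, Y, hY, hcard⟩ := Nat.find_spec hex
  have hmin : ∀ c' Y', SideCut R c' Y' → Y.card ≤ Y'.card := fun c' Y' h' => by
    rw [hcard]
    exact Nat.find_min' hex ⟨c', Y', h', rfl⟩
  have hnc : ∀ y ∈ Y, NonCut R y := by
    intro y hy
    by_contra hcut
    obtain ⟨Y₁, hY₁⟩ := not_nonCut_iff_gcut.1 hcut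
    obtain ⟨Y', hY', hcY'⟩ := hY₁.avoid hs c
    have hsub : Y' ⊆ Y := by
      by_contra hns
      have hne : (Y' \ Y).Nonempty := by
        obtain ⟨v, hv, hv'⟩ := not_subset.1 hns
        exact ⟨v, mem_sdiff.2 ⟨hv, hv'⟩⟩
      have hall := hc _ hne (by
        intro v hv w hvw
        obtain ⟨hv1, hv2⟩ := mem_sdiff.1 hv
        have hwY : w ∉ Y := fun hw => by
          rcases hY.2.2.1 w hw v (hs _ _ hvw) with h | h
          · exact hv2 h
          · exact hcY' (h ▸ hv1)
        rcases hY'.2.2.1 v hv1 w hvw with h | h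
        · exact mem_sdiff.2 ⟨h, hwY⟩
        · exact absurd (h ▸ hy) hwY)
      have : y ∈ Y' \ Y := hall ▸ mem_univ y
      exact (mem_sdiff.1 this).2 hy
    have hlt : Y'.card < Y.card :=
      card_lt_card ⟨hsub, fun h' => hY'.2.1 (h' hy)⟩
    exact absurd (hmin y Y' hY') (not_le.2 hlt)
  have hnb : ∃ y ∈ Y, R c y := by
    by_contra hne
    have hall := hc Y hY.1 (by
      intro v hv w hvw
      rcases hY.2.2.1 v hv w hvw with h | h
      · exact h
      · exact absurd ⟨v, hv, hs _ _ (h ▸ hvw)⟩ hne)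
    exact hY.2.1 (hall ▸ mem_univ c)
  obtain ⟨y, hy, hcy⟩ := hnb
  exact ⟨c, y, not_nonCut_iff_gcut.2 ⟨Y, hY⟩, hnc y hy, hcy, fun e => hY.2.1 (e ▸ hy)⟩

/-- The colouring step of `all_nonCut`. -/
theorem cut_colour_gcut (hs : Sy R) (h3 : Three R) (hc : Conn R) {c y j : V}
    (hcut : ¬ NonCut R c) (hcy : R c y) (hyj : R y j) (hyc : y ≠ c) (hjy : j ≠ y)
    (col : V → Bool) (cy : col y = false) (cj : col j = true) (cc : col c = false)
    (hrow : ∀ v, v ≠ y → v ≠ j → v ≠ c →
      ∃ w w', R v w ∧ R v w' ∧ w ≠ y ∧ w' ≠ y ∧ col w ≠ col w') : Small R := by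
  have hjy' : R j y := hs _ _ hyj
  have hyc' : R y c := hs _ _ hcy
  by_cases hA : ∃ w, R j w ∧ w ≠ y ∧ col w = false
  · obtain ⟨w, hjw, hwy, cw⟩ := hA
    by_cases hB : ∃ w', R c w' ∧ w' ≠ y ∧ col w' = true
    · obtain ⟨w', hcw', hw'y, cw'⟩ := hB
      refine sg hs h3 (u := y) ⟨col, fun v => ?_⟩
      by_cases h1 : v = y
      · subst h1
        exact ⟨j, c, Or.inl ⟨hyj, hjy⟩, Or.inl ⟨hyc', hyc.symm⟩, by simp [cj, cc]⟩
      by_cases h2 : v = j
      · subst h2
        exact ⟨v, w, Or.inr ⟨hjy', hjy, rfl⟩, Or.inl ⟨hjw, hwy⟩, by simp [cj, cw]⟩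
      by_cases h4 : v = c
      · subst h4
        exact ⟨v, w', Or.inr ⟨hcy, hyc.symm, rfl⟩, Or.inl ⟨hcw', hw'y⟩, by simp [cc, cw']⟩
      obtain ⟨a, b, ha, hb, hay, hby, hab⟩ := hrow v h1 h2 h4
      exact ⟨a, b, Or.inl ⟨ha, hay⟩, Or.inl ⟨hb, hby⟩, hab⟩
    · obtain ⟨w', hcw', hw'y, -⟩ := h3.third c y y
      have cw' : col w' = false := by
        by_contra hne
        exact hB ⟨w', hcw', hw'y, by simpa using hne⟩
      have up : ∀ x, x ≠ y → Function.update col y true x = col x := fun x hx =>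
        Function.update_of_ne hx _ _
      refine small_of_twoCol ⟨Function.update col y true, fun v => ?_⟩
      by_cases h1 : v = y
      · subst h1
        exact ⟨j, c, hyj, hyc', by rw [up j hjy, up c hyc.symm]; simp [cj, cc]⟩
      by_cases h2 : v = j
      · subst h2
        exact ⟨y, w, hjy', hjw, by rw [up w hwy, Function.update_self]; simp [cw]⟩
      by_cases h4 : v = c
      · subst h4
        exact ⟨y, w', hcy, hcw', by rw [up w' hw'y, Function.update_self]; simp [cw']⟩
      obtain ⟨a, b, ha, hb, hay, hby, hab⟩ := hrow v h1 h2 h4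
      exact ⟨a, b, ha, hb, by rw [up a hay, up b hby]; exact hab⟩
  · obtain ⟨w, hjw, hwy, -⟩ := h3.third j y y
    have cw : col w = true := by
      by_contra hne
      exact hA ⟨w, hjw, hwy, by simpa using hne⟩
    have hb : ∀ v, v ≠ c → Bi R col v := by
      intro v h4
      by_cases h1 : v = y
      · subst h1
        exact ⟨j, c, hyj, hyc', by simp [cj, cc]⟩
      by_cases h2 : v = j
      · subst h2
        exact ⟨y, w, hjy', hjw, by simp [cy, cw]⟩
      obtain ⟨a, b, ha, hb, -, -, hab⟩ := hrow v h1 h2 h4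
      exact ⟨a, b, ha, hb, hab⟩
    by_cases hB : ∃ w', R c w' ∧ col w' = true
    · obtain ⟨w', hcw', cw'⟩ := hB
      refine small_of_twoCol ⟨col, fun v => ?_⟩
      by_cases h4 : v = c
      · subst h4
        exact ⟨y, w', hcy, hcw', by simp [cy, cw']⟩
      · exact hb v h4
    · refine flip hs h3 hc hcut col (fun x hx => ?_) hb
      rw [cc]
      by_contra hne
      exact hB ⟨x, hx, by simpa using hne⟩

/-- Cut vertices. Let `c, y` be as above, `orbit` of `y` in `covL_single c`. Odd cycle: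
`core_beta`. Otherwise `t = j :: t'`, drop `t'`: `CovL R [y, j, c]`. Put `c0 j = true` and `false`
elsewhere, `extNC` at `y` with rows `univ \ {y, j, c}`; get `col`.
* `j` has a neighbour `w ≠ y` of colour `false`: if `c` has a neighbour `≠ y` of colour `true`
  then `TwoCol (Lp R y)`; otherwise colour `y` by `true` and get `TwoCol R`.
* otherwise keep `y` at `false`: all rows other than `c` see both colours; if `c` has a
  neighbour of colour `true` then `TwoCol R`, otherwise `flip` at `c`. -/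
theorem all_nonCut (hs : Sy R) (hi : Irr R) (h3 : Three R) (h2 : Sur R 2) (hc : Conn R)
    (hn : ¬ Small R) : ∀ u, NonCut R u := by
  by_contra hne
  rw [not_forall] at hne
  obtain ⟨c, y, hcut, hy, hcy, hyc⟩ := exists_cut_pair hs hc hne
  have h1 : Sur R 1 := h2.mono (by norm_num)
  obtain ⟨t, hch, hcov⟩ := orbit (covL_single hs h1 hc c) (v := y) (by simpa using hyc)
  apply hn
  rcases Nat.even_or_odd t.length with he | ho
  · refine core_beta hs hi h3 h2 hy hcy hch he (hcov.perm ?_)
    exact List.perm_append_comm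
  · cases t with
    | nil => simp at ho
    | cons j t' =>
      have he : Even t'.length := by
        rw [List.length_cons, Nat.odd_add_one, Nat.not_odd_iff_even] at ho
        exact ho
      have hp : (y :: (j :: t') ++ [c]).Perm (t' ++ [y, j, c]) := by
        apply perm_ms
        simp only [← Multiset.cons_coe, ← Multiset.coe_add, Multiset.coe_nil,
          ← Multiset.singleton_add]
        abel
      have hcov' : CovL R [y, j, c] := CovL.drop hs (hcov.perm hp) hch.2.chain he
      obtain ⟨hnd, m, hinj, hm⟩ := hcov'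
      have hnd' : y ≠ j ∧ j ≠ c := by
        simp only [List.nodup_cons, List.mem_cons, not_or] at hnd
        exact ⟨hnd.1.1, hnd.2.1.1⟩
      set Rw : Finset V := univ \ [y, j, c].toFinset with hRw
      have hmem : ∀ v, v ∈ Rw ↔ v ≠ y ∧ v ≠ j ∧ v ≠ c := fun v => by simp [hRw]
      have hyR : y ∉ Rw := fun h => ((hmem y).1 h).1 rfl
      have hjR : j ∉ Rw := fun h => ((hmem j).1 h).2.1 rfl
      have hcR : c ∉ Rw := fun h => ((hmem c).1 h).2.2 rfl
      have hins : insert y Rw ≠ univ := fun e => by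
        have : j ∈ insert y Rw := e ▸ mem_univ j
        rcases mem_insert.1 this with h | h
        · exact hnd'.1 h.symm
        · exact hjR h
      obtain ⟨col, hc0, hrow⟩ := extNC hs h2 hy m Rw hinj hyR hins (fun v => decide (v = j))
      have hout : ∀ v, v ∉ Rw → col v = decide (v = j) := fun v hv => hc0 v fun h => by
        obtain ⟨x, hx, rfl⟩ := mem_image.1 h
        exact hv (hm x hx).1
      refine cut_colour_gcut hs h3 hc hcut hcy hch.1 hyc hnd'.1.symm col ?_ ?_ ?_ ?_
      · rw [hout y hyR]; simpa using hnd'.1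
      · rw [hout j hjR]; simp
      · rw [hout c hcR]; simpa using hnd'.2.symm
      · intro v hv1 hv2 hv3
        have hv : v ∈ Rw := (hmem v).2 ⟨hv1, hv2, hv3⟩
        obtain ⟨w, hvw, hwy, hne'⟩ := hrow v hv
        exact ⟨w, m v, hvw, (hm v hv).2, hwy, ((hmem _).1 (hm v hv).1).1, hne'⟩

end Pool.Agent.Lib.MP_59216f_co.TD
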