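import Mathlib

set_option autoImplicit false

/-! Definitions for the proof of the total domination theorem. `R` is a relation on a finite
type; it is always assumed symmetric, loops are allowed unless `Irr R` is assumed. -/

namespace Pool.Agent.Lib.MP_59216f_co.TD

open Finset

variable {V : Type} [Fintype V] [DecidableEq V]

/-- Symmetry. -/
def Sy (R : V → V → Prop) : Prop := ∀ a b, R a b → R b a

/-- No loops. -/
def Irr (R : V → V → Prop) : Prop := ∀ a, ¬ R a a

open Classical in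
/-- Neighbourhood of a set. -/
noncomputable def nb (R : V → V → Prop) (Y : Finset V) : Finset V :=
  univ.filter (fun w => ∃ v ∈ Y, R v w)

omit [DecidableEq V] in
theorem mem_nb {R : V → V → Prop} {Y : Finset V} {w : V} : w ∈ nb R Y ↔ ∃ v ∈ Y, R v w := by
  simp [nb]

/-- Total dominating set each of whose members has a neighbour outside. -/
def Valid (R : V → V → Prop) (S : Finset V) : Prop :=
  (∀ v, ∃ u ∈ S, R v u) ∧ ∀ v ∈ S, ∃ u, u ∉ S ∧ R v u

/-- The conclusion we want. -/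
def Small (R : V → V → Prop) : Prop := ∃ S : Finset V, Valid R S ∧ 2 * S.card ≤ Fintype.card V

/-- Every vertex has three different neighbours. -/
def Three (R : V → V → Prop) : Prop :=
  ∀ v, ∃ a b c, R v a ∧ R v b ∧ R v c ∧ a ≠ b ∧ a ≠ c ∧ b ≠ c

/-- The row `v` sees both colours. -/
def Bi (R : V → V → Prop) (c : V → Bool) (v : V) : Prop :=
  ∃ w w', R v w ∧ R v w' ∧ c w ≠ c w'

/-- Every row sees both colours for some colouring. -/
def TwoCol (R : V → V → Prop) : Prop := ∃ c : V → Bool, ∀ v, Bi R c v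

/-- Column `u` is deleted and the other neighbours of `u` get a loop. -/
def Lp (R : V → V → Prop) (u : V) (v w : V) : Prop :=
  (R v w ∧ w ≠ u) ∨ (R v u ∧ v ≠ u ∧ w = v)

/-- Independent set without loops. -/
def Indep (R : V → V → Prop) (X : Finset V) : Prop := ∀ x ∈ X, ∀ y ∈ X, ¬ R x y

/-- Connectivity. -/
def Conn (R : V → V → Prop) : Prop :=
  ∀ Y : Finset V, Y.Nonempty → (∀ v ∈ Y, ∀ w, R v w → w ∈ Y) → Y = univ

/-- Nonempty independent sets have surplus at least `k`. -/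
def Sur (R : V → V → Prop) (k : ℕ) : Prop :=
  ∀ X : Finset V, X.Nonempty → Indep R X → X.card + k ≤ (nb R X).card

/-- `u` is not a cut vertex. -/
def NonCut (R : V → V → Prop) (u : V) : Prop :=
  ∀ Y : Finset V, Y.Nonempty → u ∉ Y → (∀ v ∈ Y, ∀ w, R v w → w ∈ Y ∨ w = u) →
    insert u Y = univ

/-- `W` has a permutation along edges. -/
def Cov (R : V → V → Prop) (W : Finset V) : Prop :=
  ∃ m : V → V, Set.InjOn m (W : Set V) ∧ ∀ v ∈ W, m v ∈ W ∧ R v (m v)

/-- `W` has a perfect matching. -/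
def Mat (R : V → V → Prop) (W : Finset V) : Prop :=
  ∃ ν : V → V, ∀ v ∈ W, ν v ∈ W ∧ ν v ≠ v ∧ ν (ν v) = v ∧ R v (ν v)

/-- `Ch R x l y`: walk from `x` to `y` with interior `l`. -/
def Ch (R : V → V → Prop) : V → List V → V → Prop
  | x, [], y => R x y
  | x, a :: l, y => R x a ∧ Ch R a l y

/-- Closed walk given as a list. -/
def Cy (R : V → V → Prop) : List V → Prop
  | [] => True
  | g :: t => Ch R g t g

/-- The list has no repetition and the rest of the vertices has a perfect matching. -/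
def Cover (R : V → V → Prop) (L : List V) : Prop := L.Nodup ∧ Mat R (univ \ L.toFinset)

/-- The list has no repetition and the rest of the vertices has a permutation along edges. -/
def CovL (R : V → V → Prop) (L : List V) : Prop := L.Nodup ∧ Cov R (univ \ L.toFinset)

/-- `O` is a union of odd cycles: each member lies on an odd cycle inside `O` whose
complement in `O` has a permutation along edges. -/
def OddU (R : V → V → Prop) (O : List V) : Prop :=
  ∀ u ∈ O, ∃ t O' : List V, Ch R u t u ∧ Even t.length ∧ O.Perm (u :: t ++ O') ∧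
    Cov R O'.toFinset

/-- No vertex `i` such that the rest has a cover with an odd cycle through a neighbour of `i`. -/
def NBadj (R : V → V → Prop) : Prop :=
  ∀ i u t, R i u → Ch R u t u → Even t.length → ¬ CovL R (i :: u :: t)

/-- No vertex `i` such that the rest has a cover with an odd cycle. -/
def NB (R : V → V → Prop) : Prop :=
  ∀ i u t, Ch R u t u → Even t.length → ¬ CovL R (i :: u :: t)

/-- No nice cycle of length 3 mod 4. -/
def NoA (R : V → V → Prop) : Prop :=
  ∀ u t, Ch R u t u → t.length % 4 = 2 → ¬ Cover R (u :: t)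

/-- Every cycle of length 0 mod 4 that is nice in the graph minus `v` contains all neighbours
of `v`. -/
def Tst (R : V → V → Prop) : Prop :=
  ∀ v g t, Ch R g t g → t.length % 4 = 3 → Cover R (v :: g :: t) → ∀ y, R v y → y ∈ g :: t

/-- Theta configuration in the graph minus `z`. -/
structure Theta (R : V → V → Prop) (z x y : V) (s1 s2 p : List V) : Prop where
  h1 : Ch R x s1 y
  h2 : Ch R x s2 y
  hp : Ch R x p y
  o1 : Odd s1.length
  o2 : Odd s2.length
  ep : Even p.length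
  cov : Cover R (z :: x :: y :: (s1 ++ s2 ++ p))

/-- Nice subdivision of `K4` with six paths of odd length in the graph minus `z`. -/
structure Frame (R : V → V → Prop) (z g1 g2 g3 g4 : V) (a b c d p q : List V) : Prop where
  ha : Ch R g1 a g2
  hb : Ch R g2 b g3
  hc : Ch R g3 c g4
  hd : Ch R g4 d g1
  hp : Ch R g1 p g3
  hq : Ch R g2 q g4
  ea : Even a.length
  eb : Even b.length
  ec : Even c.length
  ed : Even d.length
  ep : Even p.length
  eq : Even q.length
  cov : Cover R (z :: g1 :: g2 :: g3 :: g4 :: (a ++ b ++ c ++ d ++ p ++ q))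

/-- Normalised frame: the cycle `a b c d` has length 0 mod 4, the cycle `a q c p` has length
2 mod 4 (and then so has the cycle `b d p q`). -/
structure NFrame (R : V → V → Prop) (z g1 g2 g3 g4 : V) (a b c d p q : List V) : Prop where
  fr : Frame R z g1 g2 g3 g4 a b c d p q
  n0 : (a.length + b.length + c.length + d.length) % 4 = 0
  n1 : (a.length + c.length + p.length + q.length) % 4 = 2

/-- Solution of the bipartite stage: rows `X`, points `A`, forced points `TR`, cost `k`. -/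
def AISol (R : V → V → Prop) (X A TR : Finset V) (k : ℕ) : Prop :=
  ∃ (T Pk : Finset V) (sv : V → V), TR ⊆ T ∧ T ⊆ A ∧ Pk ⊆ X ∧
    (∀ x ∈ X, sv x ∈ T ∧ R x (sv x)) ∧
    (∀ a ∈ A, a ∉ TR → ∃ x ∈ Pk, R x a) ∧
    (∀ x ∈ Pk, ∃ a ∈ A, a ∉ T ∧ R x a) ∧
    (∀ τ ∈ T, (∃ x ∈ X, x ∉ Pk ∧ R x τ) ∨
      (τ ∉ TR ∧ ∀ x ∈ X, ∀ y ∈ X, sv x = τ → sv y = τ → x = y)) ∧
    T.card + Pk.card ≤ k

/-- Tree colouring attached to a tight independent set `X`. -/
structure TS (R : V → V → Prop) (X : Finset V) (a0 : V) (μ ι s : V → V) (rk : V → ℕ)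
    (c : V → Bool) : Prop where
  a0m : a0 ∈ nb R X
  mu : ∀ x ∈ X, μ x ∈ nb R X ∧ μ x ≠ a0 ∧ R x (μ x) ∧ ι (μ x) = x
  io : ∀ a ∈ nb R X, a ≠ a0 → ι a ∈ X ∧ μ (ι a) = a
  src : ∀ x ∈ X, R x (s x) ∧ c (μ x) = !c (s x) ∧
    (s x = a0 ∨ ∃ x' ∈ X, μ x' = s x ∧ rk x' < rk x)
  rest : ∀ r, r ∉ X → r ∉ nb R X → Bi R c r

/-- `x` is a private row of the point `τ` with respect to the point set `Tt`. -/
def Priv (e : V → Finset V) (Xa Tt : Finset V) (τ x : V) : Prop := x ∈ Xa ∧ e x ∩ Tt = {τ}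

/-- Standing hypotheses of the exchange machine. -/
structure MH (e : V → Finset V) (Xa Tc Tg Dc : Finset V) (μ0 : V → V) : Prop where
  h3 : ∀ x ∈ Xa, (e x).card = 3
  hcg : Disjoint Tc Tg
  hD : Disjoint (Tc ∪ Tg) Dc
  hit : ∀ x ∈ Xa, ∃ τ ∈ e x, τ ∈ Tc ∪ Tg
  priv : ∀ τ ∈ Tc, ∃ x, Priv e Xa (Tc ∪ Tg) τ x
  inj : Set.InjOn μ0 ((Tc ∪ Tg ∪ Dc : Finset V) : Set V)
  own : ∀ p ∈ Tc ∪ Tg ∪ Dc, μ0 p ∈ Xa ∧ p ∈ e (μ0 p)

/-- States of the exchange machine: owners `μ`, credits `γ` on `C`, guardless points `W`. -/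
structure St (e : V → Finset V) (Xa Tc Tg Dc : Finset V) (μ0 μ γ : V → V) (C W : Finset V) :
    Prop where
  wc : W ⊆ C
  ct : C ⊆ Tc
  inj : Set.InjOn μ ((((Tc ∪ Tg) \ W) ∪ Dc : Finset V) : Set V)
  own : ∀ p ∈ ((Tc ∪ Tg) \ W) ∪ Dc, μ p ∈ Xa ∧ p ∈ e (μ p)
  ginj : Set.InjOn γ (C : Set V)
  cred : ∀ τ ∈ C, γ τ ∈ Dc ∧ τ ∈ e (μ (γ τ))
  light : ∀ τ ∈ W, Priv e Xa (Tc ∪ Tg) τ (μ (γ τ)) ∧
    ∀ x, Priv e Xa (Tc ∪ Tg) τ x → x = μ (γ τ)
  keep : ∀ τ ∈ (Tc ∪ Tg) \ W, μ τ = μ0 τ ∨ Priv e Xa (Tc ∪ Tg) τ (μ τ)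
  invB : ∀ d ∈ Dc, ∀ τ ∈ W, τ ∈ e (μ d) → ∃ t ∈ C, γ t = d

/-- A state with the largest number of credits. -/
def MaxSt (e : V → Finset V) (Xa Tc Tg Dc : Finset V) (μ0 μ γ : V → V) (C W : Finset V) : Prop :=
  St e Xa Tc Tg Dc μ0 μ γ C W ∧
    ∀ (μ' γ' : V → V) (C' W' : Finset V), St e Xa Tc Tg Dc μ0 μ' γ' C' W' → C'.card ≤ C.card

section ChLemmas

variable {R : V → V → Prop}

omit [Fintype V] [DecidableEq V]

@[simp] theorem ch_nil {x y : V} : Ch R x [] y ↔ R x y := Iff.rfl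

@[simp] theorem ch_cons {x a y : V} {l : List V} : Ch R x (a :: l) y ↔ R x a ∧ Ch R a l y :=
  Iff.rfl

@[simp] theorem cy_cons {g : V} {t : List V} : Cy R (g :: t) ↔ Ch R g t g := Iff.rfl

@[simp] theorem ch_append {x y w : V} {l1 l2 : List V} :
    Ch R x (l1 ++ y :: l2) w ↔ Ch R x l1 y ∧ Ch R y l2 w := by
  induction l1 generalizing x with
  | nil => simp
  | cons a l ih => simp [ih, and_assoc]

theorem Ch.rev (hs : Sy R) {x y : V} {l : List V} (h : Ch R x l y) : Ch R y l.reverse x := by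
  induction l generalizing x with
  | nil => exact hs _ _ h
  | cons a l ih =>
    rw [List.reverse_cons, ch_append]
    exact ⟨ih h.2, hs _ _ h.1⟩

theorem cy_rot {l1 l2 : List V} : Cy R (l1 ++ l2) ↔ Cy R (l2 ++ l1) := by
  cases l1 with
  | nil => simp
  | cons a l1 =>
    cases l2 with
    | nil => simp
    | cons b l2 => simp [and_comm]

theorem Ch.chain_both {x y : V} {l : List V} (h : Ch R x l y) :
    List.IsChain R (x :: (l ++ [y])) := by
  induction l generalizing x with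
  | nil => simpa using h
  | cons a l ih => exact List.IsChain.cons_cons h.1 (ih h.2)

theorem Ch.chain_cons {x y : V} {l : List V} (h : Ch R x l y) : List.IsChain R (x :: l) := by
  induction l generalizing x with
  | nil => simp
  | cons a l ih => exact List.IsChain.cons_cons h.1 (ih h.2)

theorem Ch.chain_snoc {x y : V} {l : List V} (h : Ch R x l y) : List.IsChain R (l ++ [y]) :=
  h.chain_both.tail

theorem Ch.chain {x y : V} {l : List V} (h : Ch R x l y) : List.IsChain R l :=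
  h.chain_cons.tail

/-- A cycle can be started at any of its vertices. -/
theorem cy_head {b s : V} {t : List V} (h : Ch R b t b) (hs : s ∈ b :: t) :
    ∃ t', Ch R s t' s ∧ (b :: t).Perm (s :: t') := by
  obtain ⟨l1, l2, e⟩ := List.append_of_mem hs
  have h1 : Cy R (l1 ++ s :: l2) := by rw [← e]; exact h
  rw [cy_rot] at h1
  refine ⟨l2 ++ l1, h1, ?_⟩
  rw [e]
  exact List.perm_append_comm

/-- Two different members of a list cut it into three pieces. -/
theorem split_two {L : List V} {y y' : V} (h : y ∈ L) (h' : y' ∈ L) (hne : y ≠ y') :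
    (∃ l1 s l2, L = l1 ++ y :: (s ++ y' :: l2)) ∨ ∃ l1 s l2, L = l1 ++ y' :: (s ++ y :: l2) := by
  obtain ⟨l1, l2, rfl⟩ := List.append_of_mem h
  rcases List.mem_append.1 h' with h1 | h1
  · obtain ⟨a, b, rfl⟩ := List.append_of_mem h1
    exact Or.inr ⟨a, b, l2, by simp⟩
  · rcases List.mem_cons.1 h1 with h2 | h2
    · exact absurd h2.symm hne
    · obtain ⟨a, b, rfl⟩ := List.append_of_mem h2
      exact Or.inl ⟨l1, a, b, rfl⟩

/-- Position of a vertex in the interior of a walk. -/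
theorem ch_mem_cases (hs : Sy R) {x y v : V} {t : List V} (h : Ch R x t y) (hv : v ∈ t) :
    (t = [v] ∧ R v x ∧ R v y) ∨ (∃ w l, t = v :: w :: l ∧ R v x ∧ R v w) ∨
    (∃ l w, t = l ++ [w, v] ∧ R v w ∧ R v y) ∨
    ∃ l1 w w' l2, t = l1 ++ w :: v :: w' :: l2 ∧ R v w ∧ R v w' := by
  obtain ⟨l1, l2, rfl⟩ := List.append_of_mem hv
  rw [ch_append] at h
  obtain ⟨h1, h2⟩ := h
  rcases List.eq_nil_or_concat l1 with rfl | ⟨l, w, rfl⟩
  · cases l2 with
    | nil => exact Or.inl ⟨rfl, hs _ _ h1, h2⟩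
    | cons w' l2 => exact Or.inr (Or.inl ⟨w', l2, rfl, hs _ _ h1, h2.1⟩)
  · rw [List.concat_eq_append, ch_append] at h1
    cases l2 with
    | nil => exact Or.inr (Or.inr (Or.inl ⟨l, w, by simp, hs _ _ h1.2, h2⟩))
    | cons w' l2 =>
      exact Or.inr (Or.inr (Or.inr ⟨l, w, w', l2, by simp, hs _ _ h1.2, h2.1⟩))

/-- Permutation goals between concatenations: apply this lemma, then
`simp only [← Multiset.cons_coe, ← Multiset.coe_add, Multiset.coe_reverse, Multiset.coe_nil,
← Multiset.singleton_add]; abel`. -/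
theorem perm_ms {l1 l2 : List V} (h : (l1 : Multiset V) = (l2 : Multiset V)) : l1.Perm l2 :=
  Multiset.coe_eq_coe.1 h

theorem perm_demo (z g h : V) (a b c : List V) :
    (z :: g :: (a ++ h :: b ++ c)).Perm (c.reverse ++ [g, z] ++ (b ++ h :: a.reverse)) := by
  apply perm_ms
  simp only [← Multiset.cons_coe, ← Multiset.coe_add, Multiset.coe_reverse, Multiset.coe_nil,
    ← Multiset.singleton_add]
  abel

end ChLemmas

omit [DecidableEq V] in
theorem Sur.mono {R : V → V → Prop} {k l : ℕ} (h : Sur R k) (hl : l ≤ k) : Sur R l :=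
  fun X hX hI => le_trans (Nat.add_le_add_left hl _) (h X hX hI)

end Pool.Agent.Lib.MP_59216f_co.TD
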