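import Pool.Agent.Lib.MP_59216f_co.GDefs

set_option autoImplicit false
set_option linter.unusedSectionVars false

namespace Pool.Agent.Lib.MP_59216f_co.TD

open Finset

variable {V : Type} [Fintype V] [DecidableEq V] {R : V → V → Prop}

theorem mat_empty : Mat R ∅ := ⟨id, fun v hv => absurd hv (notMem_empty v)⟩

theorem cov_empty : Cov R ∅ :=
  ⟨id, fun v hv => absurd hv (by simp), fun v hv => absurd hv (notMem_empty v)⟩

theorem Mat.cov {W : Finset V} (h : Mat R W) : Cov R W := by
  obtain ⟨ν, hν⟩ := h
  refine ⟨ν, fun x hx y hy e => ?_, fun v hv => ⟨(hν v hv).1, (hν v hv).2.2.2⟩⟩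
  rw [← (hν x hx).2.2.1, e, (hν y hy).2.2.1]

theorem Mat.union {W1 W2 : Finset V} (h1 : Mat R W1) (h2 : Mat R W2) (hd : Disjoint W1 W2) :
    Mat R (W1 ∪ W2) := by
  obtain ⟨ν1, h1⟩ := h1
  obtain ⟨ν2, h2⟩ := h2
  refine ⟨fun v => if v ∈ W1 then ν1 v else ν2 v, fun v hv => ?_⟩
  by_cases hv1 : v ∈ W1
  · obtain ⟨a, b, c, d⟩ := h1 v hv1
    simp only [hv1, a, if_true]
    exact ⟨mem_union_left _ a, b, c, d⟩
  · have hv2 : v ∈ W2 := (mem_union.1 hv).resolve_left hv1
    obtain ⟨a, b, c, d⟩ := h2 v hv2
    have a' : ν2 v ∉ W1 := fun h => disjoint_left.1 hd h a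
    simp only [hv1, a', if_false]
    exact ⟨mem_union_right _ a, b, c, d⟩

theorem Cov.union {W1 W2 : Finset V} (h1 : Cov R W1) (h2 : Cov R W2) (hd : Disjoint W1 W2) :
    Cov R (W1 ∪ W2) := by
  obtain ⟨m1, i1, h1⟩ := h1
  obtain ⟨m2, i2, h2⟩ := h2
  refine ⟨fun v => if v ∈ W1 then m1 v else m2 v, ?_, fun v hv => ?_⟩
  · intro x hx y hy e
    have hx' : x ∈ W1 ∪ W2 := hx
    have hy' : y ∈ W1 ∪ W2 := hy
    by_cases hx1 : x ∈ W1 <;> by_cases hy1 : y ∈ W1 <;>
      simp only [hx1, hy1, if_true, if_false] at e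
    · exact i1 hx1 hy1 e
    · have := (h2 y ((mem_union.1 hy').resolve_left hy1)).1
      exact absurd (e ▸ this) (disjoint_left.1 hd (h1 x hx1).1)
    · have := (h2 x ((mem_union.1 hx').resolve_left hx1)).1
      exact absurd (e ▸ this) (disjoint_left.1 hd (h1 y hy1).1)
    · exact i2 ((mem_union.1 hx').resolve_left hx1) ((mem_union.1 hy').resolve_left hy1) e
  · by_cases hv1 : v ∈ W1
    · simp only [hv1, if_true]
      exact ⟨mem_union_left _ (h1 v hv1).1, (h1 v hv1).2⟩
    · have hv2 : v ∈ W2 := (mem_union.1 hv).resolve_left hv1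
      simp only [hv1, if_false]
      exact ⟨mem_union_right _ (h2 v hv2).1, (h2 v hv2).2⟩

theorem mat_pair (hs : Sy R) {x y : V} (h : R x y) (hne : x ≠ y) : Mat R {x, y} := by
  refine ⟨fun v => if v = x then y else x, fun v hv => ?_⟩
  simp only [mem_insert, mem_singleton] at hv ⊢
  rcases hv with rfl | rfl
  · simp [hne.symm, h]
  · simp [hne.symm, hne, hs _ _ h]

/-- A path with an even number of vertices has a perfect matching. -/
theorem mat_of_chain (hs : Sy R) : ∀ {s : List V}, List.IsChain R s → Even s.length → s.Nodup →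
    Mat R s.toFinset
  | [], _, _, _ => by simpa using mat_empty
  | [x], _, he, _ => by simp at he
  | x :: y :: l, hc, he, hn => by
    have hxy : R x y := (List.isChain_cons_cons.1 hc).1
    have hl : List.IsChain R l := (List.isChain_cons_cons.1 hc).2.tail
    have he' : Even l.length := by
      simp only [List.length_cons] at he
      rcases he with ⟨k, hk⟩
      exact ⟨k - 1, by omega⟩
    simp only [List.nodup_cons, List.mem_cons, not_or] at hn
    have ih := mat_of_chain hs hl he' hn.2.2
    have e : (x :: y :: l).toFinset = {x, y} ∪ l.toFinset := by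
      ext w
      simp
    rw [e]
    refine (mat_pair hs hxy hn.1.1).union ih ?_
    rw [disjoint_left]
    intro w hw hw'
    simp only [mem_insert, mem_singleton] at hw
    rw [List.mem_toFinset] at hw'
    rcases hw with rfl | rfl
    · exact hn.1.2 hw'
    · exact hn.2.1 hw'

theorem ch_map {x y : V} : ∀ {l : List V}, Ch R x l y → (x :: l).Nodup →
    ∃ m : V → V, (x :: l).map m = l ++ [y] ∧ ∀ v ∈ x :: l, R v (m v) := by
  intro l
  induction l generalizing x with
  | nil =>
    intro h _
    exact ⟨fun _ => y, rfl, fun v hv => by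
      rw [List.mem_singleton] at hv
      subst hv
      exact h⟩
  | cons a l ih =>
    intro h hn
    obtain ⟨m, hm, hR⟩ := ih h.2 (List.nodup_cons.1 hn).2
    have hx : x ∉ a :: l := (List.nodup_cons.1 hn).1
    have hup : ∀ v ∈ a :: l, Function.update m x a v = m v := fun v hv =>
      Function.update_of_ne (fun (e : v = x) => hx (e ▸ hv)) _ _
    refine ⟨Function.update m x a, ?_, fun v hv => ?_⟩
    · rw [List.map_cons, Function.update_self, List.map_congr_left hup, hm]
      rfl
    · rcases List.mem_cons.1 hv with rfl | hv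
      · rw [Function.update_self]
        exact h.1
      · rw [hup v hv]
        exact hR v hv

/-- A cycle has a permutation along edges. -/
theorem cov_of_cy {s : List V} (h : Cy R s) (hn : s.Nodup) : Cov R s.toFinset := by
  cases s with
  | nil => simpa using cov_empty
  | cons g t =>
    obtain ⟨m, hm, hR⟩ := ch_map (cy_cons.1 h) hn
    have hp : ((g :: t).map m).Perm (g :: t) := by
      rw [hm]
      exact List.perm_append_comm
    refine ⟨m, ?_, fun v hv => ?_⟩
    · intro x hx y hy e
      have hx' : x ∈ g :: t := List.mem_toFinset.1 hx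
      have hy' : y ∈ g :: t := List.mem_toFinset.1 hy
      exact List.inj_on_of_nodup_map (hp.nodup_iff.2 hn) hx' hy' e
    · have hv' : v ∈ g :: t := List.mem_toFinset.1 hv
      exact ⟨List.mem_toFinset.2 (hp.subset (List.mem_map_of_mem hv')), hR v hv'⟩

/-- Removing a matched pair. -/
theorem Mat.remove {W : Finset V} (h : Mat R W) {y : V} (hy : y ∈ W) :
    ∃ j ∈ W, j ≠ y ∧ R y j ∧ Mat R (W \ {y, j}) := by
  obtain ⟨ν, hν⟩ := h
  obtain ⟨a, b, c, d⟩ := hν y hy
  refine ⟨ν y, a, b, d, ν, fun v hv => ?_⟩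
  obtain ⟨hv1, hv2⟩ := mem_sdiff.1 hv
  obtain ⟨a', b', c', d'⟩ := hν v hv1
  simp only [mem_insert, mem_singleton, not_or] at hv2
  refine ⟨mem_sdiff.2 ⟨a', ?_⟩, b', c', d'⟩
  simp only [mem_insert, mem_singleton, not_or]
  constructor
  · intro e
    exact hv2.2 (by rw [← e, c'])
  · intro e
    exact hv2.1 (by rw [← c', e, c])

theorem Cover.covL {L : List V} (h : Cover R L) : CovL R L := ⟨h.1, h.2.cov⟩

theorem Cover.perm {L L' : List V} (h : Cover R L) (hp : L.Perm L') : Cover R L' :=
  ⟨hp.nodup_iff.1 h.1, by rw [← List.toFinset_eq_of_perm _ _ hp]; exact h.2⟩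

theorem CovL.perm {L L' : List V} (h : CovL R L) (hp : L.Perm L') : CovL R L' :=
  ⟨hp.nodup_iff.1 h.1, by rw [← List.toFinset_eq_of_perm _ _ hp]; exact h.2⟩

theorem sdiff_split {s L : List V} (hn : (s ++ L).Nodup) :
    (univ \ L.toFinset : Finset V) = s.toFinset ∪ univ \ (s ++ L).toFinset ∧
      Disjoint s.toFinset (univ \ (s ++ L).toFinset) := by
  have hd := (List.nodup_append.1 hn).2.2
  constructor
  · ext w
    simp only [mem_sdiff, mem_univ, List.mem_toFinset, true_and, mem_union, List.mem_append,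
      not_or]
    constructor
    · intro h
      by_cases hw : w ∈ s
      · exact Or.inl hw
      · exact Or.inr ⟨hw, h⟩
    · rintro (h | h)
      · exact fun h' => hd w h w h' rfl
      · exact h.2
  · rw [disjoint_left]
    intro w hw hw'
    simp only [mem_sdiff, mem_univ, List.mem_toFinset, true_and, List.mem_append, not_or] at hw hw'
    exact hw'.1 hw

theorem Cover.dropMat {s L : List V} (h : Cover R (s ++ L)) (hm : Mat R s.toFinset) :
    Cover R L := by
  obtain ⟨e, hd⟩ := sdiff_split h.1
  exact ⟨(List.nodup_append.1 h.1).2.1, by rw [e]; exact hm.union h.2 hd⟩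

theorem CovL.dropCov {s L : List V} (h : CovL R (s ++ L)) (hm : Cov R s.toFinset) :
    CovL R L := by
  obtain ⟨e, hd⟩ := sdiff_split h.1
  exact ⟨(List.nodup_append.1 h.1).2.1, by rw [e]; exact hm.union h.2 hd⟩

/-- An even path can be given back to the matched part. -/
theorem Cover.drop (hs : Sy R) {s L : List V} (h : Cover R (s ++ L)) (hc : List.IsChain R s)
    (he : Even s.length) : Cover R L :=
  h.dropMat (mat_of_chain hs hc he (List.nodup_append.1 h.1).1)

theorem CovL.drop (hs : Sy R) {s L : List V} (h : CovL R (s ++ L)) (hc : List.IsChain R s)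
    (he : Even s.length) : CovL R L :=
  h.dropCov (mat_of_chain hs hc he (List.nodup_append.1 h.1).1).cov

/-- A cycle can be given back to the covered part. -/
theorem CovL.dropCy {s L : List V} (h : CovL R (s ++ L)) (hc : Cy R s) : CovL R L :=
  h.dropCov (cov_of_cy hc (List.nodup_append.1 h.1).1)

/-- Taking a matched pair out of the matched part. -/
theorem Cover.take {L : List V} (h : Cover R L) {y : V} (hy : y ∉ L) :
    ∃ j, R y j ∧ Cover R (y :: j :: L) := by
  obtain ⟨j, hj, hne, hR, hm⟩ := h.2.remove (y := y) (by simpa using hy)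
  have hj' : j ∉ L := by simpa using hj
  refine ⟨j, hR, ?_, ?_⟩
  · simp only [List.nodup_cons, List.mem_cons, not_or]
    exact ⟨⟨hne.symm, hy⟩, hj', h.1⟩
  · have e : (univ \ (y :: j :: L).toFinset : Finset V) = (univ \ L.toFinset) \ {y, j} := by
      ext w
      simp only [mem_sdiff, mem_univ, List.mem_toFinset, true_and, List.mem_cons, not_or,
        mem_insert, mem_singleton]
      tauto
    rw [e]
    exact hm

/-- The colour pattern `false true true false`, period four. -/
def pat (k : ℕ) : Bool := decide (k % 4 = 1 ∨ k % 4 = 2)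

theorem pat_ne (k : ℕ) : pat k ≠ pat (k + 2) := by
  unfold pat
  have : k % 4 = 0 ∨ k % 4 = 1 ∨ k % 4 = 2 ∨ k % 4 = 3 := by omega
  rcases this with h | h | h | h
  · have h' : (k + 2) % 4 = 2 := by omega
    simp [h, h']
  · have h' : (k + 2) % 4 = 3 := by omega
    simp [h, h']
  · have h' : (k + 2) % 4 = 0 := by omega
    simp [h, h']
  · have h' : (k + 2) % 4 = 1 := by omega
    simp [h, h']

/-- Colouring a list without repetition by the pattern. -/
theorem exists_pat {t : List V} (hn : t.Nodup) :
    ∃ c : V → Bool, ∀ l1 x l2, t = l1 ++ x :: l2 → c x = pat l1.length := by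
  refine ⟨fun x => pat (t.idxOf x), fun l1 x l2 e => ?_⟩
  subst e
  have hx : x ∉ l1 := fun h => (List.nodup_append.1 hn).2.2 x h x (by simp) rfl
  simp [List.idxOf_append_of_notMem hx]

/-- A union of odd cycles has a permutation along edges. -/
theorem OddU.cov {O : List V} (h : OddU R O) (hn : O.Nodup) : Cov R O.toFinset := by
  cases O with
  | nil => simpa using cov_empty
  | cons u O =>
    obtain ⟨t, O', h1, _, hp, h4⟩ := h u (by simp)
    have hn' := hp.nodup_iff.1 hn
    rw [List.toFinset_eq_of_perm _ _ hp, List.toFinset_append]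
    refine (cov_of_cy (s := u :: t) h1 (List.nodup_append.1 hn').1).union h4 ?_
    rw [disjoint_left]
    intro w hw hw'
    exact (List.nodup_append.1 hn').2.2 w (List.mem_toFinset.1 hw) w (List.mem_toFinset.1 hw') rfl

/-- Adding an odd cycle to a union of odd cycles. -/
theorem OddU.cons {O t : List V} {u : V} (h : OddU R O) (hc : Ch R u t u) (he : Even t.length)
    (hn : (u :: t ++ O).Nodup) : OddU R (u :: t ++ O) := by
  intro v hv
  rcases List.mem_append.1 hv with hv | hv
  · obtain ⟨t', h1, hp⟩ := cy_head hc hv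
    refine ⟨t', O, h1, ?_, hp.append_right O, h.cov (List.nodup_append.1 hn).2.1⟩
    have := hp.length_eq
    simp only [List.length_cons, Nat.add_right_cancel_iff] at this
    rwa [← this]
  · obtain ⟨t', O', h1, h2, hp, h4⟩ := h v hv
    have hp2 : (u :: t ++ O).Perm (v :: t' ++ (u :: t ++ O')) := by
      refine (hp.append_left (u :: t)).trans ?_
      apply perm_ms
      simp only [← Multiset.cons_coe, ← Multiset.coe_add, ← Multiset.singleton_add]
      abel
    refine ⟨t', u :: t ++ O', h1, h2, hp2, ?_⟩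
    have hn2 := (List.nodup_append.1 (hp2.nodup_iff.1 hn)).2.1
    rw [List.toFinset_append]
    refine (cov_of_cy (s := u :: t) hc (List.nodup_append.1 hn2).1).union h4 ?_
    rw [disjoint_left]
    intro w hw hw'
    exact (List.nodup_append.1 hn2).2.2 w (List.mem_toFinset.1 hw) w (List.mem_toFinset.1 hw') rfl

end Pool.Agent.Lib.MP_59216f_co.TD
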