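import Pool.Agent.Lib.MP_59216f_co.GBasic
import Pool.Agent.Lib.MP_59216f_co.GList

set_option autoImplicit false
set_option linter.unusedSectionVars false
set_option linter.unusedSimpArgs false

namespace Pool.Agent.Lib.MP_59216f_co.TD

open Finset

variable {V : Type} [Fintype V] [DecidableEq V] {R : V → V → Prop}

/-- Lemma K. `s = v :: s'`, drop the even path `s'`; if `s' = w :: _` then `Tst` at `v` puts the
neighbour `w` on the cycle, against `Nodup`. -/
theorem lemK (hs : Sy R) (hT : Tst R) {g : V} {t s : List V} (hc : Ch R g t g)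
    (ht : t.length % 4 = 3) (hch : List.IsChain R s) (ho : Odd s.length)
    (h : Cover R (s ++ g :: t)) : s.length = 1 := by
  cases s with
  | nil => simp at ho
  | cons v s' =>
    cases s' with
    | nil => rfl
    | cons w l =>
      exfalso
      have he : Even (w :: l).length := by
        simp only [List.length_cons, Nat.odd_iff, Nat.even_iff] at ho ⊢
        omega
      have hp : (v :: w :: l ++ g :: t).Perm ((w :: l) ++ v :: g :: t) := (by
      apply perm_ms
      simp only [← Multiset.cons_coe, ← Multiset.coe_add, Multiset.coe_reverse, Multiset.coe_nil,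
        ← Multiset.singleton_add]
      abel)
      have hcov : Cover R (v :: g :: t) := Cover.drop hs (h.perm hp) hch.tail he
      have hw := hT v g t hc ht hcov w (List.isChain_cons_cons.1 hch).1
      exact (List.nodup_append.1 h.1).2.2 w (by simp) w hw rfl

/-- Two neighbours of `z` at odd distance: one of the cycles `z :: y :: s ++ [y']`,
`z :: y' :: t ++ [y]` has length 3 mod 4 and the other arc is an even path. -/
theorem lemA_even (hs : Sy R) (hA : NoA R) {z y y' : V} {s t : List V} (h1 : Ch R y s y')
    (h2 : Ch R y' t y) (hl : (s.length + t.length) % 4 = 2)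
    (h : Cover R (z :: y :: y' :: (s ++ t))) (hy : R z y) (hy' : R z y') : ¬ Even s.length := by
  intro he
  rw [Nat.even_iff] at he
  by_cases h4 : s.length % 4 = 0
  · have hp : (z :: y :: y' :: (s ++ t)).Perm (t ++ z :: y :: (s ++ [y'])) := (by
      apply perm_ms
      simp only [← Multiset.cons_coe, ← Multiset.coe_add, Multiset.coe_reverse, Multiset.coe_nil,
        ← Multiset.singleton_add]
      abel)
    refine hA z (y :: (s ++ [y'])) ?_ ?_ (Cover.drop hs (h.perm hp) h2.chain ?_)
    · simp only [ch_append, ch_cons, ch_nil]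
      exact ⟨hy, h1, hs _ _ hy'⟩
    · simp only [List.length_append, List.length_cons, List.length_nil]
      omega
    · rw [Nat.even_iff]; omega
  · have hp : (z :: y :: y' :: (s ++ t)).Perm (s ++ z :: y' :: (t ++ [y])) := (by
      apply perm_ms
      simp only [← Multiset.cons_coe, ← Multiset.coe_add, Multiset.coe_reverse, Multiset.coe_nil,
        ← Multiset.singleton_add]
      abel)
    refine hA z (y' :: (t ++ [y])) ?_ ?_ (Cover.drop hs (h.perm hp) h1.chain ?_)
    · simp only [ch_append, ch_cons, ch_nil]
      exact ⟨hy', h2, hs _ _ hy⟩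
    · simp only [List.length_append, List.length_cons, List.length_nil]
      omega
    · rw [Nat.even_iff]; omega

/-- Lemma A. By `lemA_even`, `s` and `t` are odd. If `s.length % 4 = 1` then
`t.length % 4 = 1`, the cycle `z :: y :: s ++ [y']` has length 0 mod 4 and `lemK` gives
`t.length = 1`, likewise `s.length = 1`; a third neighbour of `z` lies on the 4-cycle by `Tst` and
is adjacent to `y`, against `lemA_even` with an empty arc. -/
theorem lemA (hs : Sy R) (hi : Irr R) (h3 : Three R) (hT : Tst R) (hA : NoA R) {z y y' : V}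
    {s t : List V} (h1 : Ch R y s y') (h2 : Ch R y' t y) (hl : (s.length + t.length) % 4 = 2)
    (h : Cover R (z :: y :: y' :: (s ++ t))) (hy : R z y) (hy' : R z y') : s.length % 4 = 3 := by
  have e1 := lemA_even hs hA h1 h2 hl h hy hy'
  rw [Nat.even_iff] at e1
  by_contra h4
  have hs1 : s.length % 4 = 1 := by omega
  have ht1 : t.length % 4 = 1 := by omega
  have a1 : t.length = 1 := by
    have hp : (z :: y :: y' :: (s ++ t)).Perm (t ++ z :: y :: (s ++ [y'])) := (by
      apply perm_ms
      simp only [← Multiset.cons_coe, ← Multiset.coe_add, Multiset.coe_reverse, Multiset.coe_nil,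
        ← Multiset.singleton_add]
      abel)
    refine lemK hs hT (g := z) (t := y :: (s ++ [y'])) ?_ ?_ h2.chain ?_ (h.perm hp)
    · simp only [ch_append, ch_cons, ch_nil]
      exact ⟨hy, h1, hs _ _ hy'⟩
    · simp only [List.length_append, List.length_cons, List.length_nil]
      omega
    · rw [Nat.odd_iff]; omega
  have a2 : s.length = 1 := by
    have hp : (z :: y :: y' :: (s ++ t)).Perm (s ++ z :: y' :: (t ++ [y])) := (by
      apply perm_ms
      simp only [← Multiset.cons_coe, ← Multiset.coe_add, Multiset.coe_reverse, Multiset.coe_nil,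
        ← Multiset.singleton_add]
      abel)
    refine lemK hs hT (g := z) (t := y' :: (t ++ [y])) ?_ ?_ h1.chain ?_ (h.perm hp)
    · simp only [ch_append, ch_cons, ch_nil]
      exact ⟨hy', h2, hs _ _ hy⟩
    · simp only [List.length_append, List.length_cons, List.length_nil]
      omega
    · rw [Nat.odd_iff]; omega
  obtain ⟨a, rfl⟩ := List.length_eq_one_iff.1 a2
  obtain ⟨b, rfl⟩ := List.length_eq_one_iff.1 a1
  simp only [ch_cons, ch_nil] at h1 h2
  obtain ⟨w, hw, hwy, hwy'⟩ := h3.third z y y'
  have hp : (z :: y :: y' :: ([a] ++ [b])).Perm (z :: y :: [a, y', b]) := (by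
      apply perm_ms
      simp only [← Multiset.cons_coe, ← Multiset.coe_add, Multiset.coe_reverse, Multiset.coe_nil,
        ← Multiset.singleton_add]
      abel)
  have hm := hT z y [a, y', b] ⟨h1.1, h1.2, h2.1, h2.2⟩ rfl (h.perm hp) w hw
  simp only [List.mem_cons, List.not_mem_nil, or_false] at hm
  rcases hm with rfl | rfl | rfl | rfl
  · exact hwy rfl
  · have hp' : (z :: y :: y' :: ([w] ++ [b])).Perm (z :: y :: w :: ([] ++ [y', b])) := (by
      apply perm_ms
      simp only [← Multiset.cons_coe, ← Multiset.coe_add, Multiset.coe_reverse, Multiset.coe_nil,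
        ← Multiset.singleton_add]
      abel)
    exact lemA_even hs hA (y := y) (y' := w) (s := []) (t := [y', b]) h1.1 ⟨h1.2, h2.1, h2.2⟩ rfl
      (h.perm hp') hy hw (by simp)
  · exact hwy' rfl
  · have hp' : (z :: y :: y' :: ([a] ++ [w])).Perm (z :: w :: y :: ([] ++ [a, y'])) := (by
      apply perm_ms
      simp only [← Multiset.cons_coe, ← Multiset.coe_add, Multiset.coe_reverse, Multiset.coe_nil,
        ← Multiset.singleton_add]
      abel)
    exact lemA_even hs hA (y := w) (y' := y) (s := []) (t := [a, y']) h2.2 ⟨h1.1, h1.2, h2.1⟩ rfl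
      (h.perm hp') hw hy (by simp)

/-- An arc `L` shared by a nice cycle of length 0 mod 4 and a nice cycle of length 2 mod 4
contains at most one neighbour of `z`. `split_two`, `cy_rot`, `lemA` gives `s.length % 4 = 3`
for the part `s` between the two neighbours; replacing `s` by `z` in the second cycle gives a
cycle of length 0 mod 4, and `lemK` gives `s.length = 1`. -/
theorem lemArc (hs : Sy R) (hi : Irr R) (h3 : Three R) (hT : Tst R) (hA : NoA R) {z y y' : V}
    {L r0 r1 : List V} (c0 : Cy R (L ++ r0)) (c1 : Cy R (L ++ r1))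
    (n0 : (L ++ r0).length % 4 = 0) (n1 : (L ++ r1).length % 4 = 2)
    (k0 : Cover R (z :: (L ++ r0))) (k1 : Cover R (z :: (L ++ r1))) (hy : R z y) (hy' : R z y')
    (m : y ∈ L) (m' : y' ∈ L) : y = y' := by
  have key : ∀ (y y' : V) (l1 s l2 : List V), R z y → R z y' →
      L = l1 ++ y :: (s ++ y' :: l2) → False := by
    intro y y' l1 s l2 hy hy' e
    subst e
    rw [List.append_assoc, cy_rot] at c0 c1
    simp only [List.append_assoc, List.cons_append, cy_cons, ch_append] at c0 c1
    simp only [List.length_append, List.length_cons] at n0 n1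
    have hp0 : (z :: (l1 ++ y :: (s ++ y' :: l2) ++ r0)).Perm
        (z :: y :: y' :: (s ++ (l2 ++ (r0 ++ l1)))) := (by
      apply perm_ms
      simp only [← Multiset.cons_coe, ← Multiset.coe_add, Multiset.coe_reverse, Multiset.coe_nil,
        ← Multiset.singleton_add]
      abel)
    have a1 := lemA hs hi h3 hT hA c0.1 c0.2
      (by simp only [List.length_append]; omega) (k0.perm hp0) hy hy'
    have hp1 : (z :: (l1 ++ y :: (s ++ y' :: l2) ++ r1)).Perm
        (s ++ z :: y' :: ((l2 ++ (r1 ++ l1)) ++ [y])) := (by
      apply perm_ms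
      simp only [← Multiset.cons_coe, ← Multiset.coe_add, Multiset.coe_reverse, Multiset.coe_nil,
        ← Multiset.singleton_add]
      abel)
    have a2 : s.length = 1 := by
      refine lemK hs hT (g := z) (t := y' :: ((l2 ++ (r1 ++ l1)) ++ [y])) ?_ ?_ c0.1.chain ?_
        (k1.perm hp1)
      · rw [ch_cons, ch_append, ch_nil]
        exact ⟨hy', c1.2, hs _ _ hy⟩
      · simp only [List.length_append, List.length_cons, List.length_nil]
        omega
      · rw [Nat.odd_iff]; omega
    omega
  by_contra hne
  rcases split_two m m' hne with ⟨l1, s, l2, e⟩ | ⟨l1, s, l2, e⟩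
  · exact key y y' l1 s l2 hy hy' e
  · exact key y' y l1 s l2 hy' hy e

end Pool.Agent.Lib.MP_59216f_co.TD
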