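import Pool.Agent.Lib.MP_59216f_co.GEndA

set_option autoImplicit false
set_option linter.unusedSectionVars false

namespace Pool.Agent.Lib.MP_59216f_co.TD

open Finset

variable {V : Type} [Fintype V] [DecidableEq V] {R : V → V → Prop}

variable {z g1 g2 g3 g4 : V} {a b c d p q : List V}

theorem even_rev_endB {l : List V} (h : Even l.length) : Even l.reverse.length := by
  rwa [List.length_reverse]

theorem Frame.rot (hs : Sy R) (h : Frame R z g1 g2 g3 g4 a b c d p q) :
    Frame R z g2 g3 g4 g1 b c d a q p.reverse := by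
  refine ⟨h.hb, h.hc, h.hd, h.ha, h.hq, h.hp.rev hs, h.eb, h.ec, h.ed, h.ea, h.eq,
    even_rev_endB h.ep, h.cov.perm ?_⟩
  apply perm_ms
  simp only [← Multiset.cons_coe, ← Multiset.coe_add, Multiset.coe_reverse,
    ← Multiset.singleton_add]
  abel

theorem Frame.refl (hs : Sy R) (h : Frame R z g1 g2 g3 g4 a b c d p q) :
    Frame R z g3 g2 g1 g4 b.reverse a.reverse d.reverse c.reverse p.reverse q := by
  refine ⟨h.hb.rev hs, h.ha.rev hs, h.hd.rev hs, h.hc.rev hs, h.hp.rev hs, h.hq,
    even_rev_endB h.eb, even_rev_endB h.ea, even_rev_endB h.ed, even_rev_endB h.ec,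
    even_rev_endB h.ep, h.eq, h.cov.perm ?_⟩
  apply perm_ms
  simp only [← Multiset.cons_coe, ← Multiset.coe_add, Multiset.coe_reverse,
    ← Multiset.singleton_add]
  abel

theorem Frame.swap (hs : Sy R) (h : Frame R z g1 g2 g3 g4 a b c d p q) :
    Frame R z g1 g2 g4 g3 a q c.reverse p.reverse d.reverse b := by
  refine ⟨h.ha, h.hq, h.hc.rev hs, h.hp.rev hs, h.hd.rev hs, h.hb, h.ea, h.eq,
    even_rev_endB h.ec, even_rev_endB h.ep, even_rev_endB h.ed, h.eb, h.cov.perm ?_⟩
  apply perm_ms
  simp only [← Multiset.cons_coe, ← Multiset.coe_add, Multiset.coe_reverse,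
    ← Multiset.singleton_add]
  abel

theorem NFrame.rot (hs : Sy R) (h : NFrame R z g1 g2 g3 g4 a b c d p q) :
    NFrame R z g2 g3 g4 g1 b c d a q p.reverse := by
  have n0 := h.n0
  have n1 := h.n1
  have ea := Nat.even_iff.1 h.fr.ea
  have ec := Nat.even_iff.1 h.fr.ec
  refine ⟨h.fr.rot hs, by omega, ?_⟩
  rw [List.length_reverse]
  omega

theorem NFrame.refl (hs : Sy R) (h : NFrame R z g1 g2 g3 g4 a b c d p q) :
    NFrame R z g3 g2 g1 g4 b.reverse a.reverse d.reverse c.reverse p.reverse q := by
  have n0 := h.n0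
  have n1 := h.n1
  have ea := Nat.even_iff.1 h.fr.ea
  have ec := Nat.even_iff.1 h.fr.ec
  refine ⟨h.fr.refl hs, ?_, ?_⟩ <;> simp only [List.length_reverse] <;> omega

/-- The outer cycle and its cover (drop `p` and `q`). -/
theorem Frame.outer (hs : Sy R) (h : Frame R z g1 g2 g3 g4 a b c d p q) :
    Cy R (g1 :: (a ++ g2 :: (b ++ g3 :: (c ++ g4 :: d)))) ∧
      Cover R (z :: g1 :: (a ++ g2 :: (b ++ g3 :: (c ++ g4 :: d)))) := by
  constructor
  · simp only [cy_cons, ch_append]
    exact ⟨h.ha, h.hb, h.hc, h.hd⟩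
  · have h1 : Cover R (p ++ (q ++ (z :: g1 :: (a ++ g2 :: (b ++ g3 :: (c ++ g4 :: d)))))) := by
      refine h.cov.perm ?_
      apply perm_ms
      simp only [← Multiset.cons_coe, ← Multiset.coe_add, ← Multiset.singleton_add]
      abel
    exact Cover.drop hs (Cover.drop hs h1 h.hp.chain h.ep) h.hq.chain h.eq

/-- All neighbours of `z` are on the outer cycle. -/
theorem Frame.nbr (hs : Sy R) (hT : Tst R) (h : Frame R z g1 g2 g3 g4 a b c d p q)
    (n0 : (a.length + b.length + c.length + d.length) % 4 = 0) {y : V} (hy : R z y) :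
    y ∈ g1 :: (a ++ g2 :: (b ++ g3 :: (c ++ g4 :: d))) := by
  obtain ⟨h1, h2⟩ := h.outer hs
  refine hT z g1 _ (cy_cons.1 h1) ?_ h2 y hy
  simp only [List.length_append, List.length_cons]
  omega

/-- Two consecutive corners are not both neighbours of `z` (`lemA_even`). -/
theorem Frame.not_both (hs : Sy R) (hA : NoA R) (h : Frame R z g1 g2 g3 g4 a b c d p q)
    (n0 : (a.length + b.length + c.length + d.length) % 4 = 0) : ¬ (R z g1 ∧ R z g2) := by
  rintro ⟨h1, h2⟩
  refine lemA_even hs hA (z := z) (t := b ++ g3 :: (c ++ g4 :: d)) h.ha ?_ ?_ ?_ h1 h2 h.ea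
  · simp only [ch_append]
    exact ⟨h.hb, h.hc, h.hd⟩
  · simp only [List.length_append, List.length_cons]
    omega
  · refine (h.outer hs).2.perm ?_
    apply perm_ms
    simp only [← Multiset.cons_coe, ← Multiset.coe_add, ← Multiset.singleton_add]
    abel

theorem corner_endB (hs : Sy R) (hT : Tst R) (h : Frame R z g1 g2 g3 g4 a b c d p q)
    (n0 : (a.length + b.length + c.length + d.length) % 4 = 0)
    (n1 : (a.length + c.length + p.length + q.length) % 4 = 0) {y : V} (hy : R z y) :
    y = g1 ∨ y = g2 ∨ y = g3 ∨ y = g4 := by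
  have ea := Nat.even_iff.1 h.ea
  have ec := Nat.even_iff.1 h.ec
  have m0 := h.nbr hs hT n0 hy
  have m1 := (h.swap hs).nbr hs hT (by simp only [List.length_reverse]; omega) hy
  have m2 := ((h.rot hs).swap hs).nbr hs hT (by simp only [List.length_reverse]; omega) hy
  by_contra hne
  simp only [not_or] at hne
  obtain ⟨e1, e2, e3, e4⟩ := hne
  simp only [List.mem_cons, List.mem_append, List.mem_reverse, e1, e2, e3, e4, false_or]
    at m0 m1 m2
  have hn : (a ++ b ++ c ++ d ++ p ++ q).Nodup := h.cov.1.of_cons.of_cons.of_cons.of_cons.of_cons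
  have hc := List.nodup_iff_count_le_one.1 hn y
  simp only [List.count_append] at hc
  simp only [← List.count_pos_iff] at m0 m1 m2
  omega

/-- The three cycles do not all have length 0 mod 4. Otherwise `Frame.nbr` for the frame, for
`swap` and for `rot` followed by `swap`, together with `Nodup`, shows that neighbours of `z` are
corners; three corners contain two consecutive ones (`not_both` and `rot`). -/
theorem Frame.not_zero (hs : Sy R) (h3 : Three R) (hT : Tst R) (hA : NoA R)
    (h : Frame R z g1 g2 g3 g4 a b c d p q)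
    (n0 : (a.length + b.length + c.length + d.length) % 4 = 0) :
    (a.length + c.length + p.length + q.length) % 4 = 2 := by
  have ea := Nat.even_iff.1 h.ea
  have ec := Nat.even_iff.1 h.ec
  have ep := Nat.even_iff.1 h.ep
  have eq := Nat.even_iff.1 h.eq
  by_contra hne
  have n1 : (a.length + c.length + p.length + q.length) % 4 = 0 := by omega
  have b12 := h.not_both hs hA n0
  have b23 := (h.rot hs).not_both hs hA (by omega)
  have b34 := ((h.rot hs).rot hs).not_both hs hA (by omega)
  have b41 := (((h.rot hs).rot hs).rot hs).not_both hs hA (by omega)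
  obtain ⟨x, y, w, hx, hy, hw, hxy, hxw, hyw⟩ := h3 z
  have cx := corner_endB hs hT h n0 n1 hx
  have cy := corner_endB hs hT h n0 n1 hy
  have cw := corner_endB hs hT h n0 n1 hw
  rcases cx with rfl | rfl | rfl | rfl <;> rcases cy with rfl | rfl | rfl | rfl <;>
    rcases cw with rfl | rfl | rfl | rfl <;> tauto

/-- One of the frame, its `swap`, and `rot` followed by `swap` has an outer cycle of length
0 mod 4. -/
theorem Frame.normal (hs : Sy R) (h3 : Three R) (hT : Tst R) (hA : NoA R)
    (h : Frame R z g1 g2 g3 g4 a b c d p q) :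
    ∃ (g1 g2 g3 g4 : V) (a b c d p q : List V), NFrame R z g1 g2 g3 g4 a b c d p q := by
  have ea := Nat.even_iff.1 h.ea
  have eb := Nat.even_iff.1 h.eb
  have ec := Nat.even_iff.1 h.ec
  have ed := Nat.even_iff.1 h.ed
  have ep := Nat.even_iff.1 h.ep
  have eq := Nat.even_iff.1 h.eq
  have key : ∀ {g1 g2 g3 g4 : V} {a b c d p q : List V}, Frame R z g1 g2 g3 g4 a b c d p q →
      (a.length + b.length + c.length + d.length) % 4 = 0 →
      ∃ (g1 g2 g3 g4 : V) (a b c d p q : List V), NFrame R z g1 g2 g3 g4 a b c d p q :=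
    fun h n0 => ⟨_, _, _, _, _, _, _, _, _, _, ⟨h, n0, h.not_zero hs h3 hT hA n0⟩⟩
  by_cases n0 : (a.length + b.length + c.length + d.length) % 4 = 0
  · exact key h n0
  by_cases n1 : (a.length + c.length + p.length + q.length) % 4 = 0
  · exact key (h.swap hs) (by simp only [List.length_reverse]; omega)
  · exact key ((h.rot hs).swap hs) (by simp only [List.length_reverse]; omega)

/-- A closed arc contains at most one neighbour of `z`: `lemArc` with `L = g1 :: a ++ [g2]`, the
outer cycle and the outer cycle of `swap`. -/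
theorem NFrame.arc (hs : Sy R) (hi : Irr R) (h3 : Three R) (hT : Tst R) (hA : NoA R)
    (h : NFrame R z g1 g2 g3 g4 a b c d p q) {y y' : V} (hy : R z y) (hy' : R z y')
    (m : y = g1 ∨ y ∈ a ∨ y = g2) (m' : y' = g1 ∨ y' ∈ a ∨ y' = g2) : y = y' := by
  obtain ⟨c0, k0⟩ := h.fr.outer hs
  obtain ⟨c1, k1⟩ := (h.fr.swap hs).outer hs
  have n0 := h.n0
  have n1 := h.n1
  have e : ∀ r : List V, g1 :: (a ++ g2 :: r) = (g1 :: (a ++ [g2])) ++ r := fun r => by simp
  rw [e] at c0 k0 c1 k1
  refine lemArc hs hi h3 hT hA c0 c1 ?_ ?_ k0 k1 hy hy' ?_ ?_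
  · simp only [List.length_append, List.length_cons, List.length_nil]
    omega
  · simp only [List.length_append, List.length_cons, List.length_nil, List.length_reverse]
    omega
  · simpa using m
  · simpa using m'

end Pool.Agent.Lib.MP_59216f_co.TD
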