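import Pool.Agent.Lib.MP_59216f_co.GEndB

set_option autoImplicit false
set_option linter.unusedSectionVars false

namespace Pool.Agent.Lib.MP_59216f_co.TD

open Finset

variable {V : Type} [Fintype V] [DecidableEq V] {R : V → V → Prop}

variable {z g1 g2 g3 g4 ya yb : V} {a b c d p q a1 a2 b1 b2 : List V}

/-- Distance between the two neighbours around the corner `g2` (`lemA` on the outer cycle). -/
theorem NFrame.dist (hs : Sy R) (hi : Irr R) (h3 : Three R) (hT : Tst R) (hA : NoA R)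
    (h : NFrame R z g1 g2 g3 g4 (a1 ++ ya :: a2) (b1 ++ yb :: b2) c d p q) (ha : R z ya)
    (hb : R z yb) : (a2.length + b1.length) % 4 = 2 := by
  obtain ⟨_, hcov⟩ := h.fr.outer hs
  have h1 := h.fr.ha
  have h2 := h.fr.hb
  have h3' := h.fr.hc
  have h4 := h.fr.hd
  have n0 := h.n0
  rw [ch_append] at h1 h2
  have key := lemA hs hi h3 hT hA (z := z) (y := ya) (y' := yb) (s := a2 ++ g2 :: b1)
    (t := b2 ++ g3 :: (c ++ g4 :: (d ++ g1 :: a1)))
    (by simp only [ch_append]; exact ⟨h1.2, h2.1⟩)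
    (by simp only [ch_append]; exact ⟨h2.2, h3', h4, h1.1⟩)
    (by
      simp only [List.length_append, List.length_cons] at n0 ⊢
      omega)
    (hcov.perm (by
      apply perm_ms
      simp only [← Multiset.cons_coe, ← Multiset.coe_add, Multiset.coe_reverse, Multiset.coe_nil,
        ← Multiset.singleton_add]
      abel)) ha hb
  simp only [List.length_append, List.length_cons] at key
  omega

/-- If the interiors of `b` and `d` contain no neighbour of `z` we have a contradiction. -/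
theorem NFrame.pair_aux_GEndC (hs : Sy R) (hi : Irr R) (h3 : Three R) (hT : Tst R) (hA : NoA R)
    (h : NFrame R z g1 g2 g3 g4 a b c d p q) (hb : ∀ y ∈ b, ¬ R z y) (hd : ∀ y ∈ d, ¬ R z y) :
    False := by
  have hsplit : ∀ y, R z y → (y = g1 ∨ y ∈ a ∨ y = g2) ∨ (y = g3 ∨ y ∈ c ∨ y = g4) := by
    intro y hy
    have hm := h.fr.nbr hs hT h.n0 hy
    simp only [List.mem_cons, List.mem_append] at hm
    rcases hm with e | e | e | e | e | e | e | e
    · exact Or.inl (Or.inl e)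
    · exact Or.inl (Or.inr (Or.inl e))
    · exact Or.inl (Or.inr (Or.inr e))
    · exact absurd hy (hb y e)
    · exact Or.inr (Or.inl e)
    · exact Or.inr (Or.inr (Or.inl e))
    · exact Or.inr (Or.inr (Or.inr e))
    · exact absurd hy (hd y e)
  have h2 := (h.rot hs).rot hs
  obtain ⟨x1, x2, x3, r1, r2, r3, n12, n13, n23⟩ := h3 z
  rcases hsplit x1 r1 with m1 | m1 <;> rcases hsplit x2 r2 with m2 | m2 <;>
    rcases hsplit x3 r3 with m3 | m3
  · exact n12 (h.arc hs hi h3 hT hA r1 r2 m1 m2)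
  · exact n12 (h.arc hs hi h3 hT hA r1 r2 m1 m2)
  · exact n13 (h.arc hs hi h3 hT hA r1 r3 m1 m3)
  · exact n23 (h2.arc hs hi h3 hT hA r2 r3 m2 m3)
  · exact n23 (h.arc hs hi h3 hT hA r2 r3 m2 m3)
  · exact n13 (h2.arc hs hi h3 hT hA r1 r3 m1 m3)
  · exact n12 (h2.arc hs hi h3 hT hA r1 r2 m1 m2)
  · exact n12 (h2.arc hs hi h3 hT hA r1 r2 m1 m2)

/-- Neighbours in the interiors of the first two arcs give the pair. -/
theorem NFrame.pair_mk_GEndC (h : NFrame R z g1 g2 g3 g4 a b c d p q)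
    (ha : ∃ y ∈ a, R z y) (hb : ∃ y ∈ b, R z y) :
    ∃ (g1 g2 g3 g4 ya yb : V) (a1 a2 b1 b2 c d p q : List V),
      NFrame R z g1 g2 g3 g4 (a1 ++ ya :: a2) (b1 ++ yb :: b2) c d p q ∧ R z ya ∧ R z yb := by
  obtain ⟨ya, ma, ra⟩ := ha
  obtain ⟨yb, mb, rb⟩ := hb
  obtain ⟨a1, a2, rfl⟩ := List.append_of_mem ma
  obtain ⟨b1, b2, rfl⟩ := List.append_of_mem mb
  exact ⟨g1, g2, g3, g4, ya, yb, a1, a2, b1, b2, c, d, p, q, h, ra, rb⟩

/-- Two consecutive arcs have neighbours of `z` in their interiors. Otherwise the interiors of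
`a` and `c`, or those of `b` and `d`, contain no neighbour; in the second case all neighbours lie
on the closed arcs `a` and `c`, which contain at most one each (`NFrame.arc`, `NFrame.rot`). -/
theorem NFrame.pair (hs : Sy R) (hi : Irr R) (h3 : Three R) (hT : Tst R) (hA : NoA R)
    (h : NFrame R z g1 g2 g3 g4 a b c d p q) :
    ∃ (g1 g2 g3 g4 ya yb : V) (a1 a2 b1 b2 c d p q : List V),
      NFrame R z g1 g2 g3 g4 (a1 ++ ya :: a2) (b1 ++ yb :: b2) c d p q ∧ R z ya ∧ R z yb := by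
  have h1 := h.rot hs
  have h2 := h1.rot hs
  have h3' := h2.rot hs
  by_cases eb : ∃ y ∈ b, R z y
  · by_cases ea : ∃ y ∈ a, R z y
    · exact h.pair_mk_GEndC ea eb
    by_cases ec : ∃ y ∈ c, R z y
    · exact h1.pair_mk_GEndC eb ec
    exact (h1.pair_aux_GEndC hs hi h3 hT hA (fun y m r => ec ⟨y, m, r⟩)
      (fun y m r => ea ⟨y, m, r⟩)).elim
  by_cases ed : ∃ y ∈ d, R z y
  · by_cases ea : ∃ y ∈ a, R z y
    · exact h3'.pair_mk_GEndC ed ea
    by_cases ec : ∃ y ∈ c, R z y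
    · exact h2.pair_mk_GEndC ec ed
    exact (h1.pair_aux_GEndC hs hi h3 hT hA (fun y m r => ec ⟨y, m, r⟩)
      (fun y m r => ea ⟨y, m, r⟩)).elim
  exact (h.pair_aux_GEndC hs hi h3 hT hA (fun y m r => eb ⟨y, m, r⟩)
    (fun y m r => ed ⟨y, m, r⟩)).elim

/-- A third neighbour is in `c`, is `g4`, or is in `d`. -/
theorem NFrame.third (hs : Sy R) (hi : Irr R) (h3 : Three R) (hT : Tst R) (hA : NoA R)
    (h : NFrame R z g1 g2 g3 g4 (a1 ++ ya :: a2) (b1 ++ yb :: b2) c d p q) (ha : R z ya)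
    (hb : R z yb) {y : V} (hy : R z y) (h1 : y ≠ ya) (h2 : y ≠ yb) :
    y ∈ c ∨ y = g4 ∨ y ∈ d := by
  have hm := h.fr.nbr hs hT h.n0 hy
  have ma : ya ∈ a1 ++ ya :: a2 := by simp
  have mb : yb ∈ b1 ++ yb :: b2 := by simp
  have ka : ¬ (y = g1 ∨ y ∈ a1 ++ ya :: a2 ∨ y = g2) := fun m =>
    h1 (h.arc hs hi h3 hT hA hy ha m (Or.inr (Or.inl ma)))
  have kb : ¬ (y = g2 ∨ y ∈ b1 ++ yb :: b2 ∨ y = g3) := fun m =>
    h2 ((h.rot hs).arc hs hi h3 hT hA hy hb m (Or.inr (Or.inl mb)))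
  rcases List.mem_cons.1 hm with e | hm
  · exact (ka (Or.inl e)).elim
  rcases List.mem_append.1 hm with e | hm
  · exact (ka (Or.inr (Or.inl e))).elim
  rcases List.mem_cons.1 hm with e | hm
  · exact (ka (Or.inr (Or.inr e))).elim
  rcases List.mem_append.1 hm with e | hm
  · exact (kb (Or.inr (Or.inl e))).elim
  rcases List.mem_cons.1 hm with e | hm
  · exact (kb (Or.inr (Or.inr e))).elim
  rcases List.mem_append.1 hm with e | hm
  · exact Or.inl e
  rcases List.mem_cons.1 hm with e | e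
  · exact Or.inr (Or.inl e)
  · exact Or.inr (Or.inr e)

/-- The corner can be chosen at even distance from the neighbours. If `a2` is even then `b1` is
even (`dist`), `a1` and `b2` are odd. A third neighbour in `c`: rotate once. In `d`: rotate three
times and use `dist`. Equal to `g4`: `lemA_even` on the outer cycle for `yb` and `g4`. -/
theorem NFrame.pair_odd (hs : Sy R) (hi : Irr R) (h3 : Three R) (hT : Tst R) (hA : NoA R)
    (h : NFrame R z g1 g2 g3 g4 a b c d p q) :
    ∃ (g1 g2 g3 g4 ya yb : V) (a1 a2 b1 b2 c d p q : List V),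
      NFrame R z g1 g2 g3 g4 (a1 ++ ya :: a2) (b1 ++ yb :: b2) c d p q ∧ R z ya ∧ R z yb ∧
        Odd a2.length := by
  obtain ⟨g1, g2, g3, g4, ya, yb, a1, a2, b1, b2, c, d, p, q, k, ra, rb⟩ :=
    h.pair hs hi h3 hT hA
  by_cases ho : Odd a2.length
  · exact ⟨g1, g2, g3, g4, ya, yb, a1, a2, b1, b2, c, d, p, q, k, ra, rb, ho⟩
  have hd := k.dist hs hi h3 hT hA ra rb
  have ea := k.fr.ea
  have eb := k.fr.eb
  have ec := k.fr.ec
  have n0 := k.n0
  simp only [List.length_append, List.length_cons, Nat.even_iff] at ea eb ec n0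
  rw [Nat.odd_iff] at ho
  obtain ⟨y, ry, n1, n2⟩ := h3.third z ya yb
  rcases k.third hs hi h3 hT hA ra rb ry n1 n2 with m | m | m
  · obtain ⟨c1, c2, rfl⟩ := List.append_of_mem m
    refine ⟨g2, g3, g4, g1, yb, y, b1, b2, c1, c2, _, _, _, _, k.rot hs, rb, ry, ?_⟩
    rw [Nat.odd_iff]
    omega
  · subst m
    exfalso
    obtain ⟨_, hcov⟩ := k.fr.outer hs
    have h1 := k.fr.ha
    have h2 := k.fr.hb
    have h3' := k.fr.hc
    have h4 := k.fr.hd
    rw [ch_append] at h2
    refine lemA_even hs hA (z := z) (y := yb) (y' := y) (s := b2 ++ g3 :: c)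
      (t := d ++ g1 :: ((a1 ++ ya :: a2) ++ g2 :: b1))
      (by rw [ch_append]; exact ⟨h2.2, h3'⟩)
      (by rw [ch_append, ch_append]; exact ⟨h4, h1, h2.1⟩)
      (by
        simp only [List.length_append, List.length_cons]
        omega)
      (hcov.perm (by
        apply perm_ms
        simp only [← Multiset.cons_coe, ← Multiset.coe_add, ← Multiset.singleton_add]
        abel)) rb ry ?_
    simp only [List.length_append, List.length_cons, Nat.even_iff]
    omega
  · obtain ⟨d1, d2, rfl⟩ := List.append_of_mem m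
    have k3 := ((k.rot hs).rot hs).rot hs
    have hd3 := k3.dist hs hi h3 hT hA ry ra
    refine ⟨g4, g1, g2, g3, y, ya, d1, d2, a1, a2, _, _, _, _, k3, ry, ra, ?_⟩
    rw [Nat.odd_iff]
    omega

/-- The cycle `Λ = z, ya, a1 reversed, g1, p, g3, c, g4, q reversed, g2, b1, yb` has length
0 mod 4; what is left is `a2` (odd), `b2` and `d` (even). -/
theorem NFrame.lam (hs : Sy R) (hi : Irr R) (h3 : Three R) (hT : Tst R) (hA : NoA R)
    (h : NFrame R z g1 g2 g3 g4 (a1 ++ ya :: a2) (b1 ++ yb :: b2) c d p q) (ha : R z ya)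
    (hb : R z yb) (ho : Odd a2.length) :
    Ch R z (ya :: (a1.reverse ++ g1 :: (p ++ g3 :: (c ++ g4 :: (q.reverse ++ g2 ::
      (b1 ++ [yb])))))) z ∧
    (ya :: (a1.reverse ++ g1 :: (p ++ g3 :: (c ++ g4 :: (q.reverse ++ g2 ::
      (b1 ++ [yb])))))).length % 4 = 3 ∧
    Cover R (a2 ++ z :: ya :: (a1.reverse ++ g1 :: (p ++ g3 :: (c ++ g4 :: (q.reverse ++ g2 ::
      (b1 ++ [yb])))))) := by
  have hd := h.dist hs hi h3 hT hA ha hb
  have h1 := h.fr.ha
  have h2 := h.fr.hb
  have n1 := h.n1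
  have eb := h.fr.eb
  rw [ch_append] at h1 h2
  rw [Nat.odd_iff] at ho
  simp only [List.length_append, List.length_cons, Nat.even_iff] at n1 eb
  refine ⟨?_, ?_, ?_⟩
  · simp only [ch_cons, ch_append, ch_nil]
    exact ⟨ha, h1.1.rev hs, h.fr.hp, h.fr.hc, h.fr.hq.rev hs, h2.1, hs _ _ hb⟩
  · simp only [List.length_append, List.length_cons, List.length_reverse, List.length_nil]
    omega
  · have k1 : Cover R (b2 ++ (d ++ (a2 ++ z :: ya :: (a1.reverse ++ g1 :: (p ++ g3 :: (c ++ g4 ::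
        (q.reverse ++ g2 :: (b1 ++ [yb])))))))) := h.fr.cov.perm (by
      apply perm_ms
      simp only [← Multiset.cons_coe, ← Multiset.coe_add, Multiset.coe_reverse, Multiset.coe_nil,
        ← Multiset.singleton_add]
      abel)
    exact Cover.drop hs (Cover.drop hs k1 h2.2.chain (by rw [Nat.even_iff]; omega))
      h.fr.hd.chain h.fr.ed

theorem NFrame.lemD_half_GEndC (hs : Sy R) (hi : Irr R) (h3 : Three R) (hT : Tst R) (hA : NoA R)
    (h : NFrame R z g1 g2 g3 g4 (a1 ++ ya :: a2) (b1 ++ yb :: b2) c d p q) (ha : R z ya)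
    (hb : R z yb) (ho : Odd a2.length) : a2.length = 1 := by
  obtain ⟨k1, k2, k3⟩ := h.lam hs hi h3 hT hA ha hb ho
  have h1 := h.fr.ha
  rw [ch_append] at h1
  exact lemK hs hT k1 k2 h1.2.chain ho k3

/-- Lemma D: `lam` and `lemK` give `a2.length = 1`; the reflected frame gives `b1.length = 1`. -/
theorem NFrame.lemD (hs : Sy R) (hi : Irr R) (h3 : Three R) (hT : Tst R) (hA : NoA R)
    (h : NFrame R z g1 g2 g3 g4 (a1 ++ ya :: a2) (b1 ++ yb :: b2) c d p q) (ha : R z ya)
    (hb : R z yb) (ho : Odd a2.length) : a2.length = 1 ∧ b1.length = 1 := by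
  refine ⟨h.lemD_half_GEndC hs hi h3 hT hA ha hb ho, ?_⟩
  have hd := h.dist hs hi h3 hT hA ha hb
  have k := h.refl hs
  have e1 : (b1 ++ yb :: b2).reverse = b2.reverse ++ yb :: b1.reverse := by simp
  have e2 : (a1 ++ ya :: a2).reverse = a2.reverse ++ ya :: a1.reverse := by simp
  rw [e1, e2] at k
  have := k.lemD_half_GEndC hs hi h3 hT hA hb ha (by
    rw [Nat.odd_iff] at ho ⊢
    rw [List.length_reverse]
    omega)
  rwa [List.length_reverse] at this

end Pool.Agent.Lib.MP_59216f_co.TD
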