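import Pool.Agent.Lib.MP_59216f_co.GEndC

set_option autoImplicit false
set_option linter.unusedSectionVars false

namespace Pool.Agent.Lib.MP_59216f_co.TD

open Finset

variable {V : Type} [Fintype V] [DecidableEq V] {R : V → V → Prop}

variable {z g1 g2 g3 g4 ya yb g g' w : V} {c d p q a1 b2 : List V}

/-- `lemA` for a cycle written as one list. -/
theorem lemA_endD (hs : Sy R) (hi : Irr R) (h3 : Three R) (hT : Tst R) (hA : NoA R) {z y y' : V}
    {T s t : List V} (hc : Ch R y T y) (hl : T.length % 4 = 3) (h : Cover R (z :: y :: T))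
    (hy : R z y) (hy' : R z y') (e : T = s ++ y' :: t) : s.length % 4 = 3 := by
  subst e
  rw [ch_append] at hc
  simp only [List.length_append, List.length_cons] at hl
  refine lemA hs hi h3 hT hA hc.1 hc.2 (by omega) (h.perm ?_) hy hy'
  apply perm_ms
  simp only [← Multiset.cons_coe, ← Multiset.coe_add, ← Multiset.singleton_add]
  abel

/-- Where a third neighbour `w` of `g` can be. `Tst` for `g` and the cycle `Λ` of `NFrame.lam`
puts `w` on `Λ`; `lemA` with `g` in place of `z`, for the pairs `(ya, w)` and `(g2, w)` on `Λ`,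
gives the residues and excludes `z`, `g1`, `g4`, `g'`, `yb` (note that `a1` is even). -/
theorem NFrame.where3 (hs : Sy R) (hi : Irr R) (h3 : Three R) (hT : Tst R) (hA : NoA R)
    (h : NFrame R z g1 g2 g3 g4 (a1 ++ [ya, g]) (g' :: yb :: b2) c d p q) (ha : R z ya)
    (hb : R z yb) (hw : R g w) (h1 : w ≠ ya) (h2 : w ≠ g2) :
    (∃ u1 u2, a1 = u1 ++ w :: u2 ∧ u2.length % 4 = 3) ∨
    (∃ p1 p2, p = p1 ++ w :: p2 ∧ (a1.length + 1 + p1.length) % 4 = 3) ∨
    (w = g3 ∧ (a1.length + 1 + p.length) % 4 = 3) ∨
    (∃ c1 c2, c = c1 ++ w :: c2 ∧ (a1.length + 1 + p.length + 1 + c1.length) % 4 = 3) ∨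
    ∃ q1 q2, q = q1 ++ w :: q2 ∧ q1.length % 4 = 3 := by
  have h' : NFrame R z g1 g2 g3 g4 (a1 ++ ya :: [g]) ([g'] ++ yb :: b2) c d p q := h
  obtain ⟨l1, l2, l3⟩ := h'.lam hs hi h3 hT hA ha hb (by simp)
  have hmem := hT g z _ l1 l2 l3 w hw
  have hch := h.fr.ha
  simp only [ch_append, ch_cons, ch_nil] at hch
  have hgy : R g ya := hs _ _ hch.2.1
  have ea := h.fr.ea
  have ec := h.fr.ec
  have ep := h.fr.ep
  have eq := h.fr.eq
  have n1 := h.n1
  simp only [List.length_append, List.length_cons, List.length_nil, Nat.even_iff] at ea ec ep eq n1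
  have k1 : Ch R ya (a1.reverse ++ g1 :: (p ++ g3 :: (c ++ g4 :: (q.reverse ++ g2 ::
      [g', yb, z])))) ya := by
    simp only [ch_append, ch_cons, ch_nil, List.cons_append, List.nil_append] at l1 ⊢
    tauto
  have k2 : (a1.reverse ++ g1 :: (p ++ g3 :: (c ++ g4 :: (q.reverse ++ g2 ::
      [g', yb, z])))).length % 4 = 3 := by
    simp only [List.length_append, List.length_cons, List.length_reverse, List.length_nil]
    omega
  have k3 : Cover R (g :: ya :: (a1.reverse ++ g1 :: (p ++ g3 :: (c ++ g4 :: (q.reverse ++ g2 ::
      [g', yb, z]))))) := by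
    refine l3.perm ?_
    apply perm_ms
    simp only [← Multiset.cons_coe, ← Multiset.coe_add, Multiset.coe_reverse, Multiset.coe_nil,
      ← Multiset.singleton_add]
    abel
  have key := fun s t => lemA_endD hs hi h3 hT hA (s := s) (t := t) k1 k2 k3 hgy hw
  simp only [List.mem_cons, List.mem_append, List.mem_reverse, List.not_mem_nil, or_false] at hmem
  rcases hmem with e | e | e | e | e | e | e | e | e | e | e | e
  · have := key (a1.reverse ++ g1 :: (p ++ g3 :: (c ++ g4 :: (q.reverse ++ g2 :: [g', yb])))) []
      (by simp [e])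
    simp only [List.length_append, List.length_cons, List.length_reverse, List.length_nil] at this
    omega
  · exact absurd e h1
  · obtain ⟨u1, u2, rfl⟩ := List.append_of_mem e
    have := key u2.reverse (u1.reverse ++ g1 :: (p ++ g3 :: (c ++ g4 :: (q.reverse ++ g2 ::
      [g', yb, z])))) (by simp)
    rw [List.length_reverse] at this
    exact Or.inl ⟨u1, u2, rfl, this⟩
  · have := key a1.reverse (p ++ g3 :: (c ++ g4 :: (q.reverse ++ g2 :: [g', yb, z])))
      (by simp [e])
    rw [List.length_reverse] at this
    omega
  · obtain ⟨p1, p2, rfl⟩ := List.append_of_mem e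
    have := key (a1.reverse ++ g1 :: p1) (p2 ++ g3 :: (c ++ g4 :: (q.reverse ++ g2 ::
      [g', yb, z]))) (by simp)
    simp only [List.length_append, List.length_cons, List.length_reverse] at this
    exact Or.inr (Or.inl ⟨p1, p2, rfl, by omega⟩)
  · have := key (a1.reverse ++ g1 :: p) (c ++ g4 :: (q.reverse ++ g2 :: [g', yb, z]))
      (by simp [e])
    simp only [List.length_append, List.length_cons, List.length_reverse] at this
    exact Or.inr (Or.inr (Or.inl ⟨e, by omega⟩))
  · obtain ⟨c1, c2, rfl⟩ := List.append_of_mem e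
    have := key (a1.reverse ++ g1 :: (p ++ g3 :: c1)) (c2 ++ g4 :: (q.reverse ++ g2 ::
      [g', yb, z])) (by simp)
    simp only [List.length_append, List.length_cons, List.length_reverse] at this
    exact Or.inr (Or.inr (Or.inr (Or.inl ⟨c1, c2, rfl, by omega⟩)))
  · have := key (a1.reverse ++ g1 :: (p ++ g3 :: c)) (q.reverse ++ g2 :: [g', yb, z])
      (by simp [e])
    simp only [List.length_append, List.length_cons, List.length_reverse] at this
    omega
  · obtain ⟨q1, q2, rfl⟩ := List.append_of_mem e
    have := key (a1.reverse ++ g1 :: (p ++ g3 :: (c ++ g4 :: q2.reverse)))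
      (q1.reverse ++ g2 :: [g', yb, z]) (by simp)
    simp only [List.length_append, List.length_cons, List.length_reverse] at this eq n1
    exact Or.inr (Or.inr (Or.inr (Or.inr ⟨q1, q2, rfl, by omega⟩)))
  · exact absurd e h2
  · have := key (a1.reverse ++ g1 :: (p ++ g3 :: (c ++ g4 :: (q.reverse ++ [g2])))) [yb, z]
      (by simp [e])
    simp only [List.length_append, List.length_cons, List.length_reverse, List.length_nil] at this
    omega
  · have := key (a1.reverse ++ g1 :: (p ++ g3 :: (c ++ g4 :: (q.reverse ++ [g2, g'])))) [z]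
      (by simp [e])
    simp only [List.length_append, List.length_cons, List.length_reverse, List.length_nil] at this
    omega

/-- `w ∈ a1`: the frame with `a` replaced by `u1 ++ [w, g]` (drop the even path `u2 ++ [ya]`)
still has an outer cycle of length 0 mod 4 and misses the neighbour `ya` (`Frame.nbr`). -/
theorem NFrame.not_a (hs : Sy R) (hT : Tst R) {u1 u2 : List V}
    (h : NFrame R z g1 g2 g3 g4 ((u1 ++ w :: u2) ++ [ya, g]) (g' :: yb :: b2) c d p q)
    (ha : R z ya) (hw : R g w) (hu : u2.length % 4 = 3) : False := by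
  have hch := h.fr.ha
  simp only [ch_append, ch_cons, ch_nil, List.append_assoc, List.cons_append] at hch
  have ea := h.fr.ea
  have n0 := h.n0
  simp only [List.length_append, List.length_cons, List.length_nil, Nat.even_iff] at ea n0
  have k : Cover R ((u2 ++ [ya]) ++ z :: g1 :: g2 :: g3 :: g4 ::
      ((u1 ++ [w, g]) ++ (g' :: yb :: b2) ++ c ++ d ++ p ++ q)) := by
    refine h.fr.cov.perm ?_
    apply perm_ms
    simp only [← Multiset.cons_coe, ← Multiset.coe_add, Multiset.coe_nil,
      ← Multiset.singleton_add]
    abel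
  have f : Frame R z g1 g2 g3 g4 (u1 ++ [w, g]) (g' :: yb :: b2) c d p q :=
    { ha := by
        simp only [ch_append, ch_cons, ch_nil]
        exact ⟨hch.1, hs _ _ hw, hch.2.2.2⟩
      hb := h.fr.hb
      hc := h.fr.hc
      hd := h.fr.hd
      hp := h.fr.hp
      hq := h.fr.hq
      ea := by
        simp only [List.length_append, List.length_cons, List.length_nil, Nat.even_iff]
        omega
      eb := h.fr.eb
      ec := h.fr.ec
      ed := h.fr.ed
      ep := h.fr.ep
      eq := h.fr.eq
      cov := Cover.drop hs k hch.2.1.chain_snoc (by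
        simp only [List.length_append, List.length_cons, List.length_nil, Nat.even_iff]
        omega) }
  have hm := f.nbr hs hT (by
    simp only [List.length_append, List.length_cons, List.length_nil]
    omega) ha
  refine (List.nodup_append.1 k.1).2.2 ya (by simp) ya ?_ rfl
  simp only [List.mem_cons, List.mem_append] at hm ⊢
  tauto

/-- `w ∈ q`: the frame `g1, w, g3, g4` with arcs `a`, `q1.reverse ++ g2 :: b`, `c`, `d`, `p`, `q2`
is normal and contradicts `lemD` (`b1 = q1.reverse ++ [g2, g']`). -/
theorem NFrame.not_q (hs : Sy R) (hi : Irr R) (h3 : Three R) (hT : Tst R) (hA : NoA R)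
    {q1 q2 : List V}
    (h : NFrame R z g1 g2 g3 g4 (a1 ++ [ya, g]) (g' :: yb :: b2) c d p (q1 ++ w :: q2))
    (ha : R z ya) (hb : R z yb) (hw : R g w) (hq : q1.length % 4 = 3) : False := by
  have hch := h.fr.ha
  have hchb := h.fr.hb
  have hchq := h.fr.hq
  simp only [ch_append, ch_cons, ch_nil] at hch hchb hchq
  have eb := h.fr.eb
  have eq := h.fr.eq
  have n0 := h.n0
  have n1 := h.n1
  simp only [List.length_append, List.length_cons, List.length_nil, Nat.even_iff] at eb eq n0 n1
  have f : NFrame R z g1 w g3 g4 (a1 ++ ya :: [g]) ((q1.reverse ++ [g2, g']) ++ yb :: b2)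
      c d p q2 :=
    { fr :=
      { ha := by
          simp only [ch_append, ch_cons, ch_nil]
          exact ⟨hch.1, hch.2.1, hw⟩
        hb := by
          simp only [ch_append, ch_cons, ch_nil]
          exact ⟨⟨hchq.1.rev hs, hchb.1, hchb.2.1⟩, hchb.2.2⟩
        hc := h.fr.hc
        hd := h.fr.hd
        hp := h.fr.hp
        hq := hchq.2
        ea := h.fr.ea
        eb := by
          simp only [List.length_append, List.length_cons, List.length_reverse, List.length_nil,
            Nat.even_iff]
          omega
        ec := h.fr.ec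
        ed := h.fr.ed
        ep := h.fr.ep
        eq := by
          rw [Nat.even_iff]
          omega
        cov := by
          refine h.fr.cov.perm ?_
          apply perm_ms
          simp only [← Multiset.cons_coe, ← Multiset.coe_add, Multiset.coe_reverse,
            Multiset.coe_nil, ← Multiset.singleton_add]
          abel }
      n0 := by
        simp only [List.length_append, List.length_cons, List.length_reverse, List.length_nil]
        omega
      n1 := by
        simp only [List.length_append, List.length_cons, List.length_nil]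
        omega }
  have := (f.lemD hs hi h3 hT hA ha hb (by simp)).2
  simp only [List.length_append, List.length_cons, List.length_nil] at this
  omega

/-- The common end of Lemma E. -/
theorem NFrame.fin_endD (hs : Sy R) (hi : Irr R) (h3 : Three R) (hT : Tst R) (hA : NoA R)
    {b : List V} (h : NFrame R z g g2 g3 g4 [] b c (d ++ g1 :: (a1 ++ [ya])) p q) (ha : R z ya)
    {y : V} (hy : R z y) (h1 : y ≠ ya) : y ≠ g4 ∧ y ∉ d := by
  have k := ((h.rot hs).rot hs).rot hs
  constructor
  · intro e
    exact h1 (k.arc hs hi h3 hT hA hy ha (Or.inl e) (Or.inr (Or.inl (by simp))))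
  · intro e
    exact h1 (k.arc hs hi h3 hT hA hy ha (Or.inr (Or.inl (by simp [e])))
      (Or.inr (Or.inl (by simp))))

/-- Lemma E. Take a third neighbour `w` of `g` (`Three.third`) and `where3`. In the remaining
cases there is a normal frame whose fourth arc is `d ++ g1 :: a1 ++ [ya]` from `g4` to `g`:
* `w ∈ p`: corners `g, g2, g3, g4`, arcs `[], b, c, d'`, `w :: p2`, `q` (drop `p1`);
* `w = g3`: arcs `[], b, c, d'`, `[]`, `q` (drop `p`);
* `w ∈ c`: corners `g, g2, w, g4`, arcs `[], b ++ g3 :: c1, c2, d'`, `[]`, `q` (drop `p`).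
`NFrame.arc` after three rotations shows that `ya` is the only neighbour of `z` on that arc. -/
theorem NFrame.lemE (hs : Sy R) (hi : Irr R) (h3 : Three R) (hT : Tst R) (hA : NoA R)
    (h : NFrame R z g1 g2 g3 g4 (a1 ++ [ya, g]) (g' :: yb :: b2) c d p q) (ha : R z ya)
    (hb : R z yb) {y : V} (hy : R z y) (h1 : y ≠ ya) : y ≠ g4 ∧ y ∉ d := by
  obtain ⟨w, hw, w1, w2⟩ := h3.third g ya g2
  have hch := h.fr.ha
  simp only [ch_append, ch_cons, ch_nil] at hch
  have hd' : Ch R g4 (d ++ g1 :: (a1 ++ [ya])) g := by
    simp only [ch_append, ch_nil]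
    exact ⟨h.fr.hd, hch.1, hch.2.1⟩
  have ea := h.fr.ea
  have eb := h.fr.eb
  have ec := h.fr.ec
  have ed := h.fr.ed
  have ep := h.fr.ep
  have n0 := h.n0
  have n1 := h.n1
  have ed' : Even (d ++ g1 :: (a1 ++ [ya])).length := by
    simp only [List.length_append, List.length_cons, List.length_nil, Nat.even_iff] at ea ed ⊢
    omega
  rcases h.where3 hs hi h3 hT hA ha hb hw w1 w2 with ⟨u1, u2, rfl, e⟩ | ⟨p1, p2, rfl, e⟩ |
    ⟨rfl, e⟩ | ⟨c1, c2, rfl, e⟩ | ⟨q1, q2, rfl, e⟩
  · exact (h.not_a hs hT ha hw e).elim
  · have hp := h.fr.hp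
    rw [ch_append] at hp
    simp only [List.length_append, List.length_cons, List.length_nil, Nat.even_iff]
      at ea eb ec ed ep n0 n1
    have k : Cover R (p1 ++ z :: g :: g2 :: g3 :: g4 :: ([] ++ (g' :: yb :: b2) ++ c ++
        (d ++ g1 :: (a1 ++ [ya])) ++ (w :: p2) ++ q)) := by
      refine h.fr.cov.perm ?_
      apply perm_ms
      simp only [← Multiset.cons_coe, ← Multiset.coe_add, Multiset.coe_nil,
        ← Multiset.singleton_add]
      abel
    have f : NFrame R z g g2 g3 g4 [] (g' :: yb :: b2) c (d ++ g1 :: (a1 ++ [ya])) (w :: p2) q :=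
      { fr :=
        { ha := hch.2.2
          hb := h.fr.hb
          hc := h.fr.hc
          hd := hd'
          hp := ⟨hw, hp.2⟩
          hq := h.fr.hq
          ea := by simp
          eb := h.fr.eb
          ec := h.fr.ec
          ed := ed'
          ep := by
            simp only [List.length_cons, Nat.even_iff]
            omega
          eq := h.fr.eq
          cov := Cover.drop hs k hp.1.chain (by
            rw [Nat.even_iff]
            omega) }
        n0 := by
          simp only [List.length_append, List.length_cons, List.length_nil]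
          omega
        n1 := by
          simp only [List.length_cons, List.length_nil]
          omega }
    exact f.fin_endD hs hi h3 hT hA ha hy h1
  · simp only [List.length_append, List.length_cons, List.length_nil, Nat.even_iff]
      at ea eb ec ed ep n0 n1
    have k : Cover R (p ++ z :: g :: g2 :: w :: g4 :: ([] ++ (g' :: yb :: b2) ++ c ++
        (d ++ g1 :: (a1 ++ [ya])) ++ [] ++ q)) := by
      refine h.fr.cov.perm ?_
      apply perm_ms
      simp only [← Multiset.cons_coe, ← Multiset.coe_add, Multiset.coe_nil,
        ← Multiset.singleton_add]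
      abel
    have f : NFrame R z g g2 w g4 [] (g' :: yb :: b2) c (d ++ g1 :: (a1 ++ [ya])) [] q :=
      { fr :=
        { ha := hch.2.2
          hb := h.fr.hb
          hc := h.fr.hc
          hd := hd'
          hp := hw
          hq := h.fr.hq
          ea := by simp
          eb := h.fr.eb
          ec := h.fr.ec
          ed := ed'
          ep := by simp
          eq := h.fr.eq
          cov := Cover.drop hs k h.fr.hp.chain h.fr.ep }
        n0 := by
          simp only [List.length_append, List.length_cons, List.length_nil]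
          omega
        n1 := by
          simp only [List.length_nil]
          omega }
    exact f.fin_endD hs hi h3 hT hA ha hy h1
  · have hc := h.fr.hc
    rw [ch_append] at hc
    simp only [List.length_append, List.length_cons, List.length_nil, Nat.even_iff]
      at ea eb ec ed ep n0 n1
    have k : Cover R (p ++ z :: g :: g2 :: w :: g4 :: ([] ++ ((g' :: yb :: b2) ++ g3 :: c1) ++
        c2 ++ (d ++ g1 :: (a1 ++ [ya])) ++ [] ++ q)) := by
      refine h.fr.cov.perm ?_
      apply perm_ms
      simp only [← Multiset.cons_coe, ← Multiset.coe_add, Multiset.coe_nil,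
        ← Multiset.singleton_add]
      abel
    have f : NFrame R z g g2 w g4 [] ((g' :: yb :: b2) ++ g3 :: c1) c2
        (d ++ g1 :: (a1 ++ [ya])) [] q :=
      { fr :=
        { ha := hch.2.2
          hb := ch_append.2 ⟨h.fr.hb, hc.1⟩
          hc := hc.2
          hd := hd'
          hp := hw
          hq := h.fr.hq
          ea := by simp
          eb := by
            simp only [List.length_append, List.length_cons, Nat.even_iff]
            omega
          ec := by
            rw [Nat.even_iff]
            omega
          ed := ed'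
          ep := by simp
          eq := h.fr.eq
          cov := Cover.drop hs k h.fr.hp.chain h.fr.ep }
        n0 := by
          simp only [List.length_append, List.length_cons, List.length_nil]
          omega
        n1 := by
          simp only [List.length_nil]
          omega }
    exact f.fin_endD hs hi h3 hT hA ha hy h1
  · exact (h.not_q hs hi h3 hT hA ha hb hw e).elim

/-- No frame: `normal`, `pair_odd`, `lemD`, a third neighbour `y` of `z`, `third`, `lemE` for the
frame and for its reflection (which excludes `c`). -/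
theorem no_frame (hs : Sy R) (hi : Irr R) (h3 : Three R) (hT : Tst R) (hA : NoA R)
    {a b : List V} (h : Frame R z g1 g2 g3 g4 a b c d p q) : False := by
  obtain ⟨g1, g2, g3, g4, a, b, c, d, p, q, k0⟩ := h.normal hs h3 hT hA
  obtain ⟨g1, g2, g3, g4, ya, yb, a1, a2, b1, b2, c, d, p, q, k, ha, hb, ho⟩ :=
    k0.pair_odd hs hi h3 hT hA
  obtain ⟨e1, e2⟩ := k.lemD hs hi h3 hT hA ha hb ho
  obtain ⟨g, rfl⟩ := List.length_eq_one_iff.1 e1
  obtain ⟨g', rfl⟩ := List.length_eq_one_iff.1 e2
  obtain ⟨y, hy, y1, y2⟩ := h3.third z ya yb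
  have k1 : NFrame R z g1 g2 g3 g4 (a1 ++ [ya, g]) (g' :: yb :: b2) c d p q := k
  have k2 : NFrame R z g3 g2 g1 g4 (b2.reverse ++ [yb, g']) (g :: ya :: a1.reverse) d.reverse
      c.reverse p.reverse q := by
    have := k1.refl hs
    simpa using this
  have r1 := k1.lemE hs hi h3 hT hA ha hb hy y1
  have r2 := k2.lemE hs hi h3 hT hA hb ha hy y2
  rcases k.third hs hi h3 hT hA ha hb hy y1 y2 with e | e | e
  · exact r2.2 (List.mem_reverse.2 e)
  · exact r1.1 e
  · exact r1.2 e

end Pool.Agent.Lib.MP_59216f_co.TD
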