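import Pool.Agent.Lib.MP_59216f_co.GTheta

set_option autoImplicit false
set_option linter.unusedSectionVars false

namespace Pool.Agent.Lib.MP_59216f_co.TD

open Finset

variable {V : Type} [Fintype V] [DecidableEq V] {R : V → V → Prop}

/-- The members at even indices of a list of odd length without repetition are more than the
others. -/
theorem exists_evens {s : List V} (hn : s.Nodup) (ho : Odd s.length) :
    ∃ E : Finset V, (∀ o, o ∈ E ↔ ∃ l1 l2, s = l1 ++ o :: l2 ∧ Even l1.length) ∧
      (s.toFinset \ E).card + 1 = E.card := by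
  induction s using List.twoStepInduction with
  | nil => simp at ho
  | singleton x =>
    refine ⟨{x}, fun o => ?_, by simp⟩
    rw [mem_singleton]
    constructor
    · rintro rfl
      exact ⟨[], [], rfl, by simp⟩
    · rintro ⟨l1, l2, e, -⟩
      have : o ∈ [x] := by rw [e]; simp
      simpa using this
  | cons_cons x y t ih _ =>
    simp only [List.nodup_cons, List.mem_cons, not_or] at hn
    have ho' : Odd t.length := by
      simp only [List.length_cons, Nat.odd_iff] at ho ⊢
      omega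
    obtain ⟨E, hE, hc⟩ := ih hn.2.2 ho'
    have hsub : ∀ o ∈ E, o ∈ t := fun o h => by
      obtain ⟨l1, l2, e, -⟩ := (hE o).1 h
      rw [e]; simp
    refine ⟨insert x E, fun o => ?_, ?_⟩
    · rw [mem_insert, hE]
      constructor
      · rintro (rfl | ⟨l1, l2, e, he⟩)
        · exact ⟨[], y :: t, rfl, by simp⟩
        · refine ⟨x :: y :: l1, l2, by rw [e]; rfl, ?_⟩
          simp only [List.length_cons, Nat.even_iff] at he ⊢
          omega
      · rintro ⟨l1, l2, e, he⟩
        match l1, e, he with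
        | [], e, _ => exact Or.inl (List.cons.inj e).1.symm
        | [a], _, he => simp at he
        | a :: b :: l1, e, he =>
          refine Or.inr ⟨l1, l2, (List.cons.inj (List.cons.inj e).2).2, ?_⟩
          simp only [List.length_cons, Nat.even_iff] at he ⊢
          omega
    · have e : (x :: y :: t).toFinset \ insert x E = insert y (t.toFinset \ E) := by
        ext w
        simp only [mem_sdiff, List.mem_toFinset, List.mem_cons, mem_insert, not_or]
        constructor
        · rintro ⟨h | h | h, h1, h2⟩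
          · exact absurd h h1
          · exact Or.inl h
          · exact Or.inr ⟨h, h2⟩
        · rintro (rfl | ⟨h1, h2⟩)
          · exact ⟨Or.inr (Or.inl rfl), fun h => hn.1.1 h.symm, fun h => hn.2.1 (hsub _ h)⟩
          · exact ⟨Or.inr (Or.inr h1), fun h => hn.1.2 (h ▸ h1), h2⟩
      rw [e, card_insert_of_notMem, card_insert_of_notMem, hc]
      · exact fun h => hn.1.2 (hsub _ h)
      · exact fun h => hn.2.1 (List.mem_toFinset.1 (mem_sdiff.1 h).1)

theorem swap_cov_frame {z x y : V} {s1 s2 p r : List V}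
    (h : Cover R (r ++ (z :: x :: y :: (s1 ++ s2 ++ p)))) :
    Cover R (r ++ (z :: x :: y :: (s2 ++ s1 ++ p))) := by
  refine h.perm ?_
  apply perm_ms
  simp only [← Multiset.cons_coe, ← Multiset.coe_add, ← Multiset.singleton_add]
  abel

theorem ear_frame (hs : Sy R) (hb : NB R) {z x y : V} {s1 s2 p : List V}
    (h : Theta R z x y s1 s2 p)
    (ih : ∀ (x' y' : V) (s1' s2' p' : List V), Theta R z x' y' s1' s2' p' → p'.length < p.length →
      ∃ (g1 g2 g3 g4 : V) (a b c d p q : List V), Frame R z g1 g2 g3 g4 a b c d p q)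
    {o v : V} {r : List V} (ho : ∃ l1 l2, s1 = l1 ++ o :: l2 ∧ Even l1.length)
    (hv : (∃ l1 l2, s1 = l1 ++ v :: l2 ∧ Even l1.length) ∨
      (∃ l1 l2, s2 = l1 ++ v :: l2 ∧ Even l1.length) ∨ v ∈ p)
    (hr : Ch R o r v) (er : Even r.length)
    (hcov : Cover R (r ++ (z :: x :: y :: (s1 ++ s2 ++ p)))) :
    ∃ (g1 g2 g3 g4 : V) (a b c d p q : List V), Frame R z g1 g2 g3 g4 a b c d p q := by
  obtain ⟨l1, l2, d1, e1⟩ := ho
  rcases hv with ⟨k1, k2, d2, e2⟩ | ⟨k1, k2, d2, e2⟩ | hv
  · exact absurd hcov (h.no_same hs hb d1 d2 e1 e2 hr er)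
  · subst d1 d2
    exact ⟨_, _, _, _, _, _, _, _, _, _, h.frame hs e1 e2 hr er hcov⟩
  · obtain ⟨p1, p2, d2⟩ := List.append_of_mem hv
    subst d1 d2
    obtain ⟨x', y', s1', s2', p', h', hl⟩ := h.shorter hs e1 hr er hcov
    exact ih x' y' s1' s2' p' h' hl

/-- Take a theta with `p` as short as possible, `E1`, `E2` from `exists_evens` for `s1`, `s2`
(disjoint, nonempty), `ear` with `L = z :: x :: y :: (s1 ++ s2 ++ p)` and `Sg = E1 ∪ E2`. First
alternative: `Theta.no_stem` (with `Theta.swap`). Second alternative: `Y = Sg ∪ Ev`. A member of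
`Y` adjacent to `v` gives an even ear `r` from some `o ∈ Sg` to `v` (`r = []` or `l ++ [e]`) with
`Cover R (r ++ L)`. If `v ∈ Sg` or `v ∈ p` use `no_same`, `frame`, `shorter`. If there is no such
`v` then `nb Y ⊆ {z, x, y} ∪ (s1 \ E1) ∪ (s2 \ E2) ∪ Od` has at most `|Y| + 1` elements, `exp2`
gives `E1 ⊆ nb Y`, a contradiction. -/
theorem exists_frame (hs : Sy R) (h2 : Sur R 2) (hb : NB R) {z x y : V} {s1 s2 p : List V}
    (h : Theta R z x y s1 s2 p) :
    ∃ (g1 g2 g3 g4 : V) (a b c d p q : List V), Frame R z g1 g2 g3 g4 a b c d p q := by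
  induction hn : p.length using Nat.strong_induction_on generalizing x y s1 s2 p with
  | _ n ihn =>
  have ih : ∀ (x' y' : V) (s1' s2' p' : List V), Theta R z x' y' s1' s2' p' →
      p'.length < p.length →
      ∃ (g1 g2 g3 g4 : V) (a b c d p q : List V), Frame R z g1 g2 g3 g4 a b c d p q :=
    fun x' y' s1' s2' p' h' hl => ihn p'.length (hn ▸ hl) h' rfl
  have hnd : (s1 ++ s2 ++ p).Nodup := h.cov.1.of_cons.of_cons.of_cons
  have hnd12 : (s1 ++ s2).Nodup := (List.nodup_append.1 hnd).1
  obtain ⟨E1, hE1, c1⟩ := exists_evens (List.nodup_append.1 hnd12).1 h.o1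
  obtain ⟨E2, hE2, c2⟩ := exists_evens (List.nodup_append.1 hnd12).2.1 h.o2
  have sub1 : ∀ o ∈ E1, o ∈ s1 := fun o ho => by
    obtain ⟨l1, l2, e, -⟩ := (hE1 o).1 ho
    rw [e]; simp
  have sub2 : ∀ o ∈ E2, o ∈ s2 := fun o ho => by
    obtain ⟨l1, l2, e, -⟩ := (hE2 o).1 ho
    rw [e]; simp
  rcases ear h.cov (E1 ∪ E2) with ⟨s, hsm, l, b, t, hl, ht, ol, et, hcov⟩ |
    ⟨Ev, Od, hcard, -, hEv, hnb⟩
  · exfalso
    rcases mem_union.1 hsm with hsm | hsm
    · obtain ⟨l1, l2, e, he⟩ := (hE1 s).1 hsm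
      subst e
      exact h.no_stem hs hb he hl ht ol et hcov
    · obtain ⟨l1, l2, e, he⟩ := (hE2 s).1 hsm
      subst e
      exact h.swap.no_stem hs hb he hl ht ol et (swap_cov_frame hcov)
  · have key : ∀ u ∈ (E1 ∪ E2) ∪ Ev, ∀ v, R u v → ∃ o ∈ E1 ∪ E2, ∃ r : List V, Ch R o r v ∧
        Even r.length ∧ Cover R (r ++ (z :: x :: y :: (s1 ++ s2 ++ p))) := by
      intro u hu v huv
      rcases mem_union.1 hu with hu | hu
      · exact ⟨u, hu, [], huv, by simp, h.cov⟩
      · obtain ⟨s, hsm, l, hl, ol, hcov⟩ := hEv u hu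
        refine ⟨s, hsm, l ++ [u], ch_append.2 ⟨hl, huv⟩, ?_, by simpa using hcov⟩
        simp only [List.length_append, List.length_cons, List.length_nil, Nat.even_iff,
          Nat.odd_iff] at ol ⊢
        omega
    by_contra hno
    have key2 : ∀ v ∈ nb R ((E1 ∪ E2) ∪ Ev), v ∉ E1 ∧ v ∉ E2 ∧ v ∉ p := by
      intro v hv
      obtain ⟨u, hu, huv⟩ := mem_nb.1 hv
      obtain ⟨o, ho, r, hr, er, hcov⟩ := key u hu v huv
      by_contra hcon
      have hv' : v ∈ E1 ∨ v ∈ E2 ∨ v ∈ p := by tauto
      apply hno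
      rcases mem_union.1 ho with ho | ho
      · refine ear_frame hs hb h ih ((hE1 o).1 ho) ?_ hr er hcov
        rw [← hE1, ← hE2]
        exact hv'
      · refine ear_frame hs hb h.swap ih ((hE2 o).1 ho) ?_ hr er (swap_cov_frame hcov)
        rw [← hE1, ← hE2]
        tauto
    have hsub : nb R ((E1 ∪ E2) ∪ Ev) ⊆
        (({z, x, y} ∪ (s1.toFinset \ E1)) ∪ (s2.toFinset \ E2)) ∪ Od := by
      intro v hv
      obtain ⟨k1, k2, k3⟩ := key2 v hv
      obtain ⟨u, hu, huv⟩ := mem_nb.1 hv
      have := hnb u (mem_union.1 hu) v huv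
      simp only [List.mem_cons, List.mem_append] at this
      simp only [mem_union, mem_insert, mem_singleton, mem_sdiff, List.mem_toFinset]
      tauto
    have d12 : Disjoint E1 E2 := by
      rw [disjoint_left]
      intro w h1 h2
      exact (List.nodup_append.1 hnd12).2.2 w (sub1 w h1) w (sub2 w h2) rfl
    have d3 : Disjoint (E1 ∪ E2) Ev := by
      rw [disjoint_left]
      intro w h1 h2
      obtain ⟨s, -, l, -, -, hcov⟩ := hEv w h2
      have hw := (List.nodup_cons.1 (List.nodup_append.1 hcov.1).2.1).1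
      apply hw
      simp only [List.mem_cons, List.mem_append]
      rcases mem_union.1 h1 with h1 | h1
      · have := sub1 w h1
        tauto
      · have := sub2 w h1
        tauto
    have hc3 : ({z, x, y} : Finset V).card ≤ 3 := card_le_three
    have hle : (nb R ((E1 ∪ E2) ∪ Ev)).card ≤ ((E1 ∪ E2) ∪ Ev).card + 1 := by
      have a1 := card_le_card hsub
      have a2 := card_union_le (({z, x, y} ∪ (s1.toFinset \ E1)) ∪ (s2.toFinset \ E2)) Od
      have a3 := card_union_le ({z, x, y} ∪ (s1.toFinset \ E1)) (s2.toFinset \ E2)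
      have a4 := card_union_le ({z, x, y} : Finset V) (s1.toFinset \ E1)
      rw [card_union_of_disjoint d3, card_union_of_disjoint d12]
      omega
    obtain ⟨o, ho⟩ : E1.Nonempty := card_pos.1 (by omega)
    exact (key2 o (exp2 hs h2 hle (mem_union_left _ (mem_union_left _ ho)))).1 ho

end Pool.Agent.Lib.MP_59216f_co.TD
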