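import Pool.Agent.Lib.MP_59216f_co.GDefs

set_option autoImplicit false
set_option linter.unusedSectionVars false

namespace Pool.Agent.Lib.MP_59216f_co.TD

open Finset

variable {V : Type} [Fintype V] [DecidableEq V] {R : V → V → Prop}

variable {e : V → Finset V} {Xa Tc Tg Dc : Finset V} {μ0 μ γ : V → V} {C W : Finset V}

theorem start_GMachA (H : MH e Xa Tc Tg Dc μ0) : St e Xa Tc Tg Dc μ0 μ0 id ∅ ∅ where
  wc := Subset.refl _
  ct := empty_subset _
  inj := by
    rw [sdiff_empty]
    exact H.inj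
  own := by
    rw [sdiff_empty]
    exact H.own
  ginj := by
    intro a ha
    simp at ha
  cred := fun τ hτ => absurd hτ (notMem_empty τ)
  light := fun τ hτ => absurd hτ (notMem_empty τ)
  keep := fun _ _ => Or.inl rfl
  invB := fun _ _ τ hτ => absurd hτ (notMem_empty τ)

theorem priv_mem_GMachA {Tt : Finset V} {τ x : V} (hx : Priv e Xa Tt τ x) : τ ∈ e x := by
  have h : τ ∈ e x ∩ Tt := by
    rw [hx.2]
    exact mem_singleton_self τ
  exact (mem_inter.1 h).1

theorem ne_GMachA (H : MH e Xa Tc Tg Dc μ0) {τ d : V} (hτ : τ ∈ Tc ∪ Tg) (hd : d ∈ Dc) :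
    τ ≠ d := by
  rintro rfl
  exact disjoint_left.1 H.hD hτ hd

/-- The start state `(μ0, id, ∅, ∅)`; `C ⊆ Tc` bounds the number of credits. -/
theorem exists_maxSt (H : MH e Xa Tc Tg Dc μ0) :
    ∃ (μ γ : V → V) (C W : Finset V), MaxSt e Xa Tc Tg Dc μ0 μ γ C W := by
  classical
  obtain ⟨C, hC, hmax⟩ := exists_max_image
    (univ.filter (fun C : Finset V => ∃ (μ γ : V → V) (W : Finset V),
      St e Xa Tc Tg Dc μ0 μ γ C W)) (fun C => C.card)
    ⟨∅, mem_filter.2 ⟨mem_univ _, μ0, id, ∅, start_GMachA H⟩⟩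
  obtain ⟨μ, γ, W, h⟩ := (mem_filter.1 hC).2
  exact ⟨μ, γ, C, W, h, fun μ' γ' C' W' h' =>
    hmax C' (mem_filter.2 ⟨mem_univ _, μ', γ', W', h'⟩)⟩

/-- Fact B: otherwise add the credit `γ τ = d`. -/
theorem MaxSt.factB (H : MH e Xa Tc Tg Dc μ0) (h : MaxSt e Xa Tc Tg Dc μ0 μ γ C W) {τ d : V}
    (hτ : τ ∈ Tc) (hC : τ ∉ C) (hd : d ∈ Dc) (hm : τ ∈ e (μ d)) : ∃ t ∈ C, γ t = d := by
  by_contra hno
  have hno' : ∀ t ∈ C, γ t ≠ d := fun t ht hg => hno ⟨t, ht, hg⟩
  have hup : ∀ t ∈ C, Function.update γ τ d t = γ t := fun t ht =>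
    Function.update_of_ne (fun h' : t = τ => hC (h' ▸ ht)) _ _
  have hst : St e Xa Tc Tg Dc μ0 μ (Function.update γ τ d) (insert τ C) W :=
    { wc := h.1.wc.trans (subset_insert _ _)
      ct := insert_subset hτ h.1.ct
      inj := h.1.inj
      own := h.1.own
      ginj := by
        intro a ha b hb hab
        rcases mem_insert.1 (mem_coe.1 ha) with rfl | ha'
        · rcases mem_insert.1 (mem_coe.1 hb) with rfl | hb'
          · rfl
          · rw [Function.update_self, hup b hb'] at hab
            exact absurd hab.symm (hno' b hb')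
        · rcases mem_insert.1 (mem_coe.1 hb) with rfl | hb'
          · rw [Function.update_self, hup a ha'] at hab
            exact absurd hab (hno' a ha')
          · rw [hup a ha', hup b hb'] at hab
            exact h.1.ginj (mem_coe.2 ha') (mem_coe.2 hb') hab
      cred := by
        intro t ht
        rcases mem_insert.1 ht with rfl | ht'
        · rw [Function.update_self]
          exact ⟨hd, hm⟩
        · rw [hup t ht']
          exact h.1.cred t ht'
      light := by
        intro t ht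
        rw [hup t (h.1.wc ht)]
        exact h.1.light t ht
      keep := h.1.keep
      invB := by
        intro d' hd' t ht hte
        obtain ⟨s, hs, hgs⟩ := h.1.invB d' hd' t ht hte
        exact ⟨s, mem_insert_of_mem hs, by rw [hup s hs, hgs]⟩ }
  have hle := h.2 _ _ _ _ hst
  rw [card_insert_of_notMem hC] at hle
  omega

/-- Fact A: a private row of a point without credit is not owned by a point of `Dc`
(by fact B the owner has a credit `t ∈ e x ∩ C`, so `t = τ`). -/
theorem MaxSt.factA (H : MH e Xa Tc Tg Dc μ0) (h : MaxSt e Xa Tc Tg Dc μ0 μ γ C W) {τ x d : V}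
    (hτ : τ ∈ Tc) (hC : τ ∉ C) (hx : Priv e Xa (Tc ∪ Tg) τ x) (hd : d ∈ Dc) : μ d ≠ x := by
  intro hdx
  obtain ⟨t, ht, hg⟩ := h.factB H hτ hC hd (by rw [hdx]; exact priv_mem_GMachA hx)
  have h1 := (h.1.cred t ht).2
  rw [hg, hdx] at h1
  have h2 : t ∈ e x ∩ (Tc ∪ Tg) := mem_inter.2 ⟨h1, mem_union_left _ (h.1.ct ht)⟩
  rw [hx.2, mem_singleton] at h2
  exact hC (h2 ▸ ht)

/-- A guard moves to a private row that nobody owns. -/
theorem St.reguard (H : MH e Xa Tc Tg Dc μ0) (h : St e Xa Tc Tg Dc μ0 μ γ C W) {τ x : V}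
    (hτ : τ ∈ Tc ∪ Tg) (hx : Priv e Xa (Tc ∪ Tg) τ x)
    (hfree : ∀ p ∈ ((Tc ∪ Tg) \ W) ∪ Dc, μ p ≠ x) :
    St e Xa Tc Tg Dc μ0 (Function.update μ τ x) γ C W := by
  have hD : ∀ d ∈ Dc, Function.update μ τ x d = μ d := fun d hd =>
    Function.update_of_ne (ne_GMachA H hτ hd).symm _ _
  exact
    { wc := h.wc
      ct := h.ct
      inj := by
        intro a ha b hb hab
        by_cases h1 : a = τ
        · by_cases h2 : b = τ
          · rw [h1, h2]
          · rw [h1, Function.update_self, Function.update_of_ne h2] at hab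
            exact absurd hab.symm (hfree b (mem_coe.1 hb))
        · by_cases h2 : b = τ
          · rw [h2, Function.update_self, Function.update_of_ne h1] at hab
            exact absurd hab (hfree a (mem_coe.1 ha))
          · rw [Function.update_of_ne h1, Function.update_of_ne h2] at hab
            exact h.inj ha hb hab
      own := by
        intro p hp
        by_cases h1 : p = τ
        · rw [h1, Function.update_self]
          exact ⟨hx.1, priv_mem_GMachA hx⟩
        · rw [Function.update_of_ne h1]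
          exact h.own p hp
      ginj := h.ginj
      cred := by
        intro t ht
        rw [hD _ (h.cred t ht).1]
        exact h.cred t ht
      light := by
        intro t ht
        rw [hD _ (h.cred t (h.wc ht)).1]
        exact h.light t ht
      keep := by
        intro p hp
        by_cases h1 : p = τ
        · rw [h1, Function.update_self]
          exact Or.inr hx
        · rw [Function.update_of_ne h1]
          exact h.keep p hp
      invB := by
        intro d hd t ht hte
        rw [hD d hd] at hte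
        exact h.invB d hd t ht hte }

theorem move_aux_GMachA (H : MH e Xa Tc Tg Dc μ0) (h : St e Xa Tc Tg Dc μ0 μ γ C W) {τ x d : V}
    (hτ : τ ∈ Tc) (hC : τ ∉ C) (hx : x ∈ Xa) (hτx : τ ∈ e x) (hd : d ∈ Dc) (hdx : d ∈ e x)
    (hB : ∀ d' ∈ Dc, τ ∈ e (μ d') → ∃ t ∈ C, γ t = d') (W1 : Finset V)
    (hW1 : ∀ t ∈ W1, t = τ ∧ Priv e Xa (Tc ∪ Tg) τ x ∧ ∀ y, Priv e Xa (Tc ∪ Tg) τ y → y = x)
    (hfree : ∀ p ∈ ((Tc ∪ Tg) \ W) ∪ Dc, p ∉ W1 → μ p ≠ x) :
    St e Xa Tc Tg Dc μ0 (fun p => if p = d then x else if p ∈ W ∧ γ p = d then μ d else μ p)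
      (Function.update γ τ d) (insert τ (C.filter (fun t => γ t ≠ d)))
      (W.filter (fun t => γ t ≠ d) ∪ W1) := by
  set μ' : V → V := fun p => if p = d then x else if p ∈ W ∧ γ p = d then μ d else μ p with hμ'
  have hτT : τ ∈ Tc ∪ Tg := mem_union_left _ hτ
  have hup : ∀ t ∈ C, Function.update γ τ d t = γ t := fun t ht =>
    Function.update_of_ne (fun h' : t = τ => hC (h' ▸ ht)) _ _
  have hWT : ∀ t ∈ W, t ∈ Tc ∪ Tg := fun t ht => mem_union_left _ (h.ct (h.wc ht))
  have hμd : μ' d = x := by simp [hμ']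
  have hμK : ∀ p, p ∈ W → γ p = d → μ' p = μ d := by
    intro p hp hg
    have h1 : p ≠ d := ne_GMachA H (hWT p hp) hd
    simp [hμ', h1, hp, hg]
  have hμo : ∀ p, p ≠ d → p ∉ W → μ' p = μ p := by
    intro p h1 h2
    simp [hμ', h1, h2]
  have hμD : ∀ p ∈ Dc, p ≠ d → μ' p = μ p := fun p hp h1 =>
    hμo p h1 (fun hw => ne_GMachA H (hWT p hw) hp rfl)
  have hdold : d ∈ ((Tc ∪ Tg) \ W) ∪ Dc := mem_union_right _ hd
  have hW1D : ∀ p ∈ Dc, p ∉ W1 := fun p hp hw =>
    ne_GMachA H hτT hp (hW1 p hw).1.symm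
  have hcase : ∀ p ∈ ((Tc ∪ Tg) \ (W.filter (fun t => γ t ≠ d) ∪ W1)) ∪ Dc,
      p = d ∨ (p ∈ W ∧ γ p = d) ∨
        (p ≠ d ∧ p ∉ W ∧ p ∉ W1 ∧ p ∈ ((Tc ∪ Tg) \ W) ∪ Dc) := by
    intro p hp
    by_cases h1 : p = d
    · exact Or.inl h1
    right
    rcases mem_union.1 hp with hp | hp
    · obtain ⟨hpT, hpW⟩ := mem_sdiff.1 hp
      by_cases h2 : p ∈ W
      · left
        refine ⟨h2, ?_⟩
        by_contra h3
        exact hpW (mem_union_left _ (mem_filter.2 ⟨h2, h3⟩))
      · exact Or.inr ⟨h1, h2, fun h3 => hpW (mem_union_right _ h3),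
          mem_union_left _ (mem_sdiff.2 ⟨hpT, h2⟩)⟩
    · exact Or.inr ⟨h1, fun hw => ne_GMachA H (hWT p hw) hp rfl, hW1D p hp,
        mem_union_right _ hp⟩
  have hdx' : μ d ≠ x := hfree d hdold (hW1D d hd)
  exact
    { wc := by
        intro t ht
        rcases mem_union.1 ht with ht | ht
        · obtain ⟨h1, h2⟩ := mem_filter.1 ht
          exact mem_insert_of_mem (mem_filter.2 ⟨h.wc h1, h2⟩)
        · rw [(hW1 t ht).1]
          exact mem_insert_self _ _
      ct := insert_subset hτ ((filter_subset _ _).trans h.ct)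
      inj := by
        intro a ha b hb hab
        rcases hcase a (mem_coe.1 ha) with ha' | ha' | ha'
        · rcases hcase b (mem_coe.1 hb) with hb' | hb' | hb'
          · rw [ha', hb']
          · rw [ha', hμd, hμK b hb'.1 hb'.2] at hab
            exact absurd hab.symm hdx'
          · rw [ha', hμd, hμo b hb'.1 hb'.2.1] at hab
            exact absurd hab.symm (hfree b hb'.2.2.2 hb'.2.2.1)
        · rcases hcase b (mem_coe.1 hb) with hb' | hb' | hb'
          · rw [hb', hμd, hμK a ha'.1 ha'.2] at hab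
            exact absurd hab hdx'
          · exact h.ginj (mem_coe.2 (h.wc ha'.1)) (mem_coe.2 (h.wc hb'.1))
              (ha'.2.trans hb'.2.symm)
          · rw [hμK a ha'.1 ha'.2, hμo b hb'.1 hb'.2.1] at hab
            exact absurd (h.inj (mem_coe.2 hdold) (mem_coe.2 hb'.2.2.2) hab).symm hb'.1
        · rcases hcase b (mem_coe.1 hb) with hb' | hb' | hb'
          · rw [hb', hμd, hμo a ha'.1 ha'.2.1] at hab
            exact absurd hab (hfree a ha'.2.2.2 ha'.2.2.1)
          · rw [hμK b hb'.1 hb'.2, hμo a ha'.1 ha'.2.1] at hab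
            exact absurd (h.inj (mem_coe.2 ha'.2.2.2) (mem_coe.2 hdold) hab) ha'.1
          · rw [hμo a ha'.1 ha'.2.1, hμo b hb'.1 hb'.2.1] at hab
            exact h.inj (mem_coe.2 ha'.2.2.2) (mem_coe.2 hb'.2.2.2) hab
      own := by
        intro p hp
        rcases hcase p hp with hp' | hp' | hp'
        · rw [hp', hμd]
          exact ⟨hx, hdx⟩
        · rw [hμK p hp'.1 hp'.2]
          refine ⟨(h.own d hdold).1, ?_⟩
          have := (h.cred p (h.wc hp'.1)).2
          rwa [hp'.2] at this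
        · rw [hμo p hp'.1 hp'.2.1]
          exact h.own p hp'.2.2.2
      ginj := by
        intro a ha b hb hab
        rcases mem_insert.1 (mem_coe.1 ha) with ha' | ha'
        · rcases mem_insert.1 (mem_coe.1 hb) with hb' | hb'
          · rw [ha', hb']
          · rw [ha', Function.update_self, hup b (mem_filter.1 hb').1] at hab
            exact absurd hab.symm (mem_filter.1 hb').2
        · rcases mem_insert.1 (mem_coe.1 hb) with hb' | hb'
          · rw [hb', Function.update_self, hup a (mem_filter.1 ha').1] at hab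
            exact absurd hab (mem_filter.1 ha').2
          · rw [hup a (mem_filter.1 ha').1, hup b (mem_filter.1 hb').1] at hab
            exact h.ginj (mem_coe.2 (mem_filter.1 ha').1) (mem_coe.2 (mem_filter.1 hb').1) hab
      cred := by
        intro t ht
        rcases mem_insert.1 ht with ht' | ht'
        · rw [ht', Function.update_self, hμd]
          exact ⟨hd, hτx⟩
        · obtain ⟨h1, h2⟩ := mem_filter.1 ht'
          rw [hup t h1, hμD _ (h.cred t h1).1 h2]
          exact h.cred t h1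
      light := by
        intro t ht
        rcases mem_union.1 ht with ht | ht
        · obtain ⟨h1, h2⟩ := mem_filter.1 ht
          rw [hup t (h.wc h1), hμD _ (h.cred t (h.wc h1)).1 h2]
          exact h.light t h1
        · rw [(hW1 t ht).1, Function.update_self, hμd]
          exact (hW1 t ht).2
      keep := by
        intro p hp
        rcases hcase p (mem_union_left _ hp) with hp' | hp' | hp'
        · exact absurd hp' (ne_GMachA H (mem_sdiff.1 hp).1 hd)
        · rw [hμK p hp'.1 hp'.2]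
          right
          have := (h.light p hp'.1).1
          rwa [hp'.2] at this
        · rw [hμo p hp'.1 hp'.2.1]
          exact h.keep p (mem_sdiff.2 ⟨(mem_sdiff.1 hp).1, hp'.2.1⟩)
      invB := by
        intro d' hd' t ht hte
        by_cases h1 : d' = d
        · exact ⟨τ, mem_insert_self _ _, by rw [Function.update_self, h1]⟩
        · rw [hμD d' hd' h1] at hte
          have h2 : ∃ s ∈ C, γ s = d' := by
            rcases mem_union.1 ht with ht | ht
            · exact h.invB d' hd' t (mem_filter.1 ht).1 hte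
            · rw [(hW1 t ht).1] at hte
              exact hB d' hd' hte
          obtain ⟨s, hs, hgs⟩ := h2
          exact ⟨s, mem_insert_of_mem (mem_filter.2 ⟨hs, by rw [hgs]; exact h1⟩),
            by rw [hup s hs, hgs]⟩ }

/-- Basic move. The point `d` moves to the row `x ∋ τ, d` and is credited to `τ`. The row `x`
is free, or (`W1 = {τ}`) it is owned by `τ` and is the only private row of `τ`; then `τ` becomes
guardless. `K` is the set of points credited to `d` before (at most one point); such a point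
loses its credit, and if it was guardless it takes the old row of `d` (its private row) as
guard. New state: `μ' d = x`, `μ' t = μ d` for `t ∈ K ∩ W`, `γ' = update γ τ d`,
`C' = insert τ (C \ K)`, `W' = (W \ K) ∪ W1`. For `invB` use `hB`. -/
theorem St.move (H : MH e Xa Tc Tg Dc μ0) (h : St e Xa Tc Tg Dc μ0 μ γ C W) {τ x d : V}
    (hτ : τ ∈ Tc) (hC : τ ∉ C) (hx : x ∈ Xa) (hτx : τ ∈ e x) (hd : d ∈ Dc) (hdx : d ∈ e x)
    (hB : ∀ d' ∈ Dc, τ ∈ e (μ d') → ∃ t ∈ C, γ t = d')
    (hfree : (∀ p ∈ ((Tc ∪ Tg) \ W) ∪ Dc, μ p ≠ x) ∨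
      (μ τ = x ∧ Priv e Xa (Tc ∪ Tg) τ x ∧ ∀ y, Priv e Xa (Tc ∪ Tg) τ y → y = x)) :
    ∃ (μ' : V → V) (W' : Finset V), St e Xa Tc Tg Dc μ0 μ' (Function.update γ τ d)
      (insert τ (C.filter (fun t => γ t ≠ d))) W' := by
  rcases hfree with hf | hf
  · exact ⟨_, _, move_aux_GMachA H h hτ hC hx hτx hd hdx hB ∅
      (fun t ht => absurd ht (notMem_empty t)) (fun p hp _ => hf p hp)⟩
  · refine ⟨_, _, move_aux_GMachA H h hτ hC hx hτx hd hdx hB {τ}
      (fun t ht => ⟨mem_singleton.1 ht, hf.2⟩) (fun p hp hp1 hpx => hp1 ?_)⟩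
    have hτold : τ ∈ ((Tc ∪ Tg) \ W) ∪ Dc :=
      mem_union_left _ (mem_sdiff.2 ⟨mem_union_left _ hτ, fun hw => hC (h.wc hw)⟩)
    exact mem_singleton.2 (h.inj (mem_coe.2 hp) (mem_coe.2 hτold) (hpx.trans hf.1.symm))

end Pool.Agent.Lib.MP_59216f_co.TD
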