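import Pool.Agent.Lib.MP_59216f_co.GMachA

set_option autoImplicit false
set_option linter.unusedSectionVars false

namespace Pool.Agent.Lib.MP_59216f_co.TD

open Finset

variable {V : Type} [Fintype V] [DecidableEq V] {R : V → V → Prop}

variable {e : V → Finset V} {Xa Tc Tg Dc : Finset V} {μ0 μ γ : V → V} {C W : Finset V}

theorem machB_finish (H : MH e Xa Tc Tg Dc μ0) (h : MaxSt e Xa Tc Tg Dc μ0 μ γ C W) {τ x d : V}
    (hτ : τ ∈ Tc) (hC : τ ∉ C) (hx : x ∈ Xa) (hτx : τ ∈ e x) (hd : d ∈ Dc) (hdx : d ∈ e x)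
    (hfree : (∀ p ∈ ((Tc ∪ Tg) \ W) ∪ Dc, μ p ≠ x) ∨
      (μ τ = x ∧ Priv e Xa (Tc ∪ Tg) τ x ∧ ∀ y, Priv e Xa (Tc ∪ Tg) τ y → y = x)) :
    ∃ t ∈ C, γ t = d ∧ ∃ (μ' : V → V) (W' : Finset V),
      MaxSt e Xa Tc Tg Dc μ0 μ' (Function.update γ τ d) (insert τ (C.erase t)) W' := by
  obtain ⟨μ', W', hs⟩ := St.move H h.1 hτ hC hx hτx hd hdx
    (fun d' hd' hm => h.factB H hτ hC hd' hm) hfree
  have h1 := h.2 _ _ _ _ hs
  rw [card_insert_of_notMem fun h' => hC (mem_filter.1 h').1] at h1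
  obtain ⟨t, ht, htd⟩ : ∃ t ∈ C, γ t = d := by
    by_contra hn
    rw [filter_true_of_mem (p := fun t => γ t ≠ d) fun t ht h' => hn ⟨t, ht, h'⟩] at h1
    omega
  have he : C.filter (fun t => γ t ≠ d) = C.erase t := by
    ext s
    rw [mem_filter, mem_erase]
    constructor
    · rintro ⟨h2, h3⟩
      exact ⟨fun h4 => h3 (h4 ▸ htd), h2⟩
    · rintro ⟨h2, h3⟩
      exact ⟨h3, fun h4 => h2 (h.1.ginj h3 ht (h4.trans htd.symm))⟩
  rw [he] at hs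
  refine ⟨t, ht, htd, μ', W', hs, fun μ2 γ2 C2 W2 h2 => ?_⟩
  have h3 := h.2 _ _ _ _ h2
  rw [card_insert_of_notMem fun h' => hC (mem_of_mem_erase h'), card_erase_add_one ht]
  exact h3

/-- Exchange step in a maximal state. Owner of `x`: not `d` (`hd`), not another point `d2` of
`Dc` (then `e x = {τ, d, d2}` is private for `τ`, fact A), not another point of `Tc ∪ Tg`
(`hown`). If `τ` owns `x` and has a private row `x2 ≠ x`, then `x2` is free (fact A, and a guard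
of `x2` lies in `e x2 ∩ (Tc ∪ Tg) = {τ}`), use `St.reguard` first (the new state is maximal as
well); if not, `x` is the only private row of `τ` (`H.priv`). Then `St.move`; by maximality `d`
had a credit `t`, and `C.filter (γ · ≠ d) = C.erase t`. -/
theorem MaxSt.step (H : MH e Xa Tc Tg Dc μ0) (h : MaxSt e Xa Tc Tg Dc μ0 μ γ C W) {τ x d : V}
    (hτ : τ ∈ Tc) (hC : τ ∉ C) (hx : x ∈ Xa) (hτx : τ ∈ e x) (hd : d ∈ Dc) (hdx : d ∈ e x)
    (hne : μ d ≠ x) (hown : ∀ τ' ∈ (Tc ∪ Tg) \ W, μ τ' = x → τ' = τ) :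
    ∃ t ∈ C, γ t = d ∧ ∃ (μ' : V → V) (W' : Finset V),
      MaxSt e Xa Tc Tg Dc μ0 μ' (Function.update γ τ d) (insert τ (C.erase t)) W' := by
  have hτT : τ ∈ Tc ∪ Tg := mem_union_left _ hτ
  have hDx : ∀ d2 ∈ Dc, μ d2 ≠ x := by
    intro d2 hd2 h2
    by_cases hdd : d2 = d
    · exact hne (hdd ▸ h2)
    have hm : d2 ∈ e x := h2 ▸ (h.1.own d2 (mem_union_right _ hd2)).2
    have hτd : τ ≠ d := fun h' => disjoint_left.1 H.hD hτT (h' ▸ hd)
    have hτd2 : τ ≠ d2 := fun h' => disjoint_left.1 H.hD hτT (h' ▸ hd2)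
    have hex : ({τ, d, d2} : Finset V) = e x := by
      apply eq_of_subset_of_card_le
      · intro y hy
        simp only [mem_insert, mem_singleton] at hy
        rcases hy with rfl | rfl | rfl <;> assumption
      · rw [H.h3 x hx, card_eq_three.2 ⟨τ, d, d2, hτd, hτd2, Ne.symm hdd, rfl⟩]
    refine h.factA H hτ hC ⟨hx, ?_⟩ hd2 h2
    ext y
    rw [← hex]
    simp only [mem_inter, mem_insert, mem_singleton]
    constructor
    · rintro ⟨rfl | rfl | rfl, hy⟩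
      · rfl
      · exact absurd hd (disjoint_left.1 H.hD hy)
      · exact absurd hd2 (disjoint_left.1 H.hD hy)
    · rintro rfl
      exact ⟨Or.inl rfl, hτT⟩
  by_cases hμ : μ τ = x
  · by_cases h2 : ∃ x2, Priv e Xa (Tc ∪ Tg) τ x2 ∧ x2 ≠ x
    · obtain ⟨x2, hp, hne2⟩ := h2
      have hfree2 : ∀ p ∈ ((Tc ∪ Tg) \ W) ∪ Dc, μ p ≠ x2 := by
        intro p hp' h3
        rcases mem_union.1 hp' with h4 | h4
        · have h5 : p ∈ e x2 ∩ (Tc ∪ Tg) :=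
            mem_inter.2 ⟨h3 ▸ (h.1.own p hp').2, (mem_sdiff.1 h4).1⟩
          rw [hp.2, mem_singleton] at h5
          rw [h5, hμ] at h3
          exact hne2 h3.symm
        · exact h.factA H hτ hC hp h4 h3
      have hs := St.reguard H h.1 hτT hp hfree2
      refine machB_finish H ⟨hs, h.2⟩ hτ hC hx hτx hd hdx (Or.inl fun p hp' h3 => ?_)
      by_cases hpτ : p = τ
      · rw [hpτ, Function.update_self] at h3
        exact hne2 h3
      · rw [Function.update_of_ne hpτ] at h3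
        rcases mem_union.1 hp' with h4 | h4
        · exact hpτ (hown p h4 h3)
        · exact hDx p h4 h3
    · have h3 : ∀ y, Priv e Xa (Tc ∪ Tg) τ y → y = x := fun y hy => by
        by_contra hn
        exact h2 ⟨y, hy, hn⟩
      obtain ⟨x3, hx3⟩ := H.priv τ hτ
      exact machB_finish H h hτ hC hx hτx hd hdx (Or.inr ⟨hμ, h3 x3 hx3 ▸ hx3, h3⟩)
  · refine machB_finish H h hτ hC hx hτx hd hdx (Or.inl fun p hp' h3 => ?_)
    rcases mem_union.1 hp' with h4 | h4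
    · exact hμ (hown p h4 h3 ▸ h3)
    · exact hDx p h4 h3

/-- Closed set. Call `T1` good if `Tc \ C ⊆ T1 ⊆ Tc` and for every `τ ∈ T1` there is a maximal
state `(μ', γ', C', W')` with `τ ∉ C'`, with `t ∈ C' ∧ γ' t = γ t` for all `t ∈ C \ T1`, and with
`γ' t ∈ (C ∩ T1).image γ` for all `t ∈ C' ∩ T1`. `Tc \ C` is good; take a largest good `T1`.
Let `x ∈ Xa` with `e x ∩ (Tc ∪ Tg) ⊆ T1`, `d ∈ e x ∩ Dc` and suppose `d ∉ (C ∩ T1).image γ`.
Choose `τ ∈ e x ∩ (Tc ∪ Tg)`, with `μ0 τ = x` if such a point exists, and the state of `τ`.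
`μ' d ≠ x` by fact B; `hown` holds by `keep` and injectivity of `μ0`. `MaxSt.step` gives
`t ∈ C'` with `γ' t = d`, so `t ∉ T1`, `t ∈ C`, `γ t = d`, and `insert t T1` is good. -/
theorem MaxSt.closed (H : MH e Xa Tc Tg Dc μ0) (h : MaxSt e Xa Tc Tg Dc μ0 μ γ C W) :
    ∃ T1 : Finset V, Tc \ C ⊆ T1 ∧ T1 ⊆ Tc ∧
      ∀ x ∈ Xa, e x ∩ (Tc ∪ Tg) ⊆ T1 → e x ∩ Dc ⊆ (C ∩ T1).image γ := by
  classical
  let Good : Finset V → Prop := fun T1 => Tc \ C ⊆ T1 ∧ T1 ⊆ Tc ∧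
    ∀ τ ∈ T1, ∃ (μ' γ' : V → V) (C' W' : Finset V), MaxSt e Xa Tc Tg Dc μ0 μ' γ' C' W' ∧ τ ∉ C' ∧
      (∀ t ∈ C, t ∉ T1 → t ∈ C' ∧ γ' t = γ t) ∧ ∀ t ∈ C', t ∈ T1 → γ' t ∈ (C ∩ T1).image γ
  have h0 : Good (Tc \ C) := ⟨subset_rfl, sdiff_subset, fun τ hτ =>
    ⟨μ, γ, C, W, h, (mem_sdiff.1 hτ).2, fun t ht _ => ⟨ht, rfl⟩,
      fun t ht ht' => absurd ht (mem_sdiff.1 ht').2⟩⟩
  obtain ⟨T1, hT1, hmax⟩ := exists_max_image (univ.filter Good) card
    ⟨Tc \ C, mem_filter.2 ⟨mem_univ _, h0⟩⟩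
  obtain ⟨hT0, hTc, hgood⟩ := (mem_filter.1 hT1).2
  refine ⟨T1, hT0, hTc, fun x hx hsub d hd => ?_⟩
  obtain ⟨hdx, hd⟩ := mem_inter.1 hd
  by_contra hdn
  obtain ⟨τ, hτx, hτT, hτ0⟩ : ∃ τ ∈ e x, τ ∈ Tc ∪ Tg ∧ ∀ τ' ∈ Tc ∪ Tg, μ0 τ' = x → τ' = τ := by
    by_cases h1 : ∃ τ ∈ Tc ∪ Tg, μ0 τ = x
    · obtain ⟨τ, hτ, hτx⟩ := h1
      exact ⟨τ, hτx ▸ (H.own τ (mem_union_left _ hτ)).2, hτ, fun τ' hτ' h2 =>
        H.inj (mem_coe.2 (mem_union_left _ hτ')) (mem_coe.2 (mem_union_left _ hτ))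
          (h2.trans hτx.symm)⟩
    · obtain ⟨τ, hτ, hτ'⟩ := H.hit x hx
      exact ⟨τ, hτ, hτ', fun τ' h2 h3 => absurd ⟨τ', h2, h3⟩ h1⟩
  have hτ1 : τ ∈ T1 := hsub (mem_inter.2 ⟨hτx, hτT⟩)
  obtain ⟨μ', γ', C', W', hs, hτC, hk1, hk2⟩ := hgood τ hτ1
  have hne : μ' d ≠ x := by
    intro h1
    obtain ⟨t, ht, htd⟩ := hs.factB H (hTc hτ1) hτC hd (h1.symm ▸ hτx)
    have h2 := (hs.1.cred t ht).2
    rw [htd, h1] at h2
    exact hdn (htd ▸ hk2 t ht (hsub (mem_inter.2 ⟨h2, mem_union_left _ (hs.1.ct ht)⟩)))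
  have hown : ∀ τ' ∈ (Tc ∪ Tg) \ W', μ' τ' = x → τ' = τ := by
    intro τ' hτ' h1
    rcases hs.1.keep τ' hτ' with h2 | h2
    · exact hτ0 τ' (mem_sdiff.1 hτ').1 (h2 ▸ h1)
    · have h3 : τ ∈ e x ∩ (Tc ∪ Tg) := mem_inter.2 ⟨hτx, hτT⟩
      rw [h1] at h2
      rw [h2.2, mem_singleton] at h3
      exact h3.symm
  obtain ⟨t, ht, htd, μ2, W2, hs2⟩ := hs.step H (hTc hτ1) hτC hx hτx hd hdx hne hown
  have ht1 : t ∉ T1 := fun h1 => hdn (htd ▸ hk2 t ht h1)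
  have htC : t ∈ C := by
    by_contra h1
    exact ht1 (hT0 (mem_sdiff.2 ⟨hs.1.ct ht, h1⟩))
  have hγt : γ t = d := (hk1 t htC ht1).2 ▸ htd
  have himg : (C ∩ T1).image γ ⊆ (C ∩ insert t T1).image γ :=
    image_subset_image (inter_subset_inter subset_rfl (subset_insert _ _))
  have htimg : γ t ∈ (C ∩ insert t T1).image γ :=
    mem_image_of_mem γ (mem_inter.2 ⟨htC, mem_insert_self _ _⟩)
  have hnew : Good (insert t T1) := by
    refine ⟨hT0.trans (subset_insert _ _), insert_subset (hs.1.ct ht) hTc, fun τ' hτ' => ?_⟩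
    rcases mem_insert.1 hτ' with rfl | hτ'
    · refine ⟨μ2, _, _, W2, hs2, ?_, ?_, ?_⟩
      · intro h1
        rcases mem_insert.1 h1 with h2 | h2
        · exact ht1 (h2 ▸ hτ1)
        · exact notMem_erase _ _ h2
      · intro s hs' hn
        rw [mem_insert, not_or] at hn
        have h1 := hk1 s hs' hn.2
        have h2 : s ≠ τ := fun h2 => hn.2 (h2 ▸ hτ1)
        exact ⟨mem_insert_of_mem (mem_erase.2 ⟨hn.1, h1.1⟩),
          by rw [Function.update_of_ne h2, h1.2]⟩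
      · intro s hs' hs1
        by_cases h2 : s = τ
        · rw [h2, Function.update_self, ← hγt]
          exact htimg
        · obtain ⟨h3, h4⟩ := mem_erase.1 ((mem_insert.1 hs').resolve_left h2)
          rw [Function.update_of_ne h2]
          exact himg (hk2 s h4 ((mem_insert.1 hs1).resolve_left h3))
    · obtain ⟨μ3, γ3, C3, W3, hs3, h1, h2, h3⟩ := hgood τ' hτ'
      refine ⟨μ3, γ3, C3, W3, hs3, h1, fun s hs' hn => h2 s hs' fun h4 => hn (mem_insert_of_mem h4),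
        fun s hs' hs1 => ?_⟩
      rcases mem_insert.1 hs1 with rfl | h4
      · rw [(h2 s htC ht1).2]
        exact htimg
      · exact himg (h3 s hs' h4)
  have := hmax _ (mem_filter.2 ⟨mem_univ _, hnew⟩)
  rw [card_insert_of_notMem ht1] at this
  omega

end Pool.Agent.Lib.MP_59216f_co.TD
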