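import Pool.Agent.Lib.MP_59216f_co.GMachB

set_option autoImplicit false
set_option linter.unusedSectionVars false

namespace Pool.Agent.Lib.MP_59216f_co.TD

open Finset

variable {V : Type} [Fintype V] [DecidableEq V] {R : V → V → Prop}

variable {e : V → Finset V} {Xa Tc Tg Dc : Finset V} {μ0 μ γ : V → V} {C W : Finset V}

/-- Output of a maximal state. For `τ ∈ Tc \ C` let `ex τ` be a private row of `τ`, different
from `μ τ` if possible. `Pk = Dc.image μ ∪ (Tc \ C).image ex`. A point `τ` of `Tc ∪ Tg` outside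
`W` with (`τ ∈ C` or `τ ∈ Tg` or `ex τ ≠ μ τ`) keeps the unpicked row `μ τ`. Call `τ` lost if
all its rows in `Xa` are picked; lost points lie in `W` or in `Tc \ C` and have exactly one
private row. `sv x` is a point of `e x ∩ (Tc ∪ Tg)` that is not lost if there is one. If all
such points are lost, `x` is picked and private: otherwise `x = μ d`, `e x = {τ, τ', d}`, and
`invB` or fact B gives a credit `t ∈ C` of `d`, `t ∈ {τ, τ'}` is lost so `t ∈ W`, and then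
`x = μ (γ t)` is private. -/
theorem MaxSt.output (H : MH e Xa Tc Tg Dc μ0) (h : MaxSt e Xa Tc Tg Dc μ0 μ γ C W) :
    ∃ (Pk : Finset V) (sv : V → V), Pk ⊆ Xa ∧ Pk.card ≤ Dc.card + (Tc \ C).card ∧
      (∀ p ∈ Tc ∪ Dc, ∃ x ∈ Pk, p ∈ e x) ∧
      (∀ x ∈ Pk, (∃ d ∈ Dc, d ∈ e x) ∨ (e x ∩ (Tc ∪ Tg)).card = 1) ∧
      (∀ x ∈ Xa, sv x ∈ e x ∧ sv x ∈ Tc ∪ Tg) ∧
      (∀ τ ∈ Tg, ∃ x ∈ Xa, x ∉ Pk ∧ τ ∈ e x) ∧
      ∀ τ ∈ Tc, (∃ x ∈ Xa, x ∉ Pk ∧ τ ∈ e x) ∨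
        ∀ x ∈ Xa, ∀ y ∈ Xa, sv x = τ → sv y = τ → x = y := by
  classical
  have hS := h.1
  have hex : ∀ τ, ∃ x, τ ∈ Tc → (Priv e Xa (Tc ∪ Tg) τ x ∧
      (x = μ τ → ∀ y, Priv e Xa (Tc ∪ Tg) τ y → y = μ τ)) := by
    intro τ
    by_cases hτ : τ ∈ Tc
    · by_cases hy : ∃ y, Priv e Xa (Tc ∪ Tg) τ y ∧ y ≠ μ τ
      · obtain ⟨y, h1, h2⟩ := hy
        exact ⟨y, fun _ => ⟨h1, fun h3 => absurd h3 h2⟩⟩
      · obtain ⟨x, hx⟩ := H.priv τ hτ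
        refine ⟨x, fun _ => ⟨hx, fun _ y hy' => ?_⟩⟩
        by_contra hne
        exact hy ⟨y, hy', hne⟩
    · exact ⟨τ, fun h1 => absurd h1 hτ⟩
  choose ex hex using hex
  have hpm : ∀ τ x, Priv e Xa (Tc ∪ Tg) τ x → τ ∈ e x := by
    intro τ x hx
    have : τ ∈ e x ∩ (Tc ∪ Tg) := by rw [hx.2]; exact mem_singleton_self τ
    exact (mem_inter.1 this).1
  have hpu : ∀ τ τ' x, Priv e Xa (Tc ∪ Tg) τ x → τ' ∈ e x → τ' ∈ Tc ∪ Tg → τ' = τ := by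
    intro τ τ' x hx h1 h2
    have : τ' ∈ e x ∩ (Tc ∪ Tg) := mem_inter.2 ⟨h1, h2⟩
    rw [hx.2] at this
    exact mem_singleton.1 this
  have hownD : ∀ d ∈ Dc, μ d ∈ Xa ∧ d ∈ e (μ d) := fun d hd => hS.own d (mem_union_right _ hd)
  obtain ⟨Pk, hPk⟩ : ∃ Pk : Finset V, Pk = Dc.image μ ∪ (Tc \ C).image ex := ⟨_, rfl⟩
  have hmem : ∀ x, x ∈ Pk ↔ (∃ d ∈ Dc, μ d = x) ∨ ∃ τ ∈ Tc \ C, ex τ = x := by
    intro x
    rw [hPk, mem_union, mem_image, mem_image]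
  have hkeep : ∀ τ ∈ Tc ∪ Tg, τ ∉ W → μ τ ∈ Xa ∧ τ ∈ e (μ τ) ∧
      (μ τ ∈ Pk → τ ∈ Tc \ C ∧ ex τ = μ τ) := by
    intro τ hτ hW
    have hm : τ ∈ ((Tc ∪ Tg) \ W) ∪ Dc := mem_union_left _ (mem_sdiff.2 ⟨hτ, hW⟩)
    obtain ⟨o1, o2⟩ := hS.own τ hm
    refine ⟨o1, o2, fun hp => ?_⟩
    rcases (hmem _).1 hp with ⟨d, hd, hdx⟩ | ⟨τ', hτ', hx⟩
    · have : d = τ := hS.inj (mem_coe.2 (mem_union_right _ hd)) (mem_coe.2 hm) hdx
      exact absurd (this ▸ hd) (disjoint_left.1 H.hD hτ)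
    · have hp' := (hex τ' (mem_sdiff.1 hτ').1).1
      have : τ = τ' := hpu τ' τ (ex τ') hp' (by rw [hx]; exact o2) hτ
      subst this
      exact ⟨hτ', hx⟩
  have hsv : ∀ x, ∃ s, x ∈ Xa → (s ∈ e x ∧ s ∈ Tc ∪ Tg ∧
      ((∀ y ∈ Xa, s ∈ e y → y ∈ Pk) →
        ∀ s' ∈ e x, s' ∈ Tc ∪ Tg → ∀ y ∈ Xa, s' ∈ e y → y ∈ Pk)) := by
    intro x
    by_cases hx : x ∈ Xa
    · by_cases hn : ∃ s ∈ e x, s ∈ Tc ∪ Tg ∧ ¬ ∀ y ∈ Xa, s ∈ e y → y ∈ Pk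
      · obtain ⟨s, h1, h2, h3⟩ := hn
        exact ⟨s, fun _ => ⟨h1, h2, fun h4 => absurd h4 h3⟩⟩
      · obtain ⟨s, h1, h2⟩ := H.hit x hx
        refine ⟨s, fun _ => ⟨h1, h2, fun _ s' h3 h4 => ?_⟩⟩
        by_contra h5
        exact hn ⟨s', h3, h4, h5⟩
    · exact ⟨x, fun h1 => absurd h1 hx⟩
  choose sv hsv using hsv
  have hlost : ∀ τ ∈ Tc ∪ Tg, (∀ y ∈ Xa, τ ∈ e y → y ∈ Pk) → τ ∉ W →
      τ ∈ Tc \ C ∧ ex τ = μ τ := by
    intro τ hτ hl hW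
    obtain ⟨k1, k2, k3⟩ := hkeep τ hτ hW
    exact k3 (hl _ k1 k2)
  refine ⟨Pk, sv, ?_, ?_, ?_, ?_, fun x hx => ⟨(hsv x hx).1, (hsv x hx).2.1⟩, ?_, ?_⟩
  · intro x hx
    rcases (hmem _).1 hx with ⟨d, hd, rfl⟩ | ⟨τ, hτ, rfl⟩
    · exact (hownD d hd).1
    · exact (hex τ (mem_sdiff.1 hτ).1).1.1
  · rw [hPk]
    exact (card_union_le _ _).trans (Nat.add_le_add card_image_le card_image_le)
  · intro p hp
    rcases mem_union.1 hp with hp | hp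
    · by_cases hC : p ∈ C
      · obtain ⟨c1, c2⟩ := hS.cred p hC
        exact ⟨μ (γ p), (hmem _).2 (Or.inl ⟨γ p, c1, rfl⟩), c2⟩
      · exact ⟨ex p, (hmem _).2 (Or.inr ⟨p, mem_sdiff.2 ⟨hp, hC⟩, rfl⟩),
          hpm p _ (hex p hp).1⟩
    · exact ⟨μ p, (hmem _).2 (Or.inl ⟨p, hp, rfl⟩), (hownD p hp).2⟩
  · intro x hx
    rcases (hmem _).1 hx with ⟨d, hd, rfl⟩ | ⟨τ, hτ, rfl⟩
    · exact Or.inl ⟨d, hd, (hownD d hd).2⟩
    · right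
      rw [(hex τ (mem_sdiff.1 hτ).1).1.2, card_singleton]
  · intro τ hτ
    have hW : τ ∉ W := fun hw => disjoint_left.1 H.hcg (hS.ct (hS.wc hw)) hτ
    obtain ⟨k1, k2, k3⟩ := hkeep τ (mem_union_right _ hτ) hW
    refine ⟨μ τ, k1, fun hp => ?_, k2⟩
    exact disjoint_left.1 H.hcg (mem_sdiff.1 (k3 hp).1).1 hτ
  · intro τ hτ
    by_cases hl : ∀ y ∈ Xa, τ ∈ e y → y ∈ Pk
    · right
      have hT : τ ∈ Tc ∪ Tg := mem_union_left _ hτ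
      have huniq : ∀ x y, Priv e Xa (Tc ∪ Tg) τ x → Priv e Xa (Tc ∪ Tg) τ y → x = y := by
        intro x y hx hy
        by_cases hW : τ ∈ W
        · rw [(hS.light τ hW).2 x hx, (hS.light τ hW).2 y hy]
        · have k := (hex τ hτ).2 (hlost τ hT hl hW).2
          rw [k x hx, k y hy]
      have hpriv : ∀ x ∈ Xa, sv x = τ → Priv e Xa (Tc ∪ Tg) τ x := by
        intro x hx hs
        obtain ⟨s1, _, s3⟩ := hsv x hx
        rw [hs] at s1 s3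
        have hall := s3 hl
        rcases (hmem _).1 (hl x hx s1) with ⟨d, hd, rfl⟩ | ⟨τ', hτ', rfl⟩
        · have hcr : ∃ t ∈ C, γ t = d := by
            by_cases hW : τ ∈ W
            · exact hS.invB d hd τ hW s1
            · exact h.factB H hτ (mem_sdiff.1 (hlost τ hT hl hW).1).2 hd s1
          obtain ⟨t, ht, rfl⟩ := hcr
          have htT : t ∈ Tc ∪ Tg := mem_union_left _ (hS.ct ht)
          have htl := hall t (hS.cred t ht).2 htT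
          have htW : t ∈ W := by
            by_contra hW
            exact (mem_sdiff.1 (hlost t htT htl hW).1).2 ht
          have hp := (hS.light t htW).1
          have : τ = t := hpu t τ _ hp s1 hT
          subst this
          exact hp
        · have hp := (hex τ' (mem_sdiff.1 hτ').1).1
          have : τ = τ' := hpu τ' τ _ hp s1 hT
          subst this
          exact hp
      intro x hx y hy h1 h2
      exact huniq x y (hpriv x hx h1) (hpriv y hy h2)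
    · left
      by_contra hn
      apply hl
      intro y hy hm
      by_contra hp
      exact hn ⟨y, hy, hp, hm⟩

/-- The exchange machine: `U = (Tc \ C).card`, `D1 = (C ∩ T1).image γ`. -/
theorem machine (H : MH e Xa Tc Tg Dc μ0) :
    ∃ (Pk : Finset V) (U : ℕ) (sv : V → V) (T1 D1 : Finset V), Pk ⊆ Xa ∧
      Pk.card ≤ Dc.card + U ∧
      (∀ p ∈ Tc ∪ Dc, ∃ x ∈ Pk, p ∈ e x) ∧
      (∀ x ∈ Pk, (∃ d ∈ Dc, d ∈ e x) ∨ (e x ∩ (Tc ∪ Tg)).card = 1) ∧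
      (∀ x ∈ Xa, sv x ∈ e x ∧ sv x ∈ Tc ∪ Tg) ∧
      (∀ τ ∈ Tg, ∃ x ∈ Xa, x ∉ Pk ∧ τ ∈ e x) ∧
      (∀ τ ∈ Tc, (∃ x ∈ Xa, x ∉ Pk ∧ τ ∈ e x) ∨
        ∀ x ∈ Xa, ∀ y ∈ Xa, sv x = τ → sv y = τ → x = y) ∧
      T1 ⊆ Tc ∧ D1 ⊆ Dc ∧ D1.card + U ≤ T1.card ∧
      ∀ x ∈ Xa, e x ∩ (Tc ∪ Tg) ⊆ T1 → e x ∩ Dc ⊆ D1 := by
  obtain ⟨μ, γ, C, W, h⟩ := exists_maxSt H
  obtain ⟨Pk, sv, a1, a2, a3, a4, a5, a6, a7⟩ := h.output H
  obtain ⟨T1, b1, b2, b3⟩ := h.closed H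
  refine ⟨Pk, (Tc \ C).card, sv, T1, (C ∩ T1).image γ, a1, a2, a3, a4, a5, a6, a7, b2, ?_, ?_, b3⟩
  · intro d hd
    obtain ⟨t, ht, rfl⟩ := mem_image.1 hd
    exact (h.1.cred t (mem_inter.1 ht).1).1
  · have c1 : ((C ∩ T1).image γ).card ≤ (C ∩ T1).card := card_image_le
    have c2 : Disjoint (C ∩ T1) (Tc \ C) := by
      rw [disjoint_left]
      intro t h1 h2
      exact (mem_sdiff.1 h2).2 (mem_inter.1 h1).1
    have c3 : (C ∩ T1) ∪ (Tc \ C) ⊆ T1 := union_subset inter_subset_right b1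
    have c4 := card_le_card c3
    rw [card_union_of_disjoint c2] at c4
    omega

end Pool.Agent.Lib.MP_59216f_co.TD
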