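import Pool.Agent.Lib.MP_59216f_co.GBasic

set_option autoImplicit false
set_option linter.unusedSectionVars false

namespace Pool.Agent.Lib.MP_59216f_co.TD

open Finset

variable {V : Type} [Fintype V] [DecidableEq V] {R : V → V → Prop}

open Classical in
/-- Members of `S` all of whose neighbours are in `S`. -/
noncomputable def bad (R : V → V → Prop) (S : Finset V) : Finset V :=
  S.filter (fun b => ∀ u, R b u → u ∈ S)

/-- Number of clients of `b`. -/
def load (σ : V → V) (b : V) : ℕ := (univ.filter (fun v => σ v = b)).card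

theorem rep_mem_bad {S : Finset V} {b : V} : b ∈ bad R S ↔ b ∈ S ∧ ∀ u, R b u → u ∈ S := by
  classical
  simp only [bad, mem_filter]

theorem rep_sum0 {B B' : Finset V} (hB : B' ⊆ B) {f f' : V → ℕ} (h : ∀ c ∈ B', f' c ≤ f c) :
    ∑ c ∈ B', (f' c - 1) ≤ ∑ c ∈ B, (f c - 1) :=
  le_trans (sum_le_sum fun c hc => Nat.sub_le_sub_right (h c hc) 1) (sum_le_sum_of_subset hB)

theorem rep_sum1 {B B' : Finset V} (hB : B' ⊆ B) {f f' : V → ℕ} (x : V)
    (h : ∀ c ∈ B', c ≠ x → f' c ≤ f c) (hx : x ∈ B' → f' x ≤ f x + 1) :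
    ∑ c ∈ B', (f' c - 1) ≤ ∑ c ∈ B, (f c - 1) + 1 := by
  by_cases hm : x ∈ B'
  · rw [← add_sum_erase B' _ hm, ← add_sum_erase B _ (hB hm)]
    have h1 : ∑ c ∈ B'.erase x, (f' c - 1) ≤ ∑ c ∈ B.erase x, (f c - 1) :=
      rep_sum0 (erase_subset_erase x hB) fun c hc => h c (mem_of_mem_erase hc) (ne_of_mem_erase hc)
    have h2 := hx hm
    omega
  · exact le_trans (rep_sum0 hB fun c hc => h c hc fun e => hm (e ▸ hc)) (Nat.le_succ _)

theorem rep_load_le {σ σ' : V → V} {c : V} (h : ∀ w, σ' w = c → σ w = c) :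
    load σ' c ≤ load σ c :=
  card_le_card fun w hw => mem_filter.2 ⟨mem_univ _, h w (mem_filter.1 hw).2⟩

theorem rep_load_le1 {σ σ' : V → V} {c : V} (x : V) (h : ∀ w, σ' w = c → σ w = c ∨ w = x) :
    load σ' c ≤ load σ c + 1 := by
  refine le_trans (card_le_card ?_) (card_insert_le x (univ.filter fun v => σ v = c))
  intro w hw
  rcases h w (mem_filter.1 hw).2 with h1 | h1
  · exact mem_insert_of_mem (mem_filter.2 ⟨mem_univ _, h1⟩)
  · exact h1 ▸ mem_insert_self _ _

theorem rep_upd_le (σ : V → V) (v w : V) {c : V} (hc : c ≠ w) :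
    load (Function.update σ v w) c ≤ load σ c := by
  refine rep_load_le fun x hx => ?_
  by_cases hxv : x = v
  · subst hxv
    rw [Function.update_self] at hx
    exact absurd hx.symm hc
  · rwa [Function.update_of_ne hxv] at hx

theorem rep_upd_le1 (σ : V → V) (v w c : V) :
    load (Function.update σ v w) c ≤ load σ c + 1 := by
  refine rep_load_le1 v fun x hx => ?_
  by_cases hxv : x = v
  · exact Or.inr hxv
  · rw [Function.update_of_ne hxv] at hx
    exact Or.inl hx

theorem rep_upd_lt {σ : V → V} {v w b : V} (hv : σ v = b) (hw : w ≠ b) :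
    load (Function.update σ v w) b + 1 ≤ load σ b := by
  refine Nat.succ_le_of_lt (card_lt_card ⟨fun x hx => ?_, fun hsub => ?_⟩)
  · have hx' := (mem_filter.1 hx).2
    refine mem_filter.2 ⟨mem_univ _, ?_⟩
    by_cases hxv : x = v
    · rw [hxv, hv]
    · rwa [Function.update_of_ne hxv] at hx'
  · have h1 := (mem_filter.1 (hsub (mem_filter.2 ⟨mem_univ v, hv⟩))).2
    rw [Function.update_self] at h1
    exact hw h1

theorem rep_unique {σ : V → V} {v x b : V} (h : load σ b ≤ 1) (hv : σ v = b) (hx : σ x = b) :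
    x = v :=
  card_le_one.1 h x (mem_filter.2 ⟨mem_univ _, hx⟩) v (mem_filter.2 ⟨mem_univ _, hv⟩)

theorem rep_bad_erase (S : Finset V) (x : V) : bad R (S.erase x) ⊆ bad R S := fun _ hc =>
  rep_mem_bad.2 ⟨mem_of_mem_erase (rep_mem_bad.1 hc).1,
    fun u hu => mem_of_mem_erase ((rep_mem_bad.1 hc).2 u hu)⟩

theorem rep_card_lt {B B' : Finset V} {b : V} (hB : B' ⊆ B) (hb : b ∈ B) (hb' : b ∉ B') :
    B'.card < B.card :=
  card_lt_card ⟨hB, fun h => hb' (h hb)⟩

/-- one move -/
theorem rep_step (hs : Sy R) (h3 : Three R) (S : Finset V) (σ : V → V)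
    (hσ : ∀ v, σ v ∈ S ∧ R v (σ v)) {b : V} (hb : b ∈ bad R S) :
    ∃ (S' : Finset V) (σ' : V → V), (∀ v, σ' v ∈ S' ∧ R v (σ' v)) ∧
      S'.card + ∑ c ∈ bad R S', (load σ' c - 1) ≤ S.card + ∑ c ∈ bad R S, (load σ c - 1) ∧
      ((bad R S').card < (bad R S).card ∨ (bad R S' = bad R S ∧ load σ' b < load σ b)) := by
  classical
  obtain ⟨hbS, hbad⟩ := rep_mem_bad.1 hb
  have hcS : (S.erase b).card + 1 = S.card := card_erase_add_one hbS
  have hbe : b ∉ bad R (S.erase b) := fun h => (notMem_erase b S) (rep_mem_bad.1 h).1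
  by_cases h0 : ∀ v, σ v ≠ b
  · refine ⟨S.erase b, σ, fun v => ⟨mem_erase.2 ⟨h0 v, (hσ v).1⟩, (hσ v).2⟩, ?_,
      Or.inl (rep_card_lt (rep_bad_erase S b) hb hbe)⟩
    have := rep_sum0 (f := load σ) (f' := load σ) (rep_bad_erase (R := R) S b) fun _ _ => le_rfl
    omega
  by_cases h1 : ∃ v b', σ v = b ∧ b' ∈ S ∧ b' ≠ b ∧ R v b'
  · obtain ⟨v, b', hv, hb'S, hb'b, hvb'⟩ := h1
    by_cases hl : load σ b ≤ 1
    · refine ⟨S.erase b, Function.update σ v b', fun x => ?_, ?_,
        Or.inl (rep_card_lt (rep_bad_erase S b) hb hbe)⟩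
      · by_cases hxv : x = v
        · subst hxv
          rw [Function.update_self]
          exact ⟨mem_erase.2 ⟨hb'b, hb'S⟩, hvb'⟩
        · rw [Function.update_of_ne hxv]
          exact ⟨mem_erase.2 ⟨fun e => hxv (rep_unique hl hv e), (hσ x).1⟩, (hσ x).2⟩
      · have := rep_sum1 (f := load σ) (f' := load (Function.update σ v b'))
          (rep_bad_erase (R := R) S b) b' (fun c _ hc => rep_upd_le σ v b' hc)
          (fun _ => rep_upd_le1 σ v b' b')
        omega
    · have hlt := rep_upd_lt hv hb'b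
      refine ⟨S, Function.update σ v b', fun x => ?_, ?_, Or.inr ⟨rfl, hlt⟩⟩
      · by_cases hxv : x = v
        · subst hxv
          rw [Function.update_self]
          exact ⟨hb'S, hvb'⟩
        · rw [Function.update_of_ne hxv]
          exact hσ x
      · rw [← add_sum_erase _ _ hb, ← add_sum_erase (bad R S) (fun c => load σ c - 1) hb]
        have := rep_sum1 (f := load σ) (f' := load (Function.update σ v b'))
          (Subset.refl ((bad R S).erase b)) b' (fun c _ hc => rep_upd_le σ v b' hc)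
          (fun _ => rep_upd_le1 σ v b' b')
        omega
  push Not at h0
  obtain ⟨v, hv⟩ := h0
  have hvb : R v b := hv ▸ (hσ v).2
  have honly : ∀ u, u ∈ S → R v u → u = b := by
    intro u hu hvu
    by_contra hne
    exact h1 ⟨v, u, hv, hu, hne, hvu⟩
  have hvS : v ∈ S := hbad v (hs _ _ hvb)
  by_cases h2 : ∀ w, R w v → ∃ u, u ∈ S ∧ u ≠ v ∧ R w u
  · choose! u hu using h2
    have hcv : (S.erase v).card + 1 = S.card := card_erase_add_one hvS
    have hsub := rep_bad_erase (R := R) S v
    refine ⟨S.erase v, fun w => if σ w = v then u w else σ w, fun x => ?_, ?_, Or.inl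
      (rep_card_lt hsub hb fun h => (notMem_erase v S) ((rep_mem_bad.1 h).2 v (hs _ _ hvb)))⟩
    · by_cases hx : σ x = v
      · have h4 := hu x (hx ▸ (hσ x).2)
        simp only [if_pos hx]
        exact ⟨mem_erase.2 ⟨h4.2.1, h4.1⟩, h4.2.2⟩
      · simp only [if_neg hx]
        exact ⟨mem_erase.2 ⟨hx, (hσ x).1⟩, (hσ x).2⟩
    · have key : ∀ c ∈ bad R (S.erase v), ∀ w, (if σ w = v then u w else σ w) = c →
          σ w = c ∨ (w = b ∧ u b = c) := by
        intro c hc w hw
        by_cases hx : σ w = v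
        · rw [if_pos hx] at hw
          have hwv : R w v := hx ▸ (hσ w).2
          have h4 := hu w hwv
          have hwS : w ∈ S := (rep_mem_bad.1 (hsub hc)).2 w (hs _ _ (hw ▸ h4.2.2))
          have hwb : w = b := honly w hwS (hs _ _ hwv)
          exact Or.inr ⟨hwb, hwb ▸ hw⟩
        · rw [if_neg hx] at hw
          exact Or.inl hw
      have := rep_sum1 (f := load σ) (f' := load fun w => if σ w = v then u w else σ w)
        hsub (u b)
        (fun c hc hne => rep_load_le fun w hw =>
          (key c hc w hw).resolve_right fun h => hne h.2.symm)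
        (fun hc => rep_load_le1 b fun w hw => (key _ hc w hw).imp_right fun h => h.1)
      omega
  push Not at h2
  obtain ⟨w, hwv, hw⟩ := h2
  have hwonly : ∀ u, u ∈ S → R w u → u = v := by
    intro u hu hwu
    by_contra hne
    exact hw u hu hne hwu
  have hwb : w ≠ b := by
    rintro rfl
    obtain ⟨u, hu, hu1, -⟩ := h3.third w v v
    exact hu1 (hwonly u (hbad u hu) hu)
  have hwS : w ∉ S := fun h => hwb (honly w h (hs _ _ hwv))
  have hbadsub : ∀ T : Finset V, T ⊆ S → bad R (insert w T) ⊆ bad R T := by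
    intro T hT c hc
    obtain ⟨hc1, hc2⟩ := rep_mem_bad.1 hc
    have hcw : c ≠ w := by
      rintro rfl
      obtain ⟨u, hu, hu1, hu2⟩ := h3.third c v c
      exact hu1 (hwonly u (hT ((mem_insert.1 (hc2 u hu)).resolve_left hu2)) hu)
    have hcT : c ∈ T := (mem_insert.1 hc1).resolve_left hcw
    refine rep_mem_bad.2 ⟨hcT, fun u hu => (mem_insert.1 (hc2 u hu)).resolve_left ?_⟩
    rintro rfl
    have hcv : c = v := hwonly c (hT hcT) (hs _ _ hu)
    subst hcv
    obtain ⟨y, hy, hy1, hy2⟩ := h3.third c b u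
    exact hy1 (honly y (hT ((mem_insert.1 (hc2 y hy)).resolve_left hy2)) hy)
  have hnw : ∀ c ∈ bad R S, c ≠ w := fun c hc e => hwS (e ▸ (rep_mem_bad.1 hc).1)
  by_cases hl : load σ b ≤ 1
  · have hsub : bad R (insert w (S.erase b)) ⊆ bad R (S.erase b) :=
      hbadsub _ (erase_subset b S)
    have hsub2 := hsub.trans (rep_bad_erase S b)
    refine ⟨insert w (S.erase b), Function.update σ v w, fun x => ?_, ?_,
      Or.inl (rep_card_lt hsub2 hb fun h => hbe (hsub h))⟩
    · by_cases hxv : x = v
      · subst hxv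
        rw [Function.update_self]
        exact ⟨mem_insert_self _ _, hs _ _ hwv⟩
      · rw [Function.update_of_ne hxv]
        exact ⟨mem_insert_of_mem
          (mem_erase.2 ⟨fun e => hxv (rep_unique hl hv e), (hσ x).1⟩), (hσ x).2⟩
    · have h5 := rep_sum0 (f := load σ) (f' := load (Function.update σ v w)) hsub2
        fun c hc => rep_upd_le σ v w (hnw c (hsub2 hc))
      have h6 := card_insert_le w (S.erase b)
      omega
  · have heq : bad R (insert w S) = bad R S := by
      refine Subset.antisymm (hbadsub S (Subset.refl S)) fun c hc => ?_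
      exact rep_mem_bad.2 ⟨mem_insert_of_mem (rep_mem_bad.1 hc).1,
        fun u hu => mem_insert_of_mem ((rep_mem_bad.1 hc).2 u hu)⟩
    have hlt := rep_upd_lt hv hwb
    refine ⟨insert w S, Function.update σ v w, fun x => ?_, ?_, Or.inr ⟨heq, hlt⟩⟩
    · by_cases hxv : x = v
      · subst hxv
        rw [Function.update_self]
        exact ⟨mem_insert_self _ _, hs _ _ hwv⟩
      · rw [Function.update_of_ne hxv]
        exact ⟨mem_insert_of_mem (hσ x).1, (hσ x).2⟩
    · rw [heq, ← add_sum_erase _ _ hb, ← add_sum_erase (bad R S) (fun c => load σ c - 1) hb]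
      have h5 := rep_sum0 (f := load σ) (f' := load (Function.update σ v w))
        (Subset.refl ((bad R S).erase b))
        fun c hc => rep_upd_le σ v w (hnw c (mem_of_mem_erase hc))
      have h6 := card_insert_le w S
      omega

/-- Repair lemma. State `(S, σ)`, potential `Φ = |S| + ∑ b ∈ bad, (load b - 1)` (truncated
subtraction). Outer induction on `(bad R S).card`, inner induction on `load σ b` for a fixed
bad `b`; every move keeps `Φ` from growing and either makes the bad set smaller (a subset of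
`bad \ {b}`) or keeps the bad set and lowers `load b`.
* `load b = 0`: remove `b`.
* a client `v` of `b` has another neighbour `b' ∈ S`: put `σ v = b'` (the load of `b'` grows by
  one); if `load b = 1` remove `b` as well.
* otherwise take a client `v`; `b` is its only neighbour in `S`; `v ∈ S` as `b` is bad, `v ≠ b`
  by `Three`. If no `w` has `v` as its only neighbour in `S`: remove `v` and give every client
  `w` of `v` another neighbour in `S`; such `w` is `b` or lies outside `S`, and in the second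
  case its new server is not bad, so only one load of a bad vertex grows.
* otherwise let `w` have `v` as its only neighbour in `S`; `w ≠ b` by `Three`, so `w ∉ S`.
  If `load b ≥ 2` add `w` and put `σ v = w` (bad set unchanged, by `Three.third` for `v` and
  `w`). If `load b = 1` replace `b` by `w` and put `σ v = w`. -/
theorem repair (hs : Sy R) (h3 : Three R) (S : Finset V) (σ : V → V)
    (hσ : ∀ v, σ v ∈ S ∧ R v (σ v)) :
    ∃ S', Valid R S' ∧ S'.card ≤ S.card + ∑ b ∈ bad R S, (load σ b - 1) := by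
  have main : ∀ (k m : ℕ) (S : Finset V) (σ : V → V), (∀ v, σ v ∈ S ∧ R v (σ v)) →
      (bad R S).card = k → (k = 0 ∨ ∃ b ∈ bad R S, load σ b = m) →
      ∃ S', Valid R S' ∧ S'.card ≤ S.card + ∑ b ∈ bad R S, (load σ b - 1) := by
    intro k
    induction k using Nat.strong_induction_on with
    | _ k ihk =>
      intro m
      induction m using Nat.strong_induction_on with
      | _ m ihm =>
        intro S σ hσ hk hm
        rcases hm with h0 | ⟨b, hb, hm⟩
        · refine ⟨S, ⟨fun v => ⟨σ v, hσ v⟩, fun v hv => ?_⟩, Nat.le_add_right _ _⟩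
          by_contra hcon
          push Not at hcon
          have : v ∈ bad R S := rep_mem_bad.2 ⟨hv, fun u hu => by
            by_contra hu'
            exact hcon u hu' hu⟩
          rw [card_eq_zero.1 (hk.trans h0)] at this
          exact notMem_empty v this
        · obtain ⟨S', σ', hσ', hΦ, hlt⟩ := rep_step hs h3 S σ hσ hb
          rcases hlt with hlt | ⟨heq, hlt⟩
          · have h1 : (bad R S').card = 0 ∨ ∃ b' , b' ∈ bad R S' := by
              rcases (bad R S').eq_empty_or_nonempty with h | h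
              · exact Or.inl (by rw [h, card_empty])
              · exact Or.inr h
            rcases h1 with h1 | ⟨b', hb'⟩
            · obtain ⟨T, hT, hc⟩ := ihk _ (hk ▸ hlt) 0 S' σ' hσ' rfl (Or.inl h1)
              exact ⟨T, hT, hc.trans hΦ⟩
            · obtain ⟨T, hT, hc⟩ := ihk _ (hk ▸ hlt) _ S' σ' hσ' rfl (Or.inr ⟨b', hb', rfl⟩)
              exact ⟨T, hT, hc.trans hΦ⟩
          · obtain ⟨T, hT, hc⟩ := ihm _ (hm ▸ hlt) S' σ' hσ' (heq ▸ hk)
              (Or.inr ⟨b, heq ▸ hb, rfl⟩)
            exact ⟨T, hT, hc.trans hΦ⟩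
  rcases (bad R S).eq_empty_or_nonempty with h | ⟨b, hb⟩
  · exact main _ 0 S σ hσ rfl (Or.inl (by rw [h, card_empty]))
  · exact main _ _ S σ hσ rfl (Or.inr ⟨b, hb, rfl⟩)

/-- If bad vertices have at most one client, there is a valid set that is no larger. -/
theorem repair1 (hs : Sy R) (h3 : Three R) (S : Finset V) (σ : V → V)
    (hσ : ∀ v, σ v ∈ S ∧ R v (σ v))
    (h1 : ∀ b ∈ S, (∀ u, R b u → u ∈ S) → ∀ v v', σ v = b → σ v' = b → v = v') :
    ∃ S', Valid R S' ∧ S'.card ≤ S.card := by
  obtain ⟨S', hS', hc⟩ := repair hs h3 S σ hσ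
  refine ⟨S', hS', ?_⟩
  have : ∑ b ∈ bad R S, (load σ b - 1) = 0 := by
    refine sum_eq_zero fun b hb => Nat.sub_eq_zero_of_le ?_
    obtain ⟨hb1, hb2⟩ := rep_mem_bad.1 hb
    exact card_le_one.2 fun v hv v' hv' =>
      h1 b hb1 hb2 v v' (mem_filter.1 hv).2 (mem_filter.1 hv').2
  omega

end Pool.Agent.Lib.MP_59216f_co.TD
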