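import Pool.Agent.Lib.MP_59216f_co.GBasic
import Pool.Agent.Lib.MP_59216f_co.GEar
import Pool.Agent.Lib.MP_59216f_co.GOrb

set_option autoImplicit false
set_option linter.unusedSectionVars false

namespace Pool.Agent.Lib.MP_59216f_co.TD

open Finset

variable {V : Type} [Fintype V] [DecidableEq V] {R : V → V → Prop}

theorem gshift_count (hs : Sy R) (h1 : Sur R 1) (hc : Conn R) {Sg Ev Od : Finset V} {u : V}
    (hne : Sg.Nonempty) (hd : Disjoint Sg Ev) (hu : u ∉ Sg) (hu' : u ∉ Ev)
    (hcard : Od.card ≤ Ev.card) (h : ∀ y, (y ∈ Sg ∨ y ∈ Ev) → ∀ v, R y v → v ∈ Sg ∨ v ∈ Od) :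
    False := by
  have h2 := fi hs h1 hc (Y := Sg ∪ Ev) (hne.mono subset_union_left) (fun e => by
    have : u ∈ Sg ∪ Ev := e ▸ mem_univ u
    rcases mem_union.1 this with h3 | h3
    · exact hu h3
    · exact hu' h3)
  have h3 : nb R (Sg ∪ Ev) ⊆ Sg ∪ Od := by
    intro v hv
    obtain ⟨y, hy, hyv⟩ := mem_nb.1 hv
    exact mem_union.2 (h y (mem_union.1 hy) v hyv)
  have h4 := card_le_card h3
  have h5 := card_union_le Sg Od
  rw [card_union_of_disjoint hd] at h2
  omega

theorem gshift_notMem {l L : List V} {e : V} (h : Cover R (l ++ e :: L)) : e ∉ L :=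
  (List.nodup_cons.1 (List.nodup_append.1 h.1).2.1).1

theorem gshift_even {b s : V} {t t' : List V} (hp : (b :: t).Perm (s :: t')) (he : Even t.length) :
    Even t'.length := by
  have := hp.length_eq
  simp only [List.length_cons, Nat.add_right_cancel_iff] at this
  rwa [← this]

theorem gshift_even_cons {s : V} {l : List V} (h : Odd l.length) : Even (s :: l).length := by
  rw [List.length_cons]
  exact h.add_one

/-- A vertex adjacent to a union of odd cycles with the rest matched contradicts `NBadj`
(`Cover.covL`, `CovL.perm`, `CovL.dropCov`). -/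
theorem nbadj_oddU (hb : NBadj R) {O : List V} (hO : OddU R O) {y u : V} (hu : u ∈ O)
    (hyu : R y u) : ¬ Cover R (y :: O) := by
  intro h
  obtain ⟨t, O', h1, he, hp, h4⟩ := hO u hu
  have h2 : CovL R (O' ++ y :: u :: t) := by
    refine (h.covL.perm (hp.cons y)).perm ?_
    apply perm_ms
    simp only [← Multiset.cons_coe, ← Multiset.coe_add, Multiset.coe_nil,
      ← Multiset.singleton_add]
    abel
  exact hb y u t hyu h1 he (h2.dropCov h4)

/-- Blossom state. `ear` with `L = b :: t ++ O`, `Sg = (b :: t).toFinset`. First alternative: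
`l = v1 :: l'`; drop `l'`, the new cycle and `O`; turn the cycle with `cy_head`; `NBadj` for `v1`.
Second alternative: `Y = Sg ∪ Ev`; if a member of `Y` has a neighbour in `O`, rematch and use
`nbadj_oddU`; otherwise `nb Y ⊆ Sg ∪ Od` contradicts `fi`, as `Y` misses `O`. -/
theorem shift_blossom (hs : Sy R) (h1 : Sur R 1) (hc : Conn R) (hb : NBadj R) {O t : List V}
    {b : V} (hO : OddU R O) (hne : O ≠ []) (hcy : Ch R b t b) (he : Even t.length) :
    ¬ Cover R (b :: t ++ O) := by
  intro h
  have hnO : O.Nodup := (List.nodup_append.1 h.1).2.1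
  rcases ear h (b :: t).toFinset with ⟨s, hsm, l, b', t', h2, h3, ho, he', hcov⟩ |
    ⟨Ev, Od, hcard, -, hEv, hnb⟩
  · obtain ⟨t'', h4, hp⟩ := cy_head hcy (List.mem_toFinset.1 hsm)
    cases l with
    | nil => simp at ho
    | cons v1 l' =>
      have hl' : Even l'.length := by
        rw [List.length_cons, Nat.odd_iff] at ho
        rw [Nat.even_iff]
        omega
      have h5 : Cover R (l' ++ (b' :: t' ++ (O ++ v1 :: b :: t))) := by
        refine hcov.perm ?_
        apply perm_ms
        simp only [← Multiset.cons_coe, ← Multiset.coe_add, Multiset.coe_nil,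
          ← Multiset.singleton_add]
        abel
      have h6 := ((Cover.drop hs h5 h2.2.chain hl').covL.dropCy (s := b' :: t') h3).dropCov
        (hO.cov hnO)
      exact hb v1 s t'' (hs _ _ h2.1) h4 (gshift_even hp he) (h6.perm (hp.cons v1))
  · obtain ⟨u, hu⟩ := List.exists_mem_of_ne_nil O hne
    have huL : u ∈ b :: t ++ O := List.mem_append_right _ hu
    refine gshift_count hs h1 hc (Sg := (b :: t).toFinset) (Ev := Ev) (Od := Od) (u := u)
      ⟨b, by simp⟩ ?_ ?_ ?_ hcard ?_
    · rw [disjoint_left]
      intro e he1 he2
      obtain ⟨s, -, l, -, -, hcov⟩ := hEv e he2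
      exact gshift_notMem hcov (List.mem_append_left _ (List.mem_toFinset.1 he1))
    · intro hm
      exact (List.nodup_append.1 h.1).2.2 u (List.mem_toFinset.1 hm) u hu rfl
    · intro hm
      obtain ⟨s, -, l, -, -, hcov⟩ := hEv u hm
      exact gshift_notMem hcov huL
    · intro y hy v hyv
      rcases hnb y hy v hyv with hv | hv
      · rcases List.mem_append.1 hv with hv | hv
        · exact Or.inl (List.mem_toFinset.2 hv)
        · exfalso
          refine nbadj_oddU hb hO hv hyv ?_
          rcases hy with hy | hy
          · obtain ⟨t'', h4, hp⟩ := cy_head hcy (List.mem_toFinset.1 hy)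
            have h5 : Cover R (t'' ++ y :: O) := by
              refine (h.perm (hp.append_right O)).perm ?_
              apply perm_ms
              simp only [← Multiset.cons_coe, ← Multiset.coe_add, Multiset.coe_nil,
                ← Multiset.singleton_add]
              abel
            exact Cover.drop hs h5 h4.chain (gshift_even hp he)
          · obtain ⟨s, hsm, l, h2, ho, hcov⟩ := hEv y hy
            obtain ⟨t'', h4, hp⟩ := cy_head hcy (List.mem_toFinset.1 hsm)
            have h5 : Cover R (s :: l ++ (t'' ++ y :: O)) := by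
              refine (hcov.perm (((hp.append_right O).cons y).append_left l)).perm ?_
              apply perm_ms
              simp only [← Multiset.cons_coe, ← Multiset.coe_add, Multiset.coe_nil,
                ← Multiset.singleton_add]
              abel
            exact Cover.drop hs (Cover.drop hs h5 h2.chain_cons (gshift_even_cons ho)) h4.chain
              (gshift_even hp he)
      · exact Or.inr hv

/-- `ear` with `L = i :: O`, `Sg = {i}`. First alternative: drop the even path `i :: l` and use
`shift_blossom`. Second alternative: as above with `Y = insert i Ev`. -/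
theorem shift_single (hs : Sy R) (h1 : Sur R 1) (hc : Conn R) (hb : NBadj R) {O : List V}
    {i : V} (hO : OddU R O) (hne : O ≠ []) : ¬ Cover R (i :: O) := by
  intro h
  rcases ear h {i} with ⟨s, hsm, l, b, t, h2, h3, ho, he, hcov⟩ | ⟨Ev, Od, hcard, -, hEv, hnb⟩
  · obtain rfl := mem_singleton.1 hsm
    have h5 : Cover R (s :: l ++ (b :: t ++ O)) := by
      refine hcov.perm ?_
      apply perm_ms
      simp only [← Multiset.cons_coe, ← Multiset.coe_add, Multiset.coe_nil,
        ← Multiset.singleton_add]
      abel
    exact shift_blossom hs h1 hc hb hO hne h3 he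
      (Cover.drop hs h5 h2.chain_cons (gshift_even_cons ho))
  · obtain ⟨u, hu⟩ := List.exists_mem_of_ne_nil O hne
    refine gshift_count hs h1 hc (Sg := {i}) (Ev := Ev) (Od := Od) (u := u)
      ⟨i, mem_singleton_self i⟩ ?_ ?_ ?_ hcard ?_
    · rw [disjoint_left]
      intro e he1 he2
      obtain ⟨s, -, l, -, -, hcov⟩ := hEv e he2
      exact gshift_notMem hcov (mem_singleton.1 he1 ▸ List.mem_cons_self)
    · intro hm
      exact (List.nodup_cons.1 h.1).1 (mem_singleton.1 hm ▸ hu)
    · intro hm
      obtain ⟨s, -, l, -, -, hcov⟩ := hEv u hm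
      exact gshift_notMem hcov (List.mem_cons_of_mem _ hu)
    · intro y hy v hyv
      rcases hnb y hy v hyv with hv | hv
      · rcases List.mem_cons.1 hv with hv | hv
        · exact Or.inl (mem_singleton.2 hv)
        · exfalso
          refine nbadj_oddU hb hO hv hyv ?_
          rcases hy with hy | hy
          · exact mem_singleton.1 hy ▸ h
          · obtain ⟨s, hsm, l, h2, ho, hcov⟩ := hEv y hy
            obtain rfl := mem_singleton.1 hsm
            have h5 : Cover R (s :: l ++ y :: O) := by
              refine hcov.perm ?_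
              apply perm_ms
              simp only [← Multiset.cons_coe, ← Multiset.coe_add, Multiset.coe_nil,
                ← Multiset.singleton_add]
              abel
            exact Cover.drop hs h5 h2.chain_cons (gshift_even_cons ho)
      · exact Or.inr hv

/-- Shift lemma: `decomp` for `L = i :: u :: t`, `OddU.cons`, `shift_single`. -/
theorem nb_of_nbadj (hs : Sy R) (h1 : Sur R 1) (hc : Conn R) (hb : NBadj R) : NB R := by
  intro i u t hcy he h
  obtain ⟨O, hO, hcov⟩ := decomp hs h
  have h2 : Cover R (i :: (u :: t ++ O)) := by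
    refine hcov.perm ?_
    apply perm_ms
    simp only [← Multiset.cons_coe, ← Multiset.coe_add, Multiset.coe_nil,
      ← Multiset.singleton_add]
    abel
  exact shift_single hs h1 hc hb (hO.cons hcy he (List.nodup_cons.1 h2.1).2) (by simp) h2

/-- The graph minus a vertex has a perfect matching: `decomp` for `covL_single z`; a member of
`O` would contradict `NB`. -/
theorem cover_single (hs : Sy R) (h1 : Sur R 1) (hc : Conn R) (hb : NB R) (z : V) :
    Cover R [z] := by
  obtain ⟨O, hO, hcov⟩ := decomp hs (covL_single hs h1 hc z)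
  cases O with
  | nil => exact hcov
  | cons u O =>
    exfalso
    obtain ⟨t, O', h2, he, hp, h4⟩ := hO u List.mem_cons_self
    have h5 : CovL R (O' ++ z :: u :: t) := by
      refine (hcov.covL.perm (hp.append_right [z])).perm ?_
      apply perm_ms
      simp only [← Multiset.cons_coe, ← Multiset.coe_add, Multiset.coe_nil,
        ← Multiset.singleton_add]
      abel
    exact hb z u t h2 he (h5.dropCov h4)

end Pool.Agent.Lib.MP_59216f_co.TD
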