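import Pool.Agent.Lib.MP_59216f_co.GBlos

set_option autoImplicit false
set_option linter.unusedSectionVars false
set_option linter.unusedSimpArgs false

namespace Pool.Agent.Lib.MP_59216f_co.TD

open Finset

variable {V : Type} [Fintype V] [DecidableEq V] {R : V → V → Prop}

theorem Theta.swap {z x y : V} {s1 s2 p : List V} (h : Theta R z x y s1 s2 p) :
    Theta R z x y s2 s1 p := by
  exact ⟨h.h2, h.h1, h.hp, h.o2, h.o1, h.ep, h.cov.perm (by
    apply perm_ms
    simp only [← Multiset.cons_coe, ← Multiset.coe_add, Multiset.coe_reverse, Multiset.coe_nil,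
      ← Multiset.singleton_add]
    abel)⟩

theorem Theta.rev (hs : Sy R) {z x y : V} {s1 s2 p : List V} (h : Theta R z x y s1 s2 p) :
    Theta R z y x s1.reverse s2.reverse p.reverse := by
  exact ⟨h.h1.rev hs, h.h2.rev hs, h.hp.rev hs, by simpa using h.o1, by simpa using h.o2,
    by simpa using h.ep, h.cov.perm (by
      apply perm_ms
      simp only [← Multiset.cons_coe, ← Multiset.coe_add, Multiset.coe_reverse, Multiset.coe_nil,
        ← Multiset.singleton_add]
      abel)⟩

theorem gtheta_cy (hs : Sy R) {z x y : V} {s1 s2 p : List V} (h : Theta R z x y s1 s2 p) :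
    Ch R x (s2 ++ y :: p.reverse) x :=
  ch_append.2 ⟨h.h2, h.hp.rev hs⟩

theorem gtheta_two (hs : Sy R) (hb : NB R) {z x y o : V} {s1 l1 l2 s2 p t : List V}
    (h : Theta R z x y s1 s2 p) (c1 : List.IsChain R l1) (c2 : List.IsChain R l2)
    (e1 : Even l1.length) (e2 : Even l2.length) (ht : Ch R o t o) (et : Even t.length) :
    ¬ Cover R (l1 ++ (l2 ++ z :: (o :: t ++ x :: (s2 ++ y :: p.reverse)))) := fun hc =>
  no_barbell hb ht et (gtheta_cy hs h) ((hc.drop hs c1 e1).drop hs c2 e2)

theorem gtheta_far (hs : Sy R) (hb : NB R) {z x y o o' : V} {l1 m l2 s2 p r : List V}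
    (h : Theta R z x y (l1 ++ o :: (m ++ o' :: l2)) s2 p) (e1 : Even l1.length)
    (e2 : Even (l1 ++ o :: m).length) (hr : Ch R o r o') (er : Even r.length) :
    ¬ Cover R (r ++ (z :: x :: y :: ((l1 ++ o :: (m ++ o' :: l2)) ++ s2 ++ p))) := by
  intro hc
  have h1 := h.h1
  have o1 := h.o1
  simp only [ch_append] at h1
  refine gtheta_two hs hb h h1.1.chain h1.2.2.chain e1 ?_
    (ch_append.2 ⟨hr, h1.2.1.rev hs⟩) ?_ (hc.perm (by
      apply perm_ms
      simp only [← Multiset.cons_coe, ← Multiset.coe_add, Multiset.coe_reverse, Multiset.coe_nil,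
        ← Multiset.singleton_add]
      abel))
  all_goals
    simp only [List.length_append, List.length_cons, List.length_reverse, Nat.even_iff,
        Nat.odd_iff] at *
    omega

/-- An ear from `o` (at an even index of `s1`) with stem `l` and a blossom: the cycle
`x, s2, y, p` and the blossom are disjoint odd cycles, `l1`, `l2`, `o :: l` are even paths. -/
theorem Theta.no_stem (hs : Sy R) (hb : NB R) {z x y o b : V} {l1 l2 s2 p l t : List V}
    (h : Theta R z x y (l1 ++ o :: l2) s2 p) (e1 : Even l1.length) (hl : Ch R o l b)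
    (ht : Ch R b t b) (ol : Odd l.length) (et : Even t.length) :
    ¬ Cover R (l ++ b :: t ++ (z :: x :: y :: ((l1 ++ o :: l2) ++ s2 ++ p))) := by
  intro hc
  have h1 := h.h1
  have o1 := h.o1
  simp only [ch_append] at h1
  refine gtheta_two hs hb h h1.1.chain h1.2.chain e1 ?_ ht et
    (Cover.drop hs (hc.perm (by
      apply perm_ms
      simp only [← Multiset.cons_coe, ← Multiset.coe_add, Multiset.coe_reverse, Multiset.coe_nil,
        ← Multiset.singleton_add]
      abel)) hl.chain_cons ?_)
  all_goals
    simp only [List.length_append, List.length_cons, List.length_reverse, Nat.even_iff,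
        Nat.odd_iff] at *
    omega

/-- An even ear `r` from `o` to `o'`, both at even indices of `s1` (possibly `o = o'`): it closes
an odd cycle disjoint from the odd cycle `x, s2, y, p`. Cases: `l1 = l1'` (same vertex), or one
of `l1`, `l1'` is a proper initial part of the other (`List.append_eq_append_iff`). -/
theorem Theta.no_same (hs : Sy R) (hb : NB R) {z x y o o' : V}
    {s1 l1 l2 l1' l2' s2 p r : List V} (h : Theta R z x y s1 s2 p)
    (d1 : s1 = l1 ++ o :: l2) (d2 : s1 = l1' ++ o' :: l2') (e1 : Even l1.length)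
    (e2 : Even l1'.length) (hr : Ch R o r o') (er : Even r.length) :
    ¬ Cover R (r ++ (z :: x :: y :: (s1 ++ s2 ++ p))) := by
  subst d1
  rcases List.append_eq_append_iff.1 d2 with ⟨a, ha, hb'⟩ | ⟨a, ha, hb'⟩ <;> rcases a with _ | ⟨c, m⟩
  · obtain ⟨rfl, rfl⟩ := List.cons.inj hb'
    intro hc
    have h1 := h.h1
    have o1 := h.o1
    simp only [ch_append] at h1
    refine gtheta_two hs hb h h1.1.chain h1.2.chain e1 ?_ hr er (hc.perm (by
      apply perm_ms
      simp only [← Multiset.cons_coe, ← Multiset.coe_add, Multiset.coe_reverse, Multiset.coe_nil,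
        ← Multiset.singleton_add]
      abel))
    simp only [List.length_append, List.length_cons, List.length_reverse, Nat.even_iff,
        Nat.odd_iff] at *
    omega
  · obtain ⟨rfl, rfl⟩ := List.cons.inj hb'
    exact gtheta_far hs hb h e1 (ha ▸ e2) hr er
  · obtain ⟨rfl, rfl⟩ := List.cons.inj hb'
    intro hc
    have h1 := h.h1
    have o1 := h.o1
    simp only [ch_append] at h1
    refine gtheta_two hs hb h h1.1.chain h1.2.chain e1 ?_ hr er (hc.perm (by
      apply perm_ms
      simp only [← Multiset.cons_coe, ← Multiset.coe_add, Multiset.coe_reverse, Multiset.coe_nil,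
        ← Multiset.singleton_add]
      abel))
    simp only [List.length_append, List.length_cons, List.length_reverse, Nat.even_iff,
        Nat.odd_iff] at *
    omega
  · obtain ⟨rfl, rfl⟩ := List.cons.inj hb'
    rw [d2] at h ⊢
    intro hc
    exact gtheta_far hs hb h e2 (ha ▸ e1) (hr.rev hs) (by simpa using er)
      (hc.perm ((List.reverse_perm r).symm.append_right _))

/-- An even ear from `s1` to `s2` gives the frame with corners `x, o, y, o'`. -/
theorem Theta.frame (hs : Sy R) {z x y o o' : V} {l1 l2 k1 k2 p r : List V}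
    (h : Theta R z x y (l1 ++ o :: l2) (k1 ++ o' :: k2) p) (e1 : Even l1.length)
    (e2 : Even k1.length) (hr : Ch R o r o') (er : Even r.length)
    (hcov : Cover R (r ++ (z :: x :: y :: ((l1 ++ o :: l2) ++ (k1 ++ o' :: k2) ++ p)))) :
    Frame R z x o y o' l1 l2 k2.reverse k1.reverse p r := by
  have h1 := h.h1
  have h2 := h.h2
  have o1 := h.o1
  have o2 := h.o2
  simp only [ch_append] at h1 h2
  refine ⟨h1.1, h1.2, h2.2.rev hs, h2.1.rev hs, h.hp, hr, e1, ?_, ?_, ?_, h.ep, er,
    hcov.perm (by
      apply perm_ms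
      simp only [← Multiset.cons_coe, ← Multiset.coe_add, Multiset.coe_reverse, Multiset.coe_nil,
        ← Multiset.singleton_add]
      abel)⟩
  all_goals
    simp only [List.length_append, List.length_cons, List.length_reverse, Nat.even_iff,
        Nat.odd_iff] at *
    omega

/-- An even ear from `s1` to `w ∈ p` gives a theta with a shorter `p`. If `p1` is even:
`Theta z x w (l1 ++ o :: r) (s2 ++ y :: p2.reverse) p1`, drop `l2`. Otherwise `p2` is even:
`Theta z w y (r.reverse ++ o :: l2) (p1.reverse ++ x :: s2) p2`, drop `l1`. -/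
theorem Theta.shorter (hs : Sy R) {z x y o w : V} {l1 l2 s2 p1 p2 r : List V}
    (h : Theta R z x y (l1 ++ o :: l2) s2 (p1 ++ w :: p2)) (e1 : Even l1.length)
    (hr : Ch R o r w) (er : Even r.length)
    (hcov : Cover R (r ++ (z :: x :: y :: ((l1 ++ o :: l2) ++ s2 ++ (p1 ++ w :: p2))))) :
    ∃ (x' y' : V) (s1' s2' p' : List V), Theta R z x' y' s1' s2' p' ∧
      p'.length < (p1 ++ w :: p2).length := by
  have h1 := h.h1
  have hp := h.hp
  have o1 := h.o1
  have o2 := h.o2
  have ep := h.ep
  simp only [ch_append] at h1 hp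
  rcases Nat.even_or_odd p1.length with e2 | e2
  · refine ⟨x, w, l1 ++ o :: r, s2 ++ y :: p2.reverse, p1, ⟨ch_append.2 ⟨h1.1, hr⟩,
      ch_append.2 ⟨h.h2, hp.2.rev hs⟩, hp.1, ?_, ?_, e2,
      Cover.drop hs (hcov.perm (by
        apply perm_ms
        simp only [← Multiset.cons_coe, ← Multiset.coe_add, Multiset.coe_reverse, Multiset.coe_nil,
          ← Multiset.singleton_add]
        abel)) h1.2.chain ?_⟩, ?_⟩
    all_goals
      simp only [List.length_append, List.length_cons, List.length_reverse, Nat.even_iff,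
        Nat.odd_iff] at *
      omega
  · refine ⟨w, y, r.reverse ++ o :: l2, p1.reverse ++ x :: s2, p2, ⟨ch_append.2 ⟨hr.rev hs, h1.2⟩,
      ch_append.2 ⟨hp.1.rev hs, h.h2⟩, hp.2, ?_, ?_, ?_,
      Cover.drop hs (hcov.perm (by
        apply perm_ms
        simp only [← Multiset.cons_coe, ← Multiset.coe_add, Multiset.coe_reverse, Multiset.coe_nil,
          ← Multiset.singleton_add]
        abel)) h1.1.chain e1⟩, ?_⟩
    all_goals
      simp only [List.length_append, List.length_cons, List.length_reverse, Nat.even_iff,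
        Nat.odd_iff] at *
      omega

end Pool.Agent.Lib.MP_59216f_co.TD
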