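import Pool.Agent.Lib.MP_59216f_co.GProp

set_option autoImplicit false
set_option linter.unusedSectionVars false

namespace Pool.Agent.Lib.MP_59216f_co.TD

open Finset

variable {V : Type} [Fintype V] [DecidableEq V] {R : V → V → Prop}

/-- Set up for a tight independent set `X`, `A = nb R X`, `Rs = univ \ (X ∪ A)`.
* Some `a0 ∈ A` has a neighbour outside `X`: otherwise `A` is independent with `nb A ⊆ X`.
* `hall_bij` for `X` and `A.erase a0` (subsets of `X` are independent, `Sur R 1`); note that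
  `hall_bij` calls the map from rows to points `ι`, here it is `μ`.
* `prop_rank` with rows `X`, `Q = R`, `m = μ` (`fi_exp`, or `Sur R 1` directly); `colour_ext`.
* `Rs` has a permutation along edges: for `Y ⊆ Rs` apply `fi` to `Y ∪ X`, whose neighbourhood is
  contained in `(nb Y ∩ Rs) ∪ A`; then `extFI` with rows `Rs` keeps the colours on `A`. -/
theorem tight_setup (hs : Sy R) (h1 : Sur R 1) (hc : Conn R) {X : Finset V} (hX : X.Nonempty)
    (hI : Indep R X) (ht : (nb R X).card = X.card + 1) :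
    ∃ (a0 w0 : V) (μ ι s : V → V) (rk : V → ℕ) (c : V → Bool),
      w0 ∉ X ∧ R a0 w0 ∧ TS R X a0 μ ι s rk c := by
  classical
  have hXA : ∀ a ∈ nb R X, a ∉ X := by
    intro a ha haX
    obtain ⟨x, hx, hxa⟩ := mem_nb.1 ha
    exact hI x hx a haX hxa
  obtain ⟨a0, ha0, w0, hw0, hR0⟩ : ∃ a0 ∈ nb R X, ∃ w0, w0 ∉ X ∧ R a0 w0 := by
    by_contra hn
    push Not at hn
    have hall : ∀ a ∈ nb R X, ∀ w, R a w → w ∈ X := by
      intro a ha w hw
      by_contra hwX
      exact hn a ha w hwX hw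
    have hIA : Indep R (nb R X) := fun a ha b hb hab => hXA b hb (hall a ha b hab)
    have hne : (nb R X).Nonempty := card_pos.1 (by omega)
    have h2 := h1 _ hne hIA
    have h3 : nb R (nb R X) ⊆ X := by
      intro w hw
      obtain ⟨a, ha, haw⟩ := mem_nb.1 hw
      exact hall a ha w haw
    have := card_le_card h3
    omega
  have hnbs : ∀ U ⊆ X, nb R U ⊆ nb R X := by
    intro U hU w hw
    obtain ⟨v, hv, hvw⟩ := mem_nb.1 hw
    exact mem_nb.2 ⟨v, hU hv, hvw⟩
  obtain ⟨μ, ι, hμ, hι⟩ := hall_bij (R := R) X ((nb R X).erase a0) (by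
      intro U hU
      rcases U.eq_empty_or_nonempty with rfl | hne
      · simp
      · have h2 := h1 U hne (fun x hx y hy => hI x (hU hx) y (hU hy))
        have h3 : (nb R U).erase a0 ⊆ nb R U ∩ (nb R X).erase a0 := by
          intro w hw
          rw [mem_erase] at hw
          exact mem_inter.2 ⟨hw.2, mem_erase.2 ⟨hw.1, hnbs U hU hw.2⟩⟩
        have h4 := card_le_card h3
        have h5 := pred_card_le_card_erase (s := nb R U) (a := a0)
        omega)
    (by rw [card_erase_of_mem ha0]; omega)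
  have hμinj : Set.InjOn μ (X : Set V) := by
    intro x hx y hy hxy
    rw [← (hμ x hx).2.2, hxy, (hμ y hy).2.2]
  obtain ⟨s, rk, hsr⟩ := prop_rank R μ X (by
    intro U hU hne
    refine fi_exp hs h1 hc hne ?_ μ
    intro e
    exact hXA a0 ha0 (hU (e ▸ mem_univ a0)))
  obtain ⟨c1, -, hc1⟩ := colour_ext μ s rk X hμinj (fun v hv => (hsr v hv).2) (fun _ => true)
  have hRs : ∀ w, w ∈ (univ \ (X ∪ nb R X) : Finset V) ↔ w ∉ X ∧ w ∉ nb R X := by
    intro w
    simp only [mem_sdiff, mem_univ, true_and, mem_union, not_or]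
  obtain ⟨m, hminj, hm⟩ := hall_inj (R := R) (univ \ (X ∪ nb R X)) (univ \ (X ∪ nb R X)) (by
    intro Y hY
    have hne : (Y ∪ X).Nonempty := hX.mono subset_union_right
    have hnu : Y ∪ X ≠ univ := by
      intro e
      have h2 : a0 ∈ Y ∪ X := e ▸ mem_univ a0
      rcases mem_union.1 h2 with h3 | h3
      · exact ((hRs a0).1 (hY h3)).2 ha0
      · exact hXA a0 ha0 h3
    have h2 := fi hs h1 hc hne hnu
    have hd : Disjoint Y X := disjoint_left.2 fun y hy => ((hRs y).1 (hY hy)).1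
    rw [card_union_of_disjoint hd] at h2
    have h3 : nb R (Y ∪ X) ⊆ (nb R Y ∩ (univ \ (X ∪ nb R X))) ∪ nb R X := by
      intro w hw
      obtain ⟨v, hv, hvw⟩ := mem_nb.1 hw
      by_cases hwA : w ∈ nb R X
      · exact mem_union_right _ hwA
      · rcases mem_union.1 hv with h4 | h4
        · refine mem_union_left _ (mem_inter.2 ⟨mem_nb.2 ⟨v, h4, hvw⟩, (hRs w).2 ⟨?_, hwA⟩⟩)
          intro hwX
          exact ((hRs v).1 (hY h4)).2 (mem_nb.2 ⟨w, hwX, hs _ _ hvw⟩)
        · exact absurd (mem_nb.2 ⟨v, h4, hvw⟩) hwA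
    have h4 := (card_le_card h3).trans (card_union_le _ _)
    omega)
  obtain ⟨c, hcc, hcR⟩ := extFI hs h1 hc m (univ \ (X ∪ nb R X)) hminj (by
    intro e
    exact ((hRs a0).1 (by rw [e]; exact mem_univ a0)).2 ha0) c1
  have hkeep : ∀ a ∈ nb R X, c a = c1 a := by
    intro a ha
    refine hcc a fun h => ?_
    obtain ⟨v, hv, rfl⟩ := mem_image.1 h
    exact ((hRs _).1 (hm v hv).1).2 ha
  refine ⟨a0, w0, μ, ι, s, rk, c, hw0, hR0, ha0, fun x hx => ?_, fun a ha hne => ?_,
    fun x hx => ?_, fun r hr hr' => ?_⟩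
  · obtain ⟨e1, e2, e3⟩ := hμ x hx
    exact ⟨(mem_erase.1 e1).2, (mem_erase.1 e1).1, e2, e3⟩
  · exact hι a (mem_erase.2 ⟨hne, ha⟩)
  · have hsA : s x ∈ nb R X := mem_nb.2 ⟨x, hx, (hsr x hx).1⟩
    refine ⟨(hsr x hx).1, ?_, ?_⟩
    · rw [hkeep _ hsA, hkeep _ (mem_erase.1 (hμ x hx).1).2]
      exact hc1 x hx
    · by_cases e : s x = a0
      · exact Or.inl e
      · obtain ⟨e1, e2⟩ := hι (s x) (mem_erase.2 ⟨e, hsA⟩)
        exact Or.inr ⟨ι (s x), e1, e2, (hsr x hx).2 _ e1 e2⟩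
  · have hrR := (hRs r).2 ⟨hr, hr'⟩
    obtain ⟨w, hw, hne⟩ := hcR r hrR
    exact ⟨w, m r, hw, (hm r hrR).2, hne⟩

/-- The chain of tree edges from `x` up to the root; induction on `rk x`. -/
theorem TS.chain {X : Finset V} {a0 : V} {μ ι s : V → V} {rk : V → ℕ} {c : V → Bool}
    (h : TS R X a0 μ ι s rk c) {x : V} (hx : x ∈ X) :
    ∃ K ⊆ X, x ∈ K ∧ (∀ y ∈ K, y ≠ x → ∃ y' ∈ K, s y' = μ y) ∧ ∃ u ∈ K, s u = a0 := by
  induction hn : rk x using Nat.strong_induction_on generalizing x with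
  | _ n ih =>
    rcases (h.src x hx).2.2 with e | ⟨x', hx', e, hlt⟩
    · refine ⟨{x}, singleton_subset_iff.2 hx, mem_singleton_self x, fun y hy hne => ?_,
        x, mem_singleton_self x, e⟩
      exact absurd (mem_singleton.1 hy) hne
    · obtain ⟨K, hK, hxK, hch, u, hu, hu0⟩ := ih (rk x') (hn ▸ hlt) hx' rfl
      refine ⟨insert x K, insert_subset hx hK, mem_insert_self _ _, fun y hy hne => ?_,
        u, mem_insert_of_mem hu, hu0⟩
      have hyK : y ∈ K := (mem_insert.1 hy).resolve_left hne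
      by_cases e' : y = x'
      · exact ⟨x, mem_insert_self _ _, by rw [e', e]⟩
      · obtain ⟨y', hy', e2⟩ := hch y hyK e'
        exact ⟨y', mem_insert_of_mem hy', e2⟩

end Pool.Agent.Lib.MP_59216f_co.TD
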