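import Pool.Agent.Lib.MP_59216f_co.GTightA
import Pool.Agent.Lib.MP_59216f_co.GShare

set_option autoImplicit false
set_option linter.unusedSectionVars false

namespace Pool.Agent.Lib.MP_59216f_co.TD

open Finset

variable {V : Type} [Fintype V] [DecidableEq V] {R : V → V → Prop}

/-- Members of the neighbourhood of an independent set lie outside the set. -/
theorem notMem_of_nb_tightB {X : Finset V} (hI : Indep R X) {a : V} (ha : a ∈ nb R X) :
    a ∉ X := by
  intro haX
  obtain ⟨v, hv, hva⟩ := mem_nb.1 ha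
  exact hI v hv a haX hva

/-- Assembly: colours are fixed outside `X \ K`, the remaining rows of `nb R X` are coloured by
propagation. -/
theorem assemble_tightB {X : Finset V} {a0 : V} {μ ι s : V → V} {rk : V → ℕ} {c : V → Bool}
    (h : TS R X a0 μ ι s rk c) (Q : V → V → Prop) (K : Finset V) (c0 : V → Bool)
    (hfix : ∀ v, ¬ (v ∈ nb R X ∧ v ≠ a0 ∧ ι v ∉ K) → ∃ w w', Q v w ∧ Q v w' ∧
      (w ∈ X → w ∈ K) ∧ (w' ∈ X → w' ∈ K) ∧ c0 w ≠ c0 w')
    (hown : ∀ v ∈ nb R X, v ≠ a0 → ι v ∉ K → Q v (ι v))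
    (hexp : ∀ U : Finset V, U.Nonempty → (∀ v ∈ U, v ∈ nb R X ∧ v ≠ a0) →
      ∃ v ∈ U, ∃ w, Q v w ∧ w ∉ U.image ι) : TwoCol Q := by
  classical
  let Rw : Finset V := (nb R X).filter (fun v => v ≠ a0 ∧ ι v ∉ K)
  have hRw : ∀ v, v ∈ Rw ↔ v ∈ nb R X ∧ v ≠ a0 ∧ ι v ∉ K := fun v => mem_filter
  have hinj : Set.InjOn ι (Rw : Set V) := by
    intro v hv v' hv' e
    have h1 := (hRw v).1 hv
    have h2 := (hRw v').1 hv'
    rw [← (h.io v h1.1 h1.2.1).2, ← (h.io v' h2.1 h2.2.1).2, e]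
  obtain ⟨c', hc1, hc2⟩ := extendQ Q ι Rw hinj (fun U hU hne => hexp U hne (fun v hv =>
    ⟨((hRw v).1 (hU hv)).1, ((hRw v).1 (hU hv)).2.1⟩)) c0
  have hkeep : ∀ w, (w ∈ X → w ∈ K) → c' w = c0 w := by
    intro w hw
    apply hc1
    intro hm
    obtain ⟨v, hv, rfl⟩ := mem_image.1 hm
    have h1 := (hRw v).1 hv
    exact h1.2.2 (hw (h.io v h1.1 h1.2.1).1)
  refine ⟨c', fun v => ?_⟩
  by_cases hv : v ∈ Rw
  · obtain ⟨w, hw, hne⟩ := hc2 v hv
    have h1 := (hRw v).1 hv
    exact ⟨w, ι v, hw, hown v h1.1 h1.2.1 h1.2.2, hne⟩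
  · obtain ⟨w, w', h1, h2, h3, h4, h5⟩ := hfix v (fun hh => hv ((hRw v).2 hh))
    refine ⟨w, w', h1, h2, ?_⟩
    rw [hkeep w h3, hkeep w' h4]
    exact h5

/-- Rows outside `nb R X` see both colours outside `X`. -/
theorem outer_tightB (hs : Sy R) {X : Finset V} {a0 : V} {μ ι s : V → V}
    {rk : V → ℕ} {c : V → Bool} (h : TS R X a0 μ ι s rk c) {v : V} (hv : v ∉ nb R X) :
    ∃ w w', R v w ∧ R v w' ∧ w ∉ X ∧ w' ∉ X ∧ c w ≠ c w' := by
  have hout : ∀ w, R v w → w ∉ X := fun w hw hwX => hv (mem_nb.2 ⟨w, hwX, hs _ _ hw⟩)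
  by_cases hvX : v ∈ X
  · have h1 := (h.mu v hvX).2.2.1
    have h2 := h.src v hvX
    refine ⟨μ v, s v, h1, h2.1, hout _ h1, hout _ h2.1, ?_⟩
    rw [h2.2.1]
    cases c (s v) <;> simp
  · obtain ⟨w, w', h1, h2, h3⟩ := h.rest v hvX hv
    exact ⟨w, w', h1, h2, hout _ h1, hout _ h2, h3⟩

theorem own_tightB (hs : Sy R) {X : Finset V} {a0 : V} {μ ι s : V → V}
    {rk : V → ℕ} {c : V → Bool} (h : TS R X a0 μ ι s rk c) {v : V} (hv : v ∈ nb R X)
    (h0 : v ≠ a0) : R v (ι v) := by
  have h1 := h.io v hv h0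
  have h2 := (h.mu _ h1.1).2.2.1
  rw [h1.2] at h2
  exact hs _ _ h2

theorem exp_tightB (hs : Sy R) (h1 : Sur R 1) (hc : Conn R) {a0 : V} (ι : V → V)
    {U : Finset V} (hU : U.Nonempty) (h0 : ∀ v ∈ U, v ≠ a0) :
    ∃ v ∈ U, ∃ w, R v w ∧ w ∉ U.image ι := by
  refine fi_exp hs h1 hc hU ?_ ι
  intro e
  exact h0 a0 (e ▸ mem_univ a0) rfl

/-- Dichotomy. Suppose the equivalence fails. If `a = a0` take `K = ∅`: the row `a0` sees two
colours outside `X`. Otherwise take the chain `K` of `ι a` and colour `y ∈ K` by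
`xor (c (μ y)) t` where `t` is chosen so that `ι a` gets the colour `!c w`; the rows `a0` and
`μ y`, `y ∈ K`, see both colours on `K` and outside `X`. The other rows of `A` own the columns
`ι a' ∈ X \ K`; `extFI` colours them. Rows of `X` and of the rest only have neighbours outside
`X`, where nothing changed. So `TwoCol R`. -/
theorem TS.dich (hs : Sy R) (h1 : Sur R 1) (hc : Conn R) (hn : ¬ TwoCol R) {X : Finset V}
    (hI : Indep R X) {a0 w0 : V} {μ ι s : V → V} {rk : V → ℕ} {c : V → Bool}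
    (h : TS R X a0 μ ι s rk c) (hw0 : w0 ∉ X) (h0 : R a0 w0) :
    ∀ a ∈ nb R X, ∀ w, w ∉ X → R a w → (c w = c a ↔ c w0 = c a0) := by
  classical
  intro a ha w hw haw
  by_contra hne
  apply hn
  by_cases ha0 : a = a0
  · subst ha0
    refine assemble_tightB h R ∅ c ?_ (fun v hv h0 _ => own_tightB hs h hv h0)
      (fun U hU hv => exp_tightB hs h1 hc ι hU (fun v hvU => (hv v hvU).2))
    intro v hv
    by_cases hvA : v ∈ nb R X
    · have hva : v = a := by
        by_contra hva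
        exact hv ⟨hvA, hva, notMem_empty _⟩
      subst hva
      refine ⟨w, w0, haw, h0, fun hh => absurd hh hw, fun hh => absurd hh hw0, ?_⟩
      intro e
      exact hne (by rw [e])
    · obtain ⟨y, y', e1, e2, e3, e4, e5⟩ := outer_tightB hs h hvA
      exact ⟨y, y', e1, e2, fun hh => absurd hh e3, fun hh => absurd hh e4, e5⟩
  · have hio := h.io a ha ha0
    obtain ⟨K, hKX, hxK, hK, u, huK, hu⟩ := h.chain hio.1
    let t : Bool := xor (c a) (!c w)
    let c0 : V → Bool := fun y => if y ∈ K then xor (c (μ y)) t else c y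
    have hc0K : ∀ y ∈ K, c0 y = xor (c (μ y)) t := fun y hy => if_pos hy
    have hc0X : ∀ y, y ∉ X → c0 y = c y := fun y hy => if_neg (fun hh => hy (hKX hh))
    refine assemble_tightB h R K c0 ?_ (fun v hv h0 _ => own_tightB hs h hv h0)
      (fun U hU hv => exp_tightB hs h1 hc ι hU (fun v hvU => (hv v hvU).2))
    intro v hv
    by_cases hvA : v ∈ nb R X
    · by_cases hv0 : v = a0
      · subst hv0
        have hsu := h.src u (hKX huK)
        rw [hu] at hsu
        refine ⟨u, w0, hs _ _ hsu.1, h0, fun _ => huK, fun hh => absurd hh hw0, ?_⟩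
        rw [hc0K u huK, hc0X w0 hw0, hsu.2.1]
        simp only [t]
        revert hne
        cases c v <;> cases c a <;> cases c w <;> cases c w0 <;> simp
      · have hvK : ι v ∈ K := by
          by_contra hh
          exact hv ⟨hvA, hv0, hh⟩
        have hiv := h.io v hvA hv0
        by_cases hva : ι v = ι a
        · have e : v = a := by rw [← hiv.2, hva, hio.2]
          subst e
          refine ⟨ι v, w, own_tightB hs h hvA hv0, haw, fun _ => hvK, fun hh => absurd hh hw, ?_⟩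
          rw [hc0K _ hvK, hc0X w hw, hiv.2]
          simp only [t]
          cases c v <;> cases c w <;> simp
        · obtain ⟨y', hy', e⟩ := hK _ hvK hva
          have hsy := h.src y' (hKX hy')
          rw [e, hiv.2] at hsy
          refine ⟨ι v, y', own_tightB hs h hvA hv0, hs _ _ hsy.1, fun _ => hvK, fun _ => hy', ?_⟩
          rw [hc0K _ hvK, hc0K _ hy', hiv.2, hsy.2.1]
          cases c v <;> cases t <;> simp
    · obtain ⟨y, y', e1, e2, e3, e4, e5⟩ := outer_tightB hs h hvA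
      refine ⟨y, y', e1, e2, fun hh => absurd hh e3, fun hh => absurd hh e4, ?_⟩
      rw [hc0X y e3, hc0X y' e4]
      exact e5

/-- All outside neighbours have the opposite colour. Some `a1 ∈ A.erase a0` has a neighbour
outside `X` (otherwise `A.erase a0` is a nonempty independent set with `|X|` elements and
neighbourhood inside `X`). Take the chain `K` of `ι a1` and `u ∈ K` with `s u = a0`, colour
`y ∈ K` by `c (μ y)`. For `Lp R u` the rows `a0`, `μ y` (`y ∈ K`), the rows of `X` and of the rest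
see both colours. The other rows of `A` own the columns `ι a' ∈ X \ K`; `extendQ` with
`Q = Lp R u` (a set `U` of rows containing a neighbour `v` of `u` has the source `v ∉ X`;
otherwise `fi_exp`). Then `sg`. -/
theorem TS.minus (hs : Sy R) (h3 : Three R) (h1 : Sur R 1) (hc : Conn R) {X : Finset V}
    (hX : X.Nonempty) (hI : Indep R X) (ht : (nb R X).card = X.card + 1)
    {a0 w0 : V} {μ ι s : V → V} {rk : V → ℕ} {c : V → Bool}
    (h : TS R X a0 μ ι s rk c) (hw0 : w0 ∉ X) (h0 : R a0 w0)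
    (hk : ∀ a ∈ nb R X, ∀ w, w ∉ X → R a w → c w ≠ c a) : Small R := by
  classical
  have hex : ∃ a1 ∈ nb R X, a1 ≠ a0 ∧ ∃ w1, w1 ∉ X ∧ R a1 w1 := by
    by_contra hno
    have hin : ∀ a1 ∈ (nb R X).erase a0, ∀ w1, R a1 w1 → w1 ∈ X := by
      intro a1 ha1 w1 hw1
      by_contra hh
      exact hno ⟨a1, (mem_erase.1 ha1).2, (mem_erase.1 ha1).1, w1, hh, hw1⟩
    have hcard : ((nb R X).erase a0).card = X.card := by
      rw [card_erase_of_mem h.a0m, ht]
      rfl
    have hne : ((nb R X).erase a0).Nonempty := by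
      rw [← card_pos, hcard]
      exact card_pos.2 hX
    have hind : Indep R ((nb R X).erase a0) := by
      intro x hx y hy hxy
      exact notMem_of_nb_tightB hI (mem_erase.1 hy).2 (hin x hx y hxy)
    have h2 := h1 _ hne hind
    have h4 : nb R ((nb R X).erase a0) ⊆ X := by
      intro w hw
      obtain ⟨v, hv, hvw⟩ := mem_nb.1 hw
      exact hin v hv w hvw
    have h5 := card_le_card h4
    omega
  obtain ⟨a1, ha1, ha10, w1, hw1, h11⟩ := hex
  have hio := h.io a1 ha1 ha10
  obtain ⟨K, hKX, hxK, hK, u, huK, hu⟩ := h.chain hio.1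
  have huX : u ∈ X := hKX huK
  let c0 : V → Bool := fun y => if y ∈ K then c (μ y) else c y
  have hc0K : ∀ y ∈ K, c0 y = c (μ y) := fun y hy => if_pos hy
  have hc0X : ∀ y, y ∉ X → c0 y = c y := fun y hy => if_neg (fun hh => hy (hKX hh))
  have hLo : ∀ v w, R v w → w ∉ X → Lp R u v w := fun v w hvw hw =>
    Or.inl ⟨hvw, fun e => hw (e ▸ huX)⟩
  have hLoop : ∀ v ∈ nb R X, R v u → Lp R u v v := fun v hv hvu =>
    Or.inr ⟨hvu, fun e => notMem_of_nb_tightB hI hv (e ▸ huX), rfl⟩
  refine sg hs h3 (u := u) (assemble_tightB h (Lp R u) K c0 ?_ ?_ ?_)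
  · intro v hv
    by_cases hvA : v ∈ nb R X
    · have hvX : v ∉ X := notMem_of_nb_tightB hI hvA
      by_cases hv0 : v = a0
      · subst hv0
        have hsu := h.src u huX
        rw [hu] at hsu
        refine ⟨w0, v, hLo _ _ h0 hw0, hLoop v hvA (hs _ _ hsu.1), fun hh => absurd hh hw0,
          fun hh => absurd hh hvX, ?_⟩
        rw [hc0X w0 hw0, hc0X v hvX]
        exact hk v hvA w0 hw0 h0
      · have hvK : ι v ∈ K := by
          by_contra hh
          exact hv ⟨hvA, hv0, hh⟩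
        have hiv := h.io v hvA hv0
        have hown := own_tightB hs h hvA hv0
        have hsame : ∃ y, Lp R u v y ∧ (y ∈ X → y ∈ K) ∧ c0 y = c v := by
          by_cases hvu : ι v = u
          · exact ⟨v, hLoop v hvA (hvu ▸ hown), fun hh => absurd hh hvX, hc0X v hvX⟩
          · exact ⟨ι v, Or.inl ⟨hown, hvu⟩, fun _ => hvK, by rw [hc0K _ hvK, hiv.2]⟩
        obtain ⟨y, hy1, hy2, hy3⟩ := hsame
        by_cases hva : ι v = ι a1
        · have e : v = a1 := by rw [← hiv.2, hva, hio.2]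
          subst e
          refine ⟨w1, y, hLo _ _ h11 hw1, hy1, fun hh => absurd hh hw1, hy2, ?_⟩
          rw [hc0X w1 hw1, hy3]
          exact hk v hvA w1 hw1 h11
        · obtain ⟨y', hy', e⟩ := hK _ hvK hva
          rw [hiv.2] at e
          have hsy := h.src y' (hKX hy')
          rw [e] at hsy
          have hy'u : y' ≠ u := by
            intro e'
            rw [e', hu] at e
            exact hv0 e.symm
          refine ⟨y', y, Or.inl ⟨hs _ _ hsy.1, hy'u⟩, hy1, fun _ => hy', hy2, ?_⟩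
          rw [hc0K _ hy', hy3, hsy.2.1]
          cases c v <;> simp
    · obtain ⟨y, y', e1, e2, e3, e4, e5⟩ := outer_tightB hs h hvA
      refine ⟨y, y', hLo _ _ e1 e3, hLo _ _ e2 e4, fun hh => absurd hh e3,
        fun hh => absurd hh e4, ?_⟩
      rw [hc0X y e3, hc0X y' e4]
      exact e5
  · intro v hv hv0 hvK
    exact Or.inl ⟨own_tightB hs h hv hv0, fun e => hvK (e ▸ huK)⟩
  · intro U hU hv
    by_cases hadj : ∃ v ∈ U, R v u
    · obtain ⟨v, hvU, hvu⟩ := hadj
      refine ⟨v, hvU, v, hLoop v (hv v hvU).1 hvu, ?_⟩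
      intro hm
      obtain ⟨v', hv', e⟩ := mem_image.1 hm
      have h6 := (h.io v' (hv v' hv').1 (hv v' hv').2).1
      rw [e] at h6
      exact notMem_of_nb_tightB hI (hv v hvU).1 h6
    · obtain ⟨v, hvU, w, hvw, hw⟩ := exp_tightB hs h1 hc ι hU (fun v hvU => (hv v hvU).2)
      refine ⟨v, hvU, w, Or.inl ⟨hvw, ?_⟩, hw⟩
      intro e
      exact hadj ⟨v, hvU, e ▸ hvw⟩

end Pool.Agent.Lib.MP_59216f_co.TD
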