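import Pool.Agent.Lib.MP_59216f_co.GAsm
import Pool.Agent.Lib.MP_59216f_co.GMachC
import Pool.Agent.Lib.MP_59216f_co.GCM

set_option autoImplicit false
set_option linter.unusedSectionVars false

namespace Pool.Agent.Lib.MP_59216f_co.TD

open Finset

variable {V : Type} [Fintype V] [DecidableEq V] {R : V → V → Prop}

/-- Common end of both cases: the machine with `U = 0` gives a solution of cost `|X|`. -/
theorem v2_out {X TR T Tc Tg : Finset V} (ht : (nb R X).card = X.card + 1)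
    (hT2 : T ⊆ nb R X) {x0 τ0 d d' : V} (hx0 : x0 ∈ X) (hτ0 : τ0 ∈ T) (hR : R x0 τ0)
    (hd : R x0 d) (hd' : R x0 d') (hne : d ≠ d') (hdT : d ∉ T) (hdT' : d' ∉ T)
    (hg : TR ⊆ Tg) (hsub : Tc ∪ Tg ⊆ T) (hsup : ∀ τ ∈ T, τ ≠ τ0 → τ ∈ Tc ∪ Tg) (hτc : τ0 ∉ Tc)
    (hc : ∀ τ ∈ T, τ ∉ TR → τ ≠ τ0 → τ ∈ Tc)
    {e : V → Finset V} {μ : V → V} (he : ∀ x ∈ X.erase x0, ∀ w ∈ e x, R x w)
    (H : MH e (X.erase x0) Tc Tg (((nb R X \ T).erase d).erase d') μ)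
    (hU : ∀ (T1 D1 : Finset V), T1 ⊆ Tc → D1 ⊆ ((nb R X \ T).erase d).erase d' →
      (∀ x ∈ X.erase x0, e x ∩ (Tc ∪ Tg) ⊆ T1 → e x ∩ ((nb R X \ T).erase d).erase d' ⊆ D1) →
      T1.card ≤ D1.card) :
    AISol R X (nb R X) TR X.card := by
  classical
  obtain ⟨Pk, U, sv, T1, D1, hPk, hcard, hcov, hpick, hsv, hTg, hTc, hT1, hD1, hU1, hcl⟩ :=
    machine H
  have hU0 : U = 0 := by
    have := hU T1 D1 hT1 hD1 hcl
    omega
  have hdA : d ∈ nb R X := mem_nb.2 ⟨x0, hx0, hd⟩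
  have hdA' : d' ∈ nb R X := mem_nb.2 ⟨x0, hx0, hd'⟩
  have hTRT : TR ⊆ T := fun a ha => hsub (mem_union_right _ (hg ha))
  have hfree : ∀ τ, (∃ x ∈ X.erase x0, x ∉ Pk ∧ τ ∈ e x) →
      ∃ x ∈ X, x ∉ insert x0 Pk ∧ R x τ := by
    rintro τ ⟨x, hx, hxP, hτ⟩
    refine ⟨x, mem_of_mem_erase hx, ?_, he x hx τ hτ⟩
    rw [mem_insert, not_or]
    exact ⟨ne_of_mem_erase hx, hxP⟩
  refine ⟨T, insert x0 Pk, fun x => if x = x0 then τ0 else sv x, hTRT, hT2, ?_, ?_, ?_, ?_, ?_, ?_⟩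
  · intro x hx
    rcases mem_insert.1 hx with rfl | hx
    · exact hx0
    · exact mem_of_mem_erase (hPk hx)
  · intro x hx
    by_cases h : x = x0
    · subst h
      simp only [if_true]
      exact ⟨hτ0, hR⟩
    · simp only [if_neg h]
      have hx' : x ∈ X.erase x0 := mem_erase.2 ⟨h, hx⟩
      exact ⟨hsub (hsv x hx').2, he x hx' _ (hsv x hx').1⟩
  · intro a ha haT
    have key : a ∈ Tc ∪ ((nb R X \ T).erase d).erase d' → ∃ x ∈ insert x0 Pk, R x a := by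
      intro h
      obtain ⟨x, hx, hax⟩ := hcov a h
      exact ⟨x, mem_insert_of_mem hx, he x (hPk hx) a hax⟩
    by_cases h1 : a ∈ T
    · by_cases h2 : a = τ0
      · exact ⟨x0, mem_insert_self _ _, h2 ▸ hR⟩
      · exact key (mem_union_left _ (hc a h1 haT h2))
    · by_cases h2 : a = d
      · exact ⟨x0, mem_insert_self _ _, h2 ▸ hd⟩
      · by_cases h3 : a = d'
        · exact ⟨x0, mem_insert_self _ _, h3 ▸ hd'⟩
        · exact key (mem_union_right _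
            (mem_erase.2 ⟨h3, mem_erase.2 ⟨h2, mem_sdiff.2 ⟨ha, h1⟩⟩⟩))
  · intro x hx
    rcases mem_insert.1 hx with rfl | hx
    · exact ⟨d, hdA, hdT, hd⟩
    · have hx' := hPk hx
      rcases hpick x hx with ⟨a, ha, hax⟩ | h1
      · have ha' := mem_sdiff.1 (mem_of_mem_erase (mem_of_mem_erase ha))
        exact ⟨a, ha'.1, ha'.2, he x hx' a hax⟩
      · have h3 := H.h3 x hx'
        have hns : ¬ e x ⊆ insert τ0 (e x ∩ (Tc ∪ Tg)) := by
          intro hs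
          have h4 := card_le_card hs
          have h5 := card_insert_le τ0 (e x ∩ (Tc ∪ Tg))
          omega
        obtain ⟨a, ha, ha'⟩ := not_subset.1 hns
        have hRa := he x hx' a ha
        refine ⟨a, mem_nb.2 ⟨x, mem_of_mem_erase hx', hRa⟩, ?_, hRa⟩
        intro haT
        apply ha'
        by_cases h2 : a = τ0
        · exact mem_insert.2 (Or.inl h2)
        · exact mem_insert_of_mem (mem_inter.2 ⟨ha, hsup a haT h2⟩)
  · intro τ hτ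
    by_cases hτg : τ ∈ Tg
    · exact Or.inl (hfree τ (hTg τ hτg))
    have hτR : τ ∉ TR := fun h => hτg (hg h)
    by_cases hτc' : τ ∈ Tc
    · rcases hTc τ hτc' with h | h
      · exact Or.inl (hfree τ h)
      · refine Or.inr ⟨hτR, ?_⟩
        have hn : τ0 ≠ τ := fun h' => hτc (h' ▸ hτc')
        intro x hx y hy h1 h2
        by_cases hx1 : x = x0
        · simp only [hx1, if_true] at h1
          exact absurd h1 hn
        by_cases hy1 : y = x0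
        · simp only [hy1, if_true] at h2
          exact absurd h2 hn
        simp only [if_neg hx1] at h1
        simp only [if_neg hy1] at h2
        exact h x (mem_erase.2 ⟨hx1, hx⟩) y (mem_erase.2 ⟨hy1, hy⟩) h1 h2
    · refine Or.inr ⟨hτR, ?_⟩
      have hn : τ ∉ Tc ∪ Tg := by
        rw [mem_union, not_or]
        exact ⟨hτc', hτg⟩
      have key : ∀ x ∈ X, (if x = x0 then τ0 else sv x) = τ → x = x0 := by
        intro x hx h1
        by_contra hx1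
        simp only [if_neg hx1] at h1
        exact hn (h1 ▸ (hsv x (mem_erase.2 ⟨hx1, hx⟩)).2)
      intro x hx y hy h1 h2
      rw [key x hx h1, key y hy h2]
  · have h1 : d ∈ nb R X \ T := mem_sdiff.2 ⟨hdA, hdT⟩
    have h2 : d' ∈ (nb R X \ T).erase d := mem_erase.2 ⟨hne.symm, mem_sdiff.2 ⟨hdA', hdT'⟩⟩
    have h3 := card_erase_add_one h1
    have h4 := card_erase_add_one h2
    have h5 := card_sdiff_add_card_eq_card hT2
    have h6 := card_insert_le x0 Pk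
    omega

/-- The standing hypotheses of the machine in both cases. -/
theorem v2_mh {X T Tc Tg : Finset V} (hT2 : T ⊆ nb R X) {x0 d d' : V} (hdT : d ∉ T)
    (hdT' : d' ∉ T) (hsub : Tc ∪ Tg ⊆ T) (hcg : Disjoint Tc Tg)
    {e : V → Finset V} {ι μ : V → V}
    (hμ : ∀ a ∈ ((nb R X).erase d).erase d', μ a ∈ X.erase x0 ∧ ι (μ a) = a)
    (h3 : ∀ x ∈ X.erase x0, (e x).card = 3) (hι : ∀ x ∈ X.erase x0, ι x ∈ e x)
    (hit : ∀ x ∈ X.erase x0, ∃ τ ∈ e x, τ ∈ Tc ∪ Tg)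
    (priv : ∀ τ ∈ Tc, ∃ x, Priv e (X.erase x0) (Tc ∪ Tg) τ x) :
    MH e (X.erase x0) Tc Tg (((nb R X \ T).erase d).erase d') μ := by
  have hs : ∀ p ∈ Tc ∪ Tg ∪ ((nb R X \ T).erase d).erase d', p ∈ ((nb R X).erase d).erase d' := by
    intro p hp
    rcases mem_union.1 hp with hp | hp
    · have hpT := hsub hp
      exact mem_erase.2 ⟨fun h => hdT' (h ▸ hpT), mem_erase.2 ⟨fun h => hdT (h ▸ hpT), hT2 hpT⟩⟩
    · obtain ⟨h1, hp⟩ := mem_erase.1 hp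
      obtain ⟨h2, hp⟩ := mem_erase.1 hp
      exact mem_erase.2 ⟨h1, mem_erase.2 ⟨h2, (mem_sdiff.1 hp).1⟩⟩
  refine ⟨h3, hcg, ?_, hit, priv, ?_, ?_⟩
  · rw [disjoint_left]
    intro p hp hp'
    exact (mem_sdiff.1 (mem_of_mem_erase (mem_of_mem_erase hp'))).2 (hsub hp)
  · intro p hp q hq h
    have h1 := (hμ p (hs p hp)).2
    have h2 := (hμ q (hs q hq)).2
    rw [← h1, ← h2, h]
  · intro p hp
    obtain ⟨h1, h2⟩ := hμ p (hs p hp)
    refine ⟨h1, ?_⟩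
    have := hι _ h1
    rwa [h2] at this

/-- Light case: `τ1 ∈ T \ TR` has exactly one private row `x0`; let `d ≠ d'` be two more
neighbours of `x0` (outside `T`), `ι, μ` from `hall_two`. For `x ∈ X.erase x0` let `e x` be a
3-set of neighbours containing `ι x` and a point of `T.erase τ1`; `e x0 = {τ1, d, d'}`. Run
`machine` with `Xa = X.erase x0`, `Tc = (T \ TR).erase τ1`, `Tg = TR`,
`Dc = ((A \ T).erase d).erase d'`, `μ0 = μ`. With `E1 = insert x0 {x ∈ Xa | e x ∩ (Tc ∪ Tg) ⊆ T1}`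
and `P = T1 ∪ D1 ∪ {τ1, d, d'}`: `|E1| + 1 ≤ |P|` through `ι`, and `cm` with minimality of `T`
gives `4 (|T1| + 1) ≤ |P| + |E1|`, so `U = 0`. Picks: `insert x0 Pk`, `sv x0 = τ1`. -/
theorem v2_light (h3 : Three R) {X TR T : Finset V} (ht : (nb R X).card = X.card + 1)
    (hmin : ∀ X' ⊆ X, X'.Nonempty → X' ≠ X → X'.card + 2 ≤ (nb R X').card)
    (hT1 : TR ⊆ T) (hT2 : T ⊆ nb R X) (hT3 : ∀ x ∈ X, ∃ τ ∈ T, R x τ)
    (hT4 : ∀ T', TR ⊆ T' → T' ⊆ nb R X → (∀ x ∈ X, ∃ τ ∈ T', R x τ) → T.card ≤ T'.card)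
    {τ1 x0 : V} (hτ : τ1 ∈ T) (hτ' : τ1 ∉ TR) (hx0 : x0 ∈ X) (hR : R x0 τ1)
    (hp : ∀ τ ∈ T, R x0 τ → τ = τ1)
    (hl : ∀ x ∈ X, x ≠ x0 → ∃ τ ∈ T, τ ≠ τ1 ∧ R x τ) :
    AISol R X (nb R X) TR X.card := by
  classical
  obtain ⟨d, hd, hd1, -⟩ := h3.third x0 τ1 τ1
  obtain ⟨d', hd', hd1', hne⟩ := h3.third x0 τ1 d
  have hdT : d ∉ T := fun h => hd1 (hp d h hd)
  have hdT' : d' ∉ T := fun h => hd1' (hp d' h hd')
  have hdA : d ∈ nb R X := mem_nb.2 ⟨x0, hx0, hd⟩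
  have hdA' : d' ∈ nb R X := mem_nb.2 ⟨x0, hx0, hd'⟩
  obtain ⟨ι, μ, hι, hμ⟩ := hall_two ht hmin hx0 hdA hdA' hne.symm
  have hex : ∀ x, ∃ s : Finset V, x ∈ X → s.card = 3 ∧ (∀ w ∈ s, R x w) ∧
      (x ≠ x0 → ι x ∈ s ∧ ∃ τ ∈ s, τ ∈ T ∧ τ ≠ τ1) := by
    intro x
    by_cases hx : x ∈ X
    · by_cases h0 : x = x0
      · obtain ⟨s, h1, -, -, h4⟩ := h3.sub hR hR
        exact ⟨s, fun _ => ⟨h1, h0 ▸ h4, fun h => absurd h0 h⟩⟩
      · obtain ⟨τ, hτT, hτn, hτR⟩ := hl x hx h0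
        obtain ⟨s, h1, h2, h3', h4⟩ := h3.sub (hι x (mem_erase.2 ⟨h0, hx⟩)).2.1 hτR
        exact ⟨s, fun _ => ⟨h1, h4, fun _ => ⟨h2, τ, h3', hτT, hτn⟩⟩⟩
    · exact ⟨∅, fun h => absurd h hx⟩
  choose e0 he0 using hex
  let e : V → Finset V := fun x => if x = x0 then {τ1, d, d'} else e0 x
  have hee : ∀ x ∈ X.erase x0, e x = e0 x := fun x hx => if_neg (ne_of_mem_erase hx)
  have hex0 : e x0 = {τ1, d, d'} := if_pos rfl
  have he3 : ∀ x ∈ X.erase x0, (e x).card = 3 := fun x hx => by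
    rw [hee x hx]
    exact (he0 x (mem_of_mem_erase hx)).1
  have heR : ∀ x ∈ X.erase x0, ∀ w ∈ e x, R x w := fun x hx => by
    rw [hee x hx]
    exact (he0 x (mem_of_mem_erase hx)).2.1
  have heι : ∀ x ∈ X.erase x0, ι x ∈ e x := fun x hx => by
    rw [hee x hx]
    exact ((he0 x (mem_of_mem_erase hx)).2.2 (ne_of_mem_erase hx)).1
  have hU : ∀ τ, τ ∈ (T \ TR).erase τ1 ∪ TR ↔ τ ∈ T ∧ τ ≠ τ1 := by
    intro τ
    simp only [mem_union, mem_erase, mem_sdiff]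
    constructor
    · rintro (⟨h1, h2, -⟩ | h)
      · exact ⟨h2, h1⟩
      · exact ⟨hT1 h, fun h' => hτ' (h' ▸ h)⟩
    · rintro ⟨h1, h2⟩
      by_cases h : τ ∈ TR
      · exact Or.inr h
      · exact Or.inl ⟨h2, h1, h⟩
  have hit : ∀ x ∈ X.erase x0, ∃ τ ∈ e x, τ ∈ (T \ TR).erase τ1 ∪ TR := fun x hx => by
    rw [hee x hx]
    obtain ⟨τ, h1, h2⟩ := ((he0 x (mem_of_mem_erase hx)).2.2 (ne_of_mem_erase hx)).2
    exact ⟨τ, h1, (hU τ).2 h2⟩
  have hsub : (T \ TR).erase τ1 ∪ TR ⊆ T := fun τ h => ((hU τ).1 h).1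
  have hcg : Disjoint ((T \ TR).erase τ1) TR := by
    rw [disjoint_left]
    intro p hp1 hp2
    exact (mem_sdiff.1 (mem_of_mem_erase hp1)).2 hp2
  have priv : ∀ τ ∈ (T \ TR).erase τ1,
      ∃ x, Priv e (X.erase x0) ((T \ TR).erase τ1 ∪ TR) τ x := by
    intro τ hτc
    obtain ⟨hn, hτc'⟩ := mem_erase.1 hτc
    obtain ⟨hτT, hτR⟩ := mem_sdiff.1 hτc'
    by_contra hno
    have h1 := hT4 (T.erase τ) (fun a ha => mem_erase.2 ⟨fun h => hτR (h ▸ ha), hT1 ha⟩)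
      ((erase_subset _ _).trans hT2) (by
        intro x hx
        by_cases h0 : x = x0
        · exact ⟨τ1, mem_erase.2 ⟨hn.symm, hτ⟩, h0 ▸ hR⟩
        · have hx' : x ∈ X.erase x0 := mem_erase.2 ⟨h0, hx⟩
          by_contra hc
          apply hno
          refine ⟨x, hx', ?_⟩
          have key : ∀ t ∈ e x ∩ ((T \ TR).erase τ1 ∪ TR), t = τ := by
            intro t ht'
            by_contra htn
            exact hc ⟨t, mem_erase.2 ⟨htn, hsub (mem_inter.1 ht').2⟩,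
              heR x hx' t (mem_inter.1 ht').1⟩
          obtain ⟨t, ht1, ht2⟩ := hit x hx'
          have ht3 := mem_inter.2 ⟨ht1, ht2⟩
          exact eq_singleton_iff_unique_mem.2 ⟨key t ht3 ▸ ht3, key⟩)
    have h2 := card_erase_add_one hτT
    omega
  refine v2_out ht hT2 hx0 hτ hR hd hd' hne.symm hdT hdT' Subset.rfl hsub
    (fun τ h1 h2 => (hU τ).2 ⟨h1, h2⟩) (notMem_erase _ _)
    (fun τ h1 h2 h3 => mem_erase.2 ⟨h3, mem_sdiff.2 ⟨h1, h2⟩⟩) heR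
    (v2_mh hT2 hdT hdT' hsub hcg hμ he3 heι hit priv) ?_
  intro T1 D1 hT1c hD1 hcl
  obtain ⟨E, hE⟩ : ∃ E : Finset V, ∀ x, x ∈ E ↔
      x ∈ X.erase x0 ∧ e x ∩ ((T \ TR).erase τ1 ∪ TR) ⊆ T1 :=
    ⟨(X.erase x0).filter (fun x => e x ∩ ((T \ TR).erase τ1 ∪ TR) ⊆ T1), fun x => mem_filter⟩
  have hloc : ∀ x ∈ E, ∀ w ∈ e x, w ≠ d → w ≠ d' → w ∈ insert τ1 (T1 ∪ D1) := by
    intro x hx w hw h1 h2
    obtain ⟨hx1, hx2⟩ := (hE x).1 hx
    by_cases hw1 : w = τ1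
    · exact mem_insert.2 (Or.inl hw1)
    apply mem_insert_of_mem
    by_cases hwT : w ∈ T
    · exact mem_union_left _ (hx2 (mem_inter.2 ⟨hw, (hU w).2 ⟨hwT, hw1⟩⟩))
    · refine mem_union_right _ (hcl x hx1 hx2 (mem_inter.2 ⟨hw, ?_⟩))
      exact mem_erase.2 ⟨h2, mem_erase.2 ⟨h1, mem_sdiff.2
        ⟨mem_nb.2 ⟨x, mem_of_mem_erase hx1, heR x hx1 w hw⟩, hwT⟩⟩⟩
  have hEc : E.card ≤ (insert τ1 (T1 ∪ D1)).card := by
    apply card_le_card_of_injOn ι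
    · intro x hx
      have hx1 := ((hE x).1 hx).1
      obtain ⟨h1, h2⟩ := mem_erase.1 (hι x hx1).1
      exact hloc x hx (ι x) (heι x hx1) (ne_of_mem_erase h2) h1
    · intro x hx y hy h
      have h1 := (hι x ((hE x).1 hx).1).2.2
      have h2 := (hι y ((hE y).1 hy).1).2.2
      rw [← h1, ← h2, h]
  obtain ⟨T2, hT2P, hT2h, hT2c⟩ := cm e (insert x0 E) (insert d (insert d' (insert τ1 (T1 ∪ D1))))
    (by
      intro x hx
      rcases mem_insert.1 hx with rfl | hx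
      · rw [hex0]
        exact card_eq_three.2 ⟨τ1, d, d', hd1.symm, hd1'.symm, hne.symm, rfl⟩
      · exact he3 x ((hE x).1 hx).1)
    (by
      intro x hx w hw
      rcases mem_insert.1 hx with rfl | hx
      · rw [hex0] at hw
        simp only [mem_insert, mem_singleton] at hw ⊢
        tauto
      · by_cases h1 : w = d
        · exact mem_insert.2 (Or.inl h1)
        by_cases h2 : w = d'
        · exact mem_insert_of_mem (mem_insert.2 (Or.inl h2))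
        exact mem_insert_of_mem (mem_insert_of_mem (hloc x hx w hw h1 h2)))
  have hT1T : insert τ1 T1 ⊆ T := by
    intro a ha
    rcases mem_insert.1 ha with rfl | ha
    · exact hτ
    · exact (mem_sdiff.1 (mem_of_mem_erase (hT1c ha))).1
  have hτT1 : τ1 ∉ T1 := fun h => notMem_erase _ _ (hT1c h)
  have hmn := hT4 ((T \ insert τ1 T1) ∪ T2)
    (by
      intro a ha
      refine mem_union_left _ (mem_sdiff.2 ⟨hT1 ha, ?_⟩)
      intro h
      rcases mem_insert.1 h with rfl | h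
      · exact hτ' ha
      · exact (mem_sdiff.1 (mem_of_mem_erase (hT1c h))).2 ha)
    (by
      intro a ha
      rcases mem_union.1 ha with ha | ha
      · exact hT2 (mem_sdiff.1 ha).1
      · have h := hT2P ha
        simp only [mem_insert, mem_union] at h
        rcases h with rfl | rfl | rfl | h | h
        · exact hdA
        · exact hdA'
        · exact hT2 hτ
        · exact hT2 (hT1T (mem_insert_of_mem h))
        · exact (mem_sdiff.1 (mem_of_mem_erase (mem_of_mem_erase (hD1 h)))).1)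
    (by
      intro x hx
      by_cases h0 : x = x0
      · obtain ⟨τ, h1, h2⟩ := hT2h x0 (mem_insert_self _ _)
        refine ⟨τ, mem_union_right _ h1, ?_⟩
        rw [hex0] at h2
        simp only [mem_insert, mem_singleton] at h2
        rw [h0]
        rcases h2 with rfl | rfl | rfl
        · exact hR
        · exact hd
        · exact hd'
      · have hx' : x ∈ X.erase x0 := mem_erase.2 ⟨h0, hx⟩
        by_cases hxE : x ∈ E
        · obtain ⟨τ, h1, h2⟩ := hT2h x (mem_insert_of_mem hxE)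
          exact ⟨τ, mem_union_right _ h1, heR x hx' τ h2⟩
        · have hns : ¬ e x ∩ ((T \ TR).erase τ1 ∪ TR) ⊆ T1 := fun h => hxE ((hE x).2 ⟨hx', h⟩)
          obtain ⟨τ, h1, h2⟩ := not_subset.1 hns
          obtain ⟨h3', h4⟩ := mem_inter.1 h1
          obtain ⟨h5, h6⟩ := (hU τ).1 h4
          refine ⟨τ, mem_union_left _ (mem_sdiff.2 ⟨h5, ?_⟩), heR x hx' τ h3'⟩
          rw [mem_insert, not_or]
          exact ⟨h6, h2⟩)
  have c1 := card_union_le (T \ insert τ1 T1) T2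
  have c2 := card_sdiff_add_card_eq_card hT1T
  have c3 := card_insert_of_notMem hτT1
  have c4 := card_insert_le x0 E
  have c5 := card_insert_le τ1 (T1 ∪ D1)
  have c6 := card_union_le T1 D1
  have c7 := card_insert_le d' (insert τ1 (T1 ∪ D1))
  have c8 := card_insert_le d (insert d' (insert τ1 (T1 ∪ D1)))
  omega

/-- Heavy case: every point of `T \ TR` has two private rows. `x0` has the neighbours
`d ≠ d'` outside `T` and `τ0 ∈ T`. `e x` is a 3-set of neighbours containing `ι x` and a point of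
`T`. Run `machine` with `Xa = X.erase x0`, `Tc = (T \ TR).erase τ0`, `Tg = T \ Tc`,
`Dc = ((A \ T).erase d).erase d'`, `μ0 = μ`. The `2 |T1|` private rows of points of `T1` differ
from `x0` and `ι` maps them injectively into `T1 ∪ D1`, so `U = 0`. Picks: `insert x0 Pk`,
`sv x0 = τ0`. -/
theorem v2_heavy (h3 : Three R) {X TR T : Finset V} (ht : (nb R X).card = X.card + 1)
    (hmin : ∀ X' ⊆ X, X'.Nonempty → X' ≠ X → X'.card + 2 ≤ (nb R X').card)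
    (hT1 : TR ⊆ T) (hT2 : T ⊆ nb R X) (hT3 : ∀ x ∈ X, ∃ τ ∈ T, R x τ)
    (hh : ∀ τ ∈ T, τ ∉ TR → ∃ x ∈ X, ∃ y ∈ X, x ≠ y ∧ R x τ ∧ R y τ ∧
      (∀ t ∈ T, R x t → t = τ) ∧ ∀ t ∈ T, R y t → t = τ)
    {x0 d d' : V} (hx0 : x0 ∈ X) (hd : R x0 d) (hd' : R x0 d') (hne : d ≠ d') (hdT : d ∉ T)
    (hdT' : d' ∉ T) : AISol R X (nb R X) TR X.card := by
  classical
  have hdA : d ∈ nb R X := mem_nb.2 ⟨x0, hx0, hd⟩
  have hdA' : d' ∈ nb R X := mem_nb.2 ⟨x0, hx0, hd'⟩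
  obtain ⟨τ0, hτ0, hR⟩ := hT3 x0 hx0
  obtain ⟨ι, μ, hι, hμ⟩ := hall_two ht hmin hx0 hdA hdA' hne
  have hex : ∀ x, ∃ (s : Finset V) (τ : V), x ∈ X.erase x0 → s.card = 3 ∧ (∀ w ∈ s, R x w) ∧
      ι x ∈ s ∧ τ ∈ s ∧ τ ∈ T := by
    intro x
    by_cases hx : x ∈ X.erase x0
    · obtain ⟨τ, hτT, hτR⟩ := hT3 x (mem_of_mem_erase hx)
      obtain ⟨s, h1, h2, h3', h4⟩ := h3.sub (hι x hx).2.1 hτR
      exact ⟨s, τ, fun _ => ⟨h1, h4, h2, h3', hτT⟩⟩
    · exact ⟨∅, x, fun h => absurd h hx⟩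
  choose e pt he using hex
  have hU : (T \ TR).erase τ0 ∪ T \ (T \ TR).erase τ0 = T :=
    union_sdiff_of_subset ((erase_subset _ _).trans sdiff_subset)
  have hrow : ∀ τ ∈ (T \ TR).erase τ0, ∀ x ∈ X, (∀ t ∈ T, R x t → t = τ) →
      x ∈ X.erase x0 ∧ pt x = τ ∧ e x ∩ T = {τ} := by
    intro τ hτ x hx hpr
    have hx' : x ∈ X.erase x0 := by
      refine mem_erase.2 ⟨?_, hx⟩
      rintro rfl
      exact ne_of_mem_erase hτ (hpr τ0 hτ0 hR).symm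
    obtain ⟨-, h2, -, h4, h5⟩ := he x hx'
    have h6 : pt x = τ := hpr _ h5 (h2 _ h4)
    refine ⟨hx', h6, eq_singleton_iff_unique_mem.2 ⟨h6 ▸ mem_inter.2 ⟨h4, h5⟩, ?_⟩⟩
    intro t ht'
    exact hpr t (mem_inter.1 ht').2 (h2 t (mem_inter.1 ht').1)
  refine v2_out (Tc := (T \ TR).erase τ0) (Tg := T \ (T \ TR).erase τ0) (e := e) (μ := μ)
    ht hT2 hx0 hτ0 hR hd hd' hne hdT hdT' ?_ hU.subset (fun τ h1 _ => hU.symm ▸ h1)
    (notMem_erase _ _) (fun τ h1 h2 h3 => mem_erase.2 ⟨h3, mem_sdiff.2 ⟨h1, h2⟩⟩)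
    (fun x hx => (he x hx).2.1)
    (v2_mh hT2 hdT hdT' hU.subset disjoint_sdiff hμ (fun x hx => (he x hx).1)
      (fun x hx => (he x hx).2.2.1) ?_ ?_) ?_
  · intro a ha
    exact mem_sdiff.2 ⟨hT1 ha, fun h => (mem_sdiff.1 (mem_of_mem_erase h)).2 ha⟩
  · intro x hx
    rw [hU]
    exact ⟨pt x, (he x hx).2.2.2⟩
  · intro τ hτ
    obtain ⟨h1, h2⟩ := mem_sdiff.1 (mem_of_mem_erase hτ)
    obtain ⟨x, hx, y, -, -, -, -, hpr, -⟩ := hh τ h1 h2
    obtain ⟨h4, -, h5⟩ := hrow τ hτ x hx hpr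
    rw [hU]
    exact ⟨x, h4, h5⟩
  intro T1 D1 hT1c hD1 hcl
  rw [hU] at hcl
  obtain ⟨E, hE⟩ : ∃ E : Finset V, ∀ x, x ∈ E ↔ x ∈ X.erase x0 ∧ e x ∩ T ⊆ T1 :=
    ⟨(X.erase x0).filter (fun x => e x ∩ T ⊆ T1), fun x => mem_filter⟩
  have hEc : E.card ≤ (T1 ∪ D1).card := by
    apply card_le_card_of_injOn ι
    · intro x hx
      obtain ⟨hx1, hx2⟩ := (hE x).1 hx
      have hw := (he x hx1).2.2.1
      obtain ⟨h1, h2⟩ := mem_erase.1 (hι x hx1).1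
      obtain ⟨h2, h4⟩ := mem_erase.1 h2
      by_cases hwT : ι x ∈ T
      · exact mem_coe.2 (mem_union_left _ (hx2 (mem_inter.2 ⟨hw, hwT⟩)))
      · exact mem_coe.2 (mem_union_right _ (hcl x hx1 hx2 (mem_inter.2 ⟨hw,
          mem_erase.2 ⟨h1, mem_erase.2 ⟨h2, mem_sdiff.2 ⟨h4, hwT⟩⟩⟩⟩)))
    · intro x hx y hy h
      have h1 := (hι x ((hE x).1 hx).1).2.2
      have h2 := (hι y ((hE y).1 hy).1).2.2
      rw [← h1, ← h2, h]
  have hE2 : 2 * T1.card ≤ E.card := by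
    apply mul_card_image_le_card_of_maps_to (f := pt)
    · intro x hx
      obtain ⟨hx1, hx2⟩ := (hE x).1 hx
      exact hx2 (mem_inter.2 (he x hx1).2.2.2)
    · intro τ hτ
      have hτc := hT1c hτ
      obtain ⟨h1, h2⟩ := mem_sdiff.1 (mem_of_mem_erase hτc)
      obtain ⟨x, hx, y, hy, hxy, -, -, hpx, hpy⟩ := hh τ h1 h2
      have key : ∀ z ∈ X, (∀ t ∈ T, R z t → t = τ) → z ∈ E.filter (fun a => pt a = τ) := by
        intro z hz hpz
        obtain ⟨h4, h5, h6⟩ := hrow τ hτc z hz hpz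
        refine mem_filter.2 ⟨(hE z).2 ⟨h4, ?_⟩, h5⟩
        rw [h6]
        exact singleton_subset_iff.2 hτ
      exact one_lt_card.2 ⟨x, key x hx hpx, y, key y hy hpy, hxy⟩
  have c6 := card_union_le T1 D1
  omega

/-- Shared pick. Let `T` be a smallest transversal with `TR ⊆ T ⊆ nb R X`; every point of
`T \ TR` has a private row. If some such point has only one private row use `v2_light`;
otherwise `v2_heavy`, with `x0` a private row if `T ≠ TR` and the given row if `T = TR`. -/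
theorem v2 (h3 : Three R) {X TR : Finset V} (ht : (nb R X).card = X.card + 1)
    (hmin : ∀ X' ⊆ X, X'.Nonempty → X' ≠ X → X'.card + 2 ≤ (nb R X').card)
    (hTR : TR ⊆ nb R X) {x d d' : V} (hx : x ∈ X) (hd : R x d) (hd' : R x d') (hne : d ≠ d')
    (hdT : d ∉ TR) (hdT' : d' ∉ TR) : AISol R X (nb R X) TR X.card := by
  classical
  obtain ⟨T, hT, hTm⟩ := exists_min_image
    ((nb R X).powerset.filter (fun T => TR ⊆ T ∧ ∀ y ∈ X, ∃ τ ∈ T, R y τ)) card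
    ⟨nb R X, mem_filter.2 ⟨mem_powerset_self _, hTR, fun y hy => by
      obtain ⟨a, -, -, ha, -⟩ := h3 y
      exact ⟨a, mem_nb.2 ⟨y, hy, ha⟩, ha⟩⟩⟩
  obtain ⟨hT2, hT1, hT3⟩ := mem_filter.1 hT
  rw [mem_powerset] at hT2
  have hT4 : ∀ T', TR ⊆ T' → T' ⊆ nb R X → (∀ y ∈ X, ∃ τ ∈ T', R y τ) → T.card ≤ T'.card :=
    fun T' h1 h2 h3' => hTm T' (mem_filter.2 ⟨mem_powerset.2 h2, h1, h3'⟩)
  have hpr : ∀ τ ∈ T, τ ∉ TR → ∃ y ∈ X, R y τ ∧ ∀ t ∈ T, R y t → t = τ := by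
    intro τ hτ hτR
    by_contra hno
    have h1 := hT4 (T.erase τ) (fun a ha => mem_erase.2 ⟨fun h => hτR (h ▸ ha), hT1 ha⟩)
      ((erase_subset _ _).trans hT2) (by
        intro y hy
        by_contra hc
        have key : ∀ t ∈ T, R y t → t = τ := by
          intro t ht1 ht2
          by_contra htn
          exact hc ⟨t, mem_erase.2 ⟨htn, ht1⟩, ht2⟩
        obtain ⟨t, ht1, ht2⟩ := hT3 y hy
        exact hno ⟨y, hy, key t ht1 ht2 ▸ ht2, key⟩)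
    have h2 := card_erase_add_one hτ
    omega
  by_cases hlight : ∃ τ1 ∈ T, τ1 ∉ TR ∧ ∃ x0 ∈ X, R x0 τ1 ∧ (∀ τ ∈ T, R x0 τ → τ = τ1) ∧
      ∀ y ∈ X, y ≠ x0 → ∃ τ ∈ T, τ ≠ τ1 ∧ R y τ
  · obtain ⟨τ1, h1, h2, x0, h4, h5, h6, h7⟩ := hlight
    exact v2_light h3 ht hmin hT1 hT2 hT3 hT4 h1 h2 h4 h5 h6 h7
  have hh : ∀ τ ∈ T, τ ∉ TR → ∃ x ∈ X, ∃ y ∈ X, x ≠ y ∧ R x τ ∧ R y τ ∧
      (∀ t ∈ T, R x t → t = τ) ∧ ∀ t ∈ T, R y t → t = τ := by
    intro τ hτ hτR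
    obtain ⟨x0, h4, h5, h6⟩ := hpr τ hτ hτR
    have h7 : ¬ ∀ y ∈ X, y ≠ x0 → ∃ t ∈ T, t ≠ τ ∧ R y t :=
      fun h => hlight ⟨τ, hτ, hτR, x0, h4, h5, h6, h⟩
    push Not at h7
    obtain ⟨y, hy, hyn, hyp⟩ := h7
    have key : ∀ t ∈ T, R y t → t = τ := by
      intro t ht1 ht2
      by_contra htn
      exact hyp t ht1 htn ht2
    obtain ⟨t, ht1, ht2⟩ := hT3 y hy
    exact ⟨x0, h4, y, hy, hyn.symm, h5, key t ht1 ht2 ▸ ht2, h6, key⟩
  by_cases hTT : T ⊆ TR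
  · exact v2_heavy h3 ht hmin hT1 hT2 hT3 hh hx hd hd' hne (fun h => hdT (hTT h))
      (fun h => hdT' (hTT h))
  · obtain ⟨τ, hτ, hτR⟩ := not_subset.1 hTT
    obtain ⟨x0, h4, -, h6⟩ := hpr τ hτ hτR
    obtain ⟨a, ha, ha1, -⟩ := h3.third x0 τ τ
    obtain ⟨b, hb, hb1, hab⟩ := h3.third x0 τ a
    exact v2_heavy h3 ht hmin hT1 hT2 hT3 hh h4 ha hb hab.symm (fun h => ha1 (h6 a h ha))
      (fun h => hb1 (h6 b h hb))

end Pool.Agent.Lib.MP_59216f_co.TD
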