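import Pool.Agent.Lib.MP_59216f_co.GTightB
import Pool.Agent.Lib.MP_59216f_co.GV2

set_option autoImplicit false
set_option linter.unusedSectionVars false

namespace Pool.Agent.Lib.MP_59216f_co.TD

open Finset

variable {V : Type} [Fintype V] [DecidableEq V] {R : V → V → Prop}

/-- One colour class of the rest together with a solution of the bipartite stage. -/
theorem asm_tightC (hs : Sy R) (h3 : Three R) {X : Finset V} (hI : Indep R X) (c : V → Bool)
    (hrest : ∀ r, r ∉ X → r ∉ nb R X → Bi R c r)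
    (hk : ∀ a ∈ nb R X, ∀ w, w ∉ X → R a w → c w = c a) (σ : Bool) (k : ℕ)
    (hai : ∀ TR ⊆ nb R X, (∀ a ∈ TR, c a = σ) → AISol R X (nb R X) TR k) :
    ∃ S, Valid R S ∧ S.card ≤ ((univ \ (X ∪ nb R X)).filter (fun r => c r = σ)).card + k := by
  classical
  have hmem : ∀ r, r ∈ (univ \ (X ∪ nb R X)).filter (fun r => c r = σ) ↔
      (r ∉ X ∧ r ∉ nb R X) ∧ c r = σ := by
    intro r
    simp only [mem_filter, mem_sdiff, mem_univ, true_and, mem_union, not_or]
  have hout : ∀ r, r ∉ nb R X → ∀ w, R r w → w ∉ X := fun r hr w hw hwX =>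
    hr (mem_nb.2 ⟨w, hwX, hs _ _ hw⟩)
  have hcol : ∀ r, r ∉ X → r ∉ nb R X → ∀ τ : Bool, ∃ w, R r w ∧ c w = τ := by
    intro r h1 h2 τ
    obtain ⟨w, w', hw, hw', hne⟩ := hrest r h1 h2
    by_cases e : c w = τ
    · exact ⟨w, hw, e⟩
    · refine ⟨w', hw', ?_⟩
      revert hne e
      cases c w <;> cases c w' <;> cases τ <;> simp
  obtain ⟨TR, hTR⟩ : ∃ TR : Finset V, ∀ a, a ∈ TR ↔ a ∈ nb R X ∧
      ∃ r ∈ (univ \ (X ∪ nb R X)).filter (fun r => c r = σ), R a r :=
    ⟨@Finset.filter _ (fun a => ∃ r ∈ (univ \ (X ∪ nb R X)).filter (fun r => c r = σ), R a r)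
      (Classical.decPred _) (nb R X), fun a => @mem_filter _ _ (Classical.decPred _) _ _⟩
  refine assemble hs h3 (A := nb R X) (TR := TR)
    ?_ (fun r hr => ((hmem r).1 hr).1) ?_ ?_ hTR (hai _ (fun a ha => ((hTR a).1 ha).1) ?_)
  · rw [disjoint_left]
    intro x hx hx'
    obtain ⟨v, hv, hvx⟩ := mem_nb.1 hx'
    exact hI v hv x hx hvx
  · intro r h1 h2
    obtain ⟨w, hw, e⟩ := hcol r h1 h2 σ
    by_cases hwA : w ∈ nb R X
    · exact Or.inr ⟨(hmem r).2 ⟨⟨h1, h2⟩, (hk w hwA r h1 (hs _ _ hw)).trans e⟩, w, hwA, hw⟩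
    · exact Or.inl ⟨w, (hmem w).2 ⟨⟨hout r h2 w hw, hwA⟩, e⟩, hw⟩
  · intro r hr
    obtain ⟨⟨h1, h2⟩, hr'⟩ := (hmem r).1 hr
    obtain ⟨w, hw, e⟩ := hcol r h1 h2 (!σ)
    have hne : c w ≠ σ := by rw [e]; cases σ <;> simp
    refine ⟨w, hout r h2 w hw, fun hwA => hne ?_, fun h => hne ((hmem w).1 h).2, hw⟩
    rw [← hk w hwA r h1 (hs _ _ hw), hr']
  · intro a ha
    obtain ⟨ha1, r, hr, har⟩ := (hTR a).1 ha
    obtain ⟨⟨h1, _⟩, hr'⟩ := (hmem r).1 hr
    rw [← hk a ha1 r h1 har, hr']

/-- All outside neighbours have the same colour. For a colour `σ` let `SR` be the vertices of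
`Rs = univ \ (X ∪ A)` of colour `σ` and `TR` the points of `A` adjacent to `SR`; they have colour
`σ`, and the hypotheses of `assemble` hold. `n = 2 |X| + 1 + |Rs|`. If the classes of `Rs` have
different sizes take the smaller one and the cost `|X| + 1` (`v2` with `AISol.mono`, or `v1`).
If they are equal, take a row `x ∈ X` with two neighbours of the same colour, `σ` the other
colour, and `v2` with cost `|X|`. -/
theorem tight_plus (hs : Sy R) (h3 : Three R) {X : Finset V} (hX : X.Nonempty) (hI : Indep R X)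
    (ht : (nb R X).card = X.card + 1)
    (hmin : ∀ X' ⊆ X, X'.Nonempty → X' ≠ X → X'.card + 2 ≤ (nb R X').card) (c : V → Bool)
    (hrest : ∀ r, r ∉ X → r ∉ nb R X → Bi R c r)
    (hk : ∀ a ∈ nb R X, ∀ w, w ∉ X → R a w → c w = c a) : Small R := by
  classical
  have hdis : Disjoint X (nb R X) := by
    rw [disjoint_left]
    intro x hx hx'
    obtain ⟨v, hv, hvx⟩ := mem_nb.1 hx'
    exact hI v hv x hx hvx
  have hn : ∀ σ : Bool, Fintype.card V = 2 * X.card + 1 +
      (((univ \ (X ∪ nb R X)).filter (fun r => c r = σ)).card +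
        ((univ \ (X ∪ nb R X)).filter (fun r => c r = !σ)).card) := by
    intro σ
    have e1 := card_sdiff_add_card_eq_card (subset_univ (X ∪ nb R X))
    rw [card_union_of_disjoint hdis, card_univ, ht] at e1
    have e2 := card_filter_add_card_filter_not (s := univ \ (X ∪ nb R X)) (fun r => c r = σ)
    have e3 : (univ \ (X ∪ nb R X)).filter (fun r => ¬ c r = σ)
        = (univ \ (X ∪ nb R X)).filter (fun r => c r = !σ) := by
      refine filter_congr fun r _ => ?_
      cases c r <;> cases σ <;> simp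
    rw [e3] at e2
    omega
  have hbig : ∀ TR ⊆ nb R X, AISol R X (nb R X) TR (X.card + 1) := by
    intro TR hTR
    by_cases hone : ∀ x ∈ X, ∀ d d', R x d → R x d' → d ∉ TR → d' ∉ TR → d = d'
    · exact v1 h3 hX ht hmin hTR hone
    · simp only [not_forall] at hone
      obtain ⟨x, hx, d, d', hd, hd', h1, h2, hne⟩ := hone
      exact (v2 h3 ht hmin hTR hx hd hd' hne h1 h2).mono (Nat.le_succ _)
  obtain ⟨x, hx⟩ := hX
  obtain ⟨d, d', hd, hd', hne, hc⟩ : ∃ d d', R x d ∧ R x d' ∧ d ≠ d' ∧ c d = c d' := by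
    obtain ⟨a, b, e, ha, hb, he, hab, hae, hbe⟩ := h3 x
    by_cases h1 : c a = c b
    · exact ⟨a, b, ha, hb, hab, h1⟩
    by_cases h2 : c a = c e
    · exact ⟨a, e, ha, he, hae, h2⟩
    refine ⟨b, e, hb, he, hbe, ?_⟩
    revert h1 h2
    cases c a <;> cases c b <;> cases c e <;> simp
  have hN := hn (c d)
  by_cases hlt : ((univ \ (X ∪ nb R X)).filter (fun r => c r = c d)).card <
      ((univ \ (X ∪ nb R X)).filter (fun r => c r = !c d)).card
  · obtain ⟨S, hS, hcard⟩ := asm_tightC hs h3 hI c hrest hk (c d) (X.card + 1)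
      (fun TR hTR _ => hbig TR hTR)
    exact ⟨S, hS, by omega⟩
  · obtain ⟨S, hS, hcard⟩ := asm_tightC hs h3 hI c hrest hk (!c d) X.card
      (fun TR hTR hcol => v2 h3 ht hmin hTR hx hd hd' hne
        (fun h => by
          have := hcol d h
          revert this
          cases c d <;> simp)
        (fun h => by
          have := hcol d' h
          rw [← hc] at this
          revert this
          cases c d <;> simp))
    exact ⟨S, hS, by omega⟩

/-- If surplus two fails, take a smallest tight independent set. -/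
theorem tight (hs : Sy R) (h3 : Three R) (h1 : Sur R 1) (hc : Conn R) (h2 : ¬ Sur R 2) :
    Small R := by
  classical
  have hex : ∃ n : ℕ, ∃ X : Finset V, X.Nonempty ∧ Indep R X ∧ (nb R X).card < X.card + 2 ∧
      X.card = n := by
    unfold Sur at h2
    simp only [not_forall, not_le] at h2
    obtain ⟨X, hX, hI, hlt⟩ := h2
    exact ⟨_, X, hX, hI, hlt, rfl⟩
  obtain ⟨X, hX, hI, hlt, hcard⟩ := Nat.find_spec hex
  have ht : (nb R X).card = X.card + 1 := by
    have := h1 X hX hI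
    omega
  have hmin : ∀ X' ⊆ X, X'.Nonempty → X' ≠ X → X'.card + 2 ≤ (nb R X').card := by
    intro X' hsub hne hne'
    by_contra hn
    have h5 := Nat.find_min' hex ⟨X', hne, fun x hx y hy => hI x (hsub hx) y (hsub hy),
      not_le.1 hn, rfl⟩
    exact hne' (eq_of_subset_of_card_le hsub (by omega))
  obtain ⟨a0, w0, μ, ι, s, rk, c, hw0, h0, hTS⟩ := tight_setup hs h1 hc hX hI ht
  by_cases hn : TwoCol R
  · exact small_of_twoCol hn
  have hd := hTS.dich hs h1 hc hn hI hw0 h0
  by_cases e : c w0 = c a0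
  · exact tight_plus hs h3 hX hI ht hmin c hTS.rest fun a ha w hw haw => (hd a ha w hw haw).2 e
  · exact hTS.minus hs h3 h1 hc hX hI ht hw0 h0 fun a ha w hw haw h => e ((hd a ha w hw haw).1 h)

end Pool.Agent.Lib.MP_59216f_co.TD
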