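import Pool.Agent.Lib.MP_59216f_co.GBasic
import Pool.Agent.Lib.MP_59216f_co.GMachC
import Pool.Agent.Lib.MP_59216f_co.GCM

set_option autoImplicit false
set_option linter.unusedSectionVars false

namespace Pool.Agent.Lib.MP_59216f_co.TD

open Finset

variable {V : Type} [Fintype V] [DecidableEq V] {R : V → V → Prop}

/-- The points inject into the rows. Choose `e x`, a 3-set of neighbours of `x` containing the
point `a` with `μ0 a = x` if there is one (`Three.sub`). Let `T` be a smallest set with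
`TR ⊆ T ⊆ A` meeting every `e x`. Every `τ ∈ T \ TR` has a private row. Run `machine` with
`Xa = X`, `Tc = T \ TR`, `Tg = TR`, `Dc = A \ T`. Let `E1` be the rows with `e x ∩ T ⊆ T1`; they
lie in `P = T1 ∪ D1`. `cm` and minimality of `T` give `4 |T1| ≤ |P| + |E1|`, and `μ0` maps
`A \ P` injectively into `X \ E1`. Hence `2 U + |A| ≤ |X|`; the cost is `k = |A| + U`. -/
theorem v0 (h3 : Three R) {X A TR : Finset V} (hA : ∀ x ∈ X, ∀ a, R x a → a ∈ A)
    (μ0 : V → V) (hinj : Set.InjOn μ0 (A : Set V)) (hμ : ∀ a ∈ A, μ0 a ∈ X ∧ R (μ0 a) a)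
    (hTR : TR ⊆ A) : ∃ k, 2 * k ≤ A.card + X.card ∧ AISol R X A TR k := by
  classical
  have hex : ∀ x, ∃ e : Finset V, e.card = 3 ∧ (∀ w ∈ e, R x w) ∧ ∀ a ∈ A, μ0 a = x → a ∈ e := by
    intro x
    by_cases h : ∃ a ∈ A, μ0 a = x
    · obtain ⟨a, ha, hax⟩ := h
      have hR : R x a := hax ▸ (hμ a ha).2
      obtain ⟨e, he, hae, -, hw⟩ := h3.sub hR hR
      refine ⟨e, he, hw, fun a' ha' h' => ?_⟩
      rw [hinj ha' ha (h'.trans hax.symm)]
      exact hae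
    · obtain ⟨a, -, -, hR, -⟩ := h3 x
      obtain ⟨e, he, -, -, hw⟩ := h3.sub hR hR
      exact ⟨e, he, hw, fun a' ha' h' => absurd ⟨a', ha', h'⟩ h⟩
  choose e he3 heR heμ using hex
  have heA : ∀ x ∈ X, e x ⊆ A := fun x hx w hw => hA x hx w (heR x w hw)
  have hmin : ∃ T : Finset V, (TR ⊆ T ∧ T ⊆ A ∧ ∀ x ∈ X, ∃ τ ∈ e x, τ ∈ T) ∧
      ∀ T' : Finset V, TR ⊆ T' → T' ⊆ A → (∀ x ∈ X, ∃ τ ∈ e x, τ ∈ T') → T.card ≤ T'.card := by
    have hne : (A.powerset.filter fun T => TR ⊆ T ∧ ∀ x ∈ X, ∃ τ ∈ e x, τ ∈ T).Nonempty := by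
      refine ⟨A, mem_filter.2 ⟨mem_powerset_self A, hTR, fun x hx => ?_⟩⟩
      obtain ⟨τ, hτ⟩ : (e x).Nonempty := card_pos.1 (by rw [he3]; norm_num)
      exact ⟨τ, hτ, heA x hx hτ⟩
    obtain ⟨T, hT, hm⟩ := exists_min_image _ card hne
    obtain ⟨h1, h2, h4⟩ := mem_filter.1 hT
    exact ⟨T, ⟨h2, mem_powerset.1 h1, h4⟩, fun T' a b c =>
      hm T' (mem_filter.2 ⟨mem_powerset.2 b, a, c⟩)⟩
  obtain ⟨T, ⟨hTRT, hTA, hhit⟩, hm⟩ := hmin
  have hU : T \ TR ∪ TR = T := sdiff_union_of_subset hTRT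
  have hU2 : T ∪ A \ T = A := union_sdiff_of_subset hTA
  have H : MH e X (T \ TR) TR (A \ T) μ0 := by
    refine ⟨fun x _ => he3 x, sdiff_disjoint, ?_, ?_, ?_, ?_, ?_⟩
    · rw [hU]
      exact disjoint_sdiff
    · rw [hU]
      exact hhit
    · intro τ hτ
      obtain ⟨hτT, hτR⟩ := mem_sdiff.1 hτ
      rw [hU]
      by_contra hcon
      have h1 := hm (T.erase τ) (fun y hy => mem_erase.2 ⟨fun e' => hτR (e' ▸ hy), hTRT hy⟩)
        ((erase_subset τ T).trans hTA) (by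
          intro x hx
          by_contra h2
          refine hcon ⟨x, hx, ?_⟩
          have h4 : ∀ y ∈ e x, y ∈ T → y = τ := by
            intro y hy hyT
            by_contra hne
            exact h2 ⟨y, hy, mem_erase.2 ⟨hne, hyT⟩⟩
          obtain ⟨y, hy, hyT⟩ := hhit x hx
          refine eq_singleton_iff_unique_mem.2 ⟨?_, fun z hz =>
            h4 z (mem_inter.1 hz).1 (mem_inter.1 hz).2⟩
          rw [← h4 y hy hyT]
          exact mem_inter.2 ⟨hy, hyT⟩)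
      have h2 := card_erase_add_one hτT
      omega
    · rw [hU, hU2]
      exact hinj
    · rw [hU, hU2]
      exact fun a ha => ⟨(hμ a ha).1, heμ _ a ha rfl⟩
  obtain ⟨Pk, U, sv, T1, D1, hPk, hPc, hcov, hpick, hsv, hTg, hTc, hT1, hD1, hcnt, hcl⟩ :=
    machine H
  rw [hU] at hpick hsv hcl
  have hT1T : T1 ⊆ T := hT1.trans sdiff_subset
  have hPA : T1 ∪ D1 ⊆ A := union_subset (hT1T.trans hTA) (hD1.trans sdiff_subset)
  have hE1 : ∀ x ∈ X.filter (fun x => e x ∩ T ⊆ T1), e x ⊆ T1 ∪ D1 := by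
    intro x hx w hw
    obtain ⟨hxX, hx1⟩ := mem_filter.1 hx
    by_cases hwT : w ∈ T
    · exact mem_union_left _ (hx1 (mem_inter.2 ⟨hw, hwT⟩))
    · exact mem_union_right _ (hcl x hxX hx1
        (mem_inter.2 ⟨hw, mem_sdiff.2 ⟨heA x hxX hw, hwT⟩⟩))
  obtain ⟨T', hT'P, hT'hit, hT'c⟩ :=
    cm e (X.filter fun x => e x ∩ T ⊆ T1) (T1 ∪ D1) (fun x _ => he3 x) hE1
  have h1 := hm (T \ T1 ∪ T')
    (fun y hy => mem_union_left _
      (mem_sdiff.2 ⟨hTRT hy, fun h => (mem_sdiff.1 (hT1 h)).2 hy⟩))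
    (union_subset (sdiff_subset.trans hTA) (hT'P.trans hPA)) (by
      intro x hx
      by_cases h : e x ∩ T ⊆ T1
      · obtain ⟨τ, hτ, hτx⟩ := hT'hit x (mem_filter.2 ⟨hx, h⟩)
        exact ⟨τ, hτx, mem_union_right _ hτ⟩
      · obtain ⟨τ, hτ, hτ1⟩ := not_subset.1 h
        exact ⟨τ, (mem_inter.1 hτ).1,
          mem_union_left _ (mem_sdiff.2 ⟨(mem_inter.1 hτ).2, hτ1⟩)⟩)
  have h2 := card_union_le (T \ T1) T'
  have h4 := card_sdiff_add_card_eq_card hT1T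
  have h5 := card_union_le T1 D1
  have h6 : (A \ (T1 ∪ D1)).card ≤ (X \ X.filter fun x => e x ∩ T ⊆ T1).card := by
    refine card_le_card_of_injOn μ0 (fun a ha => ?_) (hinj.mono (by
      intro a ha
      exact (mem_sdiff.1 ha).1))
    obtain ⟨haA, haP⟩ := mem_sdiff.1 ha
    exact mem_sdiff.2 ⟨(hμ a haA).1, fun h => haP (hE1 _ h (heμ _ a haA rfl))⟩
  have h7 := card_sdiff_add_card_eq_card hPA
  have h8 := card_sdiff_add_card_eq_card (filter_subset (fun x => e x ∩ T ⊆ T1) X)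
  have h9 := card_sdiff_add_card_eq_card hTA
  refine ⟨A.card + U, by omega, T, Pk, sv, hTRT, hTA, hPk,
    fun x hx => ⟨(hsv x hx).2, heR x _ (hsv x hx).1⟩, ?_, ?_, ?_, by omega⟩
  · intro a ha haR
    have : a ∈ T \ TR ∪ A \ T := by
      by_cases haT : a ∈ T
      · exact mem_union_left _ (mem_sdiff.2 ⟨haT, haR⟩)
      · exact mem_union_right _ (mem_sdiff.2 ⟨ha, haT⟩)
    obtain ⟨x, hx, hax⟩ := hcov a this
    exact ⟨x, hx, heR x a hax⟩
  · intro x hx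
    rcases hpick x hx with ⟨d, hd, hdx⟩ | h
    · exact ⟨d, (mem_sdiff.1 hd).1, (mem_sdiff.1 hd).2, heR x d hdx⟩
    · have : ¬ e x ⊆ T := fun hsub => by
        rw [inter_eq_left.2 hsub, he3] at h
        omega
      obtain ⟨a, ha, haT⟩ := not_subset.1 this
      exact ⟨a, heA x (hPk hx) ha, haT, heR x a ha⟩
  · intro τ hτ
    by_cases hτR : τ ∈ TR
    · obtain ⟨x, hx, hxP, hτx⟩ := hTg τ hτR
      exact Or.inl ⟨x, hx, hxP, heR x τ hτx⟩
    · rcases hTc τ (mem_sdiff.2 ⟨hτ, hτR⟩) with ⟨x, hx, hxP, hτx⟩ | h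
      · exact Or.inl ⟨x, hx, hxP, heR x τ hτx⟩
      · exact Or.inr ⟨hτR, h⟩

end Pool.Agent.Lib.MP_59216f_co.TD
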