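import Pool.Agent.Lib.MP_59216f_co.GZOn
import Pool.Agent.Lib.MP_59216f_co.GCore0
import Pool.Agent.Lib.MP_59216f_co.GV0
import Pool.Agent.Lib.MP_59216f_co.GAsm

set_option autoImplicit false
set_option linter.unusedSectionVars false

namespace Pool.Agent.Lib.MP_59216f_co.TD

open Finset

variable {V : Type} [Fintype V] [DecidableEq V] {R : V → V → Prop}

/-- Main theorem. `I`, `A = nb R I`, `Y = univ \ (I ∪ A)` from `exists_core`. Apply `zon` to
`Q v w = (R v w ∨ (v = w ∧ ∃ a ∈ A, R v a))` on `Y`: a vertex of `Y` has two neighbours in `Y`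
(surplus of the singleton), no neighbour in `I`, and a loop if it has a neighbour in `A`; a set
independent for `Q` is independent for `R`. Then `v0` and `assemble`. -/
theorem small_main (hs : Sy R) (hi : Irr R) (h3 : Three R) : Small R := by
  classical
  obtain ⟨I, hI, ⟨μ, hinj, hμ⟩, hsur⟩ := exists_core hs
  set A := nb R I with hA
  set Y := univ \ (I ∪ A) with hY
  have memY : ∀ v, v ∈ Y ↔ v ∉ I ∧ v ∉ A := by
    intro v
    simp [hY]
  have hIA : Disjoint I A := by
    rw [disjoint_left]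
    intro x hx hx'
    obtain ⟨y, hy, hyx⟩ := mem_nb.1 hx'
    exact hI y hy x hx hyx
  let Q : V → V → Prop := fun v w => R v w ∨ (v = w ∧ ∃ a ∈ A, R v a)
  have hQ : Sy Q := by
    rintro a b (h | ⟨rfl, h⟩)
    · exact Or.inl (hs _ _ h)
    · exact Or.inr ⟨rfl, h⟩
  obtain ⟨S, hSY, hcard, s1, s2⟩ := zon hQ Y (by
    intro v hv
    have h1 := hsur {v} (singleton_subset_iff.2 hv) (singleton_nonempty v) (by
      intro x hx y hy
      rw [mem_singleton] at hx hy
      subst hx hy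
      exact hi _)
    rw [card_singleton] at h1
    obtain ⟨a, ha, b, hb, hab⟩ := one_lt_card.1 (show 1 < (nb R {v} ∩ Y).card by omega)
    obtain ⟨ha1, ha2⟩ := mem_inter.1 ha
    obtain ⟨hb1, hb2⟩ := mem_inter.1 hb
    have hva : R v a := by simpa using mem_nb.1 ha1
    have hvb : R v b := by simpa using mem_nb.1 hb1
    obtain ⟨c, hvc, hca, hcb⟩ := h3.third v a b
    by_cases hcY : c ∈ Y
    · exact ⟨a, ha2, b, hb2, c, hcY, Or.inl hva, Or.inl hvb, Or.inl hvc, hab, hca.symm, hcb.symm⟩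
    · have hcA : c ∈ A := by
        by_contra hn
        have hcI : c ∈ I := by
          by_contra hn'
          exact hcY ((memY c).2 ⟨hn', hn⟩)
        exact ((memY v).1 hv).2 (mem_nb.2 ⟨c, hcI, hs _ _ hvc⟩)
      refine ⟨a, ha2, b, hb2, v, hv, Or.inl hva, Or.inl hvb, Or.inr ⟨rfl, c, hcA, hvc⟩, hab,
        ?_, ?_⟩
      · rintro rfl
        exact hi _ hva
      · rintro rfl
        exact hi _ hvb) (by
    intro X hX hne hind
    refine (hsur X hX hne (fun x hx y hy h => hind x hx y hy (Or.inl h))).trans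
      (card_le_card (inter_subset_inter_right ?_))
    intro w hw
    obtain ⟨x, hx, hxw⟩ := mem_nb.1 hw
    exact mem_nb.2 ⟨x, hx, Or.inl hxw⟩)
  obtain ⟨k, hk, hai⟩ := v0 (TR := A.filter (fun a => ∃ r ∈ S, R a r)) h3
    (fun x hx a hxa => mem_nb.2 ⟨x, hx, hxa⟩) μ hinj hμ (filter_subset _ _)
  obtain ⟨S', hv, hc⟩ := assemble (SR := S) hs h3 hIA (fun r hr => (memY r).1 (hSY hr))
    (by
      intro r h1 h2
      obtain ⟨u, hu, h | ⟨rfl, h⟩⟩ := s1 r ((memY r).2 ⟨h1, h2⟩)
      · exact Or.inl ⟨u, hu, h⟩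
      · exact Or.inr ⟨hu, h⟩)
    (by
      intro r hr
      obtain ⟨u, hu, hu', h | ⟨rfl, _⟩⟩ := s2 r hr
      · exact ⟨u, ((memY u).1 hu).1, ((memY u).1 hu).2, hu', h⟩
      · exact absurd hr hu')
    (fun a => mem_filter) hai
  refine ⟨S', hv, ?_⟩
  have e1 : Y.card + (I ∪ A).card = Fintype.card V := by
    rw [hY, card_sdiff_add_card_eq_card (subset_univ _), card_univ]
  rw [card_union_of_disjoint hIA] at e1
  have e2 : (nb R I).card = A.card := rfl
  omega

/-- The statement for simple graphs. -/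
theorem graph_main (G : SimpleGraph V) [DecidableRel G.Adj] (h : ∀ v : V, 3 ≤ G.degree v) :
    ∃ S D : Finset V, (∀ v : V, ∃ u ∈ S, G.Adj v u) ∧ 2 * S.card ≤ Fintype.card V ∧
      Disjoint S D ∧ (∀ v : V, v ∈ D ∨ ∃ u ∈ D, G.Adj v u) := by
  have h3 : Three G.Adj := by
    intro v
    have h1 : 2 < (G.neighborFinset v).card := by
      rw [SimpleGraph.card_neighborFinset_eq_degree]
      exact h v
    obtain ⟨a, b, c, ha, hb, hc, k⟩ := two_lt_card_iff.1 h1
    rw [SimpleGraph.mem_neighborFinset] at ha hb hc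
    exact ⟨a, b, c, ha, hb, hc, k⟩
  obtain ⟨S, ⟨s1, s2⟩, s3⟩ := small_main (R := G.Adj) (fun _ _ h => h.symm)
    (fun _ h => h.ne rfl) h3
  refine ⟨S, Sᶜ, s1, s3, disjoint_compl_right, fun v => ?_⟩
  by_cases hv : v ∈ S
  · obtain ⟨u, hu, huv⟩ := s2 v hv
    exact Or.inr ⟨u, mem_compl.2 hu, huv⟩
  · exact Or.inl (mem_compl.2 hv)

end Pool.Agent.Lib.MP_59216f_co.TD
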