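import Pool.Agent.Lib.MP_59216f_co.GProp
import Pool.Agent.Lib.MP_59216f_co.GShare

set_option autoImplicit false
set_option linter.unusedSectionVars false

namespace Pool.Agent.Lib.MP_59216f_co.TD

open Finset

variable {V : Type} [Fintype V] [DecidableEq V] {R : V → V → Prop}

/-- The case of a loop at `v0`. Let `m` be a permutation of `univ.erase v0` along edges
(`cov_erase`). If `TwoCol R` use `small_of_twoCol`.
Cut case: `extFI` with rows `univ.erase v0` and `c0 = fun _ => true`; all neighbours of `v0`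
have the colour of `v0` (else `TwoCol`, using the loop); `flip`.
Non cut case: take a neighbour `v1 ≠ v0` of `v0`, `c0 = update (fun _ => true) (m v1) false`,
`extNC` with rows `(univ.erase v0).erase v1`; again all neighbours of `v0` are `true`. Apply
`share` with `S1 = {c = true}`, `S2 = insert v0 {c = false}`,
`P1 v w = (R v w ∧ c w = true ∧ (w ≠ v0 ∨ v = v1))`, `P2 v w = (w ∈ S2 ∧ R v w)`. -/
theorem z1 (hs : Sy R) (h3 : Three R) (h2 : Sur R 2) (hc : Conn R) {v0 : V} (h0 : R v0 v0) :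
    Small R := by
  classical
  by_cases hT : TwoCol R
  · exact small_of_twoCol hT
  have h1 : Sur R 1 := h2.mono (by norm_num)
  obtain ⟨m, hinj, hm⟩ := cov_erase hs h1 hc v0
  have hmem : ∀ v, v ≠ v0 → v ∈ (univ : Finset V).erase v0 := fun v hv =>
    mem_erase.2 ⟨hv, mem_univ _⟩
  have hm0 : ∀ v, v ≠ v0 → m v ≠ v0 := fun v hv => (mem_erase.1 (hm v (hmem v hv)).1).1
  have hmR : ∀ v, v ≠ v0 → R v (m v) := fun v hv => (hm v (hmem v hv)).2
  have hall : ∀ c : V → Bool, (∀ v, v ≠ v0 → Bi R c v) → ∀ w, R v0 w → c w = c v0 := by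
    intro c hb w hw
    by_contra hne
    apply hT
    refine ⟨c, fun v => ?_⟩
    by_cases hv : v = v0
    · rw [hv]
      exact ⟨w, v0, hw, h0, hne⟩
    · exact hb v hv
  by_cases hu : NonCut R v0
  swap
  · have hne : (univ : Finset V).erase v0 ≠ univ := by
      intro e
      have h4 : v0 ∈ (univ : Finset V).erase v0 := by
        rw [e]
        exact mem_univ _
      exact notMem_erase v0 univ h4
    obtain ⟨c, -, hc2⟩ := extFI hs h1 hc m (univ.erase v0) hinj hne (fun _ => true)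
    have hb : ∀ v, v ≠ v0 → Bi R c v := by
      intro v hv
      obtain ⟨w, hw, hcw⟩ := hc2 v (hmem v hv)
      exact ⟨w, m v, hw, hmR v hv, hcw⟩
    exact flip hs h3 hc hu c (hall c hb) hb
  obtain ⟨v1, h01, hv1, -⟩ := h3.third v0 v0 v0
  have hsub : ((univ : Finset V).erase v0).erase v1 ⊆ univ.erase v0 := erase_subset _ _
  have hinj' : Set.InjOn m ((((univ : Finset V).erase v0).erase v1 : Finset V) : Set V) :=
    hinj.mono (by exact_mod_cast hsub)
  have huR : v0 ∉ ((univ : Finset V).erase v0).erase v1 := fun h =>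
    notMem_erase v0 univ (hsub h)
  have hne : insert v0 (((univ : Finset V).erase v0).erase v1) ≠ univ := by
    intro e
    have h4 : v1 ∈ insert v0 (((univ : Finset V).erase v0).erase v1) := by
      rw [e]
      exact mem_univ _
    rcases mem_insert.1 h4 with h5 | h5
    · exact hv1 h5
    · exact notMem_erase v1 _ h5
  obtain ⟨c, hc1, hc2⟩ := extNC hs h2 hu m ((univ.erase v0).erase v1) hinj' huR hne
    (Function.update (fun _ => true) (m v1) false)
  have hcv0 : c v0 = true := by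
    rw [hc1 v0, Function.update_of_ne (hm0 v1 hv1).symm]
    intro h
    obtain ⟨v, hv, e⟩ := mem_image.1 h
    exact hm0 v (mem_erase.1 (hsub hv)).1 e
  have hcm1 : c (m v1) = false := by
    rw [hc1 (m v1), Function.update_self]
    intro h
    obtain ⟨v, hv, e⟩ := mem_image.1 h
    exact (mem_erase.1 hv).1 (hinj (hsub hv) (hmem v1 hv1) e)
  have hrow : ∀ v, v ≠ v0 → v ≠ v1 →
      ∃ a b, R v a ∧ R v b ∧ a ≠ v0 ∧ b ≠ v0 ∧ c a = true ∧ c b = false := by
    intro v hv hv'
    obtain ⟨w, hw, hw0, hcw⟩ := hc2 v (mem_erase.2 ⟨hv', hmem v hv⟩)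
    cases hcc : c w with
    | true =>
      refine ⟨w, m v, hw, hmR v hv, hw0, hm0 v hv, hcc, ?_⟩
      rw [hcc] at hcw
      simpa using hcw
    | false =>
      refine ⟨m v, w, hmR v hv, hw, hm0 v hv, hw0, ?_, hcc⟩
      rw [hcc] at hcw
      simpa using hcw
  have hb : ∀ v, v ≠ v0 → Bi R c v := by
    intro v hv
    by_cases hv' : v = v1
    · rw [hv']
      refine ⟨v0, m v1, hs _ _ h01, hmR v1 hv1, ?_⟩
      rw [hcv0, hcm1]
      decide
    · obtain ⟨a, b, ha, hb, -, -, hca, hcb⟩ := hrow v hv hv'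
      refine ⟨a, b, ha, hb, ?_⟩
      rw [hca, hcb]
      decide
  have hk : ∀ w, R v0 w → c w = true := fun w hw => (hall c hb w hw).trans hcv0
  have hS2 : ∀ w, w ∈ insert v0 (univ.filter (fun x => c x = false)) ↔ w = v0 ∨ c w = false := by
    intro w
    simp
  have hS1 : ∀ w, w ∈ univ.filter (fun x => c x = true) ↔ c w = true := by
    intro w
    simp
  refine share hs h3 (univ.filter (fun x => c x = true))
    (insert v0 (univ.filter (fun x => c x = false)))
    (fun v w => R v w ∧ c w = true ∧ (w ≠ v0 ∨ v = v1))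
    (fun v w => w ∈ insert v0 (univ.filter (fun x => c x = false)) ∧ R v w)
    (fun v w h => ⟨(hS1 w).2 h.2.1, h.1⟩) (fun v w h => h) ?_ ?_ ?_ ?_ ?_ ?_
  · intro v
    by_cases hv : v = v0
    · exact ⟨v1, hv ▸ h01, hk v1 h01, Or.inl hv1⟩
    by_cases hv' : v = v1
    · exact ⟨v0, hv' ▸ hs _ _ h01, hcv0, Or.inr hv'⟩
    obtain ⟨a, b, ha, -, ha0, -, hca, -⟩ := hrow v hv hv'
    exact ⟨a, ha, hca, Or.inl ha0⟩
  · intro v
    by_cases hv : v = v0
    · exact ⟨v0, (hS2 v0).2 (Or.inl rfl), hv ▸ h0⟩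
    by_cases hv' : v = v1
    · exact ⟨v0, (hS2 v0).2 (Or.inl rfl), hv' ▸ hs _ _ h01⟩
    obtain ⟨a, b, -, hb, -, -, -, hcb⟩ := hrow v hv hv'
    exact ⟨b, (hS2 b).2 (Or.inr hcb), hb⟩
  · intro v
    by_cases hv : v = v0
    · obtain ⟨x, hx, hx0, hx1⟩ := h3.third v0 v0 v1
      exact Or.inl ⟨x, v1, hx1, ⟨hv ▸ hx, hk x hx, Or.inl hx0⟩,
        ⟨hv ▸ h01, hk v1 h01, Or.inl hv1⟩⟩
    by_cases hv' : v = v1
    · exact Or.inr ⟨v0, m v1, (hm0 v1 hv1).symm, ⟨(hS2 v0).2 (Or.inl rfl), hv' ▸ hs _ _ h01⟩,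
        ⟨(hS2 _).2 (Or.inr hcm1), hv' ▸ hmR v1 hv1⟩⟩
    obtain ⟨a, b, ha, hb, ha0, hb0, hca, hcb⟩ := hrow v hv hv'
    obtain ⟨x, hx, hxa, hxb⟩ := h3.third v a b
    by_cases hx0 : x = v0
    · exact Or.inr ⟨x, b, hxb, ⟨(hS2 x).2 (Or.inl hx0), hx⟩, ⟨(hS2 b).2 (Or.inr hcb), hb⟩⟩
    cases hcx : c x with
    | true => exact Or.inl ⟨x, a, hxa, ⟨hx, hcx, Or.inl hx0⟩, ⟨ha, hca, Or.inl ha0⟩⟩
    | false =>
      exact Or.inr ⟨x, b, hxb, ⟨(hS2 x).2 (Or.inr hcx), hx⟩, ⟨(hS2 b).2 (Or.inr hcb), hb⟩⟩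
  · intro b _ hbad v v' hP hP'
    have hb0 : b = v0 := by
      by_contra hne'
      obtain ⟨w, w', hw, hw', hcw⟩ := hb b hne'
      exact hcw (((hS1 w).1 (hbad w hw)).trans ((hS1 w').1 (hbad w' hw')).symm)
    rcases hP.2.2 with h | h
    · exact absurd hb0 h
    rcases hP'.2.2 with h' | h'
    · exact absurd hb0 h'
    exact h.trans h'.symm
  · intro b hbS hbad v v' _ _
    exfalso
    have hv1S : v1 ∉ insert v0 (univ.filter (fun x => c x = false)) := by
      intro h
      rcases (hS2 v1).1 h with h | h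
      · exact hv1 h
      · rw [hk v1 h01] at h
        exact absurd h (by decide)
    by_cases hv : b = v0
    · exact hv1S (hbad v1 (hv ▸ h01))
    by_cases hv' : b = v1
    · exact hv1S (hv' ▸ hbS)
    obtain ⟨a, b', ha, -, ha0, -, hca, -⟩ := hrow b hv hv'
    rcases (hS2 a).1 (hbad a ha) with h | h
    · exact ha0 h
    · rw [hca] at h
      exact absurd h (by decide)
  · have e1 := card_insert_le v0 (univ.filter (fun x => c x = false))
    have e2 := card_filter_add_card_filter_not (s := (univ : Finset V)) (fun x => c x = true)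
    have e3 : univ.filter (fun x => ¬ c x = true) = univ.filter (fun x => c x = false) := by
      ext x
      simp
    rw [e3, card_univ] at e2
    omega

end Pool.Agent.Lib.MP_59216f_co.TD
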