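import Pool.Agent.Lib.MP_59216f_co.GCut
import Pool.Agent.Lib.MP_59216f_co.GCoreB
import Pool.Agent.Lib.MP_59216f_co.GShift
import Pool.Agent.Lib.MP_59216f_co.GFrame
import Pool.Agent.Lib.MP_59216f_co.GEndD
import Pool.Agent.Lib.MP_59216f_co.GZ1
import Pool.Agent.Lib.MP_59216f_co.GTightC

set_option autoImplicit false
set_option linter.unusedSectionVars false

namespace Pool.Agent.Lib.MP_59216f_co.TD

open Finset

variable {V : Type} [Fintype V] [DecidableEq V] {R : V → V → Prop}

/-- The case without loops and with surplus two. -/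
theorem z0 (hs : Sy R) (hi : Irr R) (h3 : Three R) (h2 : Sur R 2) (hc : Conn R) : Small R := by
  by_contra hn
  have h1 : Sur R 1 := h2.mono (by norm_num)
  have hu := all_nonCut hs hi h3 h2 hc hn
  have hb : NB R := nb_of_nbadj hs h1 hc
    (fun i u t hiu hcy he hcov => hn (core_beta hs hi h3 h2 (hu u) hiu hcy he hcov))
  have hA : NoA R := fun u t hcy ht hcov => hn (core_alpha hs h3 h2 (hu u) hcy ht hcov.covL)
  have hT : Tst R := tst_of hs hi h3 h2 hu hn
  rcases isEmpty_or_nonempty V with hV | ⟨⟨z⟩⟩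
  · exact hn ⟨∅, ⟨fun v => hV.elim v, fun v => hV.elim v⟩, by simp⟩
  obtain ⟨b, b', t, k1, k2, k3, k4⟩ := exists_blossom hs hi h3 h2 (cover_single hs h1 hc hb z)
  obtain ⟨x, y, s1, s2, p, hth⟩ := exists_theta hs hi h2 hb k1 k2 k3 k4
  obtain ⟨g1, g2, g3, g4, a, b, c, d, p, q, hf⟩ := exists_frame hs h2 hb hth
  exact no_frame hs hi h3 hT hA hf

/-- The connected case. -/
theorem zconn (hs : Sy R) (h3 : Three R) (h1 : Sur R 1) (hc : Conn R) : Small R := by
  by_cases h2 : Sur R 2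
  · by_cases hi : Irr R
    · exact z0 hs hi h3 h2 hc
    · obtain ⟨v0, h0⟩ := not_forall.1 hi
      exact z1 hs h3 h2 hc (not_not.1 h0)
  · exact tight hs h3 h1 hc h2

end Pool.Agent.Lib.MP_59216f_co.TD
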