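import Pool.Agent.Lib.MP_59216f_co.GZ0

set_option autoImplicit false
set_option linter.unusedSectionVars false

namespace Pool.Agent.Lib.MP_59216f_co.TD

open Finset

variable {V : Type} [Fintype V] [DecidableEq V] {R : V → V → Prop}

/-- Transfer of `zconn` to the subtype of a finset `Y` with the induced relation. -/
theorem zon_conn (hs : Sy R) (Y : Finset V)
    (h3 : ∀ v ∈ Y, ∃ a ∈ Y, ∃ b ∈ Y, ∃ c ∈ Y, R v a ∧ R v b ∧ R v c ∧ a ≠ b ∧ a ≠ c ∧ b ≠ c)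
    (h1 : ∀ X ⊆ Y, X.Nonempty → Indep R X → X.card + 1 ≤ (nb R X ∩ Y).card)
    (hc : ∀ Z ⊆ Y, Z.Nonempty → (∀ v ∈ Z, ∀ w ∈ Y, R v w → w ∈ Z) → Z = Y) :
    ∃ S ⊆ Y, 2 * S.card ≤ Y.card ∧ (∀ v ∈ Y, ∃ u ∈ S, R v u) ∧
      ∀ v ∈ S, ∃ u ∈ Y, u ∉ S ∧ R v u := by
  classical
  let R' : {v // v ∈ Y} → {v // v ∈ Y} → Prop := fun a b => R a.1 b.1
  let e : {v // v ∈ Y} ↪ V := Function.Embedding.subtype _
  have he : ∀ a : {v // v ∈ Y}, e a = a.1 := fun _ => rfl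
  have hsub : ∀ X : Finset {v // v ∈ Y}, X.map e ⊆ Y := by
    intro X v hv
    obtain ⟨a, -, rfl⟩ := mem_map.1 hv
    exact a.2
  have hs' : Sy R' := fun a b h => hs _ _ h
  have h3' : Three R' := by
    intro v
    obtain ⟨a, ha, b, hb, c, hc', k1, k2, k3, k4, k5, k6⟩ := h3 v.1 v.2
    refine ⟨⟨a, ha⟩, ⟨b, hb⟩, ⟨c, hc'⟩, k1, k2, k3, ?_, ?_, ?_⟩
    · exact fun h => k4 (congrArg Subtype.val h)
    · exact fun h => k5 (congrArg Subtype.val h)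
    · exact fun h => k6 (congrArg Subtype.val h)
  have h1' : Sur R' 1 := by
    intro X hX hI
    have hI' : Indep R (X.map e) := by
      intro x hx y hy
      obtain ⟨a, ha, rfl⟩ := mem_map.1 hx
      obtain ⟨b, hb, rfl⟩ := mem_map.1 hy
      exact hI a ha b hb
    have k := h1 (X.map e) (hsub X) (hX.map) hI'
    rw [card_map] at k
    have k2 : nb R (X.map e) ∩ Y = (nb R' X).map e := by
      ext w
      simp only [mem_inter, mem_nb, mem_map]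
      constructor
      · rintro ⟨⟨v, ⟨a, ha, rfl⟩, hr⟩, hw⟩
        exact ⟨⟨w, hw⟩, ⟨a, ha, hr⟩, rfl⟩
      · rintro ⟨b, ⟨a, ha, hr⟩, rfl⟩
        exact ⟨⟨e a, ⟨a, ha, rfl⟩, hr⟩, b.2⟩
    rw [k2, card_map] at k
    exact k
  have hc' : Conn R' := by
    intro Z hZ hcl
    have k := hc (Z.map e) (hsub Z) hZ.map (by
      intro v hv w hw hr
      obtain ⟨a, ha, rfl⟩ := mem_map.1 hv
      exact mem_map.2 ⟨⟨w, hw⟩, hcl a ha ⟨w, hw⟩ hr, rfl⟩)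
    refine eq_univ_of_forall fun a => ?_
    have ha : a.1 ∈ Z.map e := by rw [k]; exact a.2
    obtain ⟨b, hb, hba⟩ := mem_map.1 ha
    have : b = a := Subtype.ext hba
    exact this ▸ hb
  obtain ⟨S, ⟨hv1, hv2⟩, hcard⟩ := zconn hs' h3' h1' hc'
  refine ⟨S.map e, hsub S, ?_, ?_, ?_⟩
  · rw [card_map]
    simpa using hcard
  · intro v hv
    obtain ⟨u, hu, hr⟩ := hv1 ⟨v, hv⟩
    exact ⟨e u, mem_map.2 ⟨u, hu, rfl⟩, hr⟩
  · intro v hv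
    obtain ⟨a, ha, rfl⟩ := mem_map.1 hv
    obtain ⟨u, hu, hr⟩ := hv2 a ha
    refine ⟨u.1, u.2, ?_, hr⟩
    intro h
    obtain ⟨b, hb, hbu⟩ := mem_map.1 h
    have : b = u := Subtype.ext hbu
    exact hu (this ▸ hb)

/-- The hypotheses pass to a closed subset. -/
theorem zon_closed {Y Z : Finset V} (hZ : Z ⊆ Y) (hcl : ∀ v ∈ Z, ∀ w ∈ Y, R v w → w ∈ Z)
    (h3 : ∀ v ∈ Y, ∃ a ∈ Y, ∃ b ∈ Y, ∃ c ∈ Y, R v a ∧ R v b ∧ R v c ∧ a ≠ b ∧ a ≠ c ∧ b ≠ c)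
    (h1 : ∀ X ⊆ Y, X.Nonempty → Indep R X → X.card + 1 ≤ (nb R X ∩ Y).card) :
    (∀ v ∈ Z, ∃ a ∈ Z, ∃ b ∈ Z, ∃ c ∈ Z, R v a ∧ R v b ∧ R v c ∧ a ≠ b ∧ a ≠ c ∧ b ≠ c) ∧
      ∀ X ⊆ Z, X.Nonempty → Indep R X → X.card + 1 ≤ (nb R X ∩ Z).card := by
  constructor
  · intro v hv
    obtain ⟨a, ha, b, hb, c, hc, k1, k2, k3, k4⟩ := h3 v (hZ hv)
    exact ⟨a, hcl v hv a ha k1, b, hcl v hv b hb k2, c, hcl v hv c hc k3, k1, k2, k3, k4⟩
  · intro X hX hne hI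
    refine (h1 X (hX.trans hZ) hne hI).trans (card_le_card ?_)
    intro w hw
    obtain ⟨hw1, hw2⟩ := mem_inter.1 hw
    obtain ⟨v, hv, hr⟩ := mem_nb.1 hw1
    exact mem_inter.2 ⟨hw1, hcl v (hX hv) w hw2 hr⟩

/-- Strong induction on `Y.card`: if a nonempty proper subset `Z` is closed in `Y`, so is
`Y \ Z`, and both satisfy the hypotheses; otherwise `zon_conn`. -/
theorem zon (hs : Sy R) (Y : Finset V)
    (h3 : ∀ v ∈ Y, ∃ a ∈ Y, ∃ b ∈ Y, ∃ c ∈ Y, R v a ∧ R v b ∧ R v c ∧ a ≠ b ∧ a ≠ c ∧ b ≠ c)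
    (h1 : ∀ X ⊆ Y, X.Nonempty → Indep R X → X.card + 1 ≤ (nb R X ∩ Y).card) :
    ∃ S ⊆ Y, 2 * S.card ≤ Y.card ∧ (∀ v ∈ Y, ∃ u ∈ S, R v u) ∧
      ∀ v ∈ S, ∃ u ∈ Y, u ∉ S ∧ R v u := by
  induction Y using Finset.strongInduction with
  | H Y ih =>
    by_cases hc : ∀ Z ⊆ Y, Z.Nonempty → (∀ v ∈ Z, ∀ w ∈ Y, R v w → w ∈ Z) → Z = Y
    · exact zon_conn hs Y h3 h1 hc
    · push Not at hc
      obtain ⟨Z, hZ, hne, hcl, hneq⟩ := hc
      have hcl' : ∀ v ∈ Y \ Z, ∀ w ∈ Y, R v w → w ∈ Y \ Z := by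
        intro v hv w hw hr
        obtain ⟨hv1, hv2⟩ := mem_sdiff.1 hv
        exact mem_sdiff.2 ⟨hw, fun hwZ => hv2 (hcl w hwZ v hv1 (hs _ _ hr))⟩
      obtain ⟨a3, a1⟩ := zon_closed hZ hcl h3 h1
      obtain ⟨b3, b1⟩ := zon_closed (sdiff_subset (s := Y) (t := Z)) hcl' h3 h1
      obtain ⟨S, hS, s1, s2, s3⟩ := ih Z (Finset.ssubset_iff_subset_ne.2 ⟨hZ, hneq⟩) a3 a1
      obtain ⟨T, hT, t1, t2, t3⟩ := ih (Y \ Z) (sdiff_ssubset hZ hne) b3 b1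
      refine ⟨S ∪ T, union_subset (hS.trans hZ) (hT.trans sdiff_subset), ?_, ?_, ?_⟩
      · have k1 := card_union_le S T
        have k2 := card_sdiff_add_card_eq_card hZ
        omega
      · intro v hv
        by_cases hvZ : v ∈ Z
        · obtain ⟨u, hu, hr⟩ := s2 v hvZ
          exact ⟨u, mem_union_left _ hu, hr⟩
        · obtain ⟨u, hu, hr⟩ := t2 v (mem_sdiff.2 ⟨hv, hvZ⟩)
          exact ⟨u, mem_union_right _ hu, hr⟩
      · intro v hv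
        rcases mem_union.1 hv with h | h
        · obtain ⟨u, hu, hn, hr⟩ := s3 v h
          refine ⟨u, hZ hu, ?_, hr⟩
          intro k
          rcases mem_union.1 k with k | k
          · exact hn k
          · exact (mem_sdiff.1 (hT k)).2 hu
        · obtain ⟨u, hu, hn, hr⟩ := t3 v h
          refine ⟨u, (mem_sdiff.1 hu).1, ?_, hr⟩
          intro k
          rcases mem_union.1 k with k | k
          · exact (mem_sdiff.1 hu).2 (hS k)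
          · exact hn k

end Pool.Agent.Lib.MP_59216f_co.TD
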