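import Mathlib

set_option autoImplicit false

namespace Pool.Agent.Lib.MP_59216f_co

open Finset

variable {ι : Type} [DecidableEq ι]

/-- `PM H W`: the vertex set `W` has a perfect matching in `H`. -/
inductive PM (H : SimpleGraph ι) : Finset ι → Prop
  | empty : PM H ∅
  | step {W : Finset ι} {u v : ι} : PM H W → H.Adj u v → u ∉ W → v ∉ W →
      PM H (insert u (insert v W))

variable {H : SimpleGraph ι}

theorem PM.congr {W W' : Finset ι} (h : PM H W) (e : ∀ x, x ∈ W ↔ x ∈ W') : PM H W' := by
  have : W = W' := Finset.ext e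
  exact this ▸ h

theorem PM.add {W W' : Finset ι} {u v : ι} (h : PM H W) (a : H.Adj u v) (hu : u ∉ W) (hv : v ∉ W)
    (e : ∀ x, x ∈ W' ↔ x = u ∨ x = v ∨ x ∈ W) : PM H W' :=
  (PM.step h a hu hv).congr (by intro x; simp [e x])

theorem PM.extract {W : Finset ι} (h : PM H W) :
    ∀ u ∈ W, ∃ v, H.Adj u v ∧ v ∈ W ∧ PM H ((W.erase u).erase v) := by
  induction h with
  | empty => intro u hu; simp at hu
  | @step W a b hW hab ha hb ih =>
    intro u hu
    have hne := hab.ne
    by_cases hua : u = a
    · subst hua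
      refine ⟨b, hab, by simp, hW.congr ?_⟩
      intro x
      simp only [Finset.mem_erase, Finset.mem_insert]
      grind
    by_cases hub : u = b
    · subst hub
      refine ⟨a, hab.symm, by simp, hW.congr ?_⟩
      intro x
      simp only [Finset.mem_erase, Finset.mem_insert]
      grind
    have huW : u ∈ W := by simpa [hua, hub] using hu
    obtain ⟨v, huv, hvW, hPM⟩ := ih u huW
    refine ⟨v, huv, by simp [hvW], hPM.add hab (by simp [ha]) (by simp [hb]) ?_⟩
    intro x
    simp only [Finset.mem_erase, Finset.mem_insert]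
    grind

theorem PM.union {W₁ W₂ W : Finset ι} (h₁ : PM H W₁) (h₂ : PM H W₂)
    (hd : ∀ x, x ∈ W₁ → x ∉ W₂) (e : ∀ x, x ∈ W ↔ x ∈ W₁ ∨ x ∈ W₂) : PM H W := by
  induction h₁ generalizing W with
  | empty => exact h₂.congr (by intro x; simp [e x])
  | @step Z a b hZ hab ha hb ih =>
    have h := ih (W := Z ∪ W₂) (fun x hx => hd x (by simp [hx])) (by intro x; simp)
    refine h.add hab ?_ ?_ ?_
    · have := hd a (by simp)
      simp [ha, this]
    · have := hd b (by simp)
      simp [hb, this]
    · intro x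
      rw [e x]
      simp only [Finset.mem_insert, Finset.mem_union]
      tauto

theorem PM.even_of_closed {Z : Finset ι} (h : PM H Z) :
    ∀ Y : Finset ι, Y ⊆ Z → (∀ a ∈ Y, ∀ b ∈ Z, H.Adj a b → b ∈ Y) → Even Y.card := by
  induction h with
  | empty =>
    intro Y hY _
    have : Y = ∅ := Finset.subset_empty.1 hY
    simp [this]
  | @step W a b hW hab ha hb ih =>
    intro Y hY hcl
    have hne := hab.ne
    have h1 : Even ((Y.erase a).erase b).card := by
      apply ih
      · intro x hx
        have := hY (Finset.mem_of_mem_erase (Finset.mem_of_mem_erase hx))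
        simp only [Finset.mem_erase, Finset.mem_insert] at hx this
        tauto
      · intro x hx y hy hxy
        simp only [Finset.mem_erase] at hx ⊢
        refine ⟨?_, ?_, hcl x hx.2.2 y (by simp [hy]) hxy⟩
        · rintro rfl; exact hb hy
        · rintro rfl; exact ha hy
    by_cases haY : a ∈ Y
    · have hbY : b ∈ Y := hcl a haY b (by simp) hab
      have hbY' : b ∈ Y.erase a := Finset.mem_erase.2 ⟨hne.symm, hbY⟩
      rw [Finset.card_erase_of_mem hbY', Finset.card_erase_of_mem haY] at h1
      have h2 : 2 ≤ Y.card := by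
        have : ({a, b} : Finset ι) ⊆ Y := by
          intro x hx
          simp only [Finset.mem_insert, Finset.mem_singleton] at hx
          rcases hx with rfl | rfl <;> assumption
        have h3 := Finset.card_le_card this
        rwa [Finset.card_pair hne] at h3
      obtain ⟨k, hk⟩ := h1
      exact ⟨k + 1, by omega⟩
    · have hbY : b ∉ Y := fun hb' => haY (hcl b hb' a (by simp) hab.symm)
      rwa [Finset.erase_eq_of_notMem haY, Finset.erase_eq_of_notMem hbY] at h1

theorem PM.even {Z : Finset ι} (h : PM H Z) : Even Z.card :=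
  h.even_of_closed Z (subset_refl _) (fun _ _ _ hb _ => hb)

/-- factor-critical vertex sets -/
def FC (H : SimpleGraph ι) (K : Finset ι) : Prop := K.Nonempty ∧ ∀ v ∈ K, PM H (K.erase v)

theorem FC.odd {K : Finset ι} (h : FC H K) : Odd K.card := by
  obtain ⟨v, hv⟩ := h.1
  have h1 := (h.2 v hv).even
  rw [Finset.card_erase_of_mem hv] at h1
  have := Finset.card_pos.2 ⟨v, hv⟩
  obtain ⟨k, hk⟩ := h1
  exact ⟨k, by omega⟩

/-- `A` is a subset of `X` and `P` is a partition of the rest into odd parts with no edges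
between different parts. -/
structure Str (H : SimpleGraph ι) (X A : Finset ι) (P : Finset (Finset ι)) : Prop where
  sub : ∀ a ∈ A, a ∈ X
  part : ∀ K ∈ P, ∀ v ∈ K, v ∈ X ∧ v ∉ A
  odd : ∀ K ∈ P, Odd K.card
  cover : ∀ v ∈ X, v ∉ A → ∃ K ∈ P, v ∈ K
  disj : ∀ K ∈ P, ∀ K' ∈ P, ∀ v, v ∈ K → v ∈ K' → K = K'
  noedge : ∀ K ∈ P, ∀ K' ∈ P, ∀ v ∈ K, ∀ v' ∈ K', H.Adj v v' → K = K'

theorem Str.card_eq {X A : Finset ι} {P : Finset (Finset ι)} (h : Str H X A P) :
    X.card = A.card + ∑ K ∈ P, K.card := by
  have h1 : X = A ∪ P.biUnion id := by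
    ext v
    simp only [Finset.mem_union, Finset.mem_biUnion, id]
    constructor
    · intro hv
      by_cases hA : v ∈ A
      · exact Or.inl hA
      · exact Or.inr (h.cover v hv hA)
    · rintro (hv | ⟨K, hK, hv⟩)
      · exact h.sub v hv
      · exact (h.part K hK v hv).1
  have h2 : Disjoint A (P.biUnion id) := by
    rw [Finset.disjoint_left]
    intro v hv hv'
    obtain ⟨K, hK, hvK⟩ := Finset.mem_biUnion.1 hv'
    exact (h.part K hK v hvK).2 hv
  have h3 : (P.biUnion id).card = ∑ K ∈ P, K.card := by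
    apply Finset.card_biUnion
    intro K hK K' hK' hne
    rw [Function.onFun, Finset.disjoint_left]
    intro v hv hv'
    exact hne (h.disj K hK K' hK' v hv hv')
  calc X.card = (A ∪ P.biUnion id).card := by rw [← h1]
    _ = _ := by rw [Finset.card_union_of_disjoint h2, h3]

theorem sum_odd_parity (P : Finset (Finset ι)) (h : ∀ K ∈ P, Odd K.card) :
    (∑ K ∈ P, K.card) % 2 = P.card % 2 := by
  rw [Finset.sum_nat_mod, Finset.sum_congr rfl (g := fun _ => 1)]
  · simp
  · intro K hK
    exact Nat.odd_iff.1 (h K hK)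

/-- Perfect matching from a structure whose set `A` is matched onto the parts. -/
theorem pm_of_matched (A : Finset ι) (ψ : ι → Finset ι) :
    ∀ X : Finset ι, (∀ q ∈ A, FC H (ψ q) ∧ ∃ v ∈ ψ q, H.Adj q v) →
      (∀ q ∈ A, ∀ q' ∈ A, ∀ v, v ∈ ψ q → v ∈ ψ q' → q = q') →
      (∀ q ∈ A, ∀ q' ∈ A, q' ∉ ψ q) →
      (∀ x, x ∈ X ↔ x ∈ A ∨ ∃ q ∈ A, x ∈ ψ q) → PM H X := by
  induction A using Finset.induction_on with
  | empty =>
    intro X _ _ _ e
    exact PM.empty.congr (by intro x; simp [e x])
  | insert a A ha ih =>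
    intro X h1 h2 h3 e
    have hA := ih (A ∪ A.biUnion ψ) (fun q hq => h1 q (by simp [hq]))
      (fun q hq q' hq' => h2 q (by simp [hq]) q' (by simp [hq']))
      (fun q hq q' hq' => h3 q (by simp [hq]) q' (by simp [hq'])) (by intro x; simp)
    obtain ⟨hfc, v, hv, hav⟩ := h1 a (by simp)
    have hB : PM H (insert a (ψ a)) := by
      refine (hfc.2 v hv).add hav ?_ (by simp) ?_
      · have := h3 a (by simp) a (by simp)
        simp [this]
      · intro x
        simp only [Finset.mem_insert, Finset.mem_erase]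
        grind
    refine hA.union hB ?_ ?_
    · intro x hx hx'
      simp only [Finset.mem_union, Finset.mem_biUnion, Finset.mem_insert] at hx hx'
      rcases hx with hx | ⟨q, hq, hx⟩ <;> rcases hx' with rfl | hx'
      · exact ha hx
      · exact h3 a (by simp) x (by simp [hx]) hx'
      · exact h3 q (by simp [hq]) x (by simp) hx
      · have := h2 q (by simp [hq]) a (by simp) x hx hx'
        exact ha (this ▸ hq)
    · intro x
      rw [e x]
      simp only [Finset.mem_union, Finset.mem_biUnion, Finset.mem_insert]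
      grind

end Pool.Agent.Lib.MP_59216f_co
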