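import Pool.Agent.Lib.MP_59216f_co.Colour

set_option autoImplicit false

namespace Pool.Agent.Lib.MP_59216f_co

open Finset

variable {ι : Type} [DecidableEq ι] {Γ : SimpleGraph (ι × Bool)}

omit [DecidableEq ι] in
theorem nodeAdj {v w : ι × Bool} (h : Γ.Adj v w) (hne : v.1 ≠ w.1) :
    (nodeGraph Γ).Adj v.1 w.1 := ⟨hne, v.2, w.2, h⟩

/-- Both vertices over a node. -/
def both (x : ι) : Finset (ι × Bool) := {(x, false), (x, true)}

theorem mem_both {x : ι} {v : ι × Bool} : v ∈ both x ↔ v.1 = x := by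
  obtain ⟨i, b⟩ := v
  cases b <;> simp [both]

theorem card_both (x : ι) : (both x).card = 2 := by
  rw [both, Finset.card_pair (by simp)]

omit [DecidableEq ι] in
theorem eq_of_ne_ne {s x y : ι × Bool} (h1 : s.1 = x.1) (h2 : y.1 = x.1) (h3 : s ≠ x)
    (h4 : y ≠ x) : s = y := by
  obtain ⟨s1, s2⟩ := s
  obtain ⟨x1, x2⟩ := x
  obtain ⟨y1, y2⟩ := y
  simp only at h1 h2
  subst h1 h2
  cases s2 <;> cases x2 <;> cases y2 <;> simp_all

theorem bool_ne_ne {b c d : Bool} (h1 : b ≠ c) (h2 : d ≠ c) : b = d := by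
  cases b <;> cases c <;> cases d <;> simp_all

/-- The colouring along an alternating path: full nodes and empty nodes alternate. -/
theorem path_lemma (hμ : ∀ i b, Γ.Adj (i, b) (i, !b)) {K : Finset ι} (hK : ¬ Nice Γ K)
    (l y : ι × Bool) (hly : Γ.Adj l y) (n : ℕ) :
    ∀ (Z C : Finset ι) (x w : ι × Bool), Z.card = n → (∀ a, a ∈ K ↔ a ∈ Z ∨ a ∈ C) →
      (∀ a, a ∈ Z → a ∉ C) → x.1 ∈ Z → y.1 ∈ Z → w.1 ∈ C → l.1 ∈ C → w.1 ≠ l.1 → Γ.Adj w x →
      PM (nodeGraph Γ) (Z.erase x.1) → PM (nodeGraph Γ) (Z.erase y.1) → PM (nodeGraph Γ) C →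
      PM (nodeGraph Γ) ((C.erase w.1).erase l.1) →
      ∃ S : Finset (ι × Bool), (∀ s ∈ S, s.1 ∈ Z) ∧ S.card = Z.card + 1 ∧ x ∈ S ∧ y ∈ S ∧
        (∀ v : ι × Bool, v.1 ∈ Z → ∃ s ∈ S, Γ.Adj v s) ∧
        (∀ s ∈ S, ∃ d : ι × Bool, ((d.1 ∈ Z ∧ d ∉ S) ∨ d = w ∨ d = l) ∧ Γ.Adj s d) := by
  induction n using Nat.strong_induction_on with
  | _ n ih =>
  intro Z C x w hn hKZ hd hx hy hw hl hwl hwx pZx pZy pC pCwl
  have hxw : x.1 ≠ w.1 := fun h => hd _ hx (h ▸ hw)
  have hxl : x.1 ≠ l.1 := fun h => hd _ hx (h ▸ hl)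
  have hyl : y.1 ≠ l.1 := fun h => hd _ hy (h ▸ hl)
  by_cases hxy : x.1 = y.1
  · -- the last node
    have hne : x ≠ y := by
      rintro rfl
      apply hK
      refine ⟨x, w, l, (hKZ _).2 (Or.inl hx), (hKZ _).2 (Or.inr hw), (hKZ _).2 (Or.inr hl),
        hxw, hxl, hwl, hwx.symm, hly.symm, pZx.union pCwl ?_ ?_⟩
      · intro a ha
        have := hd a
        simp only [Finset.mem_erase] at ha ⊢
        grind
      · intro a
        have := hd a
        have := hKZ a
        simp only [Finset.mem_erase]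
        grind
    obtain ⟨S, hS, hc⟩ := pm_good hμ pZx
    have hdisj : Disjoint (both x.1) S := by
      rw [Finset.disjoint_left]
      intro a ha ha'
      have := hS.sub a ha'
      rw [mem_both.1 ha] at this
      simp at this
    refine ⟨both x.1 ∪ S, ?_, ?_, ?_, ?_, ?_, ?_⟩
    · intro s hs
      rcases Finset.mem_union.1 hs with h | h
      · rw [mem_both.1 h]; exact hx
      · exact Finset.mem_of_mem_erase (hS.sub s h)
    · rw [Finset.card_union_of_disjoint hdisj, card_both, hc, Finset.card_erase_of_mem hx]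
      have := Finset.card_pos.2 ⟨_, hx⟩
      omega
    · exact Finset.mem_union_left _ (mem_both.2 rfl)
    · exact Finset.mem_union_left _ (mem_both.2 hxy.symm)
    · rintro ⟨i, b⟩ hv
      by_cases hi : i = x.1
      · exact ⟨(i, !b), Finset.mem_union_left _ (mem_both.2 hi), hμ i b⟩
      · obtain ⟨s, hs, a⟩ := hS.dom (i, b) (Finset.mem_erase.2 ⟨hi, hv⟩) (by simp)
        exact ⟨s, Finset.mem_union_right _ hs, a⟩
    · intro s hs
      rcases Finset.mem_union.1 hs with h | h
      · have h1 := mem_both.1 h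
        by_cases hsx : s = x
        · exact ⟨w, Or.inr (Or.inl rfl), hsx ▸ hwx.symm⟩
        · have hsy : s = y := eq_of_ne_ne h1 hxy.symm hsx hne.symm
          exact ⟨l, Or.inr (Or.inr rfl), hsy ▸ hly.symm⟩
      · obtain ⟨d, h1, h2, h3⟩ := hS.dnb s h
        refine ⟨d, Or.inl ⟨Finset.mem_of_mem_erase h1, ?_⟩, h3⟩
        intro h4
        rcases Finset.mem_union.1 h4 with h5 | h5
        · rw [mem_both.1 h5] at h1
          simp at h1
        · exact h2 h5
  · obtain ⟨z₁, ⟨hxz, a₁, b₁, e₁⟩, hz₁, p₁⟩ := pZy.extract x.1 (Finset.mem_erase.2 ⟨hxy, hx⟩)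
    have hz₁y : z₁ ≠ y.1 := (Finset.mem_erase.1 hz₁).1
    have hz₁Z : z₁ ∈ Z := (Finset.mem_erase.1 hz₁).2
    obtain ⟨z₂, ⟨hzz, b₂, a₂, e₂⟩, hz₂, p₂⟩ :=
      pZx.extract z₁ (Finset.mem_erase.2 ⟨hxz.symm, hz₁Z⟩)
    have hz₂x : z₂ ≠ x.1 := (Finset.mem_erase.1 hz₂).1
    have hz₂Z : z₂ ∈ Z := (Finset.mem_erase.1 hz₂).2
    have hz₁w : z₁ ≠ w.1 := fun h => hd _ hz₁Z (h ▸ hw)
    have hz₁l : z₁ ≠ l.1 := fun h => hd _ hz₁Z (h ▸ hl)
    have ha₁ : (x.1, a₁) ≠ x := by
      intro h
      apply hK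
      refine ⟨x, w, (z₁, b₁), (hKZ _).2 (Or.inl hx), (hKZ _).2 (Or.inr hw),
        (hKZ _).2 (Or.inl hz₁Z), hxw, hxz, hz₁w.symm, hwx.symm, h ▸ e₁, ?_⟩
      have q1 : PM (nodeGraph Γ) (insert l.1 ((Z.erase x.1).erase z₁)) := by
        refine p₁.add (nodeAdj hly hyl.symm) ?_ ?_ ?_
        · have := hd l.1
          simp only [Finset.mem_erase]
          grind
        · simp
        · intro a
          simp only [Finset.mem_erase, Finset.mem_insert]
          grind
      refine q1.union pCwl ?_ ?_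
      · intro a ha
        have := hd a
        simp only [Finset.mem_erase, Finset.mem_insert] at ha ⊢
        grind
      · intro a
        have := hd a
        have := hKZ a
        simp only [Finset.mem_erase, Finset.mem_insert]
        grind
    have hb : b₂ ≠ b₁ := by
      rintro rfl
      apply hK
      refine ⟨(z₁, b₂), (x.1, a₁), (z₂, a₂), (hKZ _).2 (Or.inl hz₁Z), (hKZ _).2 (Or.inl hx),
        (hKZ _).2 (Or.inl hz₂Z), hxz.symm, hzz, hz₂x.symm, e₁.symm, e₂, p₂.union pC ?_ ?_⟩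
      · intro a ha
        have := hd a
        simp only [Finset.mem_erase] at ha ⊢
        grind
      · intro a
        have := hd a
        have := hKZ a
        simp only [Finset.mem_erase]
        grind
    have hc1 := Finset.card_erase_of_mem hx
    have hc2 := Finset.card_erase_of_mem (Finset.mem_erase.2 ⟨hxz.symm, hz₁Z⟩)
    have hc3 := Finset.card_pos.2 ⟨_, hx⟩
    have hc4 := Finset.card_pos.2 ⟨_, Finset.mem_erase.2 ⟨hxz.symm, hz₁Z⟩⟩
    obtain ⟨S, s1, s2, s3, s4, s5, s6⟩ := ih ((Z.erase x.1).erase z₁).card (by omega)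
      ((Z.erase x.1).erase z₁) (insert x.1 (insert z₁ C)) (z₂, a₂) (z₁, b₂) rfl
      (by
        intro a
        have := hKZ a
        simp only [Finset.mem_erase, Finset.mem_insert]
        grind)
      (by
        intro a
        have := hd a
        simp only [Finset.mem_erase, Finset.mem_insert]
        grind)
      (by simp [hz₂Z, hz₂x, hzz.symm]) (by simp [hy, Ne.symm hxy, hz₁y.symm]) (by simp)
      (by simp [hl]) hz₁l e₂ p₂
      (p₁.congr (by
        intro a
        simp only [Finset.mem_erase]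
        grind))
      (PM.step pC ⟨hxz, a₁, b₁, e₁⟩ (hd _ hx) (hd _ hz₁Z))
      (pCwl.add (nodeAdj hwx hxw.symm) (by simp) (by simp [hd _ hx]) (by
        intro a
        have := hd a
        simp only [Finset.mem_erase, Finset.mem_insert]
        grind))
    have hdisj : Disjoint (both x.1) S := by
      rw [Finset.disjoint_left]
      intro a ha ha'
      have := s1 a ha'
      rw [mem_both.1 ha] at this
      simp at this
    have hz₁S : ∀ b, (z₁, b) ∉ both x.1 ∪ S := by
      intro b h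
      rcases Finset.mem_union.1 h with h5 | h5
      · exact hxz (mem_both.1 h5).symm
      · have := s1 _ h5
        simp at this
    refine ⟨both x.1 ∪ S, ?_, ?_, ?_, ?_, ?_, ?_⟩
    · intro s hs
      rcases Finset.mem_union.1 hs with h | h
      · rw [mem_both.1 h]; exact hx
      · exact Finset.mem_of_mem_erase (Finset.mem_of_mem_erase (s1 s h))
    · rw [Finset.card_union_of_disjoint hdisj, card_both, s2]
      omega
    · exact Finset.mem_union_left _ (mem_both.2 rfl)
    · exact Finset.mem_union_right _ s4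
    · rintro ⟨i, b⟩ hv
      by_cases hi : i = x.1
      · exact ⟨(i, !b), Finset.mem_union_left _ (mem_both.2 hi), hμ i b⟩
      by_cases hi' : i = z₁
      · subst hi'
        by_cases hb' : b = b₁
        · subst hb'
          exact ⟨(x.1, a₁), Finset.mem_union_left _ (mem_both.2 rfl), e₁.symm⟩
        · have : b = b₂ := bool_ne_ne hb' hb
          subst this
          exact ⟨_, Finset.mem_union_right _ s3, e₂⟩
      · obtain ⟨s, hs, a⟩ := s5 (i, b) (by simpa [hi, hi'] using hv)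
        exact ⟨s, Finset.mem_union_right _ hs, a⟩
    · intro s hs
      rcases Finset.mem_union.1 hs with h | h
      · have h1 := mem_both.1 h
        by_cases hsx : s = x
        · exact ⟨w, Or.inr (Or.inl rfl), hsx ▸ hwx.symm⟩
        · have hsy : s = (x.1, a₁) := eq_of_ne_ne h1 rfl hsx ha₁
          exact ⟨(z₁, b₁), Or.inl ⟨hz₁Z, hz₁S _⟩, hsy ▸ e₁⟩
      · obtain ⟨d, h1, h3⟩ := s6 s h
        rcases h1 with ⟨h1, h2⟩ | rfl | rfl
        · refine ⟨d, Or.inl ⟨Finset.mem_of_mem_erase (Finset.mem_of_mem_erase h1), ?_⟩, h3⟩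
          intro h4
          rcases Finset.mem_union.1 h4 with h5 | h5
          · rw [mem_both.1 h5] at h1
            simp at h1
          · exact h2 h5
        · exact ⟨_, Or.inl ⟨hz₁Z, hz₁S _⟩, h3⟩
        · exact ⟨_, Or.inr (Or.inr rfl), h3⟩

end Pool.Agent.Lib.MP_59216f_co
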