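import Pool.Agent.Lib.MP_59216f_co.Path
import Pool.Agent.Lib.MP_59216f_co.Ear

set_option autoImplicit false

namespace Pool.Agent.Lib.MP_59216f_co

open Finset

variable {ι : Type} [DecidableEq ι]

/-- `L` is a maximal proper factor-critical subset of `K` whose complement has a perfect
matching. -/
structure MaxFC (H : SimpleGraph ι) (K L : Finset ι) : Prop where
  fcK : FC H K
  sub : L ⊆ K
  fc : FC H L
  pm : PM H (K \ L)
  max : ∀ K', L ⊆ K' → K' ⊆ K → FC H K' → PM H (K \ K') → K' = L ∨ K' = K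

section
variable {H : SimpleGraph ι} {K L : Finset ι}

theorem MaxFC.ham (h : MaxFC H K L) {x w s l : ι} {E : Finset ι} (hx : x ∈ L) (hw : w ∈ K)
    (hwL : w ∉ L) (hwx : H.Adj w x) (hws : H.Adj w s) (hT : Tail H L l s E)
    (hE : E ⊆ (K \ L).erase w) (hP : PM H (((K \ L).erase w) \ E)) : E = (K \ L).erase w := by
  have hwE : w ∉ E := fun h' => by simpa using hE h'
  have hfc := fc_extend h.fc hx hwL hwE hwx hws hT
  have hsub : L ∪ insert w E ⊆ K := by
    intro a ha
    have := @hE a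
    have := @h.sub a
    simp only [Finset.mem_erase, Finset.mem_insert, Finset.mem_union, Finset.mem_sdiff] at *
    grind
  rcases h.max _ Finset.subset_union_left hsub hfc (hP.congr (by
    intro a
    simp only [Finset.mem_erase, Finset.mem_insert, Finset.mem_union, Finset.mem_sdiff]
    grind)) with h1 | h1
  · exact absurd (h1 ▸ (by simp : w ∈ L ∪ insert w E)) hwL
  · apply Finset.Subset.antisymm hE
    intro a ha
    simp only [Finset.mem_erase, Finset.mem_sdiff] at ha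
    have : a ∈ L ∪ insert w E := h1.symm ▸ ha.2.1
    simp only [Finset.mem_insert, Finset.mem_union] at this
    grind

theorem MaxFC.ear (h : MaxFC H K L) {x w : ι} (hx : x ∈ L) (hw : w ∈ K)
    (hwL : w ∉ L) (hwx : H.Adj w x) :
    ∃ u l, H.Adj w u ∧ Tail H L l u ((K \ L).erase w) := by
  obtain ⟨u, hwu, hu, hP⟩ := h.pm.extract w (by simp [hw, hwL])
  have hne := hwu.ne
  have e : insert u (((K \ L).erase w).erase u) = (K \ L).erase w :=
    Finset.insert_erase (Finset.mem_erase.2 ⟨hne.symm, hu⟩)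
  obtain ⟨l, E, hT, hE, hr⟩ := exists_tail (H := H) (K := L) _ (((K \ L).erase w).erase u) u rfl
    (by simp) (Finset.mem_sdiff.1 hu).2
    (by
      intro a ha
      simp only [Finset.mem_erase, Finset.mem_sdiff] at ha
      exact ha.2.2.2) hP
    ((h.fcK.2 w hw).congr (by
      intro a
      rw [e]
      have := @h.sub a
      simp only [Finset.mem_erase, Finset.mem_union, Finset.mem_sdiff]
      grind))
  rw [e] at hE hr
  have := h.ham hx hw hwL hwx hwu hT hE hr
  exact ⟨u, l, hwu, this ▸ hT⟩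

theorem MaxFC.exists_edge (h : MaxFC H K L) (hne : L ≠ K) :
    ∃ x ∈ L, ∃ w ∈ K, w ∉ L ∧ H.Adj w x := by
  by_contra hcon
  push Not at hcon
  obtain ⟨w, hw, hwL⟩ : ∃ w ∈ K, w ∉ L := by
    by_contra h'
    push Not at h'
    exact hne (Finset.Subset.antisymm h.sub h')
  have h1 := (h.fcK.2 w hw).even_of_closed L
    (fun a ha => Finset.mem_erase.2 ⟨fun e => hwL (e ▸ ha), h.sub ha⟩)
    (by
      intro a ha b hb hab
      by_contra hbL
      exact hcon a ha b (Finset.mem_of_mem_erase hb) hbL hab.symm)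
  exact (Nat.not_even_iff_odd.2 h.fc.odd) h1

end

variable {Γ : SimpleGraph (ι × Bool)} {K L : Finset ι}

/-- The other vertex of an ear end has at most one neighbour over the other nodes of `K`. -/
theorem MaxFC.atMostOne (h : MaxFC (nodeGraph Γ) K L) (hK : ¬ Nice Γ K) {x w : ι × Bool}
    (hx : x.1 ∈ L) (hw : w.1 ∈ K) (hwL : w.1 ∉ L) (hwx : Γ.Adj w x) {t t' : ι × Bool}
    (ht : Γ.Adj (w.1, !w.2) t) (ht' : Γ.Adj (w.1, !w.2) t') (htK : t.1 ∈ K) (ht'K : t'.1 ∈ K)
    (htw : t.1 ≠ w.1) (ht'w : t'.1 ≠ w.1) : t = t' := by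
  have hwx1 : w.1 ≠ x.1 := fun e => hwL (e ▸ hx)
  have Hwx := nodeAdj hwx hwx1
  obtain ⟨u, l, Hwu, hT⟩ := h.ear hx hw hwL Hwx
  obtain ⟨b1, b2, b3, ⟨y, hy, hly⟩, b5, b6⟩ := hT.basic
  have hsub := h.sub
  have huK : u ∈ K := by
    simp only [Finset.mem_erase, Finset.mem_sdiff] at b1
    exact b1.2.1
  have huL : u ∉ L := b3 u b1
  have hlL : l ∉ L := b3 l b2
  have hlw : l ≠ w.1 := (Finset.mem_erase.1 b2).1
  have hKl : PM (nodeGraph Γ) (insert l L) := by
    refine (h.fc.2 y hy).add hly (by simp [hlL]) (by simp) ?_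
    intro z
    simp only [Finset.mem_erase, Finset.mem_insert]
    grind
  -- a vertex over `w` adjacent to `u` has no neighbour over `L`
  have key : ∀ (c : Bool) (β : Bool) (s : ι × Bool), Γ.Adj (w.1, c) (u, β) → s.1 ∈ L →
      ¬ Γ.Adj (w.1, c) s := by
    intro c β s h1 hs h2
    apply hK
    refine ⟨(w.1, c), s, (u, β), hw, hsub hs, huK, fun e => hwL (by simpa using e ▸ hs),
      Hwu.ne, fun e => huL (by rw [← show s.1 = u from e]; exact hs), h2, h1, (h.fc.2 s.1 hs).union b5 ?_ ?_⟩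
    · intro a ha
      simp only [Finset.mem_erase, Finset.mem_sdiff] at ha ⊢
      grind
    · intro a
      have := @hsub a
      simp only [Finset.mem_erase, Finset.mem_sdiff]
      grind
  obtain ⟨hwu, c, β, hcβ⟩ := Hwu
  have hc : c = !w.2 := by
    rcases bool_cases w.2 c with rfl | rfl
    · exact absurd hwx (key _ β x hcβ hx)
    · rfl
  subst hc
  have Hwu : (nodeGraph Γ).Adj w.1 u := ⟨hwu, _, _, hcβ⟩
  -- every neighbour lies over `u`
  have onu : ∀ s : ι × Bool, Γ.Adj (w.1, !w.2) s → s.1 ∈ K → s.1 ≠ w.1 → s.1 = u := by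
    intro s hs hsK hsw
    have hsL : s.1 ∉ L := fun h' => key _ β s hcβ h' hs
    have hsE : s.1 ∈ (K \ L).erase w.1 := by simp [hsK, hsL, hsw]
    rcases hT.dichotomy s.1 hsE with ⟨_, E', p2, p3, p4, p5⟩ | ⟨p1, p2, p3, p4⟩
    · have := h.ham hx hw hwL Hwx (nodeAdj (v := (w.1, !w.2)) hs hsw.symm) p3 p2 p4
      by_contra hne
      exact p5 hne (this ▸ b1)
    · exfalso
      apply hK
      refine ⟨(w.1, !w.2), (u, β), s, hw, huK, hsK, hwu, hsw.symm, p1.symm, hcβ, hs,
        hKl.union p4 ?_ ?_⟩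
      · intro a ha
        simp only [Finset.mem_erase, Finset.mem_sdiff, Finset.mem_insert] at ha ⊢
        grind
      · intro a
        have := @hsub a
        simp only [Finset.mem_erase, Finset.mem_sdiff, Finset.mem_insert] at b2 ⊢
        grind
  have e1 := onu t ht htK htw
  have e2 := onu t' ht' ht'K ht'w
  by_contra hne
  -- both vertices over `u` are adjacent to the vertex over `w`
  have hboth : ∀ γ : Bool, Γ.Adj (u, γ) (w.1, !w.2) := by
    intro γ
    by_cases h1 : (u, γ) = t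
    · exact h1 ▸ ht.symm
    · have : (u, γ) = t' := eq_of_ne_ne e1.symm (e2.trans e1.symm) h1 (Ne.symm hne)
      exact this ▸ ht'.symm
  generalize hE : (K \ L).erase w.1 = E at hT b1 b2 b3 b5 b6
  have hE' : ∀ a, a ∈ E ↔ a ≠ w.1 ∧ a ∈ K ∧ a ∉ L := by
    intro a
    rw [← hE]
    simp
  cases hT with
  | base h1 h2 =>
    obtain ⟨hne', γ, η, hγ⟩ := hly
    apply hK
    refine ⟨(u, γ), (w.1, !w.2), (y, η), huK, hw, hsub hy, hwu.symm, hne',
      fun e => hwL (by simpa using e ▸ hy), hboth γ, hγ, (h.fc.2 y hy).congr ?_⟩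
    intro a
    have := @hsub a
    have := hE' a
    simp only [Finset.mem_erase, Finset.mem_singleton] at this ⊢
    grind
  | @step t₀ _ v E₀ hT₀ hu₀ hv₀ huL₀ hvL₀ huv hvt =>
    obtain ⟨hne', γ, η, hγ⟩ := huv
    obtain ⟨c1, c2, c3, _, c5, c6⟩ := hT₀.basic
    have hvE := (hE' v).1 (by simp)
    apply hK
    refine ⟨(u, γ), (w.1, !w.2), (v, η), huK, hw, hvE.2.1, hwu.symm, hne',
      hvE.1.symm, hboth γ, hγ, hKl.union c6 ?_ ?_⟩
    · intro a ha
      have := c3 a
      simp only [Finset.mem_erase, Finset.mem_insert] at ha ⊢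
      grind
    · intro a
      have := @hsub a
      have := hE' a
      simp only [Finset.mem_erase, Finset.mem_insert] at this ⊢
      grind

/-- The data of a part: a colouring within budget whose undominated vertices have neighbours
outside the part. -/
def PartData (Γ : SimpleGraph (ι × Bool)) (K : Finset ι) (S N : Finset (ι × Bool)) : Prop :=
  Good Γ K S N ∧ 2 * S.card + N.card ≤ 2 * K.card ∧
    ∀ a ∈ N, a ∉ S ∧ a.1 ∈ K ∧ ∃ t : ι × Bool, t.1 ∉ K ∧ Γ.Adj a t

theorem part_data (hμ : ∀ i b, Γ.Adj (i, b) (i, !b))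
    (h3 : ∀ v : ι × Bool, ∃ t t' : ι × Bool, t ≠ t' ∧ Γ.Adj v t ∧ Γ.Adj v t' ∧ t.1 ≠ v.1 ∧ t'.1 ≠ v.1)
    (hFC : FC (nodeGraph Γ) K) : ∃ S N, PartData Γ K S N := by
  by_cases hK : Nice Γ K
  · obtain ⟨S, hS, hc⟩ := nice_good hμ hK
    exact ⟨S, ∅, hS, by simp [hc], by simp⟩
  obtain ⟨v₀, hv₀⟩ := hFC.1
  by_cases hv : ({v₀} : Finset ι) = K
  · subst hv
    refine ⟨∅, both v₀, ⟨by simp, ?_, by simp⟩, by simp [card_both], ?_⟩
    · intro v hv hv'
      exact absurd (mem_both.2 (by simpa using hv)) hv'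
    · intro a ha
      have h1 := mem_both.1 ha
      obtain ⟨t, _, _, h2, _, h4, _⟩ := h3 a
      exact ⟨by simp, by simp [h1], t, by simpa [h1] using h4, h2⟩
  obtain ⟨L, _, hLK, hne, hL, hPM, hmax⟩ := exists_max_fc (H := nodeGraph Γ) (X := K) (L := {v₀})
    ⟨by simp, by
      intro v hv
      rw [Finset.mem_singleton.1 hv]
      simpa using PM.empty⟩ (by simpa using hv₀) hv
    ((hFC.2 v₀ hv₀).congr (by intro a; simp [and_comm]))
  have h : MaxFC (nodeGraph Γ) K L := ⟨hFC, hLK, hL, hPM, hmax⟩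
  obtain ⟨x, hx, w, hw, hwL, Hwx⟩ := h.exists_edge hne
  obtain ⟨u, l, Hwu, hT⟩ := h.ear hx hw hwL Hwx
  obtain ⟨b1, b2, b3, ⟨y, hy, hly⟩, b5, b6⟩ := hT.basic
  obtain ⟨hwx, α, ξ, e₁⟩ := Hwx
  obtain ⟨hly, lam, η, e₂⟩ := hly
  have hlL : l ∉ L := b3 l b2
  have hlw : l ≠ w := (Finset.mem_erase.1 b2).1
  have hlK : l ∈ K := by
    simp only [Finset.mem_erase, Finset.mem_sdiff] at b2
    exact b2.2.1
  have out : ∀ (w' x' : ι × Bool), x'.1 ∈ L → w'.1 ∈ K → w'.1 ∉ L → Γ.Adj w' x' →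
      ∃ t : ι × Bool, t.1 ∉ K ∧ Γ.Adj (w'.1, !w'.2) t := by
    intro w' x' h1 h2 h4 h5
    obtain ⟨t, t', hne', a1, a2, a3, a4⟩ := h3 (w'.1, !w'.2)
    by_contra hcon
    push Not at hcon
    exact hne' (h.atMostOne hK h1 h2 h4 h5 a1 a2 (by by_contra h'; exact hcon _ h' a1)
      (by by_contra h'; exact hcon _ h' a2) a3 a4)
  obtain ⟨S, s1, s2, s3, s4, s5, s6⟩ := path_lemma hμ hK (l, lam) (y, η) e₂ _ L (K \ L) (x, ξ)
    (w, α) rfl
    (by
      intro a
      have := @hLK a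
      simp only [Finset.mem_sdiff]
      grind)
    (by intro a ha; simp [ha]) hx hy (by simp [hw, hwL]) (by simp [hlK, hlL]) hlw.symm e₁
    (hL.2 x hx) (hL.2 y hy) hPM b6
  obtain ⟨S', hS', hc'⟩ := pm_good hμ b6
  have hS'L : ∀ s ∈ S', s.1 ∉ L ∧ s.1 ≠ w ∧ s.1 ≠ l ∧ s.1 ∈ K := by
    intro s hs
    have := hS'.sub s hs
    simp only [Finset.mem_erase, Finset.mem_sdiff] at this
    tauto
  have hdisj : Disjoint S S' := by
    rw [Finset.disjoint_left]
    intro a ha ha'
    exact (hS'L a ha').1 (s1 a ha)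
  have hwS : ∀ b, (w, b) ∉ S ∪ S' := by
    intro b hb
    rcases Finset.mem_union.1 hb with h' | h'
    · exact hwL (s1 _ h')
    · exact (hS'L _ h').2.1 rfl
  have hlS : ∀ b, (l, b) ∉ S ∪ S' := by
    intro b hb
    rcases Finset.mem_union.1 hb with h' | h'
    · exact hlL (s1 _ h')
    · exact (hS'L _ h').2.2.1 rfl
  refine ⟨S ∪ S', {(w, !α), (l, !lam)}, ⟨?_, ?_, ?_⟩, ?_, ?_⟩
  · intro s hs
    rcases Finset.mem_union.1 hs with h' | h'
    · exact hLK (s1 _ h')
    · exact (hS'L _ h').2.2.2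
  · rintro ⟨i, b⟩ hi hN
    simp only [Finset.mem_insert, Finset.mem_singleton, not_or] at hN
    by_cases hiL : i ∈ L
    · obtain ⟨s, hs, a⟩ := s5 (i, b) hiL
      exact ⟨s, Finset.mem_union_left _ hs, a⟩
    by_cases hiw : i = w
    · subst hiw
      rcases bool_cases α b with rfl | rfl
      · exact ⟨_, Finset.mem_union_left _ s3, e₁⟩
      · exact absurd rfl hN.1
    by_cases hil : i = l
    · subst hil
      rcases bool_cases lam b with rfl | rfl
      · exact ⟨_, Finset.mem_union_left _ s4, e₂⟩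
      · exact absurd rfl hN.2
    obtain ⟨s, hs, a⟩ := hS'.dom (i, b) (by simpa [hil, hiw, hiL] using hi) (by simp)
    exact ⟨s, Finset.mem_union_right _ hs, a⟩
  · intro s hs
    rcases Finset.mem_union.1 hs with h' | h'
    · obtain ⟨d, hd, a⟩ := s6 s h'
      rcases hd with ⟨h1, h2⟩ | rfl | rfl
      · refine ⟨d, hLK h1, ?_, a⟩
        intro h4
        rcases Finset.mem_union.1 h4 with h5 | h5
        · exact h2 h5
        · exact (hS'L _ h5).1 h1
      · exact ⟨_, hw, hwS _, a⟩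
      · exact ⟨_, hlK, hlS _, a⟩
    · obtain ⟨d, h1, h2, a⟩ := hS'.dnb s h'
      simp only [Finset.mem_erase, Finset.mem_sdiff] at h1
      refine ⟨d, h1.2.2.1, ?_, a⟩
      intro h4
      rcases Finset.mem_union.1 h4 with h5 | h5
      · exact h1.2.2.2 (s1 _ h5)
      · exact h2 h5
  · rw [Finset.card_union_of_disjoint hdisj, s2, hc', Finset.card_erase_of_mem b2,
      Finset.card_erase_of_mem (by simp [hw, hwL])]
    have c1 := Finset.card_sdiff_add_card_eq_card hLK
    have c2 : ({(w, !α), (l, !lam)} : Finset (ι × Bool)).card ≤ 2 := Finset.card_le_two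
    have c3 := Finset.card_pos.2 ⟨_, b2⟩
    rw [Finset.card_erase_of_mem (by simp [hw, hwL])] at c3
    omega
  · intro a ha
    simp only [Finset.mem_insert, Finset.mem_singleton] at ha
    rcases ha with rfl | rfl
    · exact ⟨hwS _, hw, out (w, α) (x, ξ) hx hw hwL e₁⟩
    · exact ⟨hlS _, hlK, out (l, lam) (y, η) hy hlK hlL e₂⟩

end Pool.Agent.Lib.MP_59216f_co
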