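import Pool.Agent.Lib.MP_59216f_co.Assembly

set_option autoImplicit false

namespace Pool.Agent.Lib.MP_59216f_co

open Finset

/-- Graphs of minimum degree at least three with a perfect matching. -/
theorem perfectMatching_case {V : Type} [Fintype V] [DecidableEq V] (G : SimpleGraph V)
    [DecidableRel G.Adj] (h3 : ∀ v, 3 ≤ G.degree v) (M : G.Subgraph) (hM : M.IsPerfectMatching) :
    ∃ S D : Finset V, (∀ v : V, ∃ u ∈ S, G.Adj v u) ∧ 2 * S.card ≤ Fintype.card V ∧
      Disjoint S D ∧ (∀ v : V, v ∈ D ∨ ∃ u ∈ D, G.Adj v u) := by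
  classical
  have h := SimpleGraph.Subgraph.isPerfectMatching_iff.1 hM
  choose f hf hu using h
  have hff : ∀ v, f (f v) = v := fun v => (hu (f v) v (hf v).symm).symm
  have hadj : ∀ v, G.Adj v (f v) := fun v => M.adj_sub (hf v)
  set r := Fintype.equivFin V with hr
  let ι := {v : V // r v < r (f v)}
  let g : ι × Bool → V := fun p => if p.2 then f p.1.1 else p.1.1
  have hg : Function.Bijective g := by
    constructor
    · rintro ⟨⟨a, ha⟩, b⟩ ⟨⟨c, hc⟩, d⟩ e
      cases b <;> cases d <;> simp only [g, if_true, if_false, Bool.false_eq_true] at e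
      · subst e; rfl
      · subst e
        rw [hff] at ha
        exact absurd ha (not_lt.2 hc.le)
      · subst e
        rw [hff] at hc
        exact absurd hc (not_lt.2 ha.le)
      · have : a = c := by rw [← hff a, e, hff]
        subst this; rfl
    · intro v
      rcases lt_trichotomy (r v) (r (f v)) with h | h | h
      · exact ⟨(⟨v, h⟩, false), rfl⟩
      · exact absurd (r.injective h) (hadj v).ne
      · exact ⟨(⟨f v, by rwa [hff]⟩, true), by simp [g, hff]⟩
  have hgf : ∀ (i : ι) (b : Bool), g (i, !b) = f (g (i, b)) := by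
    intro i b
    cases b <;> simp [g, hff]
  obtain ⟨S, s1, s2, s3⟩ := pm_main (Γ := G.comap g)
    (by
      intro i b
      show G.Adj (g (i, b)) (g (i, !b))
      rw [hgf]
      exact hadj _)
    (by
      intro v
      have h1 : 1 < ((G.neighborFinset (g v)).erase (f (g v))).card := by
        have h2 := Finset.pred_card_le_card_erase (s := G.neighborFinset (g v)) (a := f (g v))
        have h4 := h3 (g v)
        rw [← SimpleGraph.card_neighborFinset_eq_degree] at h4
        omega
      obtain ⟨a, ha, b, hb, hab⟩ := Finset.one_lt_card.1 h1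
      obtain ⟨t, rfl⟩ := hg.2 a
      obtain ⟨t', rfl⟩ := hg.2 b
      have key : ∀ x : ι × Bool, g x ∈ (G.neighborFinset (g v)).erase (f (g v)) →
          G.Adj (g v) (g x) ∧ x.1 ≠ v.1 := by
        intro x hx
        obtain ⟨x1, x2⟩ := Finset.mem_erase.1 hx
        have x3 := (SimpleGraph.mem_neighborFinset _ _ _).1 x2
        refine ⟨x3, ?_⟩
        obtain ⟨i, c⟩ := x
        obtain ⟨j, d⟩ := v
        rintro (rfl : i = j)
        rcases bool_cases d c with rfl | rfl
        · exact x3.ne rfl
        · exact x1 (hgf i d)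
      exact ⟨t, t', fun e => hab (e ▸ rfl), (key t ha).1, (key t' hb).1, (key t ha).2,
        (key t' hb).2⟩)
  refine ⟨S.image g, (S.image g)ᶜ, ?_, ?_, disjoint_compl_right, ?_⟩
  · intro v
    obtain ⟨x, rfl⟩ := hg.2 v
    obtain ⟨s, hs, a⟩ := s2 x
    exact ⟨g s, Finset.mem_image_of_mem g hs, a⟩
  · have c1 := Finset.card_image_le (s := S) (f := g)
    have c2 := Fintype.card_of_bijective hg
    rw [Fintype.card_prod, Fintype.card_bool] at c2
    omega
  · intro v
    by_cases hv : v ∈ S.image g
    · obtain ⟨s, hs, rfl⟩ := Finset.mem_image.1 hv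
      obtain ⟨d, hd, a⟩ := s3 s hs
      refine Or.inr ⟨g d, Finset.mem_compl.2 ?_, a⟩
      intro h'
      obtain ⟨s', hs', e⟩ := Finset.mem_image.1 h'
      exact hd (hg.1 e ▸ hs')
    · exact Or.inl (Finset.mem_compl.2 hv)

end Pool.Agent.Lib.MP_59216f_co
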